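import Mathlib

set_option autoImplicit false

noncomputable section

namespace Pool.Agent.P.MP_f981b0_an.TC.PB

open MeasureTheory Metric Set

lemma sphere_pathConnected (p : ℂ) {R : ℝ} (hR : 0 ≤ R) : IsPathConnected (sphere p R) :=
  isPathConnected_sphere (by rw [Complex.rank_real_complex]; norm_num) p hR

lemma exists_unit (v : ℂ) : ∃ e : ℂ, ‖e‖ = 1 ∧ v = (‖v‖ : ℂ) * e := by
  by_cases hv : v = 0
  · exact ⟨1, by simp, by simp [hv]⟩
  · have : (‖v‖ : ℂ) ≠ 0 := by simpa using hv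
    refine ⟨v / ‖v‖, ?_, by field_simp⟩
    rw [norm_div, Complex.norm_real, norm_norm, div_self (norm_ne_zero_iff.2 hv)]

lemma spheres_meet {p q : ℂ} {R R' : ℝ} (hR : 0 ≤ R) (h1 : dist p q ≤ R + R')
    (h2 : R' ≤ dist p q + R) (h3 : R ≤ dist p q + R') :
    ∃ z, z ∈ sphere p R ∧ z ∈ sphere q R' := by
  obtain ⟨e, he, hv⟩ := exists_unit (q - p)
  have hd : dist p q = ‖q - p‖ := by rw [dist_comm, dist_eq_norm]
  rw [hd] at h1 h2 h3
  have ha : p + R * e ∈ sphere p R := by simp [he, abs_of_nonneg hR]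
  have hb : p - R * e ∈ sphere p R := by simp [he, abs_of_nonneg hR]
  have hf : ContinuousOn (fun z => dist z q) (sphere p R) := by fun_prop
  have da : dist (p + R * e) q = |R - ‖q - p‖| := by
    rw [dist_eq_norm, show p + R * e - q = R * e - (q - p) by ring]
    conv_lhs => rw [hv]
    rw [← sub_mul, norm_mul, he, mul_one, ← Complex.ofReal_sub, Complex.norm_real, Real.norm_eq_abs]
  have db : dist (p - R * e) q = R + ‖q - p‖ := by
    rw [dist_eq_norm, show p - R * e - q = -(R * e + (q - p)) by ring, norm_neg]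
    conv_lhs => rw [hv]
    rw [← add_mul, norm_mul, he, mul_one, ← Complex.ofReal_add, Complex.norm_real, Real.norm_eq_abs,
      abs_of_nonneg (by positivity)]
  obtain ⟨z, hz, hz'⟩ := (sphere_pathConnected p hR).isConnected.isPreconnected.intermediate_value
    ha hb hf (show R' ∈ Icc _ _ from ⟨by rw [da, abs_le]; constructor <;> linarith,
      by rw [db]; linarith⟩)
  exact ⟨z, hz, hz'⟩

theorem exists_path {ι : Type*} (I : Finset ι) (p : ι → ℂ) (r : ι → ℝ) (hr : ∀ i ∈ I, 0 ≤ r i)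
    {R : Set ℂ} (hR : IsPreconnected R) {b : ℂ} (h0 : (0 : ℂ) ∈ R) (hb : b ∈ R)
    (hb2 : 1 / 2 ≤ ‖b‖) (hcov : R ⊆ ⋃ i ∈ I, closedBall (p i) (r i)) :
    ∃ γ : ℝ → ℂ, Continuous γ ∧ 1 / 2 ≤ ‖γ 1 - γ 0‖ ∧
      ∀ t ∈ Icc (0 : ℝ) 1, ∃ i ∈ I, γ t ∈ sphere (p i) (r i) := by
  classical
  set X : Set ℂ := ⋃ i ∈ I, sphere (p i) (r i) with hX
  have hsub : ∀ i ∈ I, sphere (p i) (r i) ⊆ X := fun i hi =>
    subset_biUnion_of_mem (u := fun i => sphere (p i) (r i)) hi
  let Mx : ι → Prop := fun i => i ∈ I ∧ ∀ j ∈ I, r j ≤ dist (p i) (p j) + r i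
  have hmax : ∀ z ∈ R, ∃ j, Mx j ∧ z ∈ closedBall (p j) (r j) := by
    intro z hz
    have hz' := hcov hz
    simp only [mem_iUnion] at hz'
    obtain ⟨i, hi, hzi⟩ := hz'
    obtain ⟨j, hj, hjm⟩ := (I.filter fun j => z ∈ closedBall (p j) (r j)).exists_max_image r
      ⟨i, Finset.mem_filter.2 ⟨hi, hzi⟩⟩
    rw [Finset.mem_filter] at hj
    refine ⟨j, ⟨hj.1, fun k hk => ?_⟩, hj.2⟩
    by_contra hc
    push Not at hc
    have h1 : z ∈ closedBall (p k) (r k) := by
      have := dist_triangle z (p j) (p k)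
      have h2 := mem_closedBall.1 hj.2
      rw [mem_closedBall]
      linarith
    have h2 := hjm k (Finset.mem_filter.2 ⟨hk, h1⟩)
    have := dist_nonneg (x := p j) (y := p k)
    linarith
  obtain ⟨e, he, hbe⟩ := exists_unit b
  obtain ⟨i0, hi0, hz0⟩ := hmax 0 h0
  set u : ℂ := p i0 - r i0 * e with hu
  have hu0 : u ∈ sphere (p i0) (r i0) := by simp [hu, he, abs_of_nonneg (hr i0 hi0.1)]
  let Cl : ι → Prop := fun j => Mx j ∧ ∀ v ∈ sphere (p j) (r j), JoinedIn X u v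
  have hcl : ∀ j, Mx j → ∀ v ∈ sphere (p j) (r j), JoinedIn X u v → Cl j := by
    intro j hj v hv huv
    refine ⟨hj, fun v' hv' => huv.trans ?_⟩
    exact ((sphere_pathConnected (p j) (hr j hj.1)).joinedIn v hv v' hv').mono (hsub j hj.1)
  have hcl0 : Cl i0 := hcl i0 hi0 u hu0 (JoinedIn.refl (hsub i0 hi0.1 hu0))
  have hbU : ∃ j, Cl j ∧ b ∈ closedBall (p j) (r j) := by
    by_contra hcon
    push Not at hcon
    set U : Set ℂ := ⋃ j ∈ I.filter Cl, closedBall (p j) (r j) with hU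
    set V : Set ℂ := ⋃ j ∈ I.filter fun j => Mx j ∧ ¬ Cl j, closedBall (p j) (r j) with hV
    have hUc : IsClosed U := isClosed_biUnion_finset fun _ _ => isClosed_closedBall
    have hVc : IsClosed V := isClosed_biUnion_finset fun _ _ => isClosed_closedBall
    have hRUV : R ⊆ U ∪ V := by
      intro z hz
      obtain ⟨j, hj, hzj⟩ := hmax z hz
      by_cases hc : Cl j
      · exact Or.inl (mem_biUnion (Finset.mem_coe.2 (Finset.mem_filter.2 ⟨hj.1, hc⟩)) hzj)
      · exact Or.inr (mem_biUnion (Finset.mem_coe.2 (Finset.mem_filter.2 ⟨hj.1, hj, hc⟩)) hzj)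
    have hRU : (R ∩ U).Nonempty :=
      ⟨0, h0, mem_biUnion (Finset.mem_coe.2 (Finset.mem_filter.2 ⟨hi0.1, hcl0⟩)) hz0⟩
    have hRV : (R ∩ V).Nonempty := by
      obtain ⟨j, hj, hzj⟩ := hmax b hb
      exact ⟨b, hb, mem_biUnion (Finset.mem_coe.2 (Finset.mem_filter.2
        ⟨hj.1, hj, fun hc => hcon j hc hzj⟩)) hzj⟩
    obtain ⟨z, _, hzU, hzV⟩ := isPreconnected_closed_iff.1 hR U V hUc hVc hRUV hRU hRV
    simp only [hU, hV, mem_iUnion, Finset.mem_filter] at hzU hzV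
    obtain ⟨j, ⟨hjI, hj⟩, hzj⟩ := hzU
    obtain ⟨k, ⟨hkI, hk, hk'⟩, hzk⟩ := hzV
    obtain ⟨v, hvj, hvk⟩ := spheres_meet (p := p j) (q := p k) (R := r j) (R' := r k) (hr j hjI)
      (by
        have := dist_triangle_left (p j) (p k) z
        linarith [mem_closedBall.1 hzj, mem_closedBall.1 hzk])
      (hj.1.2 k hkI) (by rw [dist_comm]; exact hk.2 j hjI)
    exact hk' (hcl k hk v hvk (hj.2 v hvj))
  obtain ⟨j, hj, hbj⟩ := hbU
  set v : ℂ := p j + r j * e with hv
  have hv0 : v ∈ sphere (p j) (r j) := by simp [hv, he, abs_of_nonneg (hr j hj.1.1)]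
  obtain ⟨γ, hγ⟩ := hj.2 v hv0
  refine ⟨γ.extend, γ.continuous_extend, ?_, fun t ht => ?_⟩
  · rw [Path.extend_one, Path.extend_zero]
    have hee : (e * (starRingEnd ℂ) e).re = 1 := by
      rw [Complex.mul_conj, Complex.ofReal_re, Complex.normSq_eq_norm_sq, he, one_pow]
    have hre : ∀ w : ℂ, |(w * (starRingEnd ℂ) e).re| ≤ ‖w‖ := fun w => by
      refine (Complex.abs_re_le_norm _).trans (le_of_eq ?_)
      rw [norm_mul, Complex.norm_conj, he, mul_one]
    have a1 := (abs_le.1 (hre (v - u))).2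
    have a2 := (abs_le.1 (hre (b - p j))).2
    have a3 := (abs_le.1 (hre (0 - p i0))).1
    have a4 : ‖b - p j‖ ≤ r j := by rw [← dist_eq_norm]; exact hbj
    have a5 : ‖0 - p i0‖ ≤ r i0 := by rw [← dist_eq_norm]; exact hz0
    have a6 : (b * (starRingEnd ℂ) e).re = ‖b‖ := by
      conv_lhs => rw [hbe]
      rw [mul_assoc, Complex.re_ofReal_mul, hee, mul_one]
    have a7 : ((v - u) * (starRingEnd ℂ) e).re = (b * (starRingEnd ℂ) e).re
        - ((b - p j) * (starRingEnd ℂ) e).re + ((0 - p i0) * (starRingEnd ℂ) e).re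
        + r j * (e * (starRingEnd ℂ) e).re + r i0 * (e * (starRingEnd ℂ) e).re := by
      rw [← Complex.re_ofReal_mul, ← Complex.re_ofReal_mul, ← Complex.sub_re, ← Complex.add_re,
        ← Complex.add_re, ← Complex.add_re]
      congr 1
      rw [hu, hv]
      ring
    rw [hee, a6] at a7
    linarith
  · have := hγ ⟨t, ht⟩
    rw [Path.extend_apply γ ht]
    simpa only [hX, mem_iUnion, exists_prop] using this

/-- Half-open annulus of width `2 s` around the circle of radius `R`. -/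
def ann (x : ℂ) (R s : ℝ) : Set ℂ := {z | R - s ≤ dist z x ∧ dist z x < R + s}

lemma measurableSet_ann (x : ℂ) (R s : ℝ) : MeasurableSet (ann x R s) :=
  (measurableSet_le (f := fun _ => R - s) (g := fun z => dist z x) measurable_const
    (by fun_prop)).inter
    (measurableSet_lt (f := fun z => dist z x) (g := fun _ => R + s) (by fun_prop) measurable_const)

lemma exists_annulus {ρ : ℂ → ℝ} {x : ℂ} {r s : ℝ} (hρ : IntegrableOn ρ (ball x (2 * r)))
    (h0 : ∀ z, 0 ≤ ρ z) (hs : 0 < s) (hsr : 2 * s ≤ r) :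
    ∃ R : ℝ, r ≤ R ∧ R + s ≤ 2 * r ∧
      ∫ z in ann x R s, ρ z ≤ 4 * s * (r⁻¹ * ∫ z in ball x (2 * r), ρ z) := by
  have hr : 0 < r := by linarith
  set N : ℕ := ⌊r / (2 * s)⌋₊ with hN
  have h1 : (1 : ℝ) ≤ r / (2 * s) := by rw [le_div_iff₀ (by positivity)]; linarith
  have hN1 : 1 ≤ N := Nat.le_floor (by exact_mod_cast h1)
  have hN2 : (N : ℝ) ≤ r / (2 * s) := Nat.floor_le (by positivity)
  have hN3 : r / (2 * s) < N + 1 := Nat.lt_floor_add_one _
  have hN1' : (1 : ℝ) ≤ N := by exact_mod_cast hN1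
  rw [le_div_iff₀ (by positivity)] at hN2
  rw [div_lt_iff₀ (by positivity)] at hN3
  set A : ℕ → Set ℂ := fun k => ann x (r + (2 * k + 1) * s) s with hA
  have hk : ∀ k ∈ Finset.range N, r + (2 * k + 1) * s + s ≤ 2 * r := by
    intro k hk
    have : (k : ℝ) + 1 ≤ N := by exact_mod_cast Finset.mem_range.1 hk
    nlinarith
  have hsub : ∀ k ∈ Finset.range N, A k ⊆ ball x (2 * r) := fun k hk' z hz =>
    lt_of_lt_of_le hz.2 (hk k hk')
  have hsum : ∑ k ∈ Finset.range N, ∫ z in A k, ρ z ≤ ∫ z in ball x (2 * r), ρ z := by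
    rw [← integral_biUnion_finset _ (fun k _ => measurableSet_ann _ _ _) ?_
      (fun k hk' => hρ.mono_set (hsub k hk'))]
    · exact setIntegral_mono_set hρ (Filter.Eventually.of_forall h0)
        (LE.le.eventuallyLE (iUnion₂_subset hsub))
    · intro k _ l _ hkl
      refine Set.disjoint_left.2 fun z hz hz' => ?_
      rcases lt_or_gt_of_ne hkl with h | h
      · have : (k : ℝ) + 1 ≤ l := by exact_mod_cast h
        nlinarith [hz.2, hz'.1]
      · have : (l : ℝ) + 1 ≤ k := by exact_mod_cast h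
        nlinarith [hz.1, hz'.2]
  set T := ∫ z in ball x (2 * r), ρ z with hT
  have hT0 : 0 ≤ T := setIntegral_nonneg measurableSet_ball fun z _ => h0 z
  obtain ⟨k, hkN, hle⟩ := Finset.exists_le_of_sum_le (s := Finset.range N)
    (f := fun k => ∫ z in A k, ρ z) (g := fun _ => T / N) ⟨0, Finset.mem_range.2 hN1⟩ (by
      rw [Finset.sum_const, Finset.card_range, nsmul_eq_mul, mul_div_cancel₀ _ (by positivity)]
      exact hsum)
  refine ⟨r + (2 * k + 1) * s, le_add_of_nonneg_right (by positivity), hk k hkN, hle.trans ?_⟩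
  rw [div_le_iff₀ (by positivity)]
  have : 4 * s * (r⁻¹ * T) * N = T * (4 * s * N / r) := by field_simp
  rw [this]
  refine le_mul_of_one_le_right hT0 ?_
  rw [le_div_iff₀ hr]
  nlinarith

lemma exists_pos_le {ι : Type*} (I : Finset ι) (a : ι → ℝ) (h : ∀ i ∈ I, 0 < a i) :
    ∃ s : ℝ, 0 < s ∧ ∀ i ∈ I, s ≤ a i := by
  rcases I.eq_empty_or_nonempty with rfl | hI
  · exact ⟨1, one_pos, by simp⟩
  · obtain ⟨j, hj, hjm⟩ := I.exists_min_image a hI
    exact ⟨a j, h j hj, hjm⟩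

end Pool.Agent.P.MP_f981b0_an.TC.PB
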