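import Pool.Agent.P.MP_f981b0_an.TC.PBWeak
import Pool.Agent.P.MP_f981b0_an.TC.PBCircles

set_option autoImplicit false

noncomputable section

namespace Pool.Agent.P.MP_f981b0_an.TC.PB

open MeasureTheory Metric Set Real
open scoped ComplexConjugate ENNReal

lemma dmeas_le {w : ℂ → ℝ} {B : ℝ} (h : ∀ z, w z ≤ B) : dmeas w ≤ ENNReal.ofReal B • volume := by
  rw [← withDensity_const]
  exact withDensity_mono (Filter.Eventually.of_forall fun z => ENNReal.ofReal_le_ofReal (h z))

lemma integral_indicator_dens {w : ℂ → ℝ} (hw : Measurable w) (h0 : ∀ z, 0 ≤ w z) {T : Set ℂ}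
    (hT : MeasurableSet T) : ∫ z, T.indicator w z = (dmeas w).real T := by
  rw [integral_indicator hT, integral_eq_lintegral_of_nonneg_ae (Filter.Eventually.of_forall h0)
    hw.aestronglyMeasurable, Measure.real, dmeas, withDensity_apply _ hT]

lemma integral_dmeas {w : ℂ → ℝ} (hw : Measurable w) (h0 : ∀ z, 0 ≤ w z) (g : ℂ → ℂ) :
    ∫ x, g x ∂dmeas w = ∫ x, (w x : ℂ) * g x := by
  rw [dmeas, integral_withDensity_eq_integral_toReal_smul hw.ennreal_ofReal
    (Filter.Eventually.of_forall fun _ => ENNReal.ofReal_lt_top)]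
  refine integral_congr_ae (Filter.Eventually.of_forall fun x => ?_)
  simp only
  rw [ENNReal.toReal_ofReal (h0 x), Complex.real_smul]

lemma complex_bound {w0 : ℂ → ℝ} (hw : Measurable w0) (h0 : ∀ z, 0 ≤ w0 z) {K : ℝ}
    [IsFiniteMeasure (dmeas w0)] (h : Tame (dmeas w0) K) {F G G' : Set ℂ} (hF : MeasurableSet F)
    (hFG : F ⊆ G) (τ : Measure ℂ) [IsFiniteMeasure τ] {D : ℝ}
    (hD : ∀ (ι : Type) (s : Finset ι) (f : ι → ℂ → ℝ), (∀ i, Measurable (f i)) →
      (∀ i x, |f i x| ≤ 1) → (∀ x, ∑ i ∈ s, f i x ^ 2 ≤ 1) → (∀ i x, f i x ≠ 0 → x ∈ G ∩ G') →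
      ∑ i ∈ s, ∫ z, ‖CT (dmeas w0) (f i) z‖ ^ 2 ∂τ ≤ D)
    (ι : Type) (s : Finset ι) (f : ι → ℂ → ℂ) (hf : ∀ i, Measurable (f i))
    (hs : ∀ z, ∑ i ∈ s, ‖f i z‖ ^ 2 ≤ G'.indicator 1 z) :
    ∑ i ∈ s, ∫ z, ‖R1.cauchy (fun x => f i x * F.indicator w0 x) z‖ ^ 2 ∂τ ≤ 4 * D := by
  classical
  have hind : ∀ z, G'.indicator (1 : ℂ → ℝ) z ≤ 1 := fun z => by
    by_cases hz : z ∈ G' <;> simp [hz]
  have hone : ∀ i ∈ s, ∀ z, ‖f i z‖ ^ 2 ≤ G'.indicator 1 z := fun i hi z =>
    (Finset.single_le_sum (f := fun i => ‖f i z‖ ^ 2) (fun _ _ => sq_nonneg _) hi).trans (hs z)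
  have key : ∀ p : ℂ → ℝ, Measurable p → (∀ w, |p w| ≤ ‖w‖) →
      ∃ g : ι → ℂ → ℝ, (∀ i, Measurable (g i)) ∧ (∀ i x, |g i x| ≤ 1) ∧
        (∀ i ∈ s, g i = F.indicator fun x => p (f i x)) ∧
        ∑ i ∈ s, ∫ z, ‖CT (dmeas w0) (g i) z‖ ^ 2 ∂τ ≤ D := by
    intro p hp hp1
    set g : ι → ℂ → ℝ := fun i => if i ∈ s then F.indicator fun x => p (f i x) else 0 with hg
    have hgm : ∀ i, Measurable (g i) := fun i => by
      simp only [hg]
      split_ifs
      · exact (hp.comp (hf i)).indicator hF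
      · exact measurable_zero
    have hle : ∀ i ∈ s, ∀ x, |g i x| ≤ ‖f i x‖ := fun i hi x => by
      simp only [hg, if_pos hi]
      by_cases hx : x ∈ F
      · rw [indicator_of_mem hx]
        exact hp1 _
      · simp [hx]
    have hgb : ∀ i x, |g i x| ≤ 1 := fun i x => by
      by_cases hi : i ∈ s
      · refine (hle i hi x).trans ?_
        have := (hone i hi x).trans (hind x)
        exact (sq_le_one_iff₀ (norm_nonneg _)).1 this
      · simp [hg, hi]
    refine ⟨g, hgm, hgb, fun i hi => by simp only [hg, if_pos hi], hD ι s g hgm hgb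
      (fun x => ?_) (fun i x hx => ?_)⟩
    · refine le_trans (Finset.sum_le_sum fun i hi => ?_) ((hs x).trans (hind x))
      rw [← sq_abs]
      gcongr
      exact hle i hi x
    · have hi : i ∈ s := by
        by_contra hi
        exact hx (by simp [hg, hi])
      have hxF : x ∈ F := by
        by_contra hc
        exact hx (by simp [hg, hi, hc])
      refine ⟨hFG hxF, ?_⟩
      by_contra hc
      have h1 := hone i hi x
      rw [indicator_of_notMem hc] at h1
      have h2 : ‖f i x‖ = 0 := by nlinarith [norm_nonneg (f i x)]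
      have h3 := hle i hi x
      rw [h2] at h3
      exact hx (abs_nonpos_iff.1 h3)
  obtain ⟨g1, m1, b1, e1, k1⟩ := key Complex.re Complex.measurable_re Complex.abs_re_le_norm
  obtain ⟨g2, m2, b2, e2, k2⟩ := key Complex.im Complex.measurable_im Complex.abs_im_le_norm
  have hc : ∀ i ∈ s, ∀ z, R1.cauchy (fun x => f i x * F.indicator w0 x) z
      = CT (dmeas w0) (g1 i) z + Complex.I * CT (dmeas w0) (g2 i) z := by
    intro i hi z
    unfold CT R1.cauchy
    rw [← integral_const_mul, ← integral_add (h.int_fker (m1 i) (b1 i) z)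
      ((h.int_fker (m2 i) (b2 i) z).const_mul _), integral_dmeas hw h0]
    refine integral_congr_ae (Filter.Eventually.of_forall fun x => ?_)
    simp only [e1 i hi, e2 i hi]
    by_cases hx : x ∈ F
    · simp only [indicator_of_mem hx]
      conv_lhs => rw [← Complex.re_add_im (f i x)]
      rw [div_eq_mul_inv]
      ring
    · simp [hx]
  calc _ ≤ ∑ i ∈ s, (2 * ∫ z, ‖CT (dmeas w0) (g1 i) z‖ ^ 2 ∂τ
        + 2 * ∫ z, ‖CT (dmeas w0) (g2 i) z‖ ^ 2 ∂τ) := by
        refine Finset.sum_le_sum fun i hi => ?_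
        have i1 := (h.int_sq (m1 i) (b1 i) τ).const_mul 2
        have i2 := (h.int_sq (m2 i) (b2 i) τ).const_mul 2
        rw [← integral_const_mul, ← integral_const_mul, ← integral_add i1 i2]
        refine integral_mono_of_nonneg (Filter.Eventually.of_forall fun z => sq_nonneg _)
          (i1.add i2) (Filter.Eventually.of_forall fun z => ?_)
        simp only [hc i hi z]
        have a1 := norm_add_le (CT (dmeas w0) (g1 i) z) (Complex.I * CT (dmeas w0) (g2 i) z)
        rw [norm_mul, Complex.norm_I, one_mul] at a1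
        have a2 := norm_nonneg (CT (dmeas w0) (g1 i) z + Complex.I * CT (dmeas w0) (g2 i) z)
        nlinarith [sq_nonneg (‖CT (dmeas w0) (g1 i) z‖ - ‖CT (dmeas w0) (g2 i) z‖)]
    _ ≤ _ := by
        rw [Finset.sum_add_distrib, ← Finset.mul_sum, ← Finset.mul_sum]
        linarith

theorem _root_.Pool.Agent.P.MP_f981b0_an.TC.good_of_lemmaJ (hJ : LemmaJ) : GoodOfRoute := by
  classical
  obtain ⟨C0, s1, hC0, hs1, hJ⟩ := hJ
  set C := max C0 1 with hCdef
  have hC : 1 ≤ C := le_max_right _ _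
  have hC0C : C0 ≤ C := le_max_left _ _
  have hCp : 0 < C := by linarith
  obtain ⟨C', hC', hcore⟩ := core hC
  refine ⟨1 / 20, 4 * C + 4 * C', 1 / (200 * C), by norm_num, by positivity, by positivity,
    fun ρ hρ h0 ε hε hε0 hroute => ?_⟩
  obtain ⟨L, J, R, b, hL, hLsum, hJ1, -, hJsum, hR, hR0, hRb, hb, hcov⟩ := hroute
  obtain ⟨sa, hsa, hsa'⟩ := exists_pos_le L (fun q => q.2 / 2) fun q hq => by linarith [(hL q hq).1]
  obtain ⟨sb, hsb, hsb'⟩ := exists_pos_le J (fun q => q.2.1) fun q hq => (hJ1 q hq).1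
  set s := min s1 (min sa sb) with hsdef
  have hs : 0 < s := lt_min hs1 (lt_min hsa hsb)
  have hsL : ∀ q ∈ L, 2 * s ≤ q.2 := fun q hq => by
    have := (min_le_right s1 _).trans ((min_le_left sa sb).trans (hsa' q hq))
    linarith
  have hsJ : ∀ q ∈ J, s ≤ q.2.1 := fun q hq =>
    (min_le_right s1 _).trans ((min_le_right sa sb).trans (hsb' q hq))
  have hball : ∀ q ∈ L, ball q.1 (2 * q.2) ⊆ ball (0 : ℂ) 1 := fun q hq z hz => by
    rw [mem_ball, dist_eq_norm] at hz
    rw [mem_ball, dist_zero_right]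
    have := norm_add_le (z - q.1) q.1
    rw [sub_add_cancel] at this
    linarith [(hL q hq).2]
  have hann := fun q (hq : q ∈ L) => exists_annulus (hρ.mono_set (hball q hq)) h0 hs (hsL q hq)
  choose! Rad hRad1 hRad2 hRad3 using hann
  obtain ⟨γ, hγc, hγ1, hγ2⟩ := exists_path (L.disjSum J) (Sum.elim (fun q => q.1) fun q => q.1)
    (Sum.elim Rad fun q => q.2.1)
    (by
      rintro (q | q) hq
      · have hq' := Finset.inl_mem_disjSum.1 hq
        exact (hL q hq').1.le.trans (hRad1 q hq')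
      · exact (hJ1 q (Finset.inr_mem_disjSum.1 hq)).1.le)
    hR hR0 hRb hb
    (by
      intro z hz
      rcases hcov hz with hz | hz
      · simp only [mem_iUnion] at hz ⊢
        obtain ⟨q, hq, hz⟩ := hz
        exact ⟨Sum.inl q, Finset.inl_mem_disjSum.2 hq, (mem_ball.1 hz).le.trans (hRad1 q hq)⟩
      · simp only [mem_iUnion] at hz ⊢
        obtain ⟨q, hq, hz⟩ := hz
        exact ⟨Sum.inr q, Finset.inr_mem_disjSum.2 hq, (mem_ball.1 hz).le⟩)
  obtain ⟨w0, hw0⟩ := hJ γ hγc hγ1 s hs (min_le_left _ _)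
  have hle : ∀ z, w0 z ≤ C / s := fun z => (hw0.le z).trans (by gcongr)
  have hμ := dmeas_le hle
  have hgrow : ∀ z r, 0 < r → dmeas w0 (ball z r) ≤ ENNReal.ofReal (C * r) := fun z r hr =>
    (hw0.growth z r hr).trans (ENNReal.ofReal_le_ofReal (by gcongr))
  have : IsFiniteMeasure (dmeas w0) := ⟨lt_of_le_of_lt hw0.mass_le ENNReal.one_lt_top⟩
  have hB : 0 ≤ C / s := by positivity
  obtain ⟨G, hGm, hGc, hG⟩ := hcore (dmeas w0) (C / s) hB hμ hw0.mass_le hgrow
    (hw0.curv_le.trans (ENNReal.ofReal_le_ofReal hC0C))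
  have htame := tame_of_le hB hμ hw0.mass_le
  set Js : Set ℂ := ⋃ q ∈ J, ball q.1 (2 * q.2.1) with hJs
  have hJsm : MeasurableSet Js := J.measurableSet_biUnion fun _ _ => measurableSet_ball
  have hJsle : (dmeas w0).real Js ≤ 1 / 100 := by
    refine (measureReal_biUnion_finset_le J _).trans ?_
    calc _ ≤ ∑ q ∈ J, 2 * C * (2 ^ q.2.2 * q.2.1) := by
          refine Finset.sum_le_sum fun q hq => ?_
          have ha := (hJ1 q hq).1
          refine (ENNReal.toReal_le_of_le_ofReal (by positivity)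
            (hgrow q.1 _ (by positivity))).trans ?_
          have : (1 : ℝ) ≤ 2 ^ q.2.2 := one_le_pow₀ one_le_two
          nlinarith [mul_pos hCp ha]
      _ ≤ 2 * C * (1 / (200 * C)) := by
          rw [← Finset.mul_sum]
          gcongr
          exact hJsum.trans hε0
      _ = 1 / 100 := by
          field_simp
          norm_num
  set F := G ∩ Jsᶜ with hFdef
  have hFm : MeasurableSet F := hGm.inter hJsm.compl
  have hsupp : ∀ z, F.indicator w0 z ≠ 0 → ∃ q ∈ L, z ∈ ann q.1 (Rad q) s := by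
    intro z hz
    have hzF : z ∈ F := by
      by_contra hc
      exact hz (indicator_of_notMem hc _)
    rw [indicator_of_mem hzF] at hz
    obtain ⟨t, ht, hzt⟩ := hw0.supp z hz
    obtain ⟨i, hi, hti⟩ := hγ2 t ht
    rcases i with q | q
    · have hd : dist (γ t) q.1 = Rad q := hti
      refine ⟨q, Finset.inl_mem_disjSum.1 hi, ?_, ?_⟩
      · have := dist_triangle_left (γ t) q.1 z
        linarith
      · have := dist_triangle z (γ t) q.1
        linarith
    · have hq := Finset.inr_mem_disjSum.1 hi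
      have hd : dist (γ t) q.1 = q.2.1 := hti
      refine absurd (mem_biUnion (Finset.mem_coe.2 hq) ?_) hzF.2
      have := dist_triangle z (γ t) q.1
      rw [mem_ball]
      linarith [hsJ q hq]
  have hannsub : ∀ q ∈ L, ann q.1 (Rad q) s ⊆ ball (0 : ℂ) 1 := fun q hq z hz =>
    hball q hq (lt_of_lt_of_le hz.2 (hRad2 q hq))
  have hw0' : ∀ z, 0 ≤ F.indicator w0 z := fun z => indicator_nonneg (fun z _ => hw0.nonneg z) z
  have hwle : ∀ z, F.indicator w0 z ≤ C / s := fun z =>
    (indicator_le_self' (fun z _ => hw0.nonneg z) z).trans (hle z)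
  have hμ1 : (dmeas w0).real univ ≤ 1 := by
    have := ENNReal.toReal_mono ENNReal.one_ne_top hw0.mass_le
    simpa [Measure.real] using this
  have hμ2 : 1 / 12 ≤ (dmeas w0).real univ := by
    have := ENNReal.toReal_mono (measure_ne_top _ _) hw0.mass_ge
    rwa [ENNReal.toReal_ofReal (by norm_num)] at this
  refine ⟨F.indicator w0, hw0.meas.indicator hFm, hw0', ⟨C / s, hwle⟩, fun z hz => ?_, ?_, ?_, ?_,
    fun τ _ M hM => ?_⟩
  · by_contra hc
    obtain ⟨q, hq, hzq⟩ := hsupp z hc
    have := hannsub q hq hzq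
    rw [mem_ball, dist_zero_right] at this
    linarith
  · rw [integral_indicator_dens hw0.meas hw0.nonneg hFm]
    have a1 := measureReal_add_measureReal_compl (μ := dmeas w0) hFm
    have a2 : (dmeas w0).real Fᶜ ≤ (dmeas w0).real Gᶜ + (dmeas w0).real Js := by
      rw [hFdef, compl_inter, compl_compl]
      exact measureReal_union_le _ _
    linarith
  · rw [integral_indicator_dens hw0.meas hw0.nonneg hFm]
    have := measureReal_mono (μ := dmeas w0) (subset_univ F)
    linarith
  · have hint : ∀ q ∈ L, Integrable ((ann q.1 (Rad q) s).indicator ρ)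
        (volume.restrict (ball (0 : ℂ) 1)) := fun q _ =>
      Integrable.indicator hρ (measurableSet_ann _ _ _)
    calc _ ≤ ∫ z in ball (0 : ℂ) 1, C / s * ∑ q ∈ L, (ann q.1 (Rad q) s).indicator ρ z := by
          refine integral_mono_of_nonneg
            (Filter.Eventually.of_forall fun z => mul_nonneg (h0 z) (hw0' z))
            ((integrable_finsetSum _ hint).const_mul _) (Filter.Eventually.of_forall fun z => ?_)
          have hnn : ∀ q ∈ L, 0 ≤ (ann q.1 (Rad q) s).indicator ρ z := fun q _ =>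
            indicator_nonneg (fun z _ => h0 z) z
          by_cases hz : F.indicator w0 z = 0
          · simp only [hz, mul_zero]
            exact mul_nonneg hB (Finset.sum_nonneg hnn)
          · obtain ⟨q, hq, hzq⟩ := hsupp z hz
            have a1 := Finset.single_le_sum hnn hq
            rw [indicator_of_mem hzq] at a1
            simp only
            rw [mul_comm]
            exact mul_le_mul (hwle z) a1 (h0 z) hB
      _ = C / s * ∑ q ∈ L, ∫ z in ann q.1 (Rad q) s, ρ z := by
          rw [integral_const_mul, integral_finsetSum _ hint]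
          congr 1
          refine Finset.sum_congr rfl fun q hq => ?_
          rw [setIntegral_indicator (measurableSet_ann _ _ _), inter_eq_right.2 (hannsub q hq)]
      _ ≤ C / s * ∑ q ∈ L, 4 * s * (q.2⁻¹ * ∫ z in ball q.1 (2 * q.2), ρ z) := by
          gcongr with q hq
          exact hRad3 q hq
      _ ≤ C / s * (4 * s * ε) := by
          rw [← Finset.mul_sum]
          gcongr
      _ = 4 * C * ε := by field_simp
      _ ≤ _ := by nlinarith [mul_pos hC' hε]
  · obtain ⟨G', hG'm, hG'1, hG'2⟩ := hG τ M hM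
    have hτ : 0 ≤ τ.real univ := measureReal_nonneg
    refine ⟨G', hG'm, ?_, fun ι t f hf ht => ?_⟩
    · rw [← integral_indicator hG'm.compl, indicator_indicator,
        integral_indicator_dens hw0.meas hw0.nonneg (hG'm.compl.inter hFm)]
      refine (measureReal_mono (fun z hz => ⟨hz.2.1, hz.1⟩ : G'ᶜ ∩ F ⊆ G ∩ G'ᶜ)).trans
        (hG'1.trans ?_)
      gcongr
      linarith
    · refine (complex_bound hw0.meas hw0.nonneg htame hFm inter_subset_left τ hG'2 ι t f hf
        ht).trans ?_
      nlinarith [mul_nonneg hCp.le (add_nonneg hτ hM.le)]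

end Pool.Agent.P.MP_f981b0_an.TC.PB
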