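import Pool.Agent.P.MP_f981b0_an.TC.JMain
import Pool.Agent.P.MP_f981b0_an.TC.PBGood

namespace Pool.Agent.P.MP_f981b0_an.TC

/-- Parts A and B together. -/
theorem good_of_route : GoodOfRoute := good_of_lemmaJ lemmaJ

end Pool.Agent.P.MP_f981b0_an.TC
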