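import Pool.Agent.P.MP_f981b0_an.R1.Defs

set_option autoImplicit false

noncomputable section

namespace Pool.Agent.P.MP_f981b0_an.TC

open MeasureTheory Metric Set
open scoped ComplexConjugate

/-- Menger curvature (equal to `0` when two of the points coincide). -/
def curv (x y z : ℂ) : ℝ := 2 * |((x - z) * conj (y - z)).im| / (‖x - y‖ * ‖y - z‖ * ‖z - x‖)

/-- The measure with density `w` with respect to area. -/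
def dmeas (w : ℂ → ℝ) : Measure ℂ := volume.withDensity fun z => ENNReal.ofReal (w z)

/-- Output of Lemma J: a density `w` living within `s` of the path `γ` on `[0,1]`, with mass in
`[1/12, 1]`, linear growth and finite curvature. -/
structure Jones (C : ℝ) (γ : ℝ → ℂ) (s : ℝ) (w : ℂ → ℝ) : Prop where
  meas : Measurable w
  nonneg : ∀ z, 0 ≤ w z
  le : ∀ z, w z ≤ C / s
  supp : ∀ z, w z ≠ 0 → ∃ t ∈ Icc (0 : ℝ) 1, dist z (γ t) < s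
  mass_ge : ENNReal.ofReal (1 / 12) ≤ dmeas w univ
  mass_le : dmeas w univ ≤ 1
  growth : ∀ z r, 0 < r → dmeas w (ball z r) ≤ ENNReal.ofReal (C * r)
  curv_le : ∫⁻ x, ∫⁻ y, ∫⁻ z, ENNReal.ofReal (curv x y z ^ 2) ∂dmeas w ∂dmeas w ∂dmeas w
    ≤ ENNReal.ofReal C

/-- Statement of Lemma J. -/
def LemmaJ : Prop :=
  ∃ C s1 : ℝ, 0 < C ∧ 0 < s1 ∧ ∀ γ : ℝ → ℂ, Continuous γ → 1 / 2 ≤ ‖γ 1 - γ 0‖ →
    ∀ s : ℝ, 0 < s → s ≤ s1 → ∃ w : ℂ → ℝ, Jones C γ s w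

/-- The interface GOOD. -/
structure Good (ρ : ℂ → ℝ) (c C ε : ℝ) (w : ℂ → ℝ) : Prop where
  meas : Measurable w
  nonneg : ∀ z, 0 ≤ w z
  bdd : ∃ B : ℝ, ∀ z, w z ≤ B
  supp : ∀ z, 1 ≤ ‖z‖ → w z = 0
  mass_ge : c ≤ ∫ z, w z
  mass_le : ∫ z, w z ≤ C
  cost : ∫ z in ball (0 : ℂ) 1, ρ z * w z ≤ C * ε
  bound : ∀ (τ : Measure ℂ) [IsFiniteMeasure τ] (M : ℝ), 0 < M →
    ∃ G : Set ℂ, MeasurableSet G ∧ ∫ z in Gᶜ, w z ≤ C * τ.real univ / M ∧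
      ∀ (ι : Type) (s : Finset ι) (f : ι → ℂ → ℂ), (∀ i, Measurable (f i)) →
        (∀ z, ∑ i ∈ s, ‖f i z‖ ^ 2 ≤ G.indicator 1 z) →
        ∑ i ∈ s, ∫ z, ‖R1.cauchy (fun x => f i x * w x) z‖ ^ 2 ∂τ ≤ C * (τ.real univ + M)

/-- Statement delivered by parts A and B. -/
def GoodOfRoute : Prop :=
  ∃ c C ε0 : ℝ, 0 < c ∧ 0 < C ∧ 0 < ε0 ∧ ∀ ρ : ℂ → ℝ, IntegrableOn ρ (ball 0 1) →
    (∀ z, 0 ≤ ρ z) → ∀ ε : ℝ, 0 < ε → ε ≤ ε0 → R1.Route ρ ε → ∃ w : ℂ → ℝ, Good ρ c C ε w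

end Pool.Agent.P.MP_f981b0_an.TC
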