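import Pool.Agent.P.MP_f981b0_an.TC.VWeak
import Pool.Agent.P.MP_f981b0_an.R1.Barrier

set_option autoImplicit false

noncomputable section

namespace Pool.Agent.P.MP_f981b0_an.TC

open MeasureTheory Metric Set Filter Topology
open R1

section

variable {X E : Type*} [MeasurableSpace X] [NormedAddCommGroup E] [NormedSpace ℂ E]
  {τ : Measure X} {a : X → ℂ} {F : X → E}

theorem ae_ae_ne [SFinite τ] (ha : Measurable a) : ∀ᵐ z : ℂ, ∀ᵐ x ∂τ, a x ≠ z := by
  rw [Measure.ae_ae_comm (p := fun z x => a x ≠ z)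
    (measurableSet_eq_fun (ha.comp measurable_snd) measurable_fst).compl]
  refine Eventually.of_forall fun x => ?_
  filter_upwards [Measure.ae_ne volume (a x)] with z hz using hz.symm

theorem VT_rescale (z0 z : ℂ) {r : ℝ} (hr : 0 < r) :
    VT τ a F (z0 + r * z) = VT τ (fun x => (a x - z0) / r) (fun x => (r : ℂ)⁻¹ • F x) z := by
  have hr' : (r : ℂ) ≠ 0 := by exact_mod_cast hr.ne'
  refine integral_congr_ae (Eventually.of_forall fun x => ?_)
  simp only
  rw [smul_smul, ← mul_inv]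
  congr 2
  field_simp
  ring

theorem inv_sub_inv_le {u z : ℂ} {Λ : ℝ} (hΛ : 2 ≤ Λ) (hu : Λ ≤ ‖u‖) (hz : ‖z‖ < 1) :
    ‖(u - z)⁻¹ - u⁻¹‖ ≤ 2 / Λ * ‖u⁻¹‖ := by
  have h1 : ‖u‖ - ‖z‖ ≤ ‖u - z‖ := norm_sub_norm_le u z
  have h2 : 0 < ‖u - z‖ := by linarith
  have hu0 : u ≠ 0 := norm_pos_iff.1 (by linarith)
  have huz : u - z ≠ 0 := norm_pos_iff.1 h2
  have h3 : (u - z)⁻¹ - u⁻¹ = z / (u - z) * u⁻¹ := by
    field_simp
    ring
  rw [h3, norm_mul, norm_div]
  refine mul_le_mul_of_nonneg_right ?_ (norm_nonneg _)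
  rw [div_le_div_iff₀ h2 (by linarith)]
  nlinarith [norm_nonneg z]

theorem near_far (ha : Measurable a) {Λ : ℝ} (hΛ : 2 ≤ Λ)
    (hI : Integrable (fun x => (a x)⁻¹ • F x) τ) {z : ℂ} (hz : ‖z‖ < 1)
    (hz' : Integrable (fun x => (a x - z)⁻¹ • F x) τ) :
    ‖VT τ a F z - ∫ x, (a x)⁻¹ • F x ∂τ‖ ≤ 2 / Λ * ∫ x, ‖(a x)⁻¹ • F x‖ ∂τ +
      ∫ x, {x | ‖a x‖ < Λ}.indicator (fun x => ‖(a x)⁻¹ • F x‖) x ∂τ +
      ‖VT τ a ({x | ‖a x‖ < Λ}.indicator F) z‖ := by
  set N : Set X := {x | ‖a x‖ < Λ} with hN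
  have hNm : MeasurableSet N := measurableSet_lt ha.norm measurable_const
  have h1 : (fun x => (a x - z)⁻¹ • N.indicator F x) =
      N.indicator fun x => (a x - z)⁻¹ • F x := by
    funext x
    by_cases hx : x ∈ N <;> simp [hx]
  have i1 : Integrable (fun x => (a x - z)⁻¹ • N.indicator F x) τ := by
    rw [h1]
    exact hz'.indicator hNm
  have i2 : Integrable (fun x => (a x - z)⁻¹ • F x - (a x)⁻¹ • F x) τ := hz'.sub hI
  have h2 : VT τ a F z - ∫ x, (a x)⁻¹ • F x ∂τ = (∫ x, ((a x - z)⁻¹ • F x - (a x)⁻¹ • F x -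
      (a x - z)⁻¹ • N.indicator F x) ∂τ) + VT τ a (N.indicator F) z := by
    rw [integral_sub i2 i1, integral_sub hz' hI, VT, VT]
    abel
  rw [h2]
  refine (norm_add_le _ _).trans (add_le_add_left ?_ _)
  have i3 : Integrable (fun x => 2 / Λ * ‖(a x)⁻¹ • F x‖) τ := hI.norm.const_mul _
  have i4 : Integrable (N.indicator fun x => ‖(a x)⁻¹ • F x‖) τ := hI.norm.indicator hNm
  rw [← integral_const_mul, ← integral_add i3 i4]
  refine norm_integral_le_of_norm_le (i3.add i4) (Eventually.of_forall fun x => ?_)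
  have h0 : 0 ≤ 2 / Λ * ‖(a x)⁻¹ • F x‖ := by positivity
  by_cases hx : x ∈ N
  · rw [indicator_of_mem hx, indicator_of_mem hx, sub_sub_cancel_left, norm_neg]
    linarith
  · rw [indicator_of_notMem hx, indicator_of_notMem hx, smul_zero, sub_zero, add_zero, ← sub_smul,
      norm_smul, norm_smul, ← mul_assoc]
    exact mul_le_mul_of_nonneg_right (inv_sub_inv_le hΛ (not_lt.1 hx) hz) (norm_nonneg _)

end

variable {X E : Type*} [MeasurableSpace X] [NormedAddCommGroup E] [InnerProductSpace ℂ E]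
  [CompleteSpace E] {τ : Measure X} [IsFiniteMeasure τ] {a : X → ℂ} {F : X → E}

/-- Normalised form: a good density cannot be cheap when the near part is small. -/
theorem cost_ge {c C ε κ Λ : ℝ} {σ : E → ℝ} {L : NNReal} (hσ : LipschitzWith L σ)
    (h0 : ∀ A, 0 ≤ σ A) (h1 : ∀ A, σ A ≤ 1) (ha : Measurable a) (hF : Integrable F τ)
    (hΛ : 2 ≤ Λ) (hI : Integrable (fun x => (a x)⁻¹ • F x) τ) (hκ : 0 ≤ κ)
    (hκ' : κ + L * (2 / Λ * ∫ x, ‖(a x)⁻¹ • F x‖ ∂τ +
      ∫ x, {x | ‖a x‖ < Λ}.indicator (fun x => ‖(a x)⁻¹ • F x‖) x ∂τ) ≤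
        σ (∫ x, (a x)⁻¹ • F x ∂τ))
    {η : ℝ} (hη : η = ∫ x, ‖{x | ‖a x‖ < Λ}.indicator F x‖ ∂τ) {w : ℂ → ℝ}
    (hw : Good (fun z => σ (VT τ a F z)) c C ε w) :
    κ * (c - C * η) - L * √(η * (C * (η + 1))) ≤ C * ε := by
  set N : Set X := {x | ‖a x‖ < Λ} with hN
  have hNm : MeasurableSet N := measurableSet_lt ha.norm measurable_const
  obtain ⟨G', hG', k1, k2⟩ := hw.weak ha (hF.indicator hNm) one_pos
  rw [← hη] at k1 k2
  rw [div_one] at k1
  obtain ⟨D0, hD0⟩ := hw.vtest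
  have iw : Integrable w := hD0.integrable
  have hz0 : ∀ z ∉ ball (0 : ℂ) 1, w z = 0 := fun z hz => hw.supp z (by simpa using hz)
  have hρm : StronglyMeasurable fun z => σ (VT τ a F z) :=
    hσ.continuous.comp_stronglyMeasurable (stronglyMeasurable_VT' ha hF.1)
  have iρ : Integrable fun z => σ (VT τ a F z) * w z :=
    iw.bdd_mul (c := 1) hρm.aestronglyMeasurable (Eventually.of_forall fun z => by
      rw [Real.norm_of_nonneg (h0 _)]
      exact h1 _)
  have iV : Integrable fun z => ‖VT τ a (N.indicator F) z‖ * w z := by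
    refine (integrableOn_iff_integrable_of_support_subset (s := ball (0 : ℂ) 1) ?_).1 ?_
    · intro z hz
      by_contra hc
      exact hz (by simp [hz0 z hc])
    · exact (integrableOn_VT ha (hF.indicator hNm) 0 one_pos).1.norm.mul_bdd (c := D0)
        hw.meas.aestronglyMeasurable (Eventually.of_forall hD0.bdd)
  have hm : c - C * η ≤ ∫ z in G', w z := by
    have := integral_add_compl hG' iw
    linarith [hw.mass_ge]
  have hc := hw.cost
  rw [setIntegral_eq_integral_of_forall_compl_eq_zero (fun z hz => by simp [hz0 z hz])] at hc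
  have k3 : ∫ z in G', σ (VT τ a F z) * w z ≤ ∫ z, σ (VT τ a F z) * w z :=
    setIntegral_le_integral iρ (Eventually.of_forall fun z => mul_nonneg (h0 _) (hw.nonneg z))
  have i5 : Integrable fun z => κ * w z := iw.const_mul κ
  have i6 : Integrable fun z => (L : ℝ) * (‖VT τ a (N.indicator F) z‖ * w z) := iV.const_mul _
  have k4 : ∫ z in G', (κ * w z - L * (‖VT τ a (N.indicator F) z‖ * w z)) ≤
      ∫ z in G', σ (VT τ a F z) * w z := by
    refine integral_mono_ae (i5.sub i6).integrableOn iρ.integrableOn (ae_restrict_of_ae ?_)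
    filter_upwards [ae_integrable_VT ha hF] with z hz
    by_cases hz1 : z ∈ ball (0 : ℂ) 1
    · have h2 := near_far ha hΛ hI (mem_ball_zero_iff.1 hz1) hz
      have h3 := hσ.dist_le_mul (∫ x, (a x)⁻¹ • F x ∂τ) (VT τ a F z)
      rw [Real.dist_eq, dist_eq_norm, norm_sub_rev] at h3
      have h4 := mul_le_mul_of_nonneg_left h2 L.coe_nonneg
      have h5 := le_abs_self (σ (∫ x, (a x)⁻¹ • F x ∂τ) - σ (VT τ a F z))
      rw [← mul_assoc, ← sub_mul]
      refine mul_le_mul_of_nonneg_right ?_ (hw.nonneg z)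
      rw [mul_add] at h4
      linarith
    · simp [hz0 z hz1]
  rw [integral_sub i5.integrableOn i6.integrableOn, integral_const_mul, integral_const_mul] at k4
  have k5 := mul_le_mul_of_nonneg_left hm hκ
  have k6 := mul_le_mul_of_nonneg_left k2 L.coe_nonneg
  linarith

/-- At almost every point where the weight is positive there are bounded point evaluations
on a small disc. -/
theorem bpe_at (hG : GoodOfRoute) {σ : E → ℝ} {L : NNReal} (hσ : LipschitzWith L σ)
    (h0 : ∀ A, 0 ≤ σ A) (h1 : ∀ A, σ A ≤ 1) (ha : Measurable a) (hF : Integrable F τ) {z0 : ℂ}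
    (hI : Integrable (fun x => (a x - z0)⁻¹ • F x) τ) (hne : ∀ᵐ x ∂τ, a x ≠ z0)
    (hpos : 0 < σ (VT τ a F z0)) :
    ∃ r : ℝ, 0 < r ∧ BPE fun z => σ (VT τ a F (z0 + r * z)) := by
  obtain ⟨c, C, ε0, hc, hC, hε0, hgood⟩ := hG
  set κ : ℝ := σ (VT τ a F z0) / 2 with hκ
  have hκ0 : 0 < κ := by positivity
  set I : ℝ := ∫ x, ‖(a x - z0)⁻¹ • F x‖ ∂τ with hIdef
  have hI0 : 0 ≤ I := integral_nonneg fun _ => norm_nonneg _
  have hL := L.coe_nonneg
  set Λ : ℝ := 2 + 4 * L * I / κ with hΛ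
  have hΛ2 : 2 ≤ Λ := by
    have : 0 ≤ 4 * L * I / κ := by positivity
    linarith
  have hΛ3 : L * (2 / Λ * I) ≤ κ / 2 := by
    have h2 : 4 * L * I ≤ κ * Λ := by
      rw [hΛ, mul_add, mul_div_cancel₀ _ hκ0.ne']
      linarith
    rw [← mul_assoc, ← mul_div_assoc, div_mul_eq_mul_div, div_le_iff₀ (by linarith)]
    linarith
  have hr : ∀ n : ℕ, (0 : ℝ) < 1 / (n + 1) := fun n => by positivity
  let N : ℕ → Set X := fun n => {x | ‖(a x - z0) / ((1 / (n + 1) : ℝ) : ℂ)‖ < Λ}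
  have hNm : ∀ n, MeasurableSet (N n) := fun n =>
    measurableSet_lt (by fun_prop) measurable_const
  let J : ℕ → ℝ := fun n => ∫ x, (N n).indicator (fun x => ‖(a x - z0)⁻¹ • F x‖) x ∂τ
  have hJ : Tendsto J atTop (𝓝 0) := by
    have := tendsto_integral_of_dominated_convergence (μ := τ)
      (F := fun n x => (N n).indicator (fun x => ‖(a x - z0)⁻¹ • F x‖) x) (f := fun _ => 0)
      (fun x => ‖(a x - z0)⁻¹ • F x‖) (fun n => (hI.norm.indicator (hNm n)).1) hI.norm
      (fun n => Eventually.of_forall fun x => (norm_indicator_le_norm_self _ _).trans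
        (norm_norm _).le) ?_
    · simpa using this
    filter_upwards [hne] with x hx
    have h2 : 0 < ‖a x - z0‖ := norm_pos_iff.2 (sub_ne_zero.2 hx)
    obtain ⟨n0, hn0⟩ := exists_nat_gt (Λ / ‖a x - z0‖)
    refine tendsto_const_nhds.congr' ?_
    filter_upwards [eventually_ge_atTop n0] with n hn
    rw [indicator_of_notMem]
    simp only [N, mem_ofPred_eq, not_lt]
    rw [norm_div, Complex.norm_real, Real.norm_of_nonneg (hr n).le, div_div_eq_mul_div, div_one]
    rw [div_lt_iff₀ h2] at hn0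
    have : (n0 : ℝ) ≤ n := by exact_mod_cast hn
    nlinarith
  let η : ℕ → ℝ := fun n =>
    ∫ x, ‖(N n).indicator (fun x => ((1 / (n + 1) : ℝ) : ℂ)⁻¹ • F x) x‖ ∂τ
  have hη : Tendsto η atTop (𝓝 0) := by
    refine squeeze_zero (fun n => integral_nonneg fun _ => norm_nonneg _) (fun n => ?_)
      (by simpa using hJ.const_mul Λ)
    rw [← integral_const_mul]
    refine integral_mono_of_nonneg (Eventually.of_forall fun _ => norm_nonneg _)
      ((hI.norm.indicator (hNm n)).const_mul Λ) ?_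
    filter_upwards [hne] with x hx
    have h2 : 0 < ‖a x - z0‖ := norm_pos_iff.2 (sub_ne_zero.2 hx)
    by_cases hxn : x ∈ N n
    · rw [indicator_of_mem hxn, indicator_of_mem hxn, norm_smul, norm_smul, ← mul_assoc]
      refine mul_le_mul_of_nonneg_right ?_ (norm_nonneg _)
      have h3 : ‖(a x - z0) / ((1 / (n + 1) : ℝ) : ℂ)‖ < Λ := hxn
      rw [norm_div, div_eq_mul_inv] at h3
      rw [norm_inv, norm_inv (a x - z0), ← div_eq_mul_inv, le_div_iff₀ h2, mul_comm]
      exact h3.le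
    · rw [indicator_of_notMem hxn, indicator_of_notMem hxn, norm_zero, mul_zero]
  have hlim : Tendsto (fun n => κ * (c - C * η n) - L * √(η n * (C * (η n + 1)))) atTop
      (𝓝 (κ * c)) := by
    have hcont : Continuous fun t : ℝ => κ * (c - C * t) - L * √(t * (C * (t + 1))) := by
      fun_prop
    simpa [Function.comp_def] using (hcont.tendsto 0).comp hη
  have e1 := hlim.eventually (lt_mem_nhds (half_lt_self (mul_pos hκ0 hc)))
  have e2 : ∀ᶠ n in atTop, L * J n < κ / 2 := by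
    have : Tendsto (fun n => L * J n) atTop (𝓝 0) := by simpa using hJ.const_mul (L : ℝ)
    exact this.eventually (gt_mem_nhds (half_pos hκ0))
  obtain ⟨n, hn1, hn2⟩ := (e1.and e2).exists
  set r : ℝ := 1 / (n + 1) with hrdef
  have hr0 : 0 < r := hr n
  have hr' : (r : ℂ) ≠ 0 := by exact_mod_cast hr0.ne'
  refine ⟨r, hr0, ?_⟩
  simp only [VT_rescale z0 _ hr0]
  have ha' : Measurable fun x => (a x - z0) / r := by fun_prop
  have hF' : Integrable (fun x => (r : ℂ)⁻¹ • F x) τ := hF.smul _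
  have hρ : IntegrableOn (fun z => σ (VT τ (fun x => (a x - z0) / r)
      (fun x => (r : ℂ)⁻¹ • F x) z)) (ball 0 1) :=
    Measure.integrableOn_of_bounded (M := 1) measure_ball_lt_top.ne
      (hσ.continuous.comp_stronglyMeasurable
        (stronglyMeasurable_VT' ha' hF'.1)).aestronglyMeasurable
      (Eventually.of_forall fun z => by
        rw [Real.norm_of_nonneg (h0 _)]
        exact h1 _)
  refine (bpe_or_route _ hρ fun z => h0 _).resolve_right fun hR => ?_
  have hε : 0 < min ε0 (κ * c / 2 / C) := lt_min hε0 (by positivity)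
  obtain ⟨w, hw⟩ := hgood _ hρ (fun z => h0 _) _ hε (min_le_left _ _) (hR _ hε)
  have hid : ∀ x, ((a x - z0) / r)⁻¹ • (r : ℂ)⁻¹ • F x = (a x - z0)⁻¹ • F x := fun x => by
    rw [smul_smul, ← mul_inv, div_mul_cancel₀ _ hr']
  have key := cost_ge (κ := κ) (η := η n) hσ h0 h1 ha' hF' hΛ2
    (by simpa only [hid] using hI) hκ0.le ?_ rfl hw
  · have h2 : C * min ε0 (κ * c / 2 / C) ≤ κ * c / 2 := by
      rw [mul_comm, ← le_div_iff₀ hC]
      exact min_le_right _ _
    linarith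
  · simp only [hid]
    change κ + L * (2 / Λ * I + J n) ≤ σ (VT τ a F z0)
    rw [mul_add]
    linarith

end Pool.Agent.P.MP_f981b0_an.TC
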