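import Mathlib

set_option autoImplicit false

noncomputable section

namespace Pool.Agent.P.MP_f981b0_an.TC.Ex

open MeasureTheory Set Filter Topology
open scoped InnerProductSpace InnerProduct ComplexConjugate ENNReal CompactlySupported

variable {X H : Type*} [TopologicalSpace X] [CompactSpace X]
  [NormedAddCommGroup H] [InnerProductSpace ℂ H] [CompleteSpace H] {ι : Type}

omit [CompactSpace X] in
theorem theta_inner (Θ : C(X, ℂ) →⋆ₐ[ℂ] (H →L[ℂ] H)) (f : C(X, ℂ)) (x y : H) :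
    ⟪Θ (star f) x, y⟫_ℂ = ⟪x, Θ f y⟫_ℂ := by
  rw [map_star, ContinuousLinearMap.star_eq_adjoint, ContinuousLinearMap.adjoint_inner_left]

omit [CompactSpace X] in
theorem theta_mul (Θ : C(X, ℂ) →⋆ₐ[ℂ] (H →L[ℂ] H)) (f g : C(X, ℂ)) (x : H) :
    Θ (f * g) x = Θ f (Θ g x) := by
  rw [map_mul]
  rfl

omit [CompactSpace X] in
theorem theta_norm_sq (Θ : C(X, ℂ) →⋆ₐ[ℂ] (H →L[ℂ] H)) (f : C(X, ℂ)) (x : H) :
    ‖Θ (star f) x‖ ^ 2 = (⟪x, Θ (f * star f) x⟫_ℂ).re := by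
  rw [theta_mul, ← theta_inner, inner_self_eq_norm_sq_to_K]
  norm_cast

theorem theta_re_le (Θ : C(X, ℂ) →⋆ₐ[ℂ] (H →L[ℂ] H)) (f : C(X, ℂ)) (x : H) :
    |(⟪x, Θ f x⟫_ℂ).re| ≤ ‖f‖ * ‖x‖ ^ 2 := by
  have h1 : ‖Θ f‖ ≤ ‖f‖ := NonUnitalStarAlgHom.norm_apply_le Θ f
  have h2 : ‖Θ f x‖ ≤ ‖f‖ * ‖x‖ :=
    ((Θ f).le_opNorm x).trans (mul_le_mul_of_nonneg_right h1 (norm_nonneg _))
  calc |(⟪x, Θ f x⟫_ℂ).re| ≤ ‖⟪x, Θ f x⟫_ℂ‖ := Complex.abs_re_le_norm _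
    _ ≤ ‖x‖ * ‖Θ f x‖ := norm_inner_le_norm _ _
    _ ≤ ‖x‖ * (‖f‖ * ‖x‖) := mul_le_mul_of_nonneg_left h2 (norm_nonneg _)
    _ = _ := by ring

/-- Complexification of a real continuous function. -/
def ofR (f : C(X, ℝ)) : C(X, ℂ) := ⟨fun x => (f x : ℂ), by fun_prop⟩

omit [CompactSpace X] in
@[simp] theorem ofR_apply (f : C(X, ℝ)) (x : X) : ofR f x = (f x : ℂ) := rfl

theorem summable_re (Θ : C(X, ℂ) →⋆ₐ[ℂ] (H →L[ℂ] H)) {ξ : ι → H}
    (hξ : Summable fun i => ‖ξ i‖ ^ 2) (f : C(X, ℂ)) :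
    Summable fun i => (⟪ξ i, Θ f (ξ i)⟫_ℂ).re :=
  Summable.of_norm_bounded (hξ.mul_left ‖f‖) fun i => theta_re_le Θ f (ξ i)

/-- The trace functional. -/
def lam (Θ : C(X, ℂ) →⋆ₐ[ℂ] (H →L[ℂ] H)) {ξ : ι → H} (hξ : Summable fun i => ‖ξ i‖ ^ 2) :
    C_c(X, ℝ) →ₚ[ℝ] ℝ :=
  PositiveLinearMap.mk₀
    { toFun := fun f => ∑' i, (⟪ξ i, Θ (ofR f.toContinuousMap) (ξ i)⟫_ℂ).re
      map_add' := fun f g => by
        rw [← (summable_re Θ hξ _).tsum_add (summable_re Θ hξ _)]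
        have : ofR (f + g).toContinuousMap = ofR f.toContinuousMap + ofR g.toContinuousMap := by
          ext x
          simp
        simp only [this, map_add, add_apply, inner_add_right, Complex.add_re]
      map_smul' := fun c f => by
        rw [RingHom.id_apply, smul_eq_mul, ← tsum_mul_left]
        have : ofR (c • f).toContinuousMap = (c : ℂ) • ofR f.toContinuousMap := by
          ext x
          simp
        simp only [this, map_smul, smul_apply, inner_smul_right, Complex.re_ofReal_mul] }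
    fun f hf => by
      refine tsum_nonneg fun i => ?_
      let g : C(X, ℝ) := ⟨fun x => √(f x), by fun_prop⟩
      have : ofR f.toContinuousMap = ofR g * star (ofR g) := by
        ext x
        have h0 : 0 ≤ f x := hf x
        simp only [ofR_apply, ContinuousMap.mul_apply, ContinuousMap.star_apply, g,
          ContinuousMap.coe_mk, Complex.star_def, Complex.conj_ofReal]
        rw [← Complex.ofReal_mul, Real.mul_self_sqrt h0]
        rfl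
      rw [this, ← theta_norm_sq]
      exact sq_nonneg _

variable [T2Space X] [MeasurableSpace X] [BorelSpace X]

theorem exists_tau (Θ : C(X, ℂ) →⋆ₐ[ℂ] (H →L[ℂ] H)) {ξ : ι → H}
    (hξ : Summable fun i => ‖ξ i‖ ^ 2) :
    ∃ τ : Measure X, IsFiniteMeasure τ ∧ τ.Regular ∧ ∀ (g : C(X, ℂ)) (s : Finset ι),
      ∑ i ∈ s, ‖Θ g (ξ i)‖ ^ 2 ≤ ∫ x, ‖g x‖ ^ 2 ∂τ := by
  refine ⟨RealRMK.rieszMeasure (lam Θ hξ), inferInstance, inferInstance, fun g s => ?_⟩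
  let f : C_c(X, ℝ) := ⟨⟨fun x => ‖g x‖ ^ 2, by fun_prop⟩, HasCompactSupport.of_compactSpace _⟩
  have h1 : ∫ x, ‖g x‖ ^ 2 ∂(RealRMK.rieszMeasure (lam Θ hξ)) = lam Θ hξ f :=
    RealRMK.integral_rieszMeasure (lam Θ hξ) f
  have h2 : ofR f.toContinuousMap = star g * star (star g) := by
    ext x
    simp only [ofR_apply, ContinuousMap.mul_apply, ContinuousMap.star_apply, star_star,
      Complex.star_def]
    rw [Complex.conj_mul']
    simp [f]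
  have h3 : ∀ i, ‖Θ g (ξ i)‖ ^ 2 = (⟪ξ i, Θ (ofR f.toContinuousMap) (ξ i)⟫_ℂ).re := fun i => by
    rw [h2, ← theta_norm_sq, star_star]
  rw [h1]
  simp only [h3]
  refine (summable_re Θ hξ _).sum_le_tsum s fun i _ => ?_
  rw [← h3]
  exact sq_nonneg _

omit [T2Space X] in
theorem joint_cont (Θ : C(X, ℂ) →⋆ₐ[ℂ] (H →L[ℂ] H)) {ξ : ι → H} {τ : Measure X}
    [IsFiniteMeasure τ] (hτ : ∀ (g : C(X, ℂ)) (s : Finset ι),
      ∑ i ∈ s, ‖Θ g (ξ i)‖ ^ 2 ≤ ∫ x, ‖g x‖ ^ 2 ∂τ) (s : Finset ι) (f : ι → C(X, ℂ)) :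
    ‖∑ i ∈ s, Θ (f i) (ξ i)‖ ^ 2 ≤ ∑ i ∈ s, ∫ x, ‖f i x‖ ^ 2 ∂τ := by
  have hint : ∀ i, Integrable (fun x => ‖f i x‖ ^ 2) τ := fun i =>
    (by fun_prop : Continuous fun x => ‖f i x‖ ^ 2).integrable_of_hasCompactSupport
      (HasCompactSupport.of_compactSpace _)
  have key : ∀ δ : ℝ, 0 < δ →
      ‖∑ i ∈ s, Θ (f i) (ξ i)‖ ^ 2 ≤ ∑ i ∈ s, ∫ x, ‖f i x‖ ^ 2 ∂τ + δ * τ.real univ := by
    intro δ hδ
    set y := ∑ i ∈ s, Θ (f i) (ξ i) with hy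
    have hpos : ∀ x, 0 < ∑ i ∈ s, ‖f i x‖ ^ 2 + δ := fun x =>
      add_pos_of_nonneg_of_pos (Finset.sum_nonneg fun _ _ => sq_nonneg _) hδ
    let w : C(X, ℝ) := ⟨fun x => √(∑ i ∈ s, ‖f i x‖ ^ 2 + δ), by fun_prop⟩
    have hw : ∀ x, 0 < w x := fun x => Real.sqrt_pos.2 (hpos x)
    have hw2 : ∀ x, w x ^ 2 = ∑ i ∈ s, ‖f i x‖ ^ 2 + δ := fun x => Real.sq_sqrt (hpos x).le
    have hwc : ∀ x, (w x : ℂ) ≠ 0 := fun x => Complex.ofReal_ne_zero.2 (hw x).ne'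
    let a : ι → C(X, ℂ) := fun i => ⟨fun x => f i x / (w x : ℂ),
      (f i).continuous.div (by fun_prop) hwc⟩
    have hfa : ∀ i, f i = a i * ofR w := fun i => by
      ext x
      simp only [ContinuousMap.mul_apply, a, ContinuousMap.coe_mk, ofR_apply]
      rw [div_mul_cancel₀ _ (hwc x)]
    have hrow : ∑ i ∈ s, ‖Θ (star (a i)) y‖ ^ 2 ≤ ‖y‖ ^ 2 := by
      have h1 : ∑ i ∈ s, ‖Θ (star (a i)) y‖ ^ 2 =
          (⟪y, Θ (∑ i ∈ s, a i * star (a i)) y⟫_ℂ).re := by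
        simp only [theta_norm_sq, map_sum, sum_apply, inner_sum, Complex.re_sum]
      have h2 : ‖∑ i ∈ s, a i * star (a i)‖ ≤ 1 := by
        rw [ContinuousMap.norm_le _ zero_le_one]
        intro x
        rw [ContinuousMap.sum_apply]
        refine (norm_sum_le _ _).trans ?_
        have h3 : ∀ i, ‖(a i * star (a i)) x‖ = ‖f i x‖ ^ 2 / w x ^ 2 := fun i => by
          simp only [ContinuousMap.mul_apply, ContinuousMap.star_apply, norm_mul, norm_star, a,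
            ContinuousMap.coe_mk, norm_div, Complex.norm_real, Real.norm_eq_abs,
            abs_of_pos (hw x)]
          ring
        simp only [h3]
        rw [← Finset.sum_div, div_le_one (pow_pos (hw x) 2), hw2]
        linarith
      have h4 := theta_re_le Θ (∑ i ∈ s, a i * star (a i)) y
      rw [h1]
      refine (le_abs_self _).trans (h4.trans ?_)
      nlinarith [sq_nonneg ‖y‖]
    have hcol : ∑ i ∈ s, ‖Θ (ofR w) (ξ i)‖ ^ 2 ≤
        ∑ i ∈ s, ∫ x, ‖f i x‖ ^ 2 ∂τ + δ * τ.real univ := by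
      refine (hτ _ s).trans_eq ?_
      have h5 : ∀ x, ‖ofR w x‖ ^ 2 = ∑ i ∈ s, ‖f i x‖ ^ 2 + δ := fun x => by
        rw [ofR_apply, Complex.norm_real, Real.norm_eq_abs, sq_abs, hw2]
      simp only [h5]
      rw [integral_add (integrable_finsetSum s fun i _ => hint i) (integrable_const _),
        integral_finsetSum s fun i _ => hint i, integral_const, smul_eq_mul, mul_comm]
    have h6 : ‖y‖ ^ 2 ≤ ∑ i ∈ s, ‖Θ (star (a i)) y‖ * ‖Θ (ofR w) (ξ i)‖ := by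
      have h7 : ((‖y‖ : ℂ)) ^ 2 = ∑ i ∈ s, ⟪Θ (star (a i)) y, Θ (ofR w) (ξ i)⟫_ℂ := by
        have h70 : ((‖y‖ : ℂ)) ^ 2 = ⟪y, ∑ i ∈ s, Θ (f i) (ξ i)⟫_ℂ :=
          (inner_self_eq_norm_sq_to_K (𝕜 := ℂ) y).symm
        rw [h70, inner_sum]
        refine Finset.sum_congr rfl fun i _ => ?_
        rw [theta_inner, ← theta_mul, ← hfa]
      calc ‖y‖ ^ 2 = ‖((‖y‖ : ℂ)) ^ 2‖ := by simp
        _ ≤ ∑ i ∈ s, ‖⟪Θ (star (a i)) y, Θ (ofR w) (ξ i)⟫_ℂ‖ := by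
          rw [h7]
          exact norm_sum_le _ _
        _ ≤ _ := Finset.sum_le_sum fun i _ => norm_inner_le_norm _ _
    have h8 := Finset.sum_mul_sq_le_sq_mul_sq s (fun i => ‖Θ (star (a i)) y‖)
      (fun i => ‖Θ (ofR w) (ξ i)‖)
    set D := ∑ i ∈ s, ∫ x, ‖f i x‖ ^ 2 ∂τ + δ * τ.real univ with hD
    have hD0 : 0 ≤ D := (Finset.sum_nonneg fun _ _ => sq_nonneg _).trans hcol
    have h9 : (‖y‖ ^ 2) ^ 2 ≤ ‖y‖ ^ 2 * D :=
      (pow_le_pow_left₀ (sq_nonneg _) h6 2).trans (h8.trans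
        (mul_le_mul hrow hcol (Finset.sum_nonneg fun _ _ => sq_nonneg _) (sq_nonneg _)))
    rcases (sq_nonneg ‖y‖).eq_or_lt with h0 | h0
    · rw [← h0]
      exact hD0
    · rw [sq (‖y‖ ^ 2)] at h9
      exact le_of_mul_le_mul_left h9 h0
  refine le_of_forall_pos_le_add fun ε hε => ?_
  have hm : 0 ≤ τ.real univ := measureReal_nonneg
  refine (key (ε / (τ.real univ + 1)) (by positivity)).trans ?_
  have : ε / (τ.real univ + 1) * τ.real univ ≤ ε := by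
    rw [div_mul_eq_mul_div, div_le_iff₀ (by positivity)]
    nlinarith
  linarith

theorem L2_norm_sq {Y E : Type*} [MeasurableSpace Y] {τ : Measure Y} [NormedAddCommGroup E]
    [InnerProductSpace ℂ E] (u : Lp E 2 τ) : ‖u‖ ^ 2 = ∫ x, ‖u x‖ ^ 2 ∂τ := by
  rw [← inner_self_eq_norm_sq (𝕜 := ℂ), L2.inner_def, ← integral_re (L2.integrable_inner u u)]
  simp only [inner_self_eq_norm_sq]

omit [T2Space X] in
theorem norm_toLp_sq {τ : Measure X} [IsFiniteMeasure τ] (g : C(X, ℂ)) :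
    ‖ContinuousMap.toLp (E := ℂ) 2 τ ℂ g‖ ^ 2 = ∫ x, ‖g x‖ ^ 2 ∂τ := by
  rw [L2_norm_sq]
  refine integral_congr_ae ?_
  filter_upwards [ContinuousMap.coeFn_toLp (E := ℂ) (p := 2) (μ := τ) (𝕜 := ℂ) g] with x hx
  rw [hx]

omit [T2Space X] in
theorem inner_toLp_star {τ : Measure X} [IsFiniteMeasure τ] (g : C(X, ℂ)) (u : Lp ℂ 2 τ) :
    ⟪ContinuousMap.toLp (E := ℂ) 2 τ ℂ (star g), u⟫_ℂ = ∫ x, g x * u x ∂τ := by
  rw [L2.inner_def]
  refine integral_congr_ae ?_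
  filter_upwards [ContinuousMap.coeFn_toLp (E := ℂ) (p := 2) (μ := τ) (𝕜 := ℂ) (star g)] with x hx
  rw [hx]
  simp [mul_comm]

theorem ae_zero_of_test {τ : Measure X} [IsFiniteMeasure τ] [τ.Regular] {u : X → ℂ}
    (hu : MemLp u 2 τ) (h : ∀ g : C(X, ℂ), ∫ x, g x * u x ∂τ = 0) : ∀ᵐ x ∂τ, u x = 0 := by
  have hd := ContinuousMap.toLp_denseRange ℂ τ ℂ (p := 2) (by simp)
  have h0 : hu.toLp u = 0 := by
    refine hd.eq_zero_of_inner_right ℂ fun g => ?_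
    rw [← star_star g, inner_toLp_star, ← h (star g)]
    refine integral_congr_ae ?_
    filter_upwards [hu.coeFn_toLp] with x hx
    rw [hx]
  filter_upwards [hu.coeFn_toLp, Lp.coeFn_zero ℂ 2 τ] with x hx hx'
  rw [← hx, h0, hx']
  rfl

theorem exists_scalar (Θ : C(X, ℂ) →⋆ₐ[ℂ] (H →L[ℂ] H)) {ξ : ι → H}
    (hξ : Summable fun i => ‖ξ i‖ ^ 2) :
    ∃ (τ : Measure X) (_ : IsFiniteMeasure τ) (_ : τ.Regular) (Bs : ι → H →L[ℂ] Lp ℂ 2 τ),
      (∀ i (g : C(X, ℂ)) h, ∫ x, g x * Bs i h x ∂τ = ⟪ξ i, Θ g h⟫_ℂ) ∧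
      ∀ h (s : Finset ι), ∑ i ∈ s, ‖Bs i h‖ ^ 2 ≤ ‖h‖ ^ 2 := by
  obtain ⟨τ, hfin, hreg, hτ⟩ := exists_tau Θ hξ
  have hd := ContinuousMap.toLp_denseRange ℂ τ ℂ (p := 2) (by simp)
  let e : C(X, ℂ) →ₗ[ℂ] Lp ℂ 2 τ := (ContinuousMap.toLp (E := ℂ) 2 τ ℂ).toLinearMap
  let j0 : ι → C(X, ℂ) →ₗ[ℂ] H := fun i =>
    { toFun := fun g => Θ g (ξ i)
      map_add' := fun f g => by simp
      map_smul' := fun c f => by simp }
  have hb : ∀ i g, ‖j0 i g‖ ≤ 1 * ‖e g‖ := fun i g => by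
    rw [one_mul]
    refine le_of_sq_le_sq ?_ (norm_nonneg _)
    have := hτ g {i}
    rw [Finset.sum_singleton, ← norm_toLp_sq] at this
    exact this
  let J : ι → Lp ℂ 2 τ →L[ℂ] H := fun i => (j0 i).extendOfNorm e
  have hJ : ∀ i g, J i (ContinuousMap.toLp (E := ℂ) 2 τ ℂ g) = Θ g (ξ i) := fun i g =>
    LinearMap.extendOfNorm_eq (f := j0 i) (e := e) hd ⟨1, hb i⟩ g
  have hjoint : ∀ (s : Finset ι) (u : ι → Lp ℂ 2 τ),
      ‖∑ i ∈ s, J i (u i)‖ ^ 2 ≤ ∑ i ∈ s, ‖u i‖ ^ 2 := fun s u => by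
    refine (DenseRange.piMap fun _ : ι => hd).induction_on
      (p := fun u : ι → Lp ℂ 2 τ => ‖∑ i ∈ s, J i (u i)‖ ^ 2 ≤ ∑ i ∈ s, ‖u i‖ ^ 2) u
      (isClosed_le (by fun_prop) (by fun_prop)) fun f => ?_
    simp only [Pi.map_apply, hJ, norm_toLp_sq]
    exact joint_cont Θ hτ s f
  refine ⟨τ, hfin, hreg, fun i => (J i)†, fun i g h => ?_, fun h s => ?_⟩
  · rw [← inner_toLp_star, ContinuousLinearMap.adjoint_inner_right, hJ, theta_inner]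
  · set S := ∑ i ∈ s, ‖((J i)†) h‖ ^ 2 with hS
    have hS0 : 0 ≤ S := Finset.sum_nonneg fun _ _ => sq_nonneg _
    have h1 : (S : ℂ) = ⟪∑ i ∈ s, J i (((J i)†) h), h⟫_ℂ := by
      rw [sum_inner, hS, Complex.ofReal_sum]
      refine Finset.sum_congr rfl fun i _ => ?_
      rw [← ContinuousLinearMap.adjoint_inner_right, inner_self_eq_norm_sq_to_K]
      simp
    have h2 : S ≤ ‖∑ i ∈ s, J i (((J i)†) h)‖ * ‖h‖ := by
      calc S = ‖(S : ℂ)‖ := by rw [Complex.norm_real, Real.norm_eq_abs, abs_of_nonneg hS0]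
        _ ≤ _ := by
          rw [h1]
          exact norm_inner_le_norm _ _
    have h3 := hjoint s fun i => ((J i)†) h
    rw [← hS] at h3
    have h4 : S ^ 2 ≤ S * ‖h‖ ^ 2 := by
      refine (pow_le_pow_left₀ hS0 h2 2).trans ?_
      rw [mul_pow]
      exact mul_le_mul_of_nonneg_right h3 (sq_nonneg _)
    rcases hS0.eq_or_lt with h0 | h0
    · rw [← h0]
      exact sq_nonneg _
    · rw [sq S] at h4
      exact le_of_mul_le_mul_left h4 h0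

end Pool.Agent.P.MP_f981b0_an.TC.Ex
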