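import Mathlib

set_option autoImplicit false

noncomputable section

namespace Pool.Agent.P.MP_f981b0_an.TC.Ex

open MeasureTheory Set Filter Topology
open scoped InnerProductSpace InnerProduct ComplexConjugate ENNReal

variable {G E : Type*} [NormedAddCommGroup G] [InnerProductSpace ℂ G]
  [NormedAddCommGroup E] [NormedSpace ℂ E] {ι : Type}

theorem two_toReal : (2 : ℝ≥0∞).toReal = (2 : ℕ) := by simp

theorem lp_hasSum_sq {F : Type*} [NormedAddCommGroup F] (A : lp (fun _ : ι => F) 2) :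
    HasSum (fun i => ‖A i‖ ^ 2) (‖A‖ ^ 2) := by
  have := lp.hasSum_norm (p := 2) (by simp) A
  simpa only [two_toReal, Real.rpow_natCast] using this

theorem memlp_of_summable {F : Type*} [NormedAddCommGroup F] {u : ι → F}
    (h : Summable fun i => ‖u i‖ ^ 2) : Memℓp u 2 := by
  refine memℓp_gen ?_
  simpa only [two_toReal, Real.rpow_natCast] using h

theorem basis_hasSum_sq (b : HilbertBasis ι ℂ G) (d : G) :
    HasSum (fun i => ‖⟪b i, d⟫_ℂ‖ ^ 2) (‖d‖ ^ 2) := by
  have := lp_hasSum_sq (b.repr d)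
  simpa only [HilbertBasis.repr_apply_apply, LinearIsometryEquiv.norm_map] using this

theorem summable_norm_op (b : HilbertBasis ι ℂ G) (A : lp (fun _ : ι => E) 2) (d : G) :
    Summable fun i => ‖⟪b i, d⟫_ℂ • A i‖ := by
  refine Summable.of_nonneg_of_le (fun _ => norm_nonneg _) (fun i => ?_)
    (((basis_hasSum_sq b d).summable.add (lp_hasSum_sq A).summable))
  rw [norm_smul]
  nlinarith [sq_nonneg (‖⟪b i, d⟫_ℂ‖ - ‖A i‖), norm_nonneg (⟪b i, d⟫_ℂ), norm_nonneg (A i)]

theorem tsum_norm_op_le (b : HilbertBasis ι ℂ G) (A : lp (fun _ : ι => E) 2) (d : G) :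
    ∑' i, ‖⟪b i, d⟫_ℂ • A i‖ ≤ ‖A‖ * ‖d‖ := by
  refine (summable_norm_op b A d).tsum_le_of_sum_le fun s => ?_
  simp only [norm_smul]
  have h1 := Finset.sum_mul_sq_le_sq_mul_sq s (fun i => ‖⟪b i, d⟫_ℂ‖) (fun i => ‖A i‖)
  have h2 : ∑ i ∈ s, ‖⟪b i, d⟫_ℂ‖ ^ 2 ≤ ‖d‖ ^ 2 :=
    sum_le_hasSum s (fun _ _ => sq_nonneg _) (basis_hasSum_sq b d)
  have h3 : ∑ i ∈ s, ‖A i‖ ^ 2 ≤ ‖A‖ ^ 2 :=
    sum_le_hasSum s (fun _ _ => sq_nonneg _) (lp_hasSum_sq A)
  have h4 : (∑ i ∈ s, ‖⟪b i, d⟫_ℂ‖ * ‖A i‖) ^ 2 ≤ (‖A‖ * ‖d‖) ^ 2 := by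
    refine h1.trans ?_
    rw [mul_pow, mul_comm (‖A‖ ^ 2)]
    exact mul_le_mul h2 h3 (Finset.sum_nonneg fun _ _ => sq_nonneg _) (sq_nonneg _)
  exact le_of_sq_le_sq h4 (by positivity) |>.trans_eq rfl

variable [CompleteSpace E]

theorem summable_op (b : HilbertBasis ι ℂ G) (A : lp (fun _ : ι => E) 2) (d : G) :
    Summable fun i => ⟪b i, d⟫_ℂ • A i := (summable_norm_op b A d).of_norm

/-- The bilinear map sending columns `A` and a vector `d` to the sum of `⟪b i, d⟫ • A i`. -/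
def opLin (b : HilbertBasis ι ℂ G) : lp (fun _ : ι => E) 2 →ₗ[ℂ] G →ₗ[ℂ] E :=
  LinearMap.mk₂ ℂ (fun A d => ∑' i, ⟪b i, d⟫_ℂ • A i)
    (fun A A' d => by
      rw [← (summable_op b A d).tsum_add (summable_op b A' d)]
      simp only [lp.coeFn_add, Pi.add_apply, smul_add])
    (fun c A d => by
      rw [← (summable_op b A d).tsum_const_smul c]
      simp only [lp.coeFn_smul, Pi.smul_apply, smul_comm c])
    (fun A d d' => by
      rw [← (summable_op b A d).tsum_add (summable_op b A d')]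
      simp only [inner_add_right, add_smul])
    (fun c A d => by
      rw [← (summable_op b A d).tsum_const_smul c]
      simp only [inner_smul_right, mul_smul])

/-- The operator with prescribed square summable columns. -/
def op (b : HilbertBasis ι ℂ G) : lp (fun _ : ι => E) 2 →L[ℂ] G →L[ℂ] E :=
  (opLin b).mkContinuous₂ 1 fun A d => by
    rw [one_mul]
    exact (norm_tsum_le_tsum_norm (summable_norm_op b A d)).trans (tsum_norm_op_le b A d)

theorem hasSum_op (b : HilbertBasis ι ℂ G) (A : lp (fun _ : ι => E) 2) (d : G) :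
    HasSum (fun i => ⟪b i, d⟫_ℂ • A i) (op b A d) := (summable_op b A d).hasSum

theorem op_basis (b : HilbertBasis ι ℂ G) (A : lp (fun _ : ι => E) 2) (j : ι) :
    op b A (b j) = A j := by
  classical
  refine (hasSum_op b A (b j)).unique ?_
  have h := hasSum_single (f := fun i => ⟪b i, b j⟫_ℂ • A i) j fun i hi => by
    rw [b.orthonormal.2 hi, zero_smul]
  have h1 : ⟪b j, b j⟫_ℂ = 1 := by
    rw [inner_self_eq_norm_sq_to_K, b.orthonormal.1 j]
    simp
  simpa only [h1, one_smul] using h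

theorem op_single [DecidableEq ι] (b : HilbertBasis ι ℂ G) (i : ι) (a : E) (d : G) :
    op b (lp.single 2 i a) d = ⟪b i, d⟫_ℂ • a := by
  refine (hasSum_op b _ d).unique ?_
  have h := hasSum_single (f := fun j => ⟪b j, d⟫_ℂ • (lp.single 2 i a : lp (fun _ : ι => E) 2) j)
    i fun j hj => by rw [lp.single_apply_ne _ _ _ hj, smul_zero]
  simpa only [lp.single_apply_self] using h

theorem compact_op (b : HilbertBasis ι ℂ G) (A : lp (fun _ : ι => E) 2) :
    IsCompactOperator (op b A) := by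
  classical
  have h := (lp.hasSum_single (p := 2) (by simp) A).mapL (op b)
  refine isCompactOperator_of_tendsto (l := atTop) h (Eventually.of_forall fun s => ?_)
  change (∑ i ∈ s, op b (lp.single 2 i (A i))) ∈ compactOperator (RingHom.id ℂ) G E
  refine Submodule.sum_mem _ fun i _ => ?_
  change IsCompactOperator (op b (lp.single 2 i (A i)))
  have h1 : (op b (lp.single 2 i (A i)) : G → E) =
      (ContinuousLinearMap.toSpanSingleton ℂ (A i)) ∘ (innerSL ℂ (b i)) := by
    funext d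
    simp [op_single]
  rw [h1]
  exact (isCompactOperator_of_locallyCompactSpace_dom (innerSL ℂ (b i))).clm_comp _

omit [CompleteSpace E] in
theorem ext_basis (b : HilbertBasis ι ℂ G) {T T' : G →L[ℂ] E} (h : ∀ i, T (b i) = T' (b i)) :
    T = T' := by
  refine ContinuousLinearMap.ext_on
    (Submodule.dense_iff_topologicalClosure_eq_top.2 b.dense_span) ?_
  rintro _ ⟨i, rfl⟩
  exact h i

theorem compact_of_summable (b : HilbertBasis ι ℂ G) (Z : G →L[ℂ] E)
    (hZ : Summable fun i => ‖Z (b i)‖ ^ 2) : IsCompactOperator Z := by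
  have h : Z = op b ⟨fun i => Z (b i), memlp_of_summable hZ⟩ :=
    ext_basis b fun i => by rw [op_basis]
  rw [h]
  exact compact_op b _

theorem eq_of_inner_basis (b : HilbertBasis ι ℂ G) {x y : G}
    (h : ∀ i, ⟪b i, x⟫_ℂ = ⟪b i, y⟫_ℂ) : x = y := by
  refine b.repr.injective (lp.ext (funext fun i => ?_))
  simpa only [HilbertBasis.repr_apply_apply] using h i

theorem isSelfAdjoint_of_basis [CompleteSpace G] (b : HilbertBasis ι ℂ G) {T : G →L[ℂ] G}
    (h : ∀ i j, ⟪b j, T (b i)⟫_ℂ = conj ⟪b i, T (b j)⟫_ℂ) : IsSelfAdjoint T := by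
  rw [ContinuousLinearMap.isSelfAdjoint_iff']
  refine ext_basis b fun i => eq_of_inner_basis b fun j => ?_
  rw [ContinuousLinearMap.adjoint_inner_right, h, inner_conj_symm]

/-- Truncation of the columns to a finite set. -/
def trunc [DecidableEq ι] (s : Finset ι) : lp (fun _ : ι => E) 2 →L[ℂ] lp (fun _ : ι => E) 2 :=
  ∑ i ∈ s, lp.singleContinuousLinearMap ℂ (fun _ : ι => E) 2 i ∘L lp.evalCLM ℂ (fun _ : ι => E) 2 i

omit [CompleteSpace E] in
theorem trunc_apply [DecidableEq ι] (s : Finset ι) (A : lp (fun _ : ι => E) 2) :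
    trunc s A = ∑ i ∈ s, lp.single 2 i (A i) := by
  simp only [trunc, sum_apply]
  rfl

omit [CompleteSpace E] in
theorem norm_sub_trunc_le [DecidableEq ι] (s : Finset ι) (A : lp (fun _ : ι => E) 2) :
    ‖A - trunc s A‖ ≤ ‖A‖ := by
  have h := lp.norm_compl_sum_single (p := 2) (by simp) A s
  simp only [two_toReal, Real.rpow_natCast] at h
  rw [trunc_apply]
  refine le_of_sq_le_sq ?_ (norm_nonneg _)
  have : 0 ≤ ∑ i ∈ s, ‖A i‖ ^ 2 := Finset.sum_nonneg fun _ _ => sq_nonneg _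
  linarith

omit [CompleteSpace E] in
theorem tendsto_sub_trunc [DecidableEq ι] (A : lp (fun _ : ι => E) 2) :
    Tendsto (fun s : Finset ι => ‖A - trunc s A‖) atTop (𝓝 0) := by
  have h : Tendsto (fun s : Finset ι => trunc s A) atTop (𝓝 A) := by
    simp only [trunc_apply]
    exact lp.hasSum_single (p := 2) (by simp) A
  have := (tendsto_const_nhds (x := A)).sub h
  rw [sub_self] at this
  exact tendsto_zero_iff_norm_tendsto_zero.1 this

/-- The orthogonal projection onto finitely many basis vectors. -/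
def proj (b : HilbertBasis ι ℂ G) (s : Finset ι) : G →L[ℂ] G :=
  ∑ i ∈ s, (innerSL ℂ (b i)).smulRight (b i)

theorem proj_apply (b : HilbertBasis ι ℂ G) (s : Finset ι) (d : G) :
    proj b s d = ∑ i ∈ s, ⟪b i, d⟫_ℂ • b i := by
  simp [proj]

theorem norm_proj_sq (b : HilbertBasis ι ℂ G) (s : Finset ι) (d : G) :
    ‖proj b s d‖ ^ 2 = ∑ i ∈ s, ‖⟪b i, d⟫_ℂ‖ ^ 2 := by
  rw [proj_apply]
  have := b.orthonormal.orthogonalFamily.norm_sum (fun i => ⟪b i, d⟫_ℂ) s
  simpa only [LinearIsometry.toSpanSingleton_apply] using this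

theorem op_comp_proj [DecidableEq ι] (b : HilbertBasis ι ℂ G) (s : Finset ι)
    (A : lp (fun _ : ι => E) 2) : op b A ∘L proj b s = op b (trunc s A) := by
  ext d
  rw [ContinuousLinearMap.comp_apply, proj_apply, trunc_apply, map_sum, map_sum,
    sum_apply]
  refine Finset.sum_congr rfl fun i _ => ?_
  rw [map_smul, op_basis, op_single]

theorem tail_op {X : Type*} [MeasurableSpace X] {τ : Measure X} [Countable ι] [CompleteSpace G]
    (b : HilbertBasis ι ℂ G) {Γ : X → lp (fun _ : ι => G) 2} (hm : StronglyMeasurable Γ)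
    (hi : Integrable Γ τ) (η : ℝ) (hη : 0 < η) :
    ∃ (n : ℕ) (c : Fin n → G) (Q : G →L[ℂ] G) (Γ' : X → lp (fun _ : ι => G) 2),
      (∀ d, ‖Q d‖ ^ 2 ≤ ∑ j, ‖⟪c j, d⟫_ℂ‖ ^ 2) ∧ StronglyMeasurable Γ' ∧ Integrable Γ' τ ∧
      ∫ x, ‖Γ' x‖ ∂τ ≤ η ∧ ∀ x, op b (Γ x) = op b (Γ x) ∘L Q + op b (Γ' x) := by
  classical
  have hm' : ∀ s : Finset ι, StronglyMeasurable fun x => Γ x - trunc s (Γ x) := fun s =>
    hm.sub ((trunc s).continuous.comp_stronglyMeasurable hm)
  have ht : Tendsto (fun s : Finset ι => ∫ x, ‖Γ x - trunc s (Γ x)‖ ∂τ) atTop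
      (𝓝 (∫ _x, (0 : ℝ) ∂τ)) := by
    refine tendsto_integral_filter_of_dominated_convergence (fun x => ‖Γ x‖)
      (Eventually.of_forall fun s => (hm' s).norm.aestronglyMeasurable)
      (Eventually.of_forall fun s => Eventually.of_forall fun x => ?_) hi.norm
      (Eventually.of_forall fun x => tendsto_sub_trunc (Γ x))
    rw [norm_norm]
    exact norm_sub_trunc_le s _
  rw [integral_zero] at ht
  obtain ⟨s, hs⟩ := (ht.eventually (ge_mem_nhds hη)).exists
  refine ⟨s.card, fun j => b (s.equivFin.symm j), proj b s, fun x => Γ x - trunc s (Γ x),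
    fun d => ?_, hm' s, hi.sub ((trunc s).integrable_comp hi), hs, fun x => ?_⟩
  · rw [norm_proj_sq, ← Finset.sum_coe_sort s, ← Equiv.sum_comp s.equivFin.symm]
  · rw [op_comp_proj, map_sub]
    abel

end Pool.Agent.P.MP_f981b0_an.TC.Ex
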