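import Pool.Agent.P.MP_f981b0_an.TC.Model
import Pool.Agent.P.MP_f981b0_an.TC.ExOp
import Pool.Agent.P.MP_f981b0_an.TC.ExMeas

set_option autoImplicit false

noncomputable section

namespace Pool.Agent.P.MP_f981b0_an.TC

open MeasureTheory Set Filter Topology
open scoped InnerProductSpace InnerProduct ComplexConjugate ENNReal

namespace Ex

section series

variable {Y E F F' : Type*} [MeasurableSpace Y] {ι : Type}
  [NormedAddCommGroup E] [InnerProductSpace ℂ E] [NormedAddCommGroup F] [InnerProductSpace ℂ F]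
  [NormedAddCommGroup F'] [NormedSpace ℂ F']

/-- A linear isometry acts isometrically on square integrable functions. -/
def liftI (τ : Measure Y) (e : F →ₗᵢ[ℂ] E) : Lp F 2 τ →ₗᵢ[ℂ] Lp E 2 τ where
  toLinearMap := (e.toContinuousLinearMap.compLpL 2 τ).toLinearMap
  norm_map' u := by
    refine (sq_eq_sq₀ (norm_nonneg _) (norm_nonneg _)).1 ?_
    rw [L2_norm_sq, L2_norm_sq]
    refine integral_congr_ae ?_
    filter_upwards [e.toContinuousLinearMap.coeFn_compLpL u] with x hx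
    change ‖(e.toContinuousLinearMap.compLpL 2 τ u) x‖ ^ 2 = _
    rw [hx]
    simp

theorem coeFn_liftI (τ : Measure Y) (e : F →ₗᵢ[ℂ] E) (u : Lp F 2 τ) :
    liftI τ e u =ᵐ[τ] fun x => e (u x) := e.toContinuousLinearMap.coeFn_compLpL u

theorem orth_lift (τ : Measure Y) {V : ι → F →ₗᵢ[ℂ] E} (hV : OrthogonalFamily ℂ (fun _ => F) V) :
    OrthogonalFamily ℂ (fun _ => Lp F 2 τ) fun i => liftI τ (V i) := by
  intro i j hij u v
  rw [L2.inner_def]
  refine integral_eq_zero_of_ae ?_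
  filter_upwards [coeFn_liftI τ (V i) u, coeFn_liftI τ (V j) v] with x hx hx'
  rw [hx, hx']
  exact hV hij _ _

variable [CompleteSpace E]

theorem comp_series {τ : Measure Y} {V : ι → F →ₗᵢ[ℂ] E} (hV : OrthogonalFamily ℂ (fun _ => F) V)
    (u : lp (fun _ : ι => Lp F 2 τ) 2) (L : E →L[ℂ] F') {w : ι → Lp F' 2 τ}
    (hw : ∀ i, w i =ᵐ[τ] fun x => L (V i (u i x))) {S : Lp F' 2 τ} (hS : HasSum w S) :
    S =ᵐ[τ] fun x => L ((orth_lift τ hV).linearIsometry u x) := by
  have h1 := ((orth_lift τ hV).hasSum_linearIsometry u).mapL (L.compLpL 2 τ)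
  have h2 : (fun i => L.compLpL 2 τ (liftI τ (V i) (u i))) = w := by
    funext i
    refine Lp.ext ?_
    filter_upwards [L.coeFn_compLpL (liftI τ (V i) (u i)), coeFn_liftI τ (V i) (u i), hw i]
      with x h3 h4 h5
    rw [h3, h4, h5]
  rw [h2] at h1
  rw [hS.unique h1]
  exact L.coeFn_compLpL _

end series

section single

variable {G : Type*} [NormedAddCommGroup G] [InnerProductSpace ℂ G] {ι : Type} [DecidableEq ι]

/-- Inclusion of one coordinate as a linear isometry. -/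
def singleI (i : ι) : G →ₗᵢ[ℂ] lp (fun _ : ι => G) 2 where
  toLinearMap := lp.lsingle (E := fun _ : ι => G) 2 i
  norm_map' x := lp.norm_single (E := fun _ : ι => G) (by simp) i x

theorem singleI_apply (i : ι) (x : G) :
    singleI i x = (lp.single 2 i x : lp (fun _ : ι => G) 2) := rfl

theorem orth_single : OrthogonalFamily ℂ (fun _ : ι => G) fun i => singleI (G := G) i := by
  intro i j hij u v
  rw [singleI_apply, singleI_apply, lp.inner_single_left, lp.single_apply_ne _ _ _ hij,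
    inner_zero_right]

end single

variable {X H G : Type*} [TopologicalSpace X] [CompactSpace X] [MeasurableSpace X]
  [BorelSpace X] [T2Space X]
  [NormedAddCommGroup H] [InnerProductSpace ℂ H] [CompleteSpace H]
  [NormedAddCommGroup G] [InnerProductSpace ℂ G] [CompleteSpace G] {ι : Type}

theorem exists_B (Θ : C(X, ℂ) →⋆ₐ[ℂ] (H →L[ℂ] H)) (b : HilbertBasis ι ℂ G) {ξ : ι → H}
    (hξ : Summable fun i => ‖ξ i‖ ^ 2) :
    ∃ (τ : Measure X) (_ : IsFiniteMeasure τ) (_ : τ.Regular) (B : H →L[ℂ] Lp G 2 τ),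
      ∀ i (g : C(X, ℂ)) h, ∫ x, g x * ⟪b i, B h x⟫_ℂ ∂τ = ⟪ξ i, Θ g h⟫_ℂ := by
  classical
  obtain ⟨τ, hfin, hreg, Bs, hBs, hsum⟩ := exists_scalar Θ hξ
  have hs : ∀ h, Summable fun i => ‖Bs i h‖ ^ 2 := fun h =>
    summable_of_sum_le (fun _ => sq_nonneg _) (hsum h)
  let T0 : H →ₗ[ℂ] lp (fun _ : ι => Lp ℂ 2 τ) 2 :=
    { toFun := fun h => ⟨fun i => Bs i h, memlp_of_summable (hs h)⟩
      map_add' := fun h h' => lp.ext (funext fun i => map_add (Bs i) h h')
      map_smul' := fun c h => lp.ext (funext fun i => map_smul (Bs i) c h) }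
  let T : H →L[ℂ] lp (fun _ : ι => Lp ℂ 2 τ) 2 := T0.mkContinuous 1 fun h => by
    rw [one_mul]
    exact le_of_sq_le_sq (hasSum_le_of_sum_le (lp_hasSum_sq (T0 h)) (hsum h)) (norm_nonneg _)
  have hV := b.orthonormal.orthogonalFamily
  refine ⟨τ, hfin, hreg, (orth_lift τ hV).linearIsometry.toContinuousLinearMap ∘L T,
    fun j g h => ?_⟩
  rw [← hBs]
  refine integral_congr_ae ?_
  have h1 := comp_series hV (T h) (innerSL ℂ (b j))
    (w := fun i => if i = j then Bs j h else 0) (S := Bs j h) (fun i => ?_) (hasSum_ite_eq j _)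
  · filter_upwards [h1] with x hx
    rw [hx]
    rfl
  · by_cases hij : i = j
    · subst hij
      refine Eventually.of_forall fun x => ?_
      have h2 : ⟪b i, b i⟫_ℂ = 1 := by
        rw [inner_self_eq_norm_sq_to_K, b.orthonormal.1 i]
        simp
      simp only [if_true, LinearIsometry.toSpanSingleton_apply, innerSL_apply_apply,
        inner_smul_right, h2, mul_one]
      rfl
    · simp only [if_neg hij]
      filter_upwards [Lp.coeFn_zero ℂ 2 τ] with x hx
      rw [hx]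
      simp only [LinearIsometry.toSpanSingleton_apply, innerSL_apply_apply, inner_smul_right,
        b.orthonormal.2 (Ne.symm hij), mul_zero]
      rfl

omit [T2Space X] [CompleteSpace G] in
theorem memLp_coord {τ : Measure X} [IsFiniteMeasure τ] (e : G) (g : C(X, ℂ)) (u : Lp G 2 τ) :
    MemLp (fun x => g x * ⟪e, u x⟫_ℂ) 2 τ := by
  have h1 : MemLp (fun x => ⟪e, u x⟫_ℂ) 2 τ := (innerSL ℂ e).comp_memLp u
  refine MemLp.of_le_mul (c := ‖g‖) h1 (g.continuous.aestronglyMeasurable.mul h1.1)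
    (Eventually.of_forall fun x => ?_)
  rw [norm_mul]
  exact mul_le_mul_of_nonneg_right (g.norm_coe_le_norm x) (norm_nonneg _)

omit [T2Space X] [CompleteSpace G] in
theorem integrable_coord {τ : Measure X} [IsFiniteMeasure τ] (e : G) (g : C(X, ℂ))
    (u : Lp G 2 τ) : Integrable (fun x => g x * ⟪e, u x⟫_ℂ) τ :=
  (memLp_coord e g u).integrable one_le_two

section fields

variable {Θ : C(X, ℂ) →⋆ₐ[ℂ] (H →L[ℂ] H)} {Z : G →L[ℂ] H} {b : HilbertBasis ι ℂ G}
  {τ : Measure X} [IsFiniteMeasure τ] [τ.Regular] {B : H →L[ℂ] Lp G 2 τ}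

omit [CompleteSpace G] in
theorem B_mul [Countable ι]
    (hB : ∀ i (g : C(X, ℂ)) h, ∫ x, g x * ⟪b i, B h x⟫_ℂ ∂τ = ⟪Z (b i), Θ g h⟫_ℂ)
    (f : C(X, ℂ)) (h : H) : B (Θ f h) =ᵐ[τ] fun x => f x • B h x := by
  have h1 : ∀ i, ∀ᵐ x ∂τ, (1 : C(X, ℂ)) x * ⟪b i, B (Θ f h) x⟫_ℂ - f x * ⟪b i, B h x⟫_ℂ = 0 := by
    intro i
    refine ae_zero_of_test ((memLp_coord _ _ _).sub (memLp_coord _ _ _)) fun g => ?_
    have h2 : ∀ x, g x * ((1 : C(X, ℂ)) x * ⟪b i, B (Θ f h) x⟫_ℂ - f x * ⟪b i, B h x⟫_ℂ) =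
        g x * ⟪b i, B (Θ f h) x⟫_ℂ - (g * f) x * ⟪b i, B h x⟫_ℂ := fun x => by
      simp only [ContinuousMap.one_apply, ContinuousMap.mul_apply]
      ring
    simp only [h2]
    rw [integral_sub (integrable_coord _ _ _) (integrable_coord _ _ _), hB, hB, theta_mul,
      sub_self]
  filter_upwards [ae_all_iff.2 h1] with x hx
  refine eq_of_inner_basis b fun i => ?_
  have := hx i
  rw [ContinuousMap.one_apply, one_mul, sub_eq_zero] at this
  rw [this, inner_smul_right]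

omit [T2Space X] [τ.Regular] [BorelSpace X] [CompactSpace X] in
theorem B_int
    (hB : ∀ i (g : C(X, ℂ)) h, ∫ x, g x * ⟪b i, B h x⟫_ℂ ∂τ = ⟪Z (b i), Θ g h⟫_ℂ)
    (h : H) : ∫ x, B h x ∂τ = (Z†) h := by
  refine eq_of_inner_basis b fun i => ?_
  have h1 := hB i 1 h
  simp only [ContinuousMap.one_apply, one_mul, map_one, one_apply_eq_self] at h1
  rw [ContinuousLinearMap.adjoint_inner_right, ← h1,
    integral_inner ((Lp.memLp (B h)).integrable one_le_two)]

omit [CompleteSpace G] in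
theorem B_sa
    (hB : ∀ i (g : C(X, ℂ)) h, ∫ x, g x * ⟪b i, B h x⟫_ℂ ∂τ = ⟪Z (b i), Θ g h⟫_ℂ) (i j : ι) :
    ∀ᵐ x ∂τ, ⟪b j, B (Z (b i)) x⟫_ℂ = conj ⟪b i, B (Z (b j)) x⟫_ℂ := by
  have h1 : ∀ᵐ x ∂τ, (1 : C(X, ℂ)) x * ⟪b j, B (Z (b i)) x⟫_ℂ -
      star ((1 : C(X, ℂ)) x * ⟪b i, B (Z (b j)) x⟫_ℂ) = 0 := by
    refine ae_zero_of_test ((memLp_coord _ _ _).sub (memLp_coord _ _ _).star) fun g => ?_
    have h2 : ∀ x, g x * ((1 : C(X, ℂ)) x * ⟪b j, B (Z (b i)) x⟫_ℂ -
        star ((1 : C(X, ℂ)) x * ⟪b i, B (Z (b j)) x⟫_ℂ)) =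
        g x * ⟪b j, B (Z (b i)) x⟫_ℂ - conj ((star g) x * ⟪b i, B (Z (b j)) x⟫_ℂ) := fun x => by
      simp only [ContinuousMap.one_apply, ContinuousMap.star_apply, one_mul, Complex.star_def,
        map_mul, Complex.conj_conj]
      ring
    simp only [h2]
    have h3 : Integrable (fun x => conj ((star g) x * ⟪b i, B (Z (b j)) x⟫_ℂ)) τ :=
      ((memLp_coord _ _ _).star).integrable one_le_two
    rw [integral_sub (integrable_coord _ _ _) h3, integral_conj, hB, hB,
      inner_conj_symm, theta_inner, sub_self]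
  filter_upwards [h1] with x hx
  rw [ContinuousMap.one_apply, one_mul, one_mul, sub_eq_zero] at hx
  exact hx

theorem compact_scalar [Countable ι]
    (hB : ∀ i (g : C(X, ℂ)) h, ∫ x, g x * ⟪b i, B h x⟫_ℂ ∂τ = ⟪Z (b i), Θ g h⟫_ℂ)
    (hZ : IsCompactOperator (Z†)) (ψ : Lp ℂ 2 τ) :
    IsCompactOperator ((ContinuousLinearMap.lsmul ℂ ℂ (E := G)).lpPairing τ 2 2 ψ ∘L B) := by
  have hd := ContinuousMap.toLp_denseRange ℂ τ ℂ (p := 2) (by simp)
  refine hd.induction_on
    (p := fun ψ : Lp ℂ 2 τ =>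
      IsCompactOperator ((ContinuousLinearMap.lsmul ℂ ℂ (E := G)).lpPairing τ 2 2 ψ ∘L B)) ψ
    (isClosed_setOfPred_isCompactOperator.preimage
      (f := fun ψ : Lp ℂ 2 τ => (ContinuousLinearMap.lsmul ℂ ℂ (E := G)).lpPairing τ 2 2 ψ ∘L B)
      (by fun_prop)) fun g => ?_
  have h1 : (ContinuousLinearMap.lsmul ℂ ℂ (E := G)).lpPairing τ 2 2
      (ContinuousMap.toLp (E := ℂ) 2 τ ℂ g) ∘L B = (Z†) ∘L Θ g := by
    ext h
    rw [ContinuousLinearMap.comp_apply, ContinuousLinearMap.comp_apply,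
      ContinuousLinearMap.lpPairing_eq_integral, ← B_int hB]
    refine integral_congr_ae ?_
    filter_upwards [ContinuousMap.coeFn_toLp (E := ℂ) (p := 2) (μ := τ) (𝕜 := ℂ) g,
      B_mul hB g h] with x hx hx'
    rw [hx, hx']
    rfl
  rw [h1]
  exact hZ.comp_clm (Θ g)

theorem compact_ker [Countable ι]
    (hB : ∀ i (g : C(X, ℂ)) h, ∫ x, g x * ⟪b i, B h x⟫_ℂ ∂τ = ⟪Z (b i), Θ g h⟫_ℂ)
    (hZ : IsCompactOperator (Z†)) (A : X → G →L[ℂ] H) (hA : MemLp A 2 τ) :
    ∃ Y : H →L[ℂ] H, IsCompactOperator Y ∧ ∀ h, Y h = ∫ x, A x (B h x) ∂τ := by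
  let Φ : Lp (G →L[ℂ] H) 2 τ → H →L[ℂ] H := fun A =>
    (ContinuousLinearMap.id ℂ (G →L[ℂ] H)).lpPairing τ 2 2 A ∘L B
  have hΦ : ∀ A h, Φ A h = ∫ x, A x (B h x) ∂τ := fun A h =>
    ContinuousLinearMap.lpPairing_eq_integral _ _ _
  have hall : ∀ A, IsCompactOperator (Φ A) := by
    refine Lp.induction (p := 2) (by simp) (fun A => IsCompactOperator (Φ A)) ?_ ?_
      (isClosed_setOfPred_isCompactOperator.preimage (f := Φ) (by fun_prop))
    · intro c s hs hμ
      have h1 : Φ (Lp.simpleFunc.indicatorConst 2 hs hμ.ne c) =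
          c ∘L ((ContinuousLinearMap.lsmul ℂ ℂ (E := G)).lpPairing τ 2 2
            (indicatorConstLp 2 hs hμ.ne (1 : ℂ)) ∘L B) := by
        ext h
        rw [hΦ, ContinuousLinearMap.comp_apply, ContinuousLinearMap.comp_apply,
          ContinuousLinearMap.lpPairing_eq_integral, ← c.integral_comp_comm]
        · refine integral_congr_ae ?_
          rw [Lp.simpleFunc.coe_indicatorConst]
          filter_upwards [indicatorConstLp_coeFn (p := 2) (hs := hs) (hμs := hμ.ne) (c := c),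
            indicatorConstLp_coeFn (p := 2) (hs := hs) (hμs := hμ.ne) (c := (1 : ℂ))]
            with x hx hx'
          rw [hx, hx']
          by_cases hxs : x ∈ s <;> simp [hxs]
        · exact memLp_one_iff_integrable.1
            ((ContinuousLinearMap.lsmul ℂ ℂ (E := G)).memLp_of_bilin 1 (Lp.memLp _) (Lp.memLp _))
      rw [h1]
      exact (compact_scalar hB hZ _).clm_comp c
    · intro f g hf hg _ h1 h2
      have h3 : Φ (hf.toLp f + hg.toLp g) = Φ (hf.toLp f) + Φ (hg.toLp g) := by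
        simp only [Φ, map_add, ContinuousLinearMap.add_comp]
      rw [h3]
      exact h1.add h2
  refine ⟨Φ (hA.toLp A), hall _, fun h => ?_⟩
  rw [hΦ]
  refine integral_congr_ae ?_
  filter_upwards [hA.coeFn_toLp] with x hx
  rw [hx]

end fields

theorem compact_adjoint (b : HilbertBasis ι ℂ G) (Z : G →L[ℂ] H)
    (hZ : Summable fun i => ‖Z (b i)‖ ^ 2) : IsCompactOperator (Z†) := by
  classical
  let A : lp (fun _ : ι => H) 2 := ⟨fun i => Z (b i), memlp_of_summable hZ⟩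
  have h0 : Z = op b A := ext_basis b fun i => by rw [op_basis]
  have h := ((lp.hasSum_single (p := 2) (by simp) A).mapL (op b)).map
    (ContinuousLinearMap.adjoint (𝕜 := ℂ) (E := G) (F := H))
    (ContinuousLinearMap.adjoint (𝕜 := ℂ) (E := G) (F := H)).continuous
  rw [← h0] at h
  refine isCompactOperator_of_tendsto (l := atTop) h (Eventually.of_forall fun s => ?_)
  refine (Submodule.sum_mem (compactOperator (RingHom.id ℂ) H G) fun i _ => ?_ :
    (∑ i ∈ s, _) ∈ compactOperator (RingHom.id ℂ) H G)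
  change IsCompactOperator ((op b (lp.single 2 i (A i)))†)
  have h1 : (((op b (lp.single 2 i (A i)))†) : H → G) =
      (ContinuousLinearMap.toSpanSingleton ℂ (b i)) ∘ (innerSL ℂ (A i)) := by
    funext h
    refine ext_inner_left ℂ fun d => ?_
    rw [ContinuousLinearMap.adjoint_inner_right, op_single]
    simp [inner_smul_left, inner_smul_right, mul_comm]
  rw [h1]
  exact (isCompactOperator_of_locallyCompactSpace_dom (innerSL ℂ (A i))).clm_comp _

end Ex

variable {X H G : Type*} [TopologicalSpace X] [CompactSpace X] [MeasurableSpace X]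
  [BorelSpace X]
  [NormedAddCommGroup H] [InnerProductSpace ℂ H] [CompleteSpace H]
  [NormedAddCommGroup G] [InnerProductSpace ℂ G] [CompleteSpace G]

theorem exists_model [T2Space X] (Θ : C(X, ℂ) →⋆ₐ[ℂ] (H →L[ℂ] H)) (Z : G →L[ℂ] H)
    {ι : Type} [Countable ι] (b : HilbertBasis ι ℂ G) (hZ : Summable fun i => ‖Z (b i)‖ ^ 2) :
    ∃ m : Model X H G (lp (fun _ : ι => G) 2), m.Θ = Θ ∧ m.Z = Z := by
  classical
  obtain ⟨τ, hfin, hreg, B, hB⟩ := Ex.exists_B Θ b hZ
  have hs : Summable fun i => ‖B (Z (b i))‖ ^ 2 := by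
    refine Summable.of_nonneg_of_le (fun _ => sq_nonneg _) (fun i => ?_) (hZ.mul_left (‖B‖ ^ 2))
    rw [← mul_pow]
    exact pow_le_pow_left₀ (norm_nonneg _) (B.le_opNorm _) 2
  let u : lp (fun _ : ι => Lp G 2 τ) 2 := ⟨fun i => B (Z (b i)), Ex.memlp_of_summable hs⟩
  let Γ0 : Lp (lp (fun _ : ι => G) 2) 2 τ := (Ex.orth_lift τ Ex.orth_single).linearIsometry u
  have hΓ : ∀ d, B (Z d) =ᵐ[τ] fun x => Ex.op b (Γ0 x) d := fun d => by
    have h1 : HasSum (fun i => ⟪b i, d⟫_ℂ • B (Z (b i))) (B (Z d)) := by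
      simpa only [map_smul, HilbertBasis.repr_apply_apply, ContinuousLinearMap.comp_apply]
        using (b.hasSum_repr d).mapL (B ∘L Z)
    refine Ex.comp_series Ex.orth_single u ((Ex.op b).flip d) (fun i => ?_) h1
    filter_upwards [Lp.coeFn_smul ⟪b i, d⟫_ℂ (B (Z (b i)))] with x hx
    rw [hx, ContinuousLinearMap.flip_apply, Ex.singleI_apply, Ex.op_single]
    rfl
  have hint : Integrable Γ0 τ := (Lp.memLp Γ0).integrable one_le_two
  refine ⟨{ Θ := Θ, Z := Z, τ := τ, fin := hfin, B := B, Op := Ex.op b, Γ := Γ0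
            B_mul := Ex.B_mul hB
            B_int := Ex.B_int hB
            compact_Op := Ex.compact_op b
            compact_Z := Ex.compact_of_summable b Z hZ
            compact_ker := Ex.compact_ker hB (Ex.compact_adjoint b Z hZ)
            Γ_meas := Lp.stronglyMeasurable Γ0
            Γ_int := hint
            Γ_eq := hΓ
            Γ_sa := ?_
            tail := Ex.tail_op b (Lp.stronglyMeasurable Γ0) hint }, rfl, rfl⟩
  filter_upwards [ae_all_iff.2 fun i => hΓ (b i),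
    ae_all_iff.2 fun i => ae_all_iff.2 fun j => Ex.B_sa hB i j] with x hx hx'
  refine Ex.isSelfAdjoint_of_basis b fun i j => ?_
  rw [← hx i, ← hx j]
  exact hx' i j

end Pool.Agent.P.MP_f981b0_an.TC
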