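import Pool.Agent.P.MP_f981b0_an.TC.Model

set_option autoImplicit false

noncomputable section

namespace Pool.Agent.P.MP_f981b0_an.TC

open Set

variable {E F : Type*} [NormedAddCommGroup E] [NormedSpace ℂ E] [NormedAddCommGroup F]
    [NormedSpace ℂ F]

theorem lb_bdd (L : E →L[ℂ] F) : BddAbove {c : ℝ | 0 ≤ c ∧ c ≤ 1 ∧ ∀ d, c * ‖d‖ ≤ ‖L d‖} :=
  ⟨1, fun _ hc => hc.2.1⟩

theorem lb_zero_mem (L : E →L[ℂ] F) :
    (0 : ℝ) ∈ {c : ℝ | 0 ≤ c ∧ c ≤ 1 ∧ ∀ d, c * ‖d‖ ≤ ‖L d‖} :=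
  ⟨le_rfl, zero_le_one, fun d => by simp⟩

theorem lb_nonneg (L : E →L[ℂ] F) : 0 ≤ lb L := le_csSup (lb_bdd L) (lb_zero_mem L)

theorem lb_le_one (L : E →L[ℂ] F) : lb L ≤ 1 :=
  csSup_le ⟨0, lb_zero_mem L⟩ fun _ hc => hc.2.1

theorem lb_mul_le (L : E →L[ℂ] F) (d : E) : lb L * ‖d‖ ≤ ‖L d‖ := by
  rcases eq_or_ne d 0 with rfl | hd
  · simp
  have h0 : 0 < ‖d‖ := norm_pos_iff.2 hd
  rw [← le_div_iff₀ h0]
  exact csSup_le ⟨0, lb_zero_mem L⟩ fun c hc => (le_div_iff₀ h0).2 (hc.2.2 d)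

theorem le_lb {L : E →L[ℂ] F} {c : ℝ} (h1 : c ≤ 1) (h : ∀ d, c * ‖d‖ ≤ ‖L d‖) : c ≤ lb L := by
  rcases le_total 0 c with h0 | h0
  · exact le_csSup (lb_bdd L) ⟨h0, h1, h⟩
  · exact h0.trans (lb_nonneg L)

theorem exists_unit_of_lb_lt {L : E →L[ℂ] F} {c : ℝ} (h : lb L < c) (h1 : c ≤ 1) :
    ∃ d, ‖d‖ = 1 ∧ ‖L d‖ < c := by
  by_contra hcon
  push Not at hcon
  refine absurd (le_lb h1 fun d => ?_) (not_le.2 h)
  rcases eq_or_ne d 0 with rfl | hd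
  · simp
  have h0 : 0 < ‖d‖ := norm_pos_iff.2 hd
  have h2 := hcon (((‖d‖⁻¹ : ℝ) : ℂ) • d) (by
    rw [norm_smul, Complex.norm_real, norm_inv, norm_norm, inv_mul_cancel₀ h0.ne'])
  rw [map_smul, norm_smul, Complex.norm_real, norm_inv, norm_norm, inv_mul_eq_div,
    le_div_iff₀ h0] at h2
  exact h2

theorem lb_sub_le (L L' : E →L[ℂ] F) : lb L - ‖L - L'‖ ≤ lb L' := by
  refine le_lb (by linarith [lb_le_one L, norm_nonneg (L - L')]) fun d => ?_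
  have h1 := lb_mul_le L d
  have h2 := (L - L').le_opNorm d
  have h3 : ‖L d‖ ≤ ‖L' d‖ + ‖(L - L') d‖ := by
    have : L d = L' d + (L - L') d := by simp
    rw [this]
    exact norm_add_le _ _
  nlinarith

theorem lipschitz_lb : LipschitzWith 1 (lb : (E →L[ℂ] F) → ℝ) := by
  refine LipschitzWith.of_le_add fun L L' => ?_
  have := lb_sub_le L L'
  rw [dist_eq_norm]
  linarith

/-- Adjoining a vector outside the range keeps an operator bounded below. -/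
theorem lb_pos_of_notMem [CompleteSpace E] {L : E →L[ℂ] F} (hL : 0 < lb L) {v : F}
    (hv : ∀ e, L e ≠ v) {L' : ℂ × E →L[ℂ] F} (hL' : ∀ l e, L' (l, e) = L e - l • v) :
    0 < lb L' := by
  have hanti : AntilipschitzWith (⟨(lb L)⁻¹, (inv_pos.2 hL).le⟩ : NNReal) L := by
    refine L.antilipschitz_of_bound fun x => ?_
    have := lb_mul_le L x
    change ‖x‖ ≤ (lb L)⁻¹ * ‖L x‖
    rw [inv_mul_eq_div, le_div_iff₀ hL, mul_comm]
    exact this
  have hcl : IsClosed (range L) := hanti.isClosed_range L.uniformContinuous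
  have hv' : v ∉ range L := fun ⟨e, he⟩ => hv e he
  obtain ⟨δ, hδ, hball⟩ := Metric.isOpen_iff.1 hcl.isOpen_compl v hv'
  have hfar : ∀ e, δ ≤ ‖L e - v‖ := fun e => by
    by_contra hc
    push Not at hc
    exact hball (by rwa [Metric.mem_ball, dist_eq_norm]) ⟨e, rfl⟩
  have h1 : ∀ (l : ℂ) e, δ * ‖l‖ ≤ ‖L e - l • v‖ := fun l e => by
    rcases eq_or_ne l 0 with rfl | hl
    · simp
    have h2 : L e - l • v = l • (L (l⁻¹ • e) - v) := by
      rw [map_smul, smul_sub, smul_smul, mul_inv_cancel₀ hl, one_smul]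
    rw [h2, norm_smul, mul_comm]
    exact mul_le_mul_of_nonneg_left (hfar _) (norm_nonneg _)
  set κ : ℝ := 1 + ‖v‖ / δ with hκ
  have hκ0 : 0 < κ := by positivity
  have h3 : ∀ (l : ℂ) e, lb L / κ * ‖e‖ ≤ ‖L e - l • v‖ := fun l e => by
    have h4 : ‖L e‖ ≤ ‖L e - l • v‖ + ‖l‖ * ‖v‖ := by
      have : L e = (L e - l • v) + l • v := by simp
      calc ‖L e‖ = ‖(L e - l • v) + l • v‖ := by rw [← this]
        _ ≤ ‖L e - l • v‖ + ‖l • v‖ := norm_add_le _ _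
        _ = _ := by rw [norm_smul]
    have h5 : ‖l‖ ≤ ‖L e - l • v‖ / δ := by
      rw [le_div_iff₀ hδ, mul_comm]
      exact h1 l e
    have h6 : ‖l‖ * ‖v‖ ≤ ‖L e - l • v‖ / δ * ‖v‖ :=
      mul_le_mul_of_nonneg_right h5 (norm_nonneg _)
    have h7 := lb_mul_le L e
    rw [div_mul_eq_mul_div, div_le_iff₀ hκ0, hκ]
    have h8 : ‖L e - l • v‖ * (1 + ‖v‖ / δ) = ‖L e - l • v‖ + ‖L e - l • v‖ / δ * ‖v‖ := by
      field_simp
    linarith
  refine lt_of_lt_of_le (lt_min one_pos (lt_min hδ (div_pos hL hκ0)))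
    (le_lb (min_le_left _ _) ?_)
  rintro ⟨l, e⟩
  rw [hL', Prod.norm_mk]
  have hm0 : 0 ≤ min 1 (min δ (lb L / κ)) :=
    (lt_min one_pos (lt_min hδ (div_pos hL hκ0))).le
  rw [mul_max_of_nonneg _ _ hm0]
  refine max_le ?_ ?_
  · exact (mul_le_mul_of_nonneg_right ((min_le_right _ _).trans (min_le_left _ _))
      (norm_nonneg _)).trans (h1 l e)
  · exact (mul_le_mul_of_nonneg_right ((min_le_right _ _).trans (min_le_right _ _))
      (norm_nonneg _)).trans (h3 l e)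

end Pool.Agent.P.MP_f981b0_an.TC
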