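import Pool.Agent.P.MP_f981b0_an.TC.AE
import Pool.Agent.P.MP_f981b0_an.TC.Lb

set_option autoImplicit false

noncomputable section

namespace Pool.Agent.P.MP_f981b0_an.TC

open MeasureTheory Metric Set Filter Topology
open scoped InnerProductSpace InnerProduct
open R1

theorem norm_sq_L2 {X G : Type*} [MeasurableSpace X] [NormedAddCommGroup G]
    [InnerProductSpace ℂ G] {τ : Measure X} (f : Lp G 2 τ) : ‖f‖ ^ 2 = ∫ x, ‖f x‖ ^ 2 ∂τ := by
  rw [@norm_sq_eq_re_inner ℂ, L2.inner_def, ← integral_re (L2.integrable_inner f f)]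
  simp only [inner_self_eq_norm_sq]

theorem integral_norm_L2 {X G : Type*} [MeasurableSpace X] [NormedAddCommGroup G]
    [InnerProductSpace ℂ G] {τ : Measure X} [IsFiniteMeasure τ] (f : Lp G 2 τ) :
    ∫ x, ‖f x‖ ∂τ ≤ √(τ.real univ) * ‖f‖ := by
  have h := integral_le_sqrt τ ((Lp.memLp f).integrable one_le_two).norm
    ((memLp_two_iff_integrable_sq_norm (Lp.aestronglyMeasurable f)).1 (Lp.memLp f))
  rwa [← norm_sq_L2, Real.sqrt_mul measureReal_nonneg, Real.sqrt_sq (norm_nonneg _)] at h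

variable {X H G K : Type*} [TopologicalSpace X] [CompactSpace X] [MeasurableSpace X]
  [BorelSpace X]
  [NormedAddCommGroup H] [InnerProductSpace ℂ H] [CompleteSpace H]
  [NormedAddCommGroup G] [InnerProductSpace ℂ G] [CompleteSpace G]
  [NormedAddCommGroup K] [InnerProductSpace ℂ K] [CompleteSpace K]

namespace Model

variable (m : Model X H G K) (a : C(X, ℂ))

omit [BorelSpace X] in
theorem int_B (h : H) : Integrable (m.B h) m.τ := (Lp.memLp _).integrable one_le_two

/-- The Cauchy transform of the density of `h`. -/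
def al (h : H) (z : ℂ) : G := VT m.τ a (m.B h) z

theorem al_add (h k : H) : ∀ᵐ z : ℂ, m.al a (h + k) z = m.al a h z + m.al a k z := by
  filter_upwards [ae_integrable_VT a.measurable (m.int_B h),
    ae_integrable_VT a.measurable (m.int_B k)] with z h1 h2
  rw [al, al, al, VT, VT, VT, ← integral_add h1 h2, map_add]
  refine integral_congr_ae ?_
  filter_upwards [Lp.coeFn_add (m.B h) (m.B k)] with x hx
  rw [hx, Pi.add_apply, smul_add]

omit [BorelSpace X] in
theorem al_smul (c : ℂ) (h : H) (z : ℂ) : m.al a (c • h) z = c • m.al a h z := by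
  rw [al, al, VT, VT, ← integral_smul, map_smul]
  refine integral_congr_ae ?_
  filter_upwards [Lp.coeFn_smul c (m.B h)] with x hx
  rw [hx, Pi.smul_apply, smul_comm]

theorem al_Theta (h : H) :
    ∀ᵐ z : ℂ, m.al a (m.Θ a h) z = (m.Z†) h + z • m.al a h z := by
  filter_upwards [ae_integrable_VT a.measurable (m.int_B h), ae_ae_ne (τ := m.τ) a.measurable]
    with z h1 h2
  have i1 : Integrable (fun x => z • (a x - z)⁻¹ • m.B h x) m.τ := h1.smul z
  rw [al, al, VT, VT, ← m.B_int, ← integral_smul, ← integral_add (m.int_B h) i1]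
  refine integral_congr_ae ?_
  filter_upwards [m.B_mul a h, h2] with x hx hne
  have h3 : a x - z ≠ 0 := sub_ne_zero.2 hne
  have h4 : (a x - z)⁻¹ * a x = 1 + z * (a x - z)⁻¹ := by
    field_simp
    ring
  rw [hx, smul_smul, h4, add_smul, one_smul, mul_smul]

theorem al_Z : ∀ᵐ z : ℂ, ∀ e, m.al a (m.Z e) z = m.Op (VT m.τ a m.Γ z) e := by
  filter_upwards [ae_integrable_VT a.measurable m.Γ_int] with z h1 e
  have h2 := (m.Op.flip e).integral_comp_comm h1
  rw [ContinuousLinearMap.flip_apply] at h2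
  rw [al, VT, VT, ← h2]
  refine integral_congr_ae ?_
  filter_upwards [m.Γ_eq e] with x hx
  rw [hx]
  simp

end Model

namespace Sys

variable {m : Model X H G K} (s : Sys m)

/-- The constant factor of the symbol. -/
def W : G →L[ℂ] G × G := s.S.prod (1 - s.R†)

omit [BorelSpace X] in
theorem Th_apply (A : K) (e : G) : s.Th A e = (e, 0) + s.W (m.Op A e) := by
  simp [Th, Th1, Th2, W]

omit [BorelSpace X] in
theorem lipschitz_Th : ∃ L, LipschitzWith L s.Th := by
  have hW := s.W.opNorm_nonneg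
  have hO := m.Op.opNorm_nonneg
  refine ⟨⟨‖s.W‖ * ‖m.Op‖, by positivity⟩, LipschitzWith.of_dist_le_mul fun A A' => ?_⟩
  rw [dist_eq_norm, dist_eq_norm]
  refine ContinuousLinearMap.opNorm_le_bound _ (by positivity) fun e => ?_
  rw [sub_apply, Th_apply, Th_apply, add_sub_add_left_eq_sub, ← map_sub, ← sub_apply, ← map_sub]
  refine (s.W.le_opNorm _).trans ?_
  change _ ≤ ‖s.W‖ * ‖m.Op‖ * ‖A - A'‖ * ‖e‖
  rw [mul_assoc, mul_assoc, ← mul_assoc ‖m.Op‖]
  exact mul_le_mul_of_nonneg_left (m.Op.le_opNorm₂ _ _) hW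

omit [BorelSpace X] in
theorem adjoint_PZ (h : H) : (m.Z†) (s.P h) = (s.R†) ((m.Z†) h) := by
  have h1 := congrArg ContinuousLinearMap.adjoint s.PZ
  rw [ContinuousLinearMap.adjoint_comp, ContinuousLinearMap.adjoint_comp,
    s.P_proj.isSelfAdjoint.adjoint_eq] at h1
  exact congrArg (fun L : H →L[ℂ] G => L h) h1

omit [BorelSpace X] in
theorem P_T (h : H) : s.P (s.T h) = s.T (s.P h) :=
  congrArg (fun L : H →L[ℂ] H => L h) s.comm

omit [BorelSpace X] in
theorem P_P (h : H) : s.P (s.P h) = s.P h :=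
  congrArg (fun L : H →L[ℂ] H => L h) s.P_proj.isIdempotentElem

omit [BorelSpace X] in
theorem P_Z (d : G) : s.P (m.Z d) = m.Z (s.R d) :=
  congrArg (fun L : G →L[ℂ] H => L d) s.PZ

omit [BorelSpace X] in
theorem T_apply (h : H) : s.T h = m.Θ s.a h + m.Z (s.S ((m.Z†) h)) := rfl

/-- `h` is represented by the entire function `f` modulo the range of the symbol. -/
def Rel (v : G × G) (h : H) (f : ℂ → ℂ) : Prop :=
  s.P h = h ∧ Differentiable ℂ f ∧
    ∃ Q : ℂ → G, ∀ᵐ z : ℂ, s.W (m.al s.a h z) = s.Th (s.GG z) (Q z) - f z • v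

variable {s} {v : G × G}

theorem Rel.add {h k : H} {f g : ℂ → ℂ} (h1 : s.Rel v h f) (h2 : s.Rel v k g) :
    s.Rel v (h + k) fun z => f z + g z := by
  obtain ⟨a1, a2, Q, a3⟩ := h1
  obtain ⟨b1, b2, Q', b3⟩ := h2
  refine ⟨by rw [map_add, a1, b1], a2.add b2, fun z => Q z + Q' z, ?_⟩
  filter_upwards [a3, b3, m.al_add s.a h k] with z e1 e2 e3
  rw [e3, map_add, e1, e2, map_add, add_smul]
  abel

omit [BorelSpace X] in
theorem Rel.smul {h : H} {f : ℂ → ℂ} (h1 : s.Rel v h f) (c : ℂ) :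
    s.Rel v (c • h) fun z => c * f z := by
  obtain ⟨a1, a2, Q, a3⟩ := h1
  refine ⟨by rw [map_smul, a1], a2.const_mul c, fun z => c • Q z, ?_⟩
  filter_upwards [a3] with z e1
  rw [m.al_smul, map_smul, e1, map_smul, smul_sub, mul_smul]

theorem Rel.step {h : H} {f : ℂ → ℂ} (h1 : s.Rel v h f) :
    s.Rel v (s.T h) fun z => z * f z := by
  obtain ⟨a1, a2, Q, a3⟩ := h1
  refine ⟨by rw [P_T, a1], differentiable_id.mul a2, fun z => z • Q z + s.S ((m.Z†) h), ?_⟩
  filter_upwards [a3, m.al_add s.a (m.Θ s.a h) (m.Z (s.S ((m.Z†) h))), m.al_Theta s.a h,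
    m.al_Z s.a] with z e1 e2 e3 e4
  have e5 : s.W ((m.Z†) h) = (s.S ((m.Z†) h), 0) := by
    have := s.adjoint_PZ h
    rw [a1] at this
    simp [W, ← this]
  rw [T_apply, e2, e3, e4, map_add, map_add, map_smul, e1, e5, map_add, map_smul,
    Th_apply s _ (s.S _), smul_sub, mul_smul, GG]
  abel

theorem rel_base (s : Sys m) (d : G) : s.Rel (s.R d, 0) (m.Z (s.R d)) fun _ => 1 := by
  refine ⟨by rw [← P_Z, P_P], differentiable_const _, fun _ => s.R d, ?_⟩
  filter_upwards [m.al_Z s.a] with z e1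
  rw [e1, Th_apply, one_smul, GG]
  abel

theorem rel_bound (hG : GoodOfRoute) (s : Sys m) (v : G × G) :
    ∀ᵐ z0 : ℂ, 0 < s.rho z0 → (∀ e, s.Th (s.GG z0) e ≠ v) →
      ∃ C : ℝ, 0 < C ∧ ∀ h f, s.Rel v h f → ‖f z0‖ ≤ C * ‖h‖ := by
  filter_upwards [ae_integrable_VT s.a.measurable m.Γ_int, ae_ae_ne (τ := m.τ) s.a.measurable]
    with z0 hI hne hpos hv
  let L' : K → ℂ × G →L[ℂ] G × G := fun A =>
    s.Th A ∘L ContinuousLinearMap.snd ℂ ℂ G - (ContinuousLinearMap.fst ℂ ℂ G).smulRight v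
  have hL' : ∀ A l e, L' A (l, e) = s.Th A e - l • v := fun A l e => rfl
  obtain ⟨L, hL⟩ := s.lipschitz_Th
  have hlip : LipschitzWith (1 * L) fun A => lb (L' A) := by
    refine lipschitz_lb.comp (LipschitzWith.of_dist_le_mul fun A A' => ?_)
    refine le_trans ?_ (hL.dist_le_mul A A')
    rw [dist_eq_norm, dist_eq_norm]
    refine ContinuousLinearMap.opNorm_le_bound _ (ContinuousLinearMap.opNorm_nonneg _) fun p => ?_
    obtain ⟨l, e⟩ := p
    rw [sub_apply, hL', hL', sub_sub_sub_cancel_right, ← sub_apply]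
    exact ((s.Th A - s.Th A').le_opNorm e).trans
      (mul_le_mul_of_nonneg_left (norm_snd_le (l, e)) (ContinuousLinearMap.opNorm_nonneg _))
  obtain ⟨r, hr, r0, C, hr0, -, hC⟩ := bpe_at hG hlip (fun A => lb_nonneg _) (fun A => lb_le_one _)
    s.a.measurable m.Γ_int hI hne (lb_pos_of_notMem hpos hv (hL' _))
  set κ : ℝ := ‖s.W‖ * (10 * 1 * (r⁻¹ * (√(m.τ.real univ) * ‖m.B‖))) with hκ
  have hκ0 : 0 ≤ κ := by positivity
  refine ⟨|C| * κ + 1, by positivity, fun h f hf => ?_⟩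
  obtain ⟨-, a2, Q, a3⟩ := hf
  have hq : Differentiable ℂ fun z => f (z0 + r * z) := a2.comp (by fun_prop)
  have hinf : Hinf fun z => f (z0 + r * z) := by
    refine ⟨hq.differentiableOn, ?_⟩
    obtain ⟨B, hB⟩ := (isCompact_closedBall (0 : ℂ) 1).exists_bound_of_continuousOn
      hq.continuous.continuousOn
    exact ⟨B, fun z hz => hB z (ball_subset_closedBall hz)⟩
  have h1 := hC _ hinf 0 (mem_ball_self hr0)
  rw [mul_zero, add_zero] at h1
  have hqm : Measure.QuasiMeasurePreserving (fun z : ℂ => z0 + r * z) volume volume := by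
    have := (measurePreserving_add_left volume z0).quasiMeasurePreserving.comp
      (Measure.quasiMeasurePreserving_smul (volume : Measure ℂ) hr.ne')
    exact this
  have ha' : Measurable fun x => (s.a x - z0) / r := by fun_prop
  have hF' : Integrable (fun x => (r : ℂ)⁻¹ • m.B h x) m.τ := (m.int_B h).smul _
  obtain ⟨i1, i2⟩ := integrableOn_VT ha' hF' 0 one_pos
  have h2 : ∫ z in ball (0 : ℂ) 1, lb (L' (VT m.τ s.a m.Γ (z0 + r * z))) * ‖f (z0 + r * z)‖ ≤
      ∫ z in ball (0 : ℂ) 1, ‖s.W‖ *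
        ‖VT m.τ (fun x => (s.a x - z0) / r) (fun x => (r : ℂ)⁻¹ • m.B h x) z‖ := by
    refine integral_mono_of_nonneg
      (Eventually.of_forall fun z => mul_nonneg (lb_nonneg _) (norm_nonneg _))
      (i1.norm.const_mul _) (ae_restrict_of_ae ?_)
    filter_upwards [hqm.ae a3] with z hz
    have h3 := lb_mul_le (L' (s.GG (z0 + r * z))) (f (z0 + r * z), Q (z0 + r * z))
    rw [hL', ← hz, Model.al, VT_rescale z0 z hr] at h3
    exact ((mul_le_mul_of_nonneg_left (norm_fst_le (f (z0 + r * z), Q (z0 + r * z)))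
      (lb_nonneg _)).trans h3).trans (s.W.le_opNorm _)
  have h4 : ∫ x, ‖(r : ℂ)⁻¹ • m.B h x‖ ∂m.τ ≤ r⁻¹ * (√(m.τ.real univ) * ‖m.B‖) * ‖h‖ := by
    simp only [norm_smul, norm_inv, Complex.norm_real, Real.norm_of_nonneg hr.le]
    rw [integral_const_mul, mul_assoc, mul_assoc]
    refine mul_le_mul_of_nonneg_left ((integral_norm_L2 _).trans ?_) (by positivity)
    exact mul_le_mul_of_nonneg_left (m.B.le_opNorm h) (Real.sqrt_nonneg _)
  rw [integral_const_mul] at h2
  have h5 : ∫ z in ball (0 : ℂ) 1, lb (L' (VT m.τ s.a m.Γ (z0 + r * z))) * ‖f (z0 + r * z)‖ ≤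
      κ * ‖h‖ := by
    refine h2.trans ?_
    rw [hκ, mul_assoc]
    refine mul_le_mul_of_nonneg_left (i2.trans ?_) s.W.opNorm_nonneg
    rw [mul_assoc (10 * 1 : ℝ)]
    exact mul_le_mul_of_nonneg_left h4 (by norm_num)
  have h6 : 0 ≤ ∫ z in ball (0 : ℂ) 1,
      lb (L' (VT m.τ s.a m.Γ (z0 + r * z))) * ‖f (z0 + r * z)‖ :=
    integral_nonneg fun z => mul_nonneg (lb_nonneg _) (norm_nonneg _)
  have h7 := mul_le_mul (le_abs_self C) h5 h6 (abs_nonneg C)
  have h8 := norm_nonneg h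
  nlinarith

/-- Without invariant subspaces hypothesis (H2) holds. -/
theorem h2_of_trans (hG : GoodOfRoute) (s : Sys m) (h1 : s.H1) (ht : s.Trans) : s.H2 := by
  intro d
  filter_upwards [rel_bound hG s (s.R d, 0)] with z0 hz0 hpos
  by_contra hcon
  push Not at hcon
  obtain ⟨C, hC, hb⟩ := hz0 hpos hcon
  have hbase := s.rel_base d
  set h0 := m.Z (s.R d) with hh0
  let V : Submodule ℂ H :=
    { carrier := {h | ∃ f, s.Rel (s.R d, 0) h f ∧ f z0 = 0}
      add_mem' := by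
        rintro h k ⟨f, a1, a2⟩ ⟨g, b1, b2⟩
        exact ⟨_, a1.add b1, by simp [a2, b2]⟩
      zero_mem' := ⟨_, by simpa using hbase.smul 0, rfl⟩
      smul_mem' := by
        rintro c h ⟨f, a1, a2⟩
        exact ⟨_, a1.smul c, by simp [a2]⟩ }
  have hP : ∀ x ∈ V.topologicalClosure, s.P x = x := fun x hx =>
    closure_minimal (s := (V : Set H)) (t := {x | s.P x = x}) (fun y ⟨f, hf, _⟩ => hf.1)
      (isClosed_eq s.P.continuous continuous_id) hx
  have hT : ∀ x ∈ V.topologicalClosure, s.T x ∈ V.topologicalClosure := fun x hx =>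
    map_mem_closure (s := (V : Set H)) (t := (V : Set H)) s.T.continuous hx
      fun y ⟨f, hf, hf0⟩ => ⟨_, hf.step, by simp [hf0]⟩
  rcases ht _ V.isClosed_topologicalClosure hP hT with hbot | htop
  · have hm : s.T h0 + (-z0) • h0 ∈ V.topologicalClosure :=
      V.le_topologicalClosure ⟨_, hbase.step.add (hbase.smul (-z0)), by simp⟩
    rw [hbot, Submodule.mem_bot, neg_smul, add_neg_eq_zero] at hm
    have h2 := hb _ _ hbase
    rw [h1 z0 h0 hbase.1 hm] at h2
    norm_num at h2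
  · obtain ⟨h, ⟨f, hf, hf0⟩, hd⟩ := Metric.mem_closure_iff.1 (htop h0 hbase.1) C⁻¹ (inv_pos.2 hC)
    have h2 := hb _ _ (hbase.add (hf.smul (-1)))
    rw [hf0, neg_one_smul, ← sub_eq_add_neg, ← dist_eq_norm] at h2
    have h3 := mul_lt_mul_of_pos_left hd hC
    rw [mul_inv_cancel₀ hC.ne'] at h3
    norm_num at h2
    linarith

end Sys

end Pool.Agent.P.MP_f981b0_an.TC
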