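import Pool.Agent.P.MP_f981b0_an.TC.H2
import Pool.Agent.P.MP_f981b0_an.R1.Limit

set_option autoImplicit false

noncomputable section

namespace Pool.Agent.P.MP_f981b0_an.TC

open MeasureTheory Metric Set Filter Topology
open scoped InnerProductSpace InnerProduct BoundedContinuousFunction
open R1

/-- Radial retraction onto the closed unit disc. -/
def ret : ℂ →ᵇ ℂ :=
  BoundedContinuousFunction.ofNormedAddCommGroup (fun z => z / ((max 1 ‖z‖ : ℝ) : ℂ))
    (Continuous.div continuous_id (by fun_prop) fun z => by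
      have : (0 : ℝ) < max 1 ‖z‖ := lt_max_of_lt_left one_pos
      exact_mod_cast this.ne') 1 fun z => by
    have : (0 : ℝ) < max 1 ‖z‖ := lt_max_of_lt_left one_pos
    rw [norm_div, Complex.norm_real, Real.norm_of_nonneg this.le, div_le_one this]
    exact le_max_right _ _

theorem ret_apply {z : ℂ} (hz : ‖z‖ ≤ 1) : ret z = z := by
  simp [ret, max_eq_left hz]

theorem norm_ret_le : ‖ret‖ ≤ 1 :=
  BoundedContinuousFunction.norm_ofNormedAddCommGroup_le _ zero_le_one _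

/-- The resolvent of the retraction. -/
def rr (w : ℂ) : ℂ →ᵇ ℂ := resolvent ret w

theorem lt_norm_of_notMem {w : ℂ} (hw : w ∉ closedBall (0 : ℂ) 1) : 1 < ‖w‖ := by simpa using hw

theorem mem_res {w : ℂ} (hw : w ∉ closedBall (0 : ℂ) 1) : w ∈ resolventSet ℂ ret :=
  spectrum.mem_resolventSet_of_norm_lt (norm_ret_le.trans_lt (lt_norm_of_notMem hw))

theorem rr_mul {w : ℂ} (hw : w ∉ closedBall (0 : ℂ) 1) : w • rr w - ret * rr w = 1 := by
  have h := Ring.mul_inverse_cancel _ (mem_res hw)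
  rwa [sub_mul, ← Algebra.smul_def] at h

theorem norm_rr_le {w : ℂ} (hw : w ∉ closedBall (0 : ℂ) 1) : ‖rr w‖ ≤ 1 / (‖w - 0‖ - 1) := by
  have h1 := lt_norm_of_notMem hw
  have h2 : w • rr w = 1 + ret * rr w := by rw [← rr_mul hw, sub_add_cancel]
  have h3 : ‖w‖ * ‖rr w‖ ≤ 1 + ‖rr w‖ := by
    rw [← norm_smul, h2]
    refine (norm_add_le _ _).trans (add_le_add norm_one.le ((norm_mul_le _ _).trans ?_))
    exact mul_le_of_le_one_left (norm_nonneg _) norm_ret_le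
  rw [sub_zero, le_div_iff₀ (by linarith)]
  linarith

theorem diff_rr : DifferentiableOn ℂ rr (closedBall (0 : ℂ) 1)ᶜ := fun _ hw =>
  (spectrum.hasDerivAt_resolvent_const_left (mem_res hw)).differentiableAt.differentiableWithinAt

theorem hinf_rr {w : ℂ} (hw : w ∉ closedBall (0 : ℂ) 1) : Hinf (rr w) := by
  refine ⟨?_, ‖rr w‖, fun z _ => (rr w).norm_coe_le_norm z⟩
  have h1 := lt_norm_of_notMem hw
  have hne : ∀ z ∈ ball (0 : ℂ) 1, w - z ≠ 0 := fun z hz h => by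
    rw [mem_ball_zero_iff, ← sub_eq_zero.1 h] at hz
    linarith
  refine DifferentiableOn.congr (f := fun z => (w - z)⁻¹)
    (DifferentiableOn.inv (by fun_prop) hne) fun z hz => ?_
  have h := congrArg (fun q : ℂ →ᵇ ℂ => q z) (rr_mul hw)
  simp only [BoundedContinuousFunction.sub_apply, BoundedContinuousFunction.smul_apply,
    BoundedContinuousFunction.mul_apply, BoundedContinuousFunction.coe_one, Pi.one_apply,
    ret_apply (mem_ball_zero_iff.1 hz).le, smul_eq_mul] at h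
  exact eq_inv_of_mul_eq_one_right (by rw [← h]; ring)

section

variable {E : Type*} [NormedAddCommGroup E] [NormedSpace ℂ E]

theorem diff_Psi (Ψ : (ℂ →ᵇ ℂ) →L[ℂ] E) :
    DifferentiableOn ℂ (fun w => -Ψ (rr w)) (closedBall (0 : ℂ) 1)ᶜ :=
  (Ψ.differentiable.comp_differentiableOn diff_rr).neg

theorem norm_Psi_le (Ψ : (ℂ →ᵇ ℂ) →L[ℂ] E) {C : ℝ} (hC : ‖Ψ‖ ≤ C) {w : ℂ}
    (hw : w ∉ closedBall (0 : ℂ) 1) : ‖-Ψ (rr w)‖ ≤ C / (‖w - 0‖ - 1) := by
  rw [norm_neg, div_eq_mul_one_div]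
  exact (Ψ.le_opNorm _).trans
    (mul_le_mul hC (norm_rr_le hw) (norm_nonneg _) ((norm_nonneg _).trans hC))

theorem res_Psi (T : E →L[ℂ] E) (Ψ : (ℂ →ᵇ ℂ) →L[ℂ] E) {w : ℂ}
    (hw : w ∉ closedBall (0 : ℂ) 1) :
    T (-Ψ (rr w)) - w • (-Ψ (rr w)) - Ψ 1 = -(T (Ψ (rr w)) - Ψ (ret * rr w)) := by
  rw [← rr_mul hw, map_sub, map_smul, map_neg, smul_neg]
  abel

theorem loc_of_Psi (T : E →L[ℂ] E) (Ψ : (ℂ →ᵇ ℂ) →L[ℂ] E)
    (h : ∀ w, w ∉ closedBall (0 : ℂ) 1 → T (Ψ (rr w)) = Ψ (ret * rr w)) :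
    Loc T (closedBall 0 1) (Ψ 1) := by
  refine ⟨fun w => -Ψ (rr w), diff_Psi Ψ,
    tendsto_zero_of_bound (t := 0) (r := 1) fun w hw => norm_Psi_le Ψ le_rfl hw, fun w hw => ?_⟩
  have := res_Psi T Ψ hw
  rwa [h w hw, sub_self, neg_zero, sub_eq_zero] at this

theorem VTest.mul {φ : ℂ → E} {D : ℝ} (h : VTest φ D) {q : ℂ → ℂ} (hq : Measurable q) {c : ℝ}
    (hc0 : 0 ≤ c) (hc : ∀ z, ‖z‖ < 1 → ‖q z‖ ≤ c) : VTest (fun z => q z • φ z) (c * D) := by
  refine ⟨hq.stronglyMeasurable.smul h.meas, fun z => ?_, fun z hz => by simp [h.supp z hz]⟩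
  rcases lt_or_ge ‖z‖ 1 with hz | hz
  · rw [norm_smul]
    exact mul_le_mul (hc z hz) (h.bdd z) (norm_nonneg _) hc0
  · rw [h.supp z hz, smul_zero, norm_zero]
    exact mul_nonneg hc0 h.nonneg

theorem VTest.bcf {φ : ℂ → E} {D : ℝ} (h : VTest φ D) (q : ℂ →ᵇ ℂ) :
    VTest (fun z => q z • φ z) (‖q‖ * D) :=
  h.mul q.continuous.measurable (norm_nonneg q) fun z _ => q.norm_coe_le_norm z

theorem VTest.id_smul {φ : ℂ → E} {D : ℝ} (h : VTest φ D) : VTest (fun z => z • φ z) (1 * D) :=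
  h.mul measurable_id zero_le_one fun _ hz => hz.le

omit [NormedSpace ℂ E] in
theorem VTest.add {φ ψ : ℂ → E} {D D' : ℝ} (h : VTest φ D) (h' : VTest ψ D') :
    VTest (fun z => φ z + ψ z) (D + D') :=
  ⟨h.meas.add h'.meas, fun z => (norm_add_le _ _).trans (add_le_add (h.bdd z) (h'.bdd z)),
    fun z hz => by simp [h.supp z hz, h'.supp z hz]⟩

theorem CV_add {φ ψ : ℂ → E} {D D' : ℝ} (h : VTest φ D) (h' : VTest ψ D') (ζ : ℂ) :
    CV (fun z => φ z + ψ z) ζ = CV φ ζ + CV ψ ζ := by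
  simp only [CV, smul_add]
  exact integral_add (h.integrable_CV ζ) (h'.integrable_CV ζ)

theorem CV_smul (c : ℂ) (φ : ℂ → E) (ζ : ℂ) : CV (fun z => c • φ z) ζ = c • CV φ ζ := by
  simp only [CV, ← integral_smul, smul_comm c]

theorem smul_CV {φ : ℂ → E} {D : ℝ} (h : VTest φ D) (ζ : ℂ) :
    ζ • CV φ ζ = CV (fun z => z • φ z) ζ + ∫ z, φ z := by
  rw [CV, CV, ← integral_smul, ← integral_add (h.id_smul.integrable_CV ζ) h.integrable]
  refine integral_congr_ae ?_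
  filter_upwards [Measure.ae_ne volume ζ] with z hz
  have h3 : ζ - z ≠ 0 := sub_ne_zero.2 hz.symm
  have h4 : ζ * (ζ - z)⁻¹ = (ζ - z)⁻¹ * z + 1 := by
    field_simp
    ring
  rw [smul_smul, smul_smul, h4, add_smul, one_smul]

end

variable {X H G K : Type*} [TopologicalSpace X] [CompactSpace X] [MeasurableSpace X]
  [BorelSpace X]
  [NormedAddCommGroup H] [InnerProductSpace ℂ H] [CompleteSpace H]
  [NormedAddCommGroup G] [InnerProductSpace ℂ G] [CompleteSpace G]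
  [NormedAddCommGroup K] [InnerProductSpace ℂ K] [CompleteSpace K]

namespace Model

variable (m : Model X H G K) (a : C(X, ℂ))

open Classical in
/-- The vector attached to a test function. -/
def yv (φ : ℂ → G) : H :=
  (m.B†) (if h : MemLp (fun x => CV φ (a x)) 2 m.τ then h.toLp _ else 0)

variable {φ ψ : ℂ → G} {D D' : ℝ}

theorem memLp_CV (h : VTest φ D) : MemLp (fun x => CV φ (a x)) 2 m.τ :=
  MemLp.of_bound (h.continuous_CV.stronglyMeasurable.comp_measurable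
    a.measurable).aestronglyMeasurable (10 * D) (Eventually.of_forall fun x => h.norm_CV_le (a x))

theorem inner_yv (h : VTest φ D) (k : H) :
    ⟪k, m.yv a φ⟫_ℂ = ∫ x, ⟪m.B k x, CV φ (a x)⟫_ℂ ∂m.τ := by
  rw [yv, dif_pos (m.memLp_CV a h), ContinuousLinearMap.adjoint_inner_right, L2.inner_def]
  refine integral_congr_ae ?_
  filter_upwards [(m.memLp_CV a h).coeFn_toLp] with x hx
  rw [hx]

theorem int_inner (h : VTest φ D) (k : H) :
    Integrable (fun x => ⟪m.B k x, CV φ (a x)⟫_ℂ) m.τ := by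
  refine (L2.integrable_inner (𝕜 := ℂ) (m.B k) ((m.memLp_CV a h).toLp _)).congr ?_
  filter_upwards [(m.memLp_CV a h).coeFn_toLp] with x hx
  rw [hx]

theorem norm_yv_le (h : VTest φ D) {A : ℝ} (hA : ∫ x, ‖CV φ (a x)‖ ^ 2 ∂m.τ ≤ A) :
    ‖m.yv a φ‖ ≤ ‖m.B‖ * √A := by
  rw [yv, dif_pos (m.memLp_CV a h)]
  refine ((m.B†).le_opNorm _).trans ?_
  rw [LinearIsometryEquiv.norm_map]
  refine mul_le_mul_of_nonneg_left (Real.le_sqrt_of_sq_le ?_) (norm_nonneg _)
  rw [norm_sq_L2]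
  refine le_of_eq_of_le (integral_congr_ae ?_) hA
  filter_upwards [(m.memLp_CV a h).coeFn_toLp] with x hx
  rw [hx]

theorem norm_yv_le' (h : VTest φ D) : ‖m.yv a φ‖ ≤ ‖m.B‖ * (10 * √(m.τ.real univ)) * D := by
  have hD := h.nonneg
  have h1 : ∫ x, ‖CV φ (a x)‖ ^ 2 ∂m.τ ≤ m.τ.real univ * (10 * D) ^ 2 := by
    rw [← smul_eq_mul, ← integral_const]
    exact integral_mono_of_nonneg (Eventually.of_forall fun _ => sq_nonneg _) (integrable_const _)
      (Eventually.of_forall fun x => pow_le_pow_left₀ (norm_nonneg _) (h.norm_CV_le _) 2)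
  refine (m.norm_yv_le a h h1).trans (le_of_eq ?_)
  rw [Real.sqrt_mul measureReal_nonneg, Real.sqrt_sq (by positivity)]
  ring

theorem yv_add (h : VTest φ D) (h' : VTest ψ D') :
    m.yv a (fun z => φ z + ψ z) = m.yv a φ + m.yv a ψ := by
  refine ext_inner_left ℂ fun k => ?_
  rw [inner_add_right, m.inner_yv a (h.add h'), m.inner_yv a h, m.inner_yv a h',
    ← integral_add (m.int_inner a h k) (m.int_inner a h' k)]
  simp only [CV_add h h', inner_add_right]

theorem yv_smul (h : VTest φ D) (c : ℂ) : m.yv a (fun z => c • φ z) = c • m.yv a φ := by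
  refine ext_inner_left ℂ fun k => ?_
  rw [inner_smul_right, m.inner_yv a (h.mul measurable_const (norm_nonneg c) fun _ _ => le_rfl),
    m.inner_yv a h, ← integral_const_mul]
  simp only [CV_smul, inner_smul_right]

theorem int_Op (h : VTest φ D) : Integrable fun z => m.Op (VT m.τ a m.Γ z) (φ z) :=
  (fubini_VT m.Op a.measurable m.Γ_int h).1

theorem Zadj_yv (h : VTest φ D) :
    (m.Z†) (m.yv a φ) = ∫ z, m.Op (VT m.τ a m.Γ z) (φ z) := by
  refine ext_inner_left ℂ fun e => ?_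
  have i1 : Integrable (fun x => m.Op (m.Γ x) (CV φ (a x))) m.τ := by
    refine (m.Γ_int.norm.const_mul (‖m.Op‖ * (10 * D))).mono'
      (m.Op.aestronglyMeasurable_comp₂ m.Γ_int.1 (m.memLp_CV a h).1)
      (Eventually.of_forall fun x => (m.Op.le_opNorm₂ _ _).trans ?_)
    have := mul_le_mul_of_nonneg_left (h.norm_CV_le (a x))
      (mul_nonneg m.Op.opNorm_nonneg (norm_nonneg (m.Γ x)))
    linarith
  rw [ContinuousLinearMap.adjoint_inner_right, m.inner_yv a h,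
    (fubini_VT m.Op a.measurable m.Γ_int h).2, ← integral_inner i1]
  refine integral_congr_ae ?_
  filter_upwards [m.Γ_eq e, m.Γ_sa] with x h1 h2
  rw [h1, ← ContinuousLinearMap.adjoint_inner_right, h2.adjoint_eq]

theorem Theta_yv (h : VTest φ D) :
    m.Θ a (m.yv a φ) = m.yv a (fun z => z • φ z) + m.Z (∫ z, φ z) := by
  refine ext_inner_left ℂ fun k => ?_
  have i1 : Integrable (fun x => ⟪m.B k x, ∫ z, φ z⟫_ℂ) m.τ := (m.int_B k).inner_const _
  have h1 : ⟪(m.Z†) k, ∫ z, φ z⟫_ℂ = ∫ x, ⟪m.B k x, ∫ z, φ z⟫_ℂ ∂m.τ := by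
    rw [← m.B_int, ← inner_conj_symm, ← integral_inner (m.int_B k), ← integral_conj]
    simp only [inner_conj_symm]
  rw [← ContinuousLinearMap.adjoint_inner_left, ← ContinuousLinearMap.star_eq_adjoint, ← map_star,
    m.inner_yv a h, inner_add_right, m.inner_yv a h.id_smul,
    ← ContinuousLinearMap.adjoint_inner_left m.Z, h1,
    ← integral_add (m.int_inner a h.id_smul k) i1]
  refine integral_congr_ae ?_
  filter_upwards [m.B_mul (star a) k] with x hx
  rw [hx, inner_smul_left, ← inner_add_right, ← smul_CV h, inner_smul_right]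
  simp

theorem exists_Psi (h : VTest φ D) {C : ℝ} (hC0 : 0 ≤ C)
    (hC : ∀ q : ℂ →ᵇ ℂ, ‖m.yv a fun z => q z • φ z‖ ≤ C * ‖q‖) :
    ∃ Ψ : (ℂ →ᵇ ℂ) →L[ℂ] H, ‖Ψ‖ ≤ C ∧ ∀ q, Ψ q = m.yv a fun z => q z • φ z := by
  let L : (ℂ →ᵇ ℂ) →ₗ[ℂ] H :=
    { toFun := fun q => m.yv a fun z => q z • φ z
      map_add' := fun q q' => by
        rw [← m.yv_add a (h.bcf q) (h.bcf q')]
        simp [add_smul]
      map_smul' := fun c q => by
        rw [RingHom.id_apply, ← m.yv_smul a (h.bcf q)]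
        simp [mul_smul] }
  exact ⟨L.mkContinuous C hC, L.mkContinuous_norm_le hC0 hC, fun _ => rfl⟩

end Model

namespace Sys

variable {m : Model X H G K} (s : Sys m) {φ : ℂ → G} {D : ℝ}

theorem int_Th1 (h : VTest φ D) : Integrable fun z => s.Th1 (s.GG z) (φ z) :=
  h.integrable.add (s.S.integrable_comp (m.int_Op s.a h))

theorem int_Th2 (h : VTest φ D) : Integrable fun z => s.Th2 (s.GG z) (φ z) :=
  (1 - s.R†).integrable_comp (m.int_Op s.a h)

theorem integral_Th1 (h : VTest φ D) :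
    ∫ z, s.Th1 (s.GG z) (φ z) = (∫ z, φ z) + s.S ((m.Z†) (m.yv s.a φ)) := by
  rw [m.Zadj_yv s.a h, ← s.S.integral_comp_comm (m.int_Op s.a h),
    ← integral_add h.integrable (s.S.integrable_comp (m.int_Op s.a h))]
  rfl

theorem integral_Th2 (h : VTest φ D) :
    ∫ z, s.Th2 (s.GG z) (φ z) = (m.Z†) (m.yv s.a φ) - (m.Z†) (s.P (m.yv s.a φ)) := by
  have := (1 - s.R†).integral_comp_comm (m.int_Op s.a h)
  rw [← m.Zadj_yv s.a h, sub_apply, one_apply_eq_self] at this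
  rw [adjoint_PZ, ← this]
  rfl

theorem T_yv (h : VTest φ D) :
    s.T (m.yv s.a φ) = m.yv s.a (fun z => z • φ z) + m.Z (∫ z, s.Th1 (s.GG z) (φ z)) := by
  rw [T_apply, m.Theta_yv s.a h, s.integral_Th1 h, map_add, add_assoc]

theorem T_Psi (h : VTest φ D) {Ψ : (ℂ →ᵇ ℂ) →L[ℂ] H}
    (hΨ : ∀ q, Ψ q = m.yv s.a fun z => q z • φ z) (q : ℂ →ᵇ ℂ) :
    s.T (s.P (Ψ q)) = s.P (Ψ (ret * q)) + m.Z (s.R (∫ z, q z • s.Th1 (s.GG z) (φ z))) := by
  have h1 : (fun z => z • q z • φ z) = fun z => (ret * q) z • φ z := by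
    funext z
    rcases le_total ‖z‖ 1 with hz | hz
    · rw [BoundedContinuousFunction.mul_apply, ret_apply hz, mul_smul]
    · simp [h.supp z hz]
  rw [← P_T, hΨ, hΨ, s.T_yv (h.bcf q), h1, map_add, P_Z]
  simp only [map_smul]

/-- No nonzero vector in the range of `P` has local spectrum in the closed unit disc. -/
def NoLoc : Prop := ∀ y, s.P y = y → Loc s.T (closedBall 0 1) y → y = 0

end Sys

end Pool.Agent.P.MP_f981b0_an.TC
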