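import Pool.Agent.P.MP_f981b0_an.TC.HKey

set_option autoImplicit false

noncomputable section

namespace Pool.Agent.P.MP_f981b0_an.TC

open MeasureTheory Metric Set Filter Topology
open scoped InnerProductSpace InnerProduct ComplexConjugate
open R1

variable {X H G K : Type*} [TopologicalSpace X] [CompactSpace X] [MeasurableSpace X]
  [NormedAddCommGroup H] [InnerProductSpace ℂ H] [CompleteSpace H]
  [NormedAddCommGroup G] [InnerProductSpace ℂ G] [CompleteSpace G]
  [NormedAddCommGroup K] [InnerProductSpace ℂ K] [CompleteSpace K]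

theorem loc_dual {T : H →L[ℂ] H} {t : ℂ} {r : ℝ} {y : H}
    (h : Loc (T†) (closedBall (conj t) r) y) : Loc (dualOp T) (closedBall t r) (innerSL ℂ y) := by
  obtain ⟨g, h1, h2, h3⟩ := h
  have hmem : ∀ w, w ∉ closedBall t r → conj w ∉ closedBall (conj t) r := fun w hw hc => by
    rw [mem_closedBall, Complex.dist_conj_conj] at hc
    exact hw hc
  refine ⟨fun w => innerSL ℂ (g (conj w)), fun w hw => ?_, ?_, fun w hw => ?_⟩
  · have h4 : DifferentiableAt ℂ g (conj w) :=
      h1.differentiableAt (isClosed_closedBall.isOpen_compl.mem_nhds (hmem w hw))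
    have h5 := h4.comp_semilinear₁ (starRingEnd ℂ) (innerSL ℂ (E := H))
    rw [Complex.conj_conj] at h5
    exact h5.differentiableWithinAt
  · have h4 := Complex.conjCLE.toHomeomorph.toCocompactMap.cocompact_tendsto'
    have h5 := ((innerSL ℂ (E := H)).continuous.tendsto 0).comp (h2.comp h4)
    rw [map_zero] at h5
    exact h5
  · ext x
    rw [← h3 _ (hmem w hw)]
    simp [ContinuousLinearMap.adjoint_inner_left]

theorem Model.T_aff (m : Model X H G K) (a : C(X, ℂ)) (S : G →L[ℂ] G) (t c : ℂ) :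
    m.T (c • (a - t • 1)) (c • S) = c • (m.T a S - t • 1) := by
  ext x
  simp [Model.T, smul_sub, smul_add]
  abel

theorem Model.T_adj (m : Model X H G K) (a : C(X, ℂ)) (S : G →L[ℂ] G) :
    m.T (star a) (S†) = (m.T a S)† := by
  rw [Model.T, Model.T, map_add, map_star, ContinuousLinearMap.star_eq_adjoint,
    ContinuousLinearMap.adjoint_comp, ContinuousLinearMap.adjoint_comp,
    ContinuousLinearMap.adjoint_adjoint, ContinuousLinearMap.comp_assoc]

namespace Sys

variable {m : Model X H G K} (s : Sys m)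

/-- Affine change of the operator. -/
def aff (t c : ℂ) : Sys m where
  a := c • (s.a - t • 1)
  S := c • s.S
  R := s.R
  P := s.P
  P_proj := s.P_proj
  PZ := s.PZ
  comm := by
    rw [m.T_aff, mul_smul_comm, smul_mul_assoc, mul_sub, sub_mul, s.comm, mul_smul_comm,
      smul_mul_assoc, mul_one, one_mul]

/-- The adjoint system. -/
def adj : Sys m where
  a := star s.a
  S := s.S†
  R := s.R
  P := s.P
  P_proj := s.P_proj
  PZ := s.PZ
  comm := by
    have h := congrArg star s.comm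
    rw [star_mul, star_mul, s.P_proj.isSelfAdjoint.star_eq] at h
    rw [m.T_adj]
    exact h.symm

theorem aff_T (t c : ℂ) : (s.aff t c).T = c • (s.T - t • 1) := m.T_aff _ _ _ _

theorem adj_T : s.adj.T = s.T† := m.T_adj _ _

theorem inner_P (x y : H) : ⟪s.P x, y⟫_ℂ = ⟪x, s.P y⟫_ℂ := by
  rw [← ContinuousLinearMap.adjoint_inner_right, s.P_proj.isSelfAdjoint.adjoint_eq]

variable {s}

theorem Trans.aff (h : s.Trans) (t : ℂ) {c : ℂ} (hc : c ≠ 0) : (s.aff t c).Trans := by
  intro M h1 h2 h3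
  refine h M h1 h2 fun x hx => ?_
  have h4 := h3 x hx
  rw [aff_T, smul_apply, M.smul_mem_iff hc, sub_apply, smul_apply, one_apply_eq_self] at h4
  simpa using M.add_mem h4 (M.smul_mem t hx)

theorem Trans.adj (h : s.Trans) : s.adj.Trans := by
  intro M h1 h2 h3
  have := h1.completeSpace_coe
  rw [adj_T] at h3
  change ∀ x ∈ M, s.P x = x at h2
  change M = ⊥ ∨ ∀ x, s.P x = x → x ∈ M
  have hk : ∀ x, x ∈ Mᗮ ⊓ (1 - s.P).ker ↔ x ∈ Mᗮ ∧ s.P x = x := fun x => by
    simp [sub_eq_zero, eq_comm (a := x)]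
  rcases h (Mᗮ ⊓ (1 - s.P).ker)
    (M.isClosed_orthogonal.inter (ContinuousLinearMap.isClosed_ker _))
    (fun x hx => ((hk x).1 hx).2) (fun x hx => (hk _).2 ⟨fun y hy => by
      rw [← ContinuousLinearMap.adjoint_inner_left]
      exact ((hk x).1 hx).1 _ (h3 y hy), by rw [P_T, ((hk x).1 hx).2]⟩) with e | e
  · refine Or.inr fun x hx => ?_
    have h4 : x - M.starProjection x ∈ Mᗮ ⊓ (1 - s.P).ker :=
      (hk _).2 ⟨M.sub_starProjection_mem_orthogonal x, by
        rw [map_sub, hx, h2 _ (M.starProjection_apply_mem x)]⟩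
    rw [e, Submodule.mem_bot, sub_eq_zero] at h4
    rw [h4]
    exact M.starProjection_apply_mem x
  · refine Or.inl ((Submodule.eq_bot_iff _).2 fun x hx => ?_)
    exact inner_self_eq_zero.1 (((hk x).1 (e x (h2 x hx))).1 x hx)

theorem Trans.h1 (h : s.Trans) {M : Submodule ℂ H} (hM : ∀ x, x ∈ M ↔ s.P x = x)
    (hr : 1 < Module.rank ℂ M) : s.H1 := by
  intro w x h1 h2
  rcases h (Submodule.span ℂ {x}) (Submodule.closed_of_finiteDimensional _) (fun y hy => by
      obtain ⟨c, rfl⟩ := Submodule.mem_span_singleton.1 hy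
      rw [map_smul, h1]) (fun y hy => by
      obtain ⟨c, rfl⟩ := Submodule.mem_span_singleton.1 hy
      rw [map_smul, h2]
      exact Submodule.smul_mem _ _ (Submodule.smul_mem _ _ (Submodule.mem_span_singleton_self x)))
    with e | e
  · exact Submodule.span_singleton_eq_bot.1 e
  · exact absurd ((rank_submodule_le_one_iff M).2 ⟨x, (hM x).2 h1, fun y hy => e y ((hM y).1 hy)⟩)
      (not_le.2 hr)

variable (s)

/-- The compression of the calculus is compact near `t`. -/
def Cpt (t : ℂ) : Prop := ∃ δ : ℝ, 0 < δ ∧ IsCompactOperator (s.P ∘L m.Θ ((tent t δ).comp s.a))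

theorem cpt_adj (t : ℂ) : s.adj.Cpt (conj t) ↔ s.Cpt t := by
  have : ∀ δ, (tent (conj t) δ).comp s.adj.a = (tent t δ).comp s.a := fun δ => by
    ext x
    simp only [adj, tent, ContinuousMap.comp_apply, ContinuousMap.star_apply, ContinuousMap.coe_mk,
      RCLike.star_def, ← map_sub, Complex.norm_conj]
  simp only [Cpt, this]
  rfl

theorem compact_of_cpt (l : ℂ) (h : ∀ t, t ≠ l → s.Cpt t) :
    IsCompactOperator (s.P ∘L m.Θ (s.a - l • 1)) := by
  classical
  refine isClosed_setOfPred_isCompactOperator.closure_subset (Metric.mem_closure_iff.2 fun ε hε => ?_)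
  have hε' : 0 < ε / (‖s.P‖ + 1) := by positivity
  choose! δ hδ hδ' using h
  let U : ℂ → Set X := fun t => s.a ⁻¹' ball t (if t = l then ε / (‖s.P‖ + 1) else δ t)
  obtain ⟨F, hF⟩ := isCompact_univ.elim_finite_subcover U
    (fun t => isOpen_ball.preimage s.a.continuous) fun x _ => mem_iUnion.2 ⟨s.a x, by
      refine mem_ball_self ?_
      split_ifs with hx
      · exact hε'
      · exact hδ _ hx⟩
  let σ : X → ℝ := fun x => max 0 (ε / (‖s.P‖ + 1) - ‖s.a x - l‖) +
    ∑ t ∈ F.erase l, max 0 (δ t - ‖s.a x - t‖)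
  have hσ1 : ∀ x, 0 ≤ ∑ t ∈ F.erase l, max 0 (δ t - ‖s.a x - t‖) := fun x =>
    Finset.sum_nonneg fun _ _ => le_max_left _ _
  have hσ : ∀ x, 0 < σ x := fun x => by
    obtain ⟨t, ht, hx⟩ := mem_iUnion₂.1 (hF (mem_univ x))
    simp only [U, mem_preimage, mem_ball, dist_eq_norm] at hx
    split_ifs at hx with htl
    · subst htl
      exact add_pos_of_pos_of_nonneg (lt_max_of_lt_right (by linarith)) (hσ1 x)
    · exact add_pos_of_nonneg_of_pos (le_max_left _ _) (Finset.sum_pos'
        (fun _ _ => le_max_left _ _)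
        ⟨t, Finset.mem_erase.2 ⟨htl, ht⟩, lt_max_of_lt_right (by linarith)⟩)
  have hσ' : ∀ x, (σ x : ℂ) ≠ 0 := fun x => by exact_mod_cast (hσ x).ne'
  let g : C(X, ℂ) := ⟨fun x => (s.a x - l) / σ x,
    Continuous.div (by fun_prop) (by fun_prop) hσ'⟩
  refine ⟨∑ t ∈ F.erase l, (s.P ∘L m.Θ ((tent t (δ t)).comp s.a)) ∘L m.Θ g, ?_, ?_⟩
  · refine (compactOperator (RingHom.id ℂ) H H).sum_mem fun t ht => ?_
    exact (hδ' t (Finset.ne_of_mem_erase ht)).comp_clm (m.Θ g)
  · have e1 : s.P ∘L m.Θ (s.a - l • 1) -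
        ∑ t ∈ F.erase l, (s.P ∘L m.Θ ((tent t (δ t)).comp s.a)) ∘L m.Θ g =
        s.P * m.Θ (s.a - l • 1 - ∑ t ∈ F.erase l, (tent t (δ t)).comp s.a * g) := by
      rw [map_sub m.Θ (s.a - l • 1), map_sum, mul_sub, Finset.mul_sum]
      simp only [map_mul]
      rfl
    have e2 : ‖s.a - l • 1 - ∑ t ∈ F.erase l, (tent t (δ t)).comp s.a * g‖ ≤ ε / (‖s.P‖ + 1) := by
      refine (ContinuousMap.norm_le _ hε'.le).2 fun x => ?_
      have e3 : (s.a - l • 1 - ∑ t ∈ F.erase l, (tent t (δ t)).comp s.a * g) x =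
          (s.a x - l) * ((max 0 (ε / (‖s.P‖ + 1) - ‖s.a x - l‖) / σ x : ℝ) : ℂ) := by
        have e4 : ((max 0 (ε / (‖s.P‖ + 1) - ‖s.a x - l‖) : ℝ) : ℂ) =
            σ x - ∑ t ∈ F.erase l, tent t (δ t) (s.a x) := by
          simp [σ, tent]
        simp only [ContinuousMap.sub_apply, ContinuousMap.smul_apply, ContinuousMap.one_apply,
          ContinuousMap.sum_apply, ContinuousMap.mul_apply, ContinuousMap.comp_apply, smul_eq_mul,
          mul_one, g, ContinuousMap.coe_mk]
        rw [Complex.ofReal_div, e4, ← Finset.sum_mul]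
        field_simp [hσ' x]
      rw [e3, norm_mul, Complex.norm_real,
        Real.norm_of_nonneg (div_nonneg (le_max_left _ _) (hσ x).le)]
      rcases le_total ‖s.a x - l‖ (ε / (‖s.P‖ + 1)) with h1 | h1
      · refine (mul_le_of_le_one_right (norm_nonneg _) ((div_le_one (hσ x)).2 ?_)).trans h1
        exact le_add_of_nonneg_right (hσ1 x)
      · rw [max_eq_left (by linarith), zero_div, mul_zero]
        exact hε'.le
    rw [dist_eq_norm, e1]
    refine ((norm_mul_le _ _).trans (mul_le_mul_of_nonneg_left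
      ((NonUnitalStarAlgHom.norm_apply_le m.Θ _).trans e2) (norm_nonneg _))).trans_lt ?_
    rw [← mul_div_assoc, div_lt_iff₀ (by positivity)]
    linarith

variable [BorelSpace X] [SecondCountableTopology G] {s}

/-- The key proposition on an arbitrary disc. -/
theorem key (hG : GoodOfRoute) (ht : s.Trans) {M : Submodule ℂ H}
    (hM : ∀ x, x ∈ M ↔ s.P x = x) (hr : 1 < Module.rank ℂ M) {t : ℂ} (hc : ¬ s.Cpt t) {r : ℝ}
    (hr0 : 0 < r) : ∃ y, y ≠ 0 ∧ s.P y = y ∧ Loc s.T (closedBall t r) y := by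
  have hr' : (r : ℂ) ≠ 0 := by exact_mod_cast hr0.ne'
  have ht' := ht.aff t (inv_ne_zero hr')
  by_contra hno
  obtain ⟨δ, hδ, h1⟩ := (s.aff t (r : ℂ)⁻¹).key_unit hG
    (h2_of_trans hG _ (ht'.h1 hM hr) ht') fun y h1 h2 => by
      by_contra h0
      rw [aff_T] at h2
      exact hno ⟨y, h0, h1, h2.affine hr0⟩
  refine hc ⟨r * δ, by positivity, ?_⟩
  have e1 : (tent t (r * δ)).comp s.a = (r : ℂ) • (tent 0 δ).comp (s.aff t (r : ℂ)⁻¹).a := by
    ext x
    simp only [aff, tent, ContinuousMap.comp_apply, ContinuousMap.coe_mk, ContinuousMap.smul_apply,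
      ContinuousMap.sub_apply, ContinuousMap.one_apply, smul_eq_mul, mul_one, sub_zero, norm_mul,
      norm_inv, Complex.norm_real, Real.norm_of_nonneg hr0.le]
    rw [← Complex.ofReal_mul, mul_max_of_nonneg _ _ hr0.le, mul_zero, mul_sub, ← mul_assoc,
      mul_inv_cancel₀ hr0.ne', one_mul]
  rw [e1, map_smul, ContinuousLinearMap.comp_smul]
  exact h1.smul (r : ℂ)

/-- Theorem S in the abstract setting. -/
theorem false_of_trans (hG : GoodOfRoute) (ht : s.Trans) {M : Submodule ℂ H}
    (hM : ∀ x, x ∈ M ↔ s.P x = x) (hr : 1 < Module.rank ℂ M) : False := by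
  have hMc : IsClosed (M : Set H) := by
    have : (M : Set H) = {x | s.P x = x} := Set.ext hM
    rw [this]
    exact isClosed_eq s.P.continuous continuous_id
  by_cases hc : ∃ l, ∀ t, t ≠ l → s.Cpt t
  · obtain ⟨l, hl⟩ := hc
    have := hMc.completeSpace_coe
    let K0 : H →L[ℂ] H := s.P ∘L m.Θ (s.a - l • 1) + s.P ∘L m.Z ∘L s.S ∘L (m.Z†)
    have hK0 : IsCompactOperator K0 :=
      (s.compact_of_cpt l hl).add ((m.compact_Z.comp_clm (s.S ∘L (m.Z†))).clm_comp s.P)
    have hK1 : ∀ x ∈ M, K0 x = s.T x - l • x := fun x hx => by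
      have e1 : K0 x = s.P (s.T x - l • x) := by
        simp [K0, T_apply]
        abel
      rw [e1, map_sub, map_smul, P_T, (hM x).1 hx]
    have hTM : ∀ x ∈ M, s.T x ∈ M := fun x hx => (hM _).2 (by rw [P_T, (hM x).1 hx])
    have hK2 : ∀ x ∈ M, K0 x ∈ M := fun x hx => by
      rw [hK1 x hx]
      exact M.sub_mem (hTM x hx) (M.smul_mem l hx)
    have hK3 : IsCompactOperator (K0.restrict hK2) := hK0.restrict hK2 hMc
    have hK4 : K0.restrict hK2 ≠ 0 := fun h0 => by
      have : Nontrivial M := rank_pos_iff_nontrivial.1 (zero_lt_one.trans hr)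
      obtain ⟨x, hx⟩ := exists_ne (0 : M)
      have e1 : K0 x = 0 := congrArg (fun L : M →L[ℂ] M => (L x : H)) h0
      rw [hK1 x x.2, sub_eq_zero] at e1
      exact hx (Subtype.ext (ht.h1 hM hr l x ((hM x).1 x.2) e1))
    obtain ⟨L, l1, l2, l3, l4⟩ := Lom.exists_invariant_of_commute_compact _ _ hr hK3 hK4 rfl
    rcases ht (L.map M.subtype) ((M.isClosedEmbedding_subtype hMc).isClosedMap _ l1)
      (fun x hx => (hM x).1 (M.map_subtype_le L hx)) (by
        rintro _ ⟨x, hx, rfl⟩
        refine ⟨K0.restrict hK2 x + l • x, L.add_mem (l4 x hx) (L.smul_mem l hx), ?_⟩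
        change K0 x + l • (x : H) = s.T x
        rw [hK1 x x.2, sub_add_cancel]) with e | e
    · exact l2 (Submodule.map_injective_of_injective M.injective_subtype (by simpa using e))
    · refine l3 (eq_top_iff.2 fun x _ => ?_)
      obtain ⟨y, hy, e1⟩ := e x ((hM x).1 x.2)
      rwa [← Subtype.ext e1]
  · push Not at hc
    obtain ⟨t1, -, h1⟩ := hc 0
    obtain ⟨t2, h12, h2⟩ := hc t1
    have hd : 0 < dist t1 t2 / 3 := by
      have := dist_pos.2 h12.symm
      positivity
    obtain ⟨y, y0, y1, y2⟩ := key hG ht hM hr h1 hd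
    obtain ⟨z, z0, z1, z2⟩ := key hG ht.adj hM hr (mt (s.cpt_adj t2).1 h2) hd
    rw [adj_T] at z2
    have hdis : Disjoint (closedBall t1 (dist t1 t2 / 3)) (closedBall t2 (dist t1 t2 / 3)) :=
      closedBall_disjoint_closedBall (by linarith)
    set V := locSub s.T (closedBall t1 (dist t1 t2 / 3)) ⊓ M with hV
    rcases ht V.topologicalClosure V.isClosed_topologicalClosure
      (fun x hx => (hM x).1 (closure_minimal (s := (V : Set H)) (fun y hy => hy.2) hMc hx))
      (fun x hx => map_mem_closure (s := (V : Set H)) (t := (V : Set H)) s.T.continuous hx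
        fun y hy => ⟨Loc.comm hy.1 rfl, (hM _).2 (by rw [P_T, (hM y).1 hy.2])⟩) with e | e
    · have : y ∈ V.topologicalClosure := V.le_topologicalClosure ⟨y2, (hM y).2 y1⟩
      rw [e] at this
      exact y0 this
    · have h3 : innerSL ℂ z z = 0 := closure_minimal (s := (V : Set H))
        (t := {x | innerSL ℂ z x = 0}) (fun y hy => Loc.pair (isCompact_closedBall _ _)
          isClosed_closedBall hdis hy.1 (loc_dual z2))
        (isClosed_eq (innerSL ℂ z).continuous continuous_const) (e z z1)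
      exact z0 (inner_self_eq_zero.1 h3)

end Sys

end Pool.Agent.P.MP_f981b0_an.TC
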