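import Pool.Agent.P.MP_f981b0_an.TC.HTwo

set_option autoImplicit false

noncomputable section

namespace Pool.Agent.P.MP_f981b0_an.TC

open MeasureTheory Metric Set Filter Topology
open scoped InnerProductSpace InnerProduct BoundedContinuousFunction
open R1

variable {X H G K : Type*} [TopologicalSpace X] [CompactSpace X] [MeasurableSpace X]
  [BorelSpace X]
  [NormedAddCommGroup H] [InnerProductSpace ℂ H] [CompleteSpace H]
  [NormedAddCommGroup G] [InnerProductSpace ℂ G] [CompleteSpace G]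
  [NormedAddCommGroup K] [InnerProductSpace ℂ K] [CompleteSpace K]

namespace Sys

variable {m : Model X H G K} (s : Sys m)

/-- Step (III). -/
theorem compact_of_resolvent (hno : s.NoLoc) {r : ℝ} (hr : 0 < r) (hr1 : r ≤ 1)
    {Sw : ℂ → G →L[ℂ] H} (hc : ContinuousOn Sw (ball 0 r))
    (hS : ∀ w ∈ ball (0 : ℂ) r, ∀ d, s.P (Sw w d) = Sw w d ∧
      s.T (Sw w d) = w • Sw w d + s.P (m.Z d)) :
    IsCompactOperator (s.P ∘L m.Θ ((tent 0 (r / 2)).comp s.a)) := by
  set β := tent 0 (r / 2) with hβ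
  let A : ℂ → G →L[ℂ] H := fun ζ => β ζ • (Sw ζ ∘L s.S)
  have hsub : ball (0 : ℂ) (r / 2) ⊆ ball 0 r := ball_subset_ball (by linarith)
  have hA : Continuous A := by
    rw [continuous_iff_continuousAt]
    intro ζ
    by_cases hζ : ζ ∈ ball (0 : ℂ) r
    · exact β.continuous.continuousAt.smul
        ((hc.continuousAt (isOpen_ball.mem_nhds hζ)).clm_comp continuousAt_const)
    · have h1 : ζ ∈ (closedBall (0 : ℂ) (r / 2))ᶜ := fun h =>
        hζ (closedBall_subset_ball (by linarith) h)
      refine continuousAt_const.congr (f := fun _ => 0) ?_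
      filter_upwards [isClosed_closedBall.isOpen_compl.mem_nhds h1] with z hz
      simp only [A]
      rw [tent_zero fun h => hz (ball_subset_closedBall h), zero_smul]
  have hret : ∀ ζ, ret ζ * β ζ = ζ * β ζ := fun ζ => by
    by_cases hζ : ζ ∈ ball (0 : ℂ) (r / 2)
    · rw [ret_apply (by linarith [mem_ball_zero_iff.1 hζ])]
    · rw [tent_zero hζ, mul_zero, mul_zero]
  have hPA : ∀ ζ e, s.P (A ζ e) = A ζ e := fun ζ e => by
    by_cases hζ : ζ ∈ ball (0 : ℂ) (r / 2)
    · simp only [A, smul_apply, ContinuousLinearMap.comp_apply, map_smul, (hS ζ (hsub hζ) _).1]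
    · simp [A, hβ, tent_zero hζ]
  have hTA : ∀ ζ e, s.T (A ζ e) = ret ζ • A ζ e + β ζ • s.P (m.Z (s.S e)) := fun ζ e => by
    by_cases hζ : ζ ∈ ball (0 : ℂ) (r / 2)
    · simp only [A, smul_apply, ContinuousLinearMap.comp_apply, map_smul, (hS ζ (hsub hζ) _).2,
        smul_add, smul_smul, hret, mul_comm]
    · simp [A, hβ, tent_zero hζ]
  obtain ⟨b, hb⟩ := isCompact_univ.exists_bound_of_continuousOn
    (hA.comp s.a.continuous).continuousOn
  have hAm : AEStronglyMeasurable (fun x => A (s.a x)) m.τ :=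
    (hA.stronglyMeasurable.comp_measurable s.a.measurable).aestronglyMeasurable
  obtain ⟨Y, hY, hY'⟩ := m.compact_ker (fun x => A (s.a x))
    (MemLp.of_bound hAm b (Eventually.of_forall fun x => hb x (mem_univ x)))
  suffices h : s.P ∘L m.Θ (β.comp s.a) = Y by rwa [h]
  ext h
  have iA : Integrable (fun x => A (s.a x) (m.B h x)) m.τ :=
    ((m.int_B h).norm.const_mul b).mono'
      ((ContinuousLinearMap.id ℂ (G →L[ℂ] H)).aestronglyMeasurable_comp₂ hAm (m.int_B h).1)
      (Eventually.of_forall fun x => ((A (s.a x)).le_opNorm _).trans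
        (mul_le_mul_of_nonneg_right (hb x (mem_univ x)) (norm_nonneg _)))
  have iq : ∀ q : ℂ →ᵇ ℂ, Integrable (fun x => q (s.a x) • A (s.a x) (m.B h x)) m.τ := fun q =>
    iA.bdd_smul ‖q‖ (q.continuous.measurable.comp s.a.measurable).aestronglyMeasurable
      (Eventually.of_forall fun x => q.norm_coe_le_norm _)
  let f : (ℂ →ᵇ ℂ) → C(X, ℂ) := fun q => q.toContinuousMap.comp s.a * β.comp s.a
  let L : (ℂ →ᵇ ℂ) →ₗ[ℂ] H :=
    { toFun := fun q => s.P (m.Θ (f q) h) - ∫ x, q (s.a x) • A (s.a x) (m.B h x) ∂m.τ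
      map_add' := fun q q' => by
        have e1 : f (q + q') = f q + f q' := by
          ext x
          simp [f, add_mul]
        simp only [BoundedContinuousFunction.add_apply, add_smul]
        rw [e1, map_add, add_apply, map_add, integral_add (iq q) (iq q')]
        abel
      map_smul' := fun c q => by
        have e1 : f (c • q) = c • f q := by
          ext x
          simp [f, mul_assoc]
        simp only [BoundedContinuousFunction.smul_apply, smul_assoc]
        rw [e1, map_smul, smul_apply, map_smul, integral_smul, RingHom.id_apply, smul_sub] }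
  have hL : ∀ q, ‖L q‖ ≤ (‖s.P‖ * (‖β.comp s.a‖ * ‖h‖) +
      ∫ x, ‖A (s.a x) (m.B h x)‖ ∂m.τ) * ‖q‖ := fun q => by
    have e1 : ‖q.toContinuousMap.comp s.a‖ ≤ ‖q‖ :=
      (ContinuousMap.norm_le _ (norm_nonneg q)).2 fun x => q.norm_coe_le_norm _
    have e2 : ‖m.Θ (f q)‖ ≤ ‖q‖ * ‖β.comp s.a‖ :=
      (NonUnitalStarAlgHom.norm_apply_le m.Θ (f q)).trans ((norm_mul_le _ _).trans
        (mul_le_mul_of_nonneg_right e1 (norm_nonneg _)))
    have e3 : ‖s.P (m.Θ (f q) h)‖ ≤ ‖s.P‖ * (‖q‖ * ‖β.comp s.a‖ * ‖h‖) :=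
      (s.P.le_opNorm _).trans (mul_le_mul_of_nonneg_left (((m.Θ (f q)).le_opNorm h).trans
        (mul_le_mul_of_nonneg_right e2 (norm_nonneg _))) (norm_nonneg _))
    have e4 : ‖∫ x, q (s.a x) • A (s.a x) (m.B h x) ∂m.τ‖ ≤
        ‖q‖ * ∫ x, ‖A (s.a x) (m.B h x)‖ ∂m.τ := by
      rw [← integral_const_mul]
      refine norm_integral_le_of_norm_le (iA.norm.const_mul _) (Eventually.of_forall fun x => ?_)
      rw [norm_smul]
      exact mul_le_mul_of_nonneg_right (q.norm_coe_le_norm _) (norm_nonneg _)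
    refine (norm_sub_le _ _).trans ?_
    linarith
  have hloc := loc_of_Psi s.T (L.mkContinuous _ hL) fun w _ => by
    generalize rr w = q
    have e1 : s.a * f q = f (ret * q) := by
      ext x
      simp only [f, ContinuousMap.mul_apply, ContinuousMap.comp_apply,
        BoundedContinuousFunction.coe_toContinuousMap, BoundedContinuousFunction.mul_apply]
      linear_combination -q (s.a x) * hret (s.a x)
    have i1 : Integrable (fun x => f q x • m.B h x) m.τ :=
      (m.int_B (m.Θ (f q) h)).congr (m.B_mul (f q) h)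
    have e2 : (m.Z†) (m.Θ (f q) h) = ∫ x, f q x • m.B h x ∂m.τ := by
      rw [← m.B_int]
      exact integral_congr_ae (m.B_mul (f q) h)
    have e3 := (s.P ∘L m.Z ∘L s.S).integral_comp_comm i1
    have i2 := (s.P ∘L m.Z ∘L s.S).integrable_comp i1
    simp only [ContinuousLinearMap.comp_apply] at e3 i2
    have e4 : s.T (∫ x, q (s.a x) • A (s.a x) (m.B h x) ∂m.τ) =
        ∫ x, (ret * q) (s.a x) • A (s.a x) (m.B h x) ∂m.τ +
          s.P (m.Z (s.S ((m.Z†) (m.Θ (f q) h)))) := by
      rw [← s.T.integral_comp_comm (iq q), e2, ← e3, ← integral_add (iq _) i2]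
      refine integral_congr_ae (Eventually.of_forall fun x => ?_)
      simp only [map_smul, hTA, smul_add, smul_smul, f, ContinuousMap.mul_apply,
        ContinuousMap.comp_apply, BoundedContinuousFunction.coe_toContinuousMap,
        BoundedContinuousFunction.mul_apply, mul_comm]
    change s.T (s.P (m.Θ (f q) h) - ∫ x, q (s.a x) • A (s.a x) (m.B h x) ∂m.τ) =
      s.P (m.Θ (f (ret * q)) h) - ∫ x, (ret * q) (s.a x) • A (s.a x) (m.B h x) ∂m.τ
    rw [map_sub, e4, ← P_T, T_apply, map_add, ← e1, map_mul m.Θ s.a, mul_apply_eq_comp]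
    abel
  have e5 : f 1 = β.comp s.a := by
    ext x
    simp [f]
  have e6 : L.mkContinuous _ hL 1 = s.P (m.Θ (β.comp s.a) h) - Y h := by
    change s.P (m.Θ (f 1) h) - _ = _
    rw [e5, hY']
    simp
  rw [e6] at hloc
  refine sub_eq_zero.1 (hno _ ?_ hloc)
  rw [map_sub, ContinuousLinearMap.comp_apply, P_P, hY', ← s.P.integral_comp_comm iA]
  simp only [hPA]

/-- The key proposition on the unit disc. -/
theorem key_unit [SecondCountableTopology G] (hG : GoodOfRoute) (h2 : s.H2) (hno : s.NoLoc) :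
    ∃ δ : ℝ, 0 < δ ∧ IsCompactOperator (s.P ∘L m.Θ ((tent 0 δ).comp s.a)) := by
  obtain ⟨r, hr, hr1, Sw, hc, hS⟩ := s.exists_resolvent hno h2
    ((bpe_or_route _ s.integrableOn_rho fun z => lb_nonneg _).resolve_right (s.not_route hG hno))
  exact ⟨r / 2, half_pos hr, s.compact_of_resolvent hno hr hr1 hc hS⟩

end Sys

end Pool.Agent.P.MP_f981b0_an.TC
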