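import Pool.Agent.P.MP_f981b0_an.TC.HCore
import Pool.Agent.P.MP_f981b0_an.R1.Main

set_option autoImplicit false

noncomputable section

namespace Pool.Agent.P.MP_f981b0_an.TC

open MeasureTheory Metric Set Filter Topology
open scoped InnerProductSpace InnerProduct BoundedContinuousFunction ComplexConjugate
open R1

theorem dom_ind {f : ℂ → ℝ} (hf : Integrable f) {S : Set ℂ} (hS : MeasurableSet S) {A : ℝ}
    (h : ∫ z in S, f z ≤ A) : Dom (S.indicator f) A :=
  ⟨_, hf.indicator hS, fun _ => le_rfl, by rwa [integral_indicator hS]⟩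

theorem div_le_eighth {c C n : ℝ} (hc : 0 < c) (hC : 0 < C) (hn : 0 ≤ n) :
    C * n / (8 * C * n / c + 1) ≤ c / 8 := by
  rw [div_le_iff₀ (by positivity)]
  have : c / 8 * (8 * C * n / c + 1) = C * n + c / 8 := by field_simp
  rw [this]
  linarith

variable {X H G K : Type*} [TopologicalSpace X] [CompactSpace X] [MeasurableSpace X]
  [BorelSpace X]
  [NormedAddCommGroup H] [InnerProductSpace ℂ H] [CompleteSpace H]
  [NormedAddCommGroup G] [InnerProductSpace ℂ G] [CompleteSpace G]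
  [NormedAddCommGroup K] [InnerProductSpace ℂ K] [CompleteSpace K]

theorem int_VT_mul (m : Model X H G K) (a : C(X, ℂ)) {F : X → K} (hF : Integrable F m.τ)
    {w : ℂ → ℝ} {D0 : ℝ} (hw : VTest w D0) : Integrable fun z => ‖VT m.τ a F z‖ * w z := by
  refine (integrableOn_iff_integrable_of_support_subset (s := ball (0 : ℂ) 1) ?_).1 ?_
  · intro z hz
    by_contra hc
    exact hz (by simp [hw.supp z (by simpa using hc)])
  · exact (integrableOn_VT a.measurable hF 0 one_pos).1.norm.mul_bdd (c := D0)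
      hw.meas.aestronglyMeasurable (Eventually.of_forall hw.bdd)

theorem Model.yv_bound (m : Model X H G K) (a : C(X, ℂ)) {w : ℂ → ℝ} {D0 D1 : ℝ}
    (hw : VTest w D0) {G' : Set ℂ} (h : SB w (m.τ.map a) G' D1) {ψ : ℂ → G}
    (hψ : StronglyMeasurable ψ) (hb : ∀ z, ‖ψ z‖ ≤ G'.indicator 1 z) (q : ℂ →ᵇ ℂ) :
    ‖m.yv a fun z => q z • (w z : ℂ) • ψ z‖ ≤ ‖m.B‖ * √D1 * ‖q‖ := by
  have hψ' : StronglyMeasurable fun z => ((‖q‖ : ℂ)⁻¹ * q z) • ψ z :=
    (by fun_prop : Continuous fun z => (‖q‖ : ℂ)⁻¹ * q z).stronglyMeasurable.smul hψ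
  have hb' : ∀ z, ‖((‖q‖ : ℂ)⁻¹ * q z) • ψ z‖ ≤ G'.indicator 1 z := fun z => by
    rw [norm_smul, norm_mul, norm_inv, Complex.norm_real, norm_norm]
    refine (mul_le_of_le_one_left (norm_nonneg _) ?_).trans (hb z)
    exact (mul_le_mul_of_nonneg_left (q.norm_coe_le_norm z) (by positivity)).trans inv_mul_le_one
  have ht := hw.smul_real hψ' fun z => (hb' z).trans (ind_le_one G' z)
  have h1 : (fun z => q z • (w z : ℂ) • ψ z) =
      fun z => (‖q‖ : ℂ) • (w z : ℂ) • ((‖q‖ : ℂ)⁻¹ * q z) • ψ z := by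
    funext z
    rcases eq_or_ne q 0 with rfl | hq
    · simp
    · have : (‖q‖ : ℂ) ≠ 0 := by exact_mod_cast norm_ne_zero_iff.2 hq
      simp only [smul_smul]
      congr 1
      field_simp
  rw [h1, m.yv_smul a ht, norm_smul, Complex.norm_real, norm_norm, mul_comm]
  refine mul_le_mul_of_nonneg_right (m.norm_yv_le a ht ?_) (norm_nonneg _)
  have h2 := h.vec hw hψ' hb'
  rwa [integral_map a.measurable.aemeasurable
    (ht.continuous_CV.norm.fun_pow 2).aestronglyMeasurable] at h2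

namespace Sys

variable {m : Model X H G K} (s : Sys m)

theorem sm_GG : StronglyMeasurable s.GG := stronglyMeasurable_VT s.a.measurable m.Γ_meas

theorem measurable_rho : Measurable s.rho := by
  obtain ⟨L, hL⟩ := s.lipschitz_Th
  exact ((lipschitz_lb.continuous.comp hL.continuous).comp_stronglyMeasurable s.sm_GG).measurable

theorem integrableOn_rho : IntegrableOn s.rho (ball 0 1) :=
  Measure.integrableOn_of_bounded (M := 1) measure_ball_lt_top.ne
    s.measurable_rho.aestronglyMeasurable (Eventually.of_forall fun z => by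
      rw [rho, Real.norm_of_nonneg (lb_nonneg _)]
      exact lb_le_one _)

theorem int_Th {φ : ℂ → G} {D : ℝ} (h : VTest φ D) : Integrable fun z => s.Th (s.GG z) (φ z) :=
  (s.int_Th1 h).prodMk (s.int_Th2 h)

/-- Approximate kernel fields with bounded vectors are weakly null. -/
theorem weakly_null (hno : s.NoLoc) {φ : ℕ → ℂ → G} {D : ℕ → ℝ} (h : ∀ k, VTest (φ k) (D k))
    {C : ℝ} (hC0 : 0 ≤ C) (hC : ∀ k (q : ℂ →ᵇ ℂ), ‖m.yv s.a fun z => q z • φ k z‖ ≤ C * ‖q‖)
    (h0 : Tendsto (fun k => ∫ z, ‖s.Th (s.GG z) (φ k z)‖) atTop (𝓝 0)) (c : G) :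
    Tendsto (fun k => ⟪c, ∫ z, φ k z⟫_ℂ) (hyperfilter ℕ) (𝓝 0) := by
  have h0' : Tendsto (fun k => ∫ z, ‖s.Th (s.GG z) (φ k z)‖) (hyperfilter ℕ) (𝓝 0) :=
    h0.mono_left Nat.hyperfilter_le_atTop
  choose Ψ hΨ1 hΨ2 using fun k => m.exists_Psi s.a (h k) hC0 (hC k)
  have hn : ∀ k, ‖s.P ∘L Ψ k‖ ≤ ‖s.P‖ * C := fun k =>
    (ContinuousLinearMap.opNorm_comp_le _ _).trans
      (mul_le_mul_of_nonneg_left (hΨ1 k) (norm_nonneg _))
  obtain ⟨y, g, hloc, -, hy, -⟩ := refl_hilbert.loc_limit s.T (hyperfilter ℕ) (t := 0) (r := 1)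
    (C := ‖s.P‖ * C) (B := ‖s.P‖ * C) (g := fun k w => -(s.P ∘L Ψ k) (rr w))
    (y := fun k => (s.P ∘L Ψ k) 1) (fun k => diff_Psi _) (fun k w hw => norm_Psi_le _ (hn k) hw)
    (fun k => ((s.P ∘L Ψ k).le_opNorm _).trans (by rw [norm_one, mul_one]; exact hn k))
    (fun w hw => by
      refine squeeze_zero_norm (fun k => ?_)
        (by simpa using h0'.const_mul (‖m.Z ∘L s.R‖ * ‖rr w‖))
      rw [res_Psi _ _ hw, norm_neg, ContinuousLinearMap.comp_apply, ContinuousLinearMap.comp_apply,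
        s.T_Psi (h k) (hΨ2 k), add_sub_cancel_left, mul_assoc]
      refine ((m.Z ∘L s.R).le_opNorm _).trans (mul_le_mul_of_nonneg_left ?_ (norm_nonneg _))
      rw [← integral_const_mul]
      refine norm_integral_le_of_norm_le ((s.int_Th (h k)).norm.const_mul _)
        (Eventually.of_forall fun z => ?_)
      rw [norm_smul]
      exact mul_le_mul ((rr w).norm_coe_le_norm z) (norm_fst_le (s.Th (s.GG z) (φ k z)))
        (norm_nonneg _) (norm_nonneg _))
  have hΨ3 : ∀ k, (s.P ∘L Ψ k) 1 = s.P (m.yv s.a (φ k)) := fun k => by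
    rw [ContinuousLinearMap.comp_apply, hΨ2]
    simp
  simp only [hΨ3] at hy
  have hPy : s.P y = y := by
    refine ext_inner_left ℂ fun e => ?_
    have h1 := hy ((innerSL ℂ e).comp s.P)
    simp only [ContinuousLinearMap.comp_apply, P_P] at h1
    exact tendsto_nhds_unique h1 (hy (innerSL ℂ e))
  obtain rfl := hno y hPy hloc
  have t1 : Tendsto (fun k => ∫ z, s.Th1 (s.GG z) (φ k z)) (hyperfilter ℕ) (𝓝 0) :=
    squeeze_zero_norm (fun k => norm_integral_le_of_norm_le (s.int_Th (h k)).norm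
      (Eventually.of_forall fun z => norm_fst_le (s.Th (s.GG z) (φ k z)))) h0'
  have t2 : Tendsto (fun k => ∫ z, s.Th2 (s.GG z) (φ k z)) (hyperfilter ℕ) (𝓝 0) :=
    squeeze_zero_norm (fun k => norm_integral_le_of_norm_le (s.int_Th (h k)).norm
      (Eventually.of_forall fun z => norm_snd_le (s.Th (s.GG z) (φ k z)))) h0'
  have t3 := hy ((innerSL ℂ c).comp (s.S ∘L (m.Z†)))
  have t4 := (((innerSL ℂ c).continuous.tendsto 0).comp t1).sub
    (((((innerSL ℂ c).comp s.S).continuous.tendsto 0).comp t2).add t3)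
  simp only [map_zero, add_zero, sub_zero] at t4
  refine t4.congr fun k => ?_
  simp only [Function.comp_apply, s.integral_Th1 (h k), s.integral_Th2 (h k),
    ContinuousLinearMap.comp_apply, innerSL_apply_apply, map_sub, inner_add_right]
  ring

theorem exists_sel [SecondCountableTopology G] {δ : ℝ} (hδ : 0 < δ) :
    ∃ u : ℂ → G, StronglyMeasurable u ∧ ∀ z, ‖u z‖ ≤ 1 ∧
      ‖s.Th (s.GG z) (u z)‖ < s.rho z + δ ∧ (s.rho z < 1 / 2 → 1 / 2 < ‖u z‖) := by
  classical
  have : Nonempty (closedBall (0 : G) 1) := ⟨⟨0, by simp⟩⟩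
  let d : ℕ → G := fun n => TopologicalSpace.denseSeq (closedBall (0 : G) 1) n
  let p : ℕ → ℂ → Prop := fun n z =>
    ‖s.Th (s.GG z) (d n)‖ < s.rho z + δ ∧ (s.rho z < 1 / 2 → 1 / 2 < ‖d n‖)
  have hp : ∀ n, MeasurableSet {z | p n z} := fun n => by
    have hc : Continuous fun A => ‖s.Th A (d n)‖ := by
      simp only [Th_apply]
      fun_prop
    refine (measurableSet_lt (hc.comp_stronglyMeasurable s.sm_GG).measurable
      (s.measurable_rho.add_const δ)).inter ?_
    exact MeasurableSet.imp (measurableSet_lt s.measurable_rho measurable_const)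
      (MeasurableSet.const _)
  have hex : ∀ z, ∃ n, p n z := fun z => by
    have h0 : 0 ≤ s.rho z := lb_nonneg _
    have ho : IsOpen {x : closedBall (0 : G) 1 | ‖s.Th (s.GG z) x‖ < s.rho z + δ} :=
      isOpen_lt (by fun_prop) continuous_const
    by_cases hz : s.rho z < 1 / 2
    · obtain ⟨e, he1, he2⟩ := exists_unit_of_lb_lt (L := s.Th (s.GG z))
        (c := min (s.rho z + δ) 1) (lt_min (lt_add_of_pos_right _ hδ) (hz.trans (by norm_num)))
        (min_le_right _ _)
      obtain ⟨n, hn⟩ := (TopologicalSpace.denseRange_denseSeq (closedBall (0 : G) 1)).exists_mem_open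
        (ho.inter (isOpen_lt (f := fun _ => (1 / 2 : ℝ))
          (g := fun x : closedBall (0 : G) 1 => ‖(x : G)‖) continuous_const (by fun_prop)))
        ⟨⟨e, by simp [he1]⟩, he2.trans_le (min_le_left _ _), by norm_num [he1]⟩
      exact ⟨n, hn.1, fun _ => hn.2⟩
    · obtain ⟨n, hn⟩ := (TopologicalSpace.denseRange_denseSeq (closedBall (0 : G) 1)).exists_mem_open
        ho ⟨⟨0, by simp⟩, by simp; linarith⟩
      exact ⟨n, hn, fun h => absurd h hz⟩
  refine ⟨fun z => d (Nat.find (hex z)), ?_, fun z => ⟨?_, Nat.find_spec (hex z)⟩⟩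
  · exact continuous_of_discreteTopology.comp_stronglyMeasurable
      (measurable_find hex hp).stronglyMeasurable
  · exact mem_closedBall_zero_iff.1 (Subtype.property _)

theorem tail_GG {Q : G →L[ℂ] G} {Γ' : X → K} (hi : Integrable Γ' m.τ)
    (h : ∀ x, m.Op (m.Γ x) = m.Op (m.Γ x) ∘L Q + m.Op (Γ' x)) :
    ∀ᵐ z : ℂ, ∀ d, m.Op (s.GG z) d = m.Op (s.GG z) (Q d) + m.Op (VT m.τ s.a Γ' z) d := by
  filter_upwards [ae_integrable_VT s.a.measurable m.Γ_int, ae_integrable_VT s.a.measurable hi]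
    with z h1 h2 d
  have e1 := fun d => (m.Op.flip d).integral_comp_comm h1
  have e2 := (m.Op.flip d).integral_comp_comm h2
  have i1 := (m.Op.flip (Q d)).integrable_comp h1
  have i2 := (m.Op.flip d).integrable_comp h2
  simp only [ContinuousLinearMap.flip_apply] at e1 e2 i1 i2
  rw [GG, VT, VT, ← e1, ← e1, ← e2, ← integral_add i1 i2]
  refine integral_congr_ae (Eventually.of_forall fun x => ?_)
  have := congrArg (fun L : G →L[ℂ] G => L d) (h x)
  simp only [add_apply, ContinuousLinearMap.comp_apply] at this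
  simp only [map_smul, smul_apply]
  rw [this, smul_add]

omit [BorelSpace X] in
theorem one_le_pt {A A' : K} {u v : G} {r t Sg : ℝ} (ht : 0 < t) (hr : 0 ≤ r) (hu : ‖u‖ ≤ 1)
    (h1 : ‖s.Th A u‖ ≤ r) (h2 : 1 / 2 ≤ r ∨ 1 / 2 ≤ ‖u‖)
    (h3 : m.Op A u = m.Op A v + m.Op A' u) (h4 : ‖v‖ ^ 2 ≤ Sg) :
    1 ≤ 2 * r + 2 * (‖s.S‖ * ‖m.Op‖) * t * ‖A‖ + 2 * (‖s.S‖ * ‖m.Op‖) * ‖A'‖ +
      (t ^ 2)⁻¹ * Sg := by
  have hO := m.Op.opNorm_nonneg
  have hSg : 0 ≤ Sg := (sq_nonneg _).trans h4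
  have p1 : 0 ≤ 2 * (‖s.S‖ * ‖m.Op‖) * t * ‖A‖ := by positivity
  have p2 : 0 ≤ 2 * (‖s.S‖ * ‖m.Op‖) * ‖A'‖ := by positivity
  have p3 : 0 ≤ (t ^ 2)⁻¹ * Sg := by positivity
  rcases h2 with h2 | h2
  · linarith
  rcases le_total ‖v‖ t with hv | hv
  · have e1 : u = s.Th1 A u - s.S (m.Op A u) := by simp [Th1]
    have e2 : ‖u‖ ≤ ‖s.Th1 A u‖ + ‖s.S (m.Op A u)‖ := by
      calc ‖u‖ = ‖s.Th1 A u - s.S (m.Op A u)‖ := by rw [← e1]
        _ ≤ _ := norm_sub_le _ _
    have e3 : ‖s.Th1 A u‖ ≤ r := (norm_fst_le (s.Th A u)).trans h1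
    have e4 : ‖m.Op A v‖ ≤ ‖m.Op‖ * ‖A‖ * t :=
      (m.Op.le_opNorm₂ _ _).trans (mul_le_mul_of_nonneg_left hv (by positivity))
    have e5 : ‖m.Op A' u‖ ≤ ‖m.Op‖ * ‖A'‖ :=
      (m.Op.le_opNorm₂ _ _).trans (mul_le_of_le_one_right (by positivity) hu)
    have e6 : ‖s.S (m.Op A u)‖ ≤ ‖s.S‖ * (‖m.Op‖ * ‖A‖ * t + ‖m.Op‖ * ‖A'‖) := by
      refine (s.S.le_opNorm _).trans (mul_le_mul_of_nonneg_left ?_ (norm_nonneg _))
      rw [h3]
      exact (norm_add_le _ _).trans (add_le_add e4 e5)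
    nlinarith
  · have e1 : 1 ≤ (t ^ 2)⁻¹ * Sg := by
      rw [inv_mul_eq_div, one_le_div (by positivity)]
      exact (pow_le_pow_left₀ ht.le hv 2).trans h4
    linarith

/-- Coordinates of approximate kernel fields vanish in the mean. -/
theorem coord_null (hno : s.NoLoc) {w : ℕ → ℂ → ℝ} {D : ℕ → ℝ} (hw : ∀ k, VTest (w k) (D k))
    (hw0 : ∀ k z, 0 ≤ w k z) {G1 G' : ℕ → Set ℂ} (hG' : ∀ k, MeasurableSet (G' k))
    (hsub : ∀ k, G' k ⊆ G1 k) {D1 : ℝ} (hSB : ∀ k, SB (w k) (m.τ.map s.a) (G1 k) D1)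
    {u : ℕ → ℂ → G} (hu : ∀ k, StronglyMeasurable (u k)) (hu1 : ∀ k z, ‖u k z‖ ≤ 1)
    {b : ℕ → ℝ} (hb : Tendsto b atTop (𝓝 0))
    (hd : ∀ k, Dom (fun z => w k z * ‖s.Th (s.GG z) (u k z)‖) (b k)) (c : G) :
    Tendsto (fun k => ∫ z in G' k, ‖⟪c, u k z⟫_ℂ‖ ^ 2 * w k z) (hyperfilter ℕ) (𝓝 0) := by
  have hκ : (0 : ℝ) < ‖c‖ + 1 := by positivity
  have hκ' : ((‖c‖ + 1 : ℝ) : ℂ) ≠ 0 := by exact_mod_cast hκ.ne'
  let l : ℕ → ℂ → ℂ := fun k => (G' k).indicator fun z => ((‖c‖ + 1 : ℝ) : ℂ)⁻¹ * ⟪u k z, c⟫_ℂ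
  have hl : ∀ k, StronglyMeasurable (l k) := fun k =>
    (((hu k).inner stronglyMeasurable_const).const_mul _).indicator (hG' k)
  have hl1 : ∀ k z, ‖l k z‖ ≤ (G1 k).indicator 1 z := fun k z => by
    by_cases hz : z ∈ G' k
    · simp only [l]
      rw [indicator_of_mem hz, indicator_of_mem (hsub k hz), norm_mul, norm_inv, Complex.norm_real,
        Real.norm_of_nonneg hκ.le, inv_mul_le_iff₀ hκ]
      have := norm_inner_le_norm (𝕜 := ℂ) (u k z) c
      have := mul_le_of_le_one_left (norm_nonneg c) (hu1 k z)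
      simp only [Pi.one_apply]
      linarith
    · simp only [l]
      rw [indicator_of_notMem hz, norm_zero]
      exact indicator_nonneg (fun _ _ => by simp) z
  have hψb : ∀ k z, ‖l k z • u k z‖ ≤ (G1 k).indicator 1 z := fun k z => by
    rw [norm_smul]
    exact (mul_le_of_le_one_right (norm_nonneg _) (hu1 k z)).trans (hl1 k z)
  have ht : ∀ k, VTest (fun z => (w k z : ℂ) • l k z • u k z) (D k) := fun k =>
    (hw k).smul_real ((hl k).smul (hu k)) fun z => (hψb k z).trans (ind_le_one _ z)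
  have key := s.weakly_null hno ht (C := ‖m.B‖ * √D1) (by positivity)
    (fun k q => m.yv_bound s.a (hw k) (hSB k) ((hl k).smul (hu k)) (hψb k) q)
    (squeeze_zero (fun k => integral_nonneg fun _ => norm_nonneg _) (fun k =>
      ((hd k).mono (fun z => by
        rw [map_smul, map_smul, norm_smul, norm_smul, Complex.norm_real,
          Real.norm_of_nonneg (hw0 k z)]
        exact mul_le_mul_of_nonneg_left (mul_le_of_le_one_left (norm_nonneg _)
          ((hl1 k z).trans (ind_le_one _ z))) (hw0 k z)) le_rfl).integral_le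
            fun _ => norm_nonneg _) hb) c
  have key2 := (Complex.continuous_re.tendsto _).comp (key.const_mul ((‖c‖ + 1 : ℝ) : ℂ))
  rw [mul_zero, Complex.zero_re] at key2
  refine key2.congr fun k => ?_
  rw [Function.comp_apply, ← integral_inner (ht k).integrable, ← integral_const_mul,
    ← integral_indicator (hG' k), ← Complex.ofReal_re (∫ z, _), ← integral_complex_ofReal]
  congr 1
  refine integral_congr_ae (Eventually.of_forall fun z => ?_)
  by_cases hz : z ∈ G' k
  · simp only [l, indicator_of_mem hz, inner_smul_right]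
    rw [← inner_conj_symm (u k z) c]
    have := Complex.conj_mul' ⟪c, u k z⟫_ℂ
    push_cast at hκ' ⊢
    rw [← this]
    field_simp
  · simp [l, indicator_of_notMem hz]

/-- Alternative (I) produces local vectors. -/
theorem not_route [SecondCountableTopology G] (hG : GoodOfRoute) (hno : s.NoLoc) :
    ¬ ∀ ε : ℝ, 0 < ε → Route s.rho ε := by
  intro hR
  obtain ⟨c, C, ε0, hc, hC, hε0, hgood⟩ := hG
  have hO := m.Op.opNorm_nonneg
  set σ0 : ℝ := ‖s.S‖ * ‖m.Op‖ with hσ0
  have hσ : 0 ≤ σ0 := by positivity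
  set n0 : ℝ := (m.τ.map s.a).real univ with hn0
  set m1 : ℝ := ∫ x, ‖m.Γ x‖ ∂m.τ with hm1
  have hn00 : 0 ≤ n0 := measureReal_nonneg
  have hm10 : 0 ≤ m1 := integral_nonneg fun _ => norm_nonneg _
  set Λ : ℝ := √(m1 * (C * (m1 + (8 * C * m1 / c + 1)))) with hΛ
  have hΛ0 : 0 ≤ Λ := Real.sqrt_nonneg _
  set t : ℝ := c / (16 * (σ0 * Λ + 1)) with htdef
  have ht : 0 < t := by positivity
  have ht1 : 2 * σ0 * t * Λ ≤ c / 8 := by
    have : 2 * σ0 * t * Λ = c / 8 * (σ0 * Λ / (σ0 * Λ + 1)) := by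
      rw [htdef]
      field_simp
      ring
    rw [this]
    exact mul_le_of_le_one_right (by positivity) ((div_le_one (by positivity)).2 (by linarith))
  obtain ⟨η0, hη0, hη⟩ : ∃ η0 > 0, ∀ η : ℝ, dist η 0 < η0 →
      C * η / 1 + 2 * σ0 * √(η * (C * (η + 1))) < c / 8 := by
    have hcont : Continuous fun η : ℝ => C * η / 1 + 2 * σ0 * √(η * (C * (η + 1))) := by fun_prop
    have := (hcont.tendsto 0).eventually (gt_mem_nhds (a := c / 8) (by simpa using hc))
    exact Metric.eventually_nhds_iff.1 this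
  obtain ⟨n, cj, Q, Γ', hQ, -, hΓ', hη1, htail⟩ := m.tail (η0 / 2) (half_pos hη0)
  have hη2 := hη (∫ x, ‖Γ' x‖ ∂m.τ) (by
    rw [dist_zero_right, Real.norm_of_nonneg (integral_nonneg fun _ => norm_nonneg _)]
    linarith)
  have hδ : ∀ k : ℕ, (0 : ℝ) < 1 / (k + 1) := fun k => by positivity
  have hε : ∀ k : ℕ, 0 < min ε0 (1 / (k + 1)) := fun k => lt_min hε0 (hδ k)
  choose w hw using fun k : ℕ => hgood s.rho s.integrableOn_rho (fun z => lb_nonneg _) _ (hε k)
    (min_le_left _ _) (hR _ (hε k))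
  choose D hD using fun k => (hw k).vtest
  choose G1 a1 a2 a3 using fun k => (hw k).bound (m.τ.map s.a) (8 * C * n0 / c + 1) (by positivity)
  choose G2 b1 b2 b3 using fun k => (hw k).weak s.a.measurable m.Γ_int (M := 8 * C * m1 / c + 1)
    (by positivity)
  choose G3 c1 c2 c3 using fun k => (hw k).weak s.a.measurable hΓ' one_pos
  choose u hu hu' using fun k => s.exists_sel (hδ k)
  have hG' : ∀ k, MeasurableSet (G1 k ∩ G2 k ∩ G3 k) := fun k => ((a1 k).inter (b1 k)).inter (c1 k)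
  have hdom : ∀ k, Dom (fun z => (s.rho z + 1 / (k + 1)) * w k z) (2 * C * (1 / (k + 1))) := by
    intro k
    have i1 : Integrable fun z => s.rho z * w k z :=
      (hD k).integrable.bdd_mul (c := 1) s.measurable_rho.aestronglyMeasurable
        (Eventually.of_forall fun z => by
          rw [rho, Real.norm_of_nonneg (lb_nonneg _)]
          exact lb_le_one _)
    have i2 : Integrable fun z => 1 / (k + 1) * w k z := (hD k).integrable.const_mul _
    refine ⟨fun z => s.rho z * w k z + 1 / (k + 1) * w k z, i1.add i2, fun z => (add_mul _ _ _).le,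
      ?_⟩
    have e1 := (hw k).cost
    rw [setIntegral_eq_integral_of_forall_compl_eq_zero
      (fun z hz => by simp [(hw k).supp z (by simpa using hz)])] at e1
    have e2 := mul_le_mul_of_nonneg_left (min_le_right ε0 (1 / (k + 1))) hC.le
    have e3 := mul_le_mul_of_nonneg_left (hw k).mass_le (hδ k).le
    rw [integral_add i1 i2, integral_const_mul]
    linarith
  have hb : Tendsto (fun k : ℕ => 2 * C * (1 / ((k : ℝ) + 1))) atTop (𝓝 0) := by
    simpa using tendsto_one_div_add_atTop_nhds_zero_nat.const_mul (2 * C)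
  have hnull := fun j => s.coord_null hno hD (fun k => (hw k).nonneg) hG'
    (fun k => inter_subset_left.trans inter_subset_left) a3 hu (fun k z => (hu' k z).1) hb
    (fun k => (hdom k).mono (fun z => by
      rw [mul_comm]
      exact mul_le_mul_of_nonneg_right (hu' k z).2.1.le ((hw k).nonneg z)) le_rfl) (cj j)
  have hlim := ((hb.mono_left Nat.hyperfilter_le_atTop).const_mul 2).add
    ((tendsto_finsetSum Finset.univ fun j _ => hnull j).const_mul (t ^ 2)⁻¹)
  simp only [mul_zero, Finset.sum_const_zero, add_zero] at hlim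
  obtain ⟨k, hk⟩ := (hlim.eventually (gt_mem_nhds (half_pos hc))).exists
  have iw := (hD k).integrable
  have d1 := dom_ind iw (a1 k).compl ((a2 k).trans (div_le_eighth hc hC hn00))
  have d2 := dom_ind iw (b1 k).compl ((b2 k).trans (div_le_eighth hc hC hm10))
  have d3 := dom_ind iw (c1 k).compl (c2 k)
  have d4 := (hdom k).const_mul zero_le_two
  have d5 := (dom_ind (int_VT_mul m s.a m.Γ_int (hD k)) (b1 k) (b3 k)).const_mul
    (κ := 2 * σ0 * t) (by positivity)
  have d6 := (dom_ind (int_VT_mul m s.a hΓ' (hD k)) (c1 k) (c3 k)).const_mul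
    (κ := 2 * σ0) (by positivity)
  have d7 := (dom_sum Finset.univ _ _ fun j _ => dom_ind (f := fun z => ‖⟪cj j, u k z⟫_ℂ‖ ^ 2 * w k z)
    (iw.bdd_mul (c := ‖cj j‖ ^ 2)
      ((stronglyMeasurable_const.inner (hu k)).norm.pow 2).aestronglyMeasurable
      (Eventually.of_forall fun z => by
        rw [Real.norm_of_nonneg (sq_nonneg _)]
        exact pow_le_pow_left₀ (norm_nonneg _) ((norm_inner_le_norm _ _).trans
          (mul_le_of_le_one_right (norm_nonneg _) (hu' k z).1)) 2)) (hG' k) le_rfl).const_mul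
    (κ := (t ^ 2)⁻¹) (by positivity)
  obtain ⟨g, g1, g2, g3⟩ := (((((d1.add d2).add d3).add d4).add d5).add d6).add d7
  have g4 : ∫ z, w k z ≤ ∫ z, g z := by
    refine integral_mono_ae iw g1 ?_
    filter_upwards [s.tail_GG hΓ' htail] with z hz
    refine le_trans ?_ (g2 z)
    have hw0 := (hw k).nonneg z
    have hρ0 : 0 ≤ s.rho z := lb_nonneg _
    have hδk := hδ k
    have q1 : 0 ≤ (G1 k)ᶜ.indicator (w k) z := indicator_nonneg (fun z _ => (hw k).nonneg z) z
    have q2 : 0 ≤ (G2 k)ᶜ.indicator (w k) z := indicator_nonneg (fun z _ => (hw k).nonneg z) z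
    have q3 : 0 ≤ (G3 k)ᶜ.indicator (w k) z := indicator_nonneg (fun z _ => (hw k).nonneg z) z
    by_cases hz' : z ∈ G1 k ∩ G2 k ∩ G3 k
    · have q4 := s.one_le_pt (r := s.rho z + 1 / (k + 1)) ht (by positivity) (hu' k z).1
        (hu' k z).2.1.le (by
          by_cases h : s.rho z < 1 / 2
          · exact Or.inr ((hu' k z).2.2 h).le
          · exact Or.inl (by linarith)) (hz (u k z)) (hQ (u k z))
      have q5 := mul_le_mul_of_nonneg_right q4 hw0
      simp only [indicator_of_mem hz', indicator_of_mem hz'.1.2, indicator_of_mem hz'.2]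
      rw [← Finset.sum_mul]
      rw [← hσ0, GG] at q5
      linarith
    · have q4 : w k z ≤ (G1 k)ᶜ.indicator (w k) z + (G2 k)ᶜ.indicator (w k) z +
          (G3 k)ᶜ.indicator (w k) z := by
        simp only [mem_inter_iff, not_and_or] at hz'
        rcases hz' with (h | h) | h
        · rw [indicator_of_mem (s := (G1 k)ᶜ) h]; linarith
        · rw [indicator_of_mem (s := (G2 k)ᶜ) h]; linarith
        · rw [indicator_of_mem (s := (G3 k)ᶜ) h]; linarith
      have q5 : 0 ≤ (G2 k).indicator (fun z => ‖VT m.τ s.a m.Γ z‖ * w k z) z :=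
        indicator_nonneg (fun z _ => mul_nonneg (norm_nonneg _) ((hw k).nonneg z)) z
      have q6 : 0 ≤ (G3 k).indicator (fun z => ‖VT m.τ s.a Γ' z‖ * w k z) z :=
        indicator_nonneg (fun z _ => mul_nonneg (norm_nonneg _) ((hw k).nonneg z)) z
      simp only [indicator_of_notMem hz', Finset.sum_const_zero, mul_zero, add_zero]
      have q7 : 0 ≤ 2 * ((s.rho z + 1 / (k + 1)) * w k z) := by positivity
      have q8 : 0 ≤ 2 * σ0 * t * (G2 k).indicator (fun z => ‖VT m.τ s.a m.Γ z‖ * w k z) z := by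
        positivity
      have q9 : 0 ≤ 2 * σ0 * (G3 k).indicator (fun z => ‖VT m.τ s.a Γ' z‖ * w k z) z := by
        positivity
      linarith
  have g5 := (hw k).mass_ge
  rw [← hm1, ← hΛ] at g3
  linarith

end Sys

end Pool.Agent.P.MP_f981b0_an.TC
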