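import Pool.Agent.P.MP_f981b0_an.TC.HOne
import Pool.Agent.P.MP_f981b0_an.R1.Dual

set_option autoImplicit false

noncomputable section

namespace Pool.Agent.P.MP_f981b0_an.TC

open MeasureTheory Metric Set Filter Topology
open scoped InnerProductSpace InnerProduct BoundedContinuousFunction
open R1

/-- Representation of a dominated functional on bounded analytic functions. -/
theorem exists_repr {ρ : ℂ → ℝ} (hρ : IntegrableOn ρ (ball 0 1)) (h0 : ∀ z, 0 ≤ ρ z)
    (l : (ℂ → ℂ) →ₗ[ℂ] ℂ) {κ : ℝ} (hκ : 0 ≤ κ)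
    (hl : ∀ p, Hinf p → ‖l p‖ ≤ κ * ∫ z in ball (0 : ℂ) 1, ρ z * ‖p z‖) :
    ∃ χ : ℂ → ℂ, VTest χ κ ∧ ∀ p, Hinf p → ∫ z, χ z * (ρ z * p z) = l p := by
  set μ : Measure ℂ := volume.restrict (ball (0 : ℂ) 1) with hμ
  have : IsFiniteMeasure μ := ⟨by simp [hμ]⟩
  let V : Submodule ℂ (ℂ → ℂ) :=
    { carrier := {p | Hinf p}
      add_mem' := fun hp hq => hp.add' hq
      zero_mem' := hinf_const 0
      smul_mem' := fun c _ hp => (hinf_const c).mul' hp }
  have hint : ∀ p : V, Integrable (fun z => (ρ z : ℂ) * p.1 z) μ := fun p =>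
    Hinf.integrableOn_mul p.2 hρ.ofReal
  let ι : V →ₗ[ℂ] Lp ℂ 1 μ :=
    { toFun := fun p => (hint p).toL1
      map_add' := fun p q => by
        rw [← Integrable.toL1_add]
        congr 1
        funext z
        simp [mul_add]
      map_smul' := fun c p => by
        rw [RingHom.id_apply, ← Integrable.toL1_smul']
        congr 1
        funext z
        simp [mul_left_comm] }
  have hι : ∀ p : V, ‖l p‖ ≤ κ * ‖ι p‖ := fun p => by
    refine (hl p p.2).trans (le_of_eq ?_)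
    congr 1
    change _ = ‖(hint p).toL1‖
    rw [L1.norm_of_fun_eq_integral_norm]
    simp only [norm_mul, Complex.norm_real, Real.norm_of_nonneg (h0 _)]
  obtain ⟨σ, hσ⟩ := ι.rangeRestrict.exists_rightInverse_of_surjective ι.range_rangeRestrict
  have hσ' : ∀ x : LinearMap.range ι, ι (σ x) = x := fun x =>
    congrArg (fun L : LinearMap.range ι →ₗ[ℂ] LinearMap.range ι => (L x : Lp ℂ 1 μ)) hσ
  have hb : ∀ x : LinearMap.range ι, ‖(l ∘ₗ V.subtype ∘ₗ σ) x‖ ≤ κ * ‖x‖ := fun x => by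
    have := hι (σ x)
    rwa [hσ'] at this
  obtain ⟨g, hg1, hg2⟩ := exists_extension_norm_eq (LinearMap.range ι)
    ((l ∘ₗ V.subtype ∘ₗ σ).mkContinuous κ hb)
  obtain ⟨φ, φ1, φ2, φ3⟩ := dual_L1 μ g
  have hgκ : ‖g‖ ≤ κ := hg2.trans_le (LinearMap.mkContinuous_norm_le _ hκ hb)
  refine ⟨(ball (0 : ℂ) 1).indicator φ, ⟨(φ1.indicator measurableSet_ball).stronglyMeasurable,
    fun z => (norm_indicator_le_norm_self _ _).trans ((φ2 z).trans hgκ),
    fun z hz => indicator_of_notMem (by simpa using hz) _⟩, fun p hp => ?_⟩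
  have e1 : g (ι ⟨p, hp⟩) = l p := by
    have e2 := hg1 ⟨ι ⟨p, hp⟩, LinearMap.mem_range_self _ _⟩
    have e3 := hι (σ ⟨ι ⟨p, hp⟩, LinearMap.mem_range_self _ _⟩ - ⟨p, hp⟩)
    rw [map_sub, hσ', sub_self, norm_zero, mul_zero, norm_le_zero_iff, Submodule.coe_sub, map_sub,
      sub_eq_zero] at e3
    exact e2.trans e3
  rw [← e1, φ3]
  have e4 : (fun z => (ball (0 : ℂ) 1).indicator φ z * (ρ z * p z)) =
      (ball (0 : ℂ) 1).indicator fun z => φ z * (ρ z * p z) := by
    funext z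
    by_cases hz : z ∈ ball (0 : ℂ) 1 <;> simp [hz]
  rw [e4, integral_indicator measurableSet_ball]
  refine integral_congr_ae ?_
  filter_upwards [(hint ⟨p, hp⟩).coeFn_toL1] with z hz
  exact congrArg (φ z * ·) hz.symm

variable {X H G K : Type*} [TopologicalSpace X] [CompactSpace X] [MeasurableSpace X]
  [BorelSpace X]
  [NormedAddCommGroup H] [InnerProductSpace ℂ H] [CompleteSpace H]
  [NormedAddCommGroup G] [InnerProductSpace ℂ G] [CompleteSpace G]
  [NormedAddCommGroup K] [InnerProductSpace ℂ K] [CompleteSpace K]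

omit [CompleteSpace G] in
theorem VTest.smul_vec {χ : ℂ → ℂ} {κ b : ℝ} (h : VTest χ κ) {ψ : ℂ → G}
    (hψ : StronglyMeasurable ψ) (hb : ∀ z, ‖ψ z‖ ≤ b) : VTest (fun z => χ z • ψ z) (κ * b) :=
  ⟨h.meas.smul hψ, fun z => by
    rw [norm_smul]
    exact mul_le_mul (h.bdd z) (hb z) (norm_nonneg _) h.nonneg, fun z hz => by simp [h.supp z hz]⟩

namespace Sys

variable {m : Model X H G K} (s : Sys m)

/-- The Gram operator of the symbol. -/
def Gr (A : K) : G →L[ℂ] G := ((s.Th1 A)†) ∘L s.Th1 A + ((s.Th2 A)†) ∘L s.Th2 A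

/-- The weighted solution operator. -/
def EK (A : K) : G →L[ℂ] G :=
  ((lb (s.Th A) : ℝ) : ℂ) • (Ring.inverse (s.Gr A) ∘L ((s.Th1 A)†) ∘L s.R)

omit [BorelSpace X] in
theorem inner_Gr (A : K) (e : G) :
    ⟪s.Gr A e, e⟫_ℂ = ((‖s.Th1 A e‖ ^ 2 + ‖s.Th2 A e‖ ^ 2 : ℝ) : ℂ) := by
  simp [Gr, ContinuousLinearMap.adjoint_inner_left, inner_self_eq_norm_sq_to_K]

omit [BorelSpace X] in
theorem sq_Th_le (A : K) (e : G) : ‖s.Th A e‖ ^ 2 ≤ ‖⟪s.Gr A e, e⟫_ℂ‖ := by
  rw [inner_Gr, Complex.norm_real, Real.norm_of_nonneg (by positivity)]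
  change max ‖s.Th1 A e‖ ‖s.Th2 A e‖ ^ 2 ≤ _
  rcases le_total ‖s.Th1 A e‖ ‖s.Th2 A e‖ with h | h
  · rw [max_eq_right h]
    linarith [sq_nonneg ‖s.Th1 A e‖]
  · rw [max_eq_left h]
    linarith [sq_nonneg ‖s.Th2 A e‖]

omit [BorelSpace X] in
theorem isUnit_Gr {A : K} (h : 0 < lb (s.Th A)) : IsUnit (s.Gr A) := by
  refine ContinuousLinearMap.isUnit_of_forall_le_norm_inner_map _
    (c := ⟨lb (s.Th A) ^ 2, sq_nonneg _⟩) (pow_pos h 2) fun x => le_trans ?_ (s.sq_Th_le A x)
  change ‖x‖ ^ 2 * lb (s.Th A) ^ 2 ≤ _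
  rw [← mul_pow, mul_comm]
  exact pow_le_pow_left₀ (by positivity) (lb_mul_le _ x) 2

omit [BorelSpace X] in
theorem norm_EK_le (A : K) (d : G) : ‖s.EK A d‖ ≤ ‖s.R‖ * ‖d‖ := by
  rcases (lb_nonneg (s.Th A)).eq_or_lt with h | h
  · simp only [EK, ← h, Complex.ofReal_zero, zero_smul, zero_apply, norm_zero]
    positivity
  set e := Ring.inverse (s.Gr A) (((s.Th1 A)†) (s.R d)) with he
  have h1 : s.Gr A e = ((s.Th1 A)†) (s.R d) :=
    congrArg (fun L : G →L[ℂ] G => L (((s.Th1 A)†) (s.R d)))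
      (Ring.mul_inverse_cancel _ (s.isUnit_Gr h))
  have h2 := s.sq_Th_le A e
  rw [h1, ContinuousLinearMap.adjoint_inner_left] at h2
  have h3 := h2.trans ((norm_inner_le_norm _ _).trans
    (mul_le_mul_of_nonneg_left (norm_fst_le (s.Th A e)) (norm_nonneg _)))
  have h4 : ‖s.Th A e‖ ≤ ‖s.R d‖ := by
    rcases (norm_nonneg (s.Th A e)).eq_or_lt with h5 | h5
    · rw [← h5]
      exact norm_nonneg _
    · rw [sq] at h3
      exact le_of_mul_le_mul_right h3 h5
  change ‖((lb (s.Th A) : ℝ) : ℂ) • e‖ ≤ _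
  rw [norm_smul, Complex.norm_real, Real.norm_of_nonneg h.le]
  exact ((lb_mul_le _ e).trans h4).trans (s.R.le_opNorm d)

omit [BorelSpace X] in
theorem Th1_EK {A : K} {d : G} (h : 0 < lb (s.Th A) → ∃ e, s.Th A e = (s.R d, 0)) :
    s.Th1 A (s.EK A d) = ((lb (s.Th A) : ℝ) : ℂ) • s.R d := by
  rcases (lb_nonneg (s.Th A)).eq_or_lt with h0 | h0
  · simp [EK, ← h0]
  obtain ⟨e, he⟩ := h h0
  have h1 : s.Th1 A e = s.R d := congrArg Prod.fst he
  have h2 : s.Th2 A e = 0 := congrArg Prod.snd he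
  have h3 : ((s.Th1 A)†) (s.R d) = s.Gr A e := by simp [Gr, h1, h2]
  have h4 : Ring.inverse (s.Gr A) (s.Gr A e) = e :=
    congrArg (fun L : G →L[ℂ] G => L e) (Ring.inverse_mul_cancel _ (s.isUnit_Gr h0))
  simp only [EK, smul_apply, ContinuousLinearMap.comp_apply, map_smul, h3, h4, h1]

theorem sm_EK [SecondCountableTopology G] (d : G) :
    StronglyMeasurable fun z => s.EK (s.GG z) d := by
  classical
  borelize K G
  obtain ⟨L, hL⟩ := s.lipschitz_Th
  have hc : Continuous fun A => lb (s.Th A) := lipschitz_lb.continuous.comp hL.continuous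
  have c1 : Continuous s.Th1 := by
    unfold Th1
    fun_prop
  have c2 : Continuous s.Th2 := by
    unfold Th2
    fun_prop
  have ca : Continuous fun L : G →L[ℂ] G => L† := ContinuousLinearMap.adjoint.continuous
  have c3 : Continuous s.Gr := ((ca.comp c1).clm_comp c1).add ((ca.comp c2).clm_comp c2)
  have hU : IsOpen {A | 0 < lb (s.Th A)} := isOpen_lt continuous_const hc
  have h1 : ContinuousOn (fun A => s.EK A d) {A | 0 < lb (s.Th A)} := fun A hA => by
    have h2 : ContinuousAt (fun A => Ring.inverse (s.Gr A)) A :=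
      ContinuousAt.comp (f := s.Gr) (g := Ring.inverse)
        (NormedRing.inverse_continuousAt (s.isUnit_Gr hA).unit) c3.continuousAt
    exact ((Complex.continuous_ofReal.comp hc).continuousAt.smul (h2.clm_apply
      ((ca.comp c1).clm_apply continuous_const).continuousAt)).continuousWithinAt
  have h3 := h1.measurable_piecewise (g := fun _ => 0) continuousOn_const hU.measurableSet
  have h4 : ({A | 0 < lb (s.Th A)}.piecewise (fun A => s.EK A d) fun _ => 0) =
      fun A => s.EK A d := by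
    funext A
    by_cases hA : A ∈ {A | 0 < lb (s.Th A)}
    · rw [piecewise_eq_of_mem _ _ _ hA]
    · rw [piecewise_eq_of_notMem _ _ _ hA]
      have : lb (s.Th A) = 0 := le_antisymm (not_lt.1 hA) (lb_nonneg _)
      simp [EK, this]
  rw [h4] at h3
  exact (h3.comp s.sm_GG.measurable).stronglyMeasurable

variable [SecondCountableTopology G] {χ : ℂ → ℂ} {κ : ℝ}

theorem vtest_EK (h : VTest χ κ) (d : G) :
    VTest (fun z => χ z • s.EK (s.GG z) d) (κ * (‖s.R‖ * ‖d‖)) :=
  h.smul_vec (s.sm_EK d) fun _ => s.norm_EK_le _ d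

omit [SecondCountableTopology G] [BorelSpace X] in
theorem integral_EK (h2 : s.H2) (χ q : ℂ → ℂ) (d : G) :
    ∫ z, q z • s.Th1 (s.GG z) (χ z • s.EK (s.GG z) d) =
      (∫ z, χ z * (s.rho z * q z)) • s.R d := by
  rw [← integral_smul_const]
  refine integral_congr_ae ?_
  filter_upwards [h2 d] with z hz
  rw [map_smul, s.Th1_EK hz, smul_smul, smul_smul, rho]
  congr 1
  ring

theorem zero_of_ann (hno : s.NoLoc) (h2 : s.H2) (h : VTest χ κ)
    (hann : ∀ p, Hinf p → ∫ z, χ z * (s.rho z * p z) = 0) (d : G) :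
    s.P (m.yv s.a fun z => χ z • s.EK (s.GG z) d) = 0 := by
  have ht := s.vtest_EK h d
  have hD := ht.nonneg
  obtain ⟨Ψ, -, hΨ⟩ := m.exists_Psi s.a ht
    (C := ‖m.B‖ * (10 * √(m.τ.real univ)) * (κ * (‖s.R‖ * ‖d‖))) (by positivity) fun q =>
      (m.norm_yv_le' s.a (ht.bcf q)).trans (le_of_eq (by ring))
  have h1 := loc_of_Psi s.T (s.P ∘L Ψ) fun w hw => by
    rw [ContinuousLinearMap.comp_apply, ContinuousLinearMap.comp_apply, s.T_Psi ht hΨ,
      s.integral_EK h2, hann _ (hinf_rr hw), zero_smul, map_zero, map_zero, add_zero]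
  rw [ContinuousLinearMap.comp_apply, hΨ] at h1
  simpa using hno _ (s.P_P _) h1

theorem exists_Sop (h : VTest χ κ) : ∃ A : G →L[ℂ] H,
    ‖A‖ ≤ ‖s.P‖ * ‖m.B‖ * (10 * √(m.τ.real univ)) * ‖s.R‖ * κ ∧
      ∀ d, A d = s.P (m.yv s.a fun z => χ z • s.EK (s.GG z) d) := by
  have hκ := h.nonneg
  let L : G →ₗ[ℂ] H :=
    { toFun := fun d => s.P (m.yv s.a fun z => χ z • s.EK (s.GG z) d)
      map_add' := fun d d' => by
        rw [← map_add, ← m.yv_add s.a (s.vtest_EK h d) (s.vtest_EK h d')]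
        simp [smul_add]
      map_smul' := fun c d => by
        rw [RingHom.id_apply, ← map_smul, ← m.yv_smul s.a (s.vtest_EK h d)]
        simp [smul_comm c] }
  have hb : ∀ d, ‖L d‖ ≤ ‖s.P‖ * ‖m.B‖ * (10 * √(m.τ.real univ)) * ‖s.R‖ * κ * ‖d‖ := fun d =>
    (s.P.le_opNorm _).trans ((mul_le_mul_of_nonneg_left (m.norm_yv_le' s.a (s.vtest_EK h d))
      (norm_nonneg _)).trans (le_of_eq (by ring)))
  exact ⟨L.mkContinuous _ hb, L.mkContinuous_norm_le (by positivity) hb, fun _ => rfl⟩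

/-- Alternative (II): a continuous right resolvent for the columns near the origin. -/
theorem exists_resolvent (hno : s.NoLoc) (h2 : s.H2) (hB : BPE s.rho) :
    ∃ r : ℝ, 0 < r ∧ r ≤ 1 ∧ ∃ Sw : ℂ → G →L[ℂ] H, ContinuousOn Sw (ball 0 r) ∧
      ∀ w ∈ ball (0 : ℂ) r, ∀ d, s.P (Sw w d) = Sw w d ∧
        s.T (Sw w d) = w • Sw w d + s.P (m.Z d) := by
  obtain ⟨r0, C, hr0, hr1, hC⟩ := hB
  have hI : ∀ p : ℂ → ℂ, 0 ≤ ∫ z in ball (0 : ℂ) 1, s.rho z * ‖p z‖ := fun p =>
    integral_nonneg fun z => mul_nonneg (lb_nonneg _) (norm_nonneg _)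
  have hC' : ∀ p, Hinf p → ∀ w ∈ ball (0 : ℂ) r0,
      ‖p w‖ ≤ |C| * ∫ z in ball (0 : ℂ) 1, s.rho z * ‖p z‖ := fun p hp w hw =>
    (hC p hp w hw).trans (mul_le_mul_of_nonneg_right (le_abs_self C) (hI p))
  have hex : ∀ w : ℂ, ∃ χ : ℂ → ℂ, VTest χ |C| ∧ (w ∈ ball (0 : ℂ) r0 →
      ∀ p, Hinf p → ∫ z, χ z * (s.rho z * p z) = p w) := fun w => by
    by_cases hw : w ∈ ball (0 : ℂ) r0
    · obtain ⟨χ, a1, a2⟩ := exists_repr s.integrableOn_rho (fun z => lb_nonneg _)
        (LinearMap.proj w) (abs_nonneg C) fun p hp => hC' p hp w hw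
      exact ⟨χ, a1, fun _ => a2⟩
    · exact ⟨fun _ => 0, ⟨stronglyMeasurable_const, fun _ => by simp, fun _ _ => rfl⟩,
        fun h => absurd h hw⟩
  choose χ hχ1 hχ2 using hex
  choose Sw hS1 hS2 using fun w => s.exists_Sop (hχ1 w)
  have hint : ∀ {ξ : ℂ → ℂ} {κ : ℝ}, VTest ξ κ → ∀ p, Hinf p →
      Integrable fun z => ξ z * (s.rho z * p z) := fun {ξ κ} hξ p hp => by
    refine (integrableOn_iff_integrable_of_support_subset (s := ball (0 : ℂ) 1) ?_).1 ?_
    · intro z hz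
      by_contra hc
      exact hz (by simp [hξ.supp z (by simpa using hc)])
    · exact (hp.integrableOn_mul s.integrableOn_rho.ofReal).bdd_mul (c := κ)
        hξ.meas.aestronglyMeasurable (Eventually.of_forall hξ.bdd)
  have hsub : ball (0 : ℂ) (r0 / 4) ⊆ ball 0 r0 := ball_subset_ball (by linarith)
  refine ⟨r0 / 4, by positivity, by linarith, Sw, ?_, fun w hw d => ⟨by rw [hS2, P_P], ?_⟩⟩
  · set c0 : ℝ := ‖s.P‖ * ‖m.B‖ * (10 * √(m.τ.real univ)) * ‖s.R‖ with hc0
    refine (LipschitzOnWith.of_dist_le_mul (K := ⟨c0 * (2 * |C| / (r0 / 2)), by positivity⟩)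
      fun w hw w' hw' => ?_).continuousOn
    obtain ⟨ξ, a1, a2⟩ := exists_repr s.integrableOn_rho (fun z => lb_nonneg _)
      ((LinearMap.proj w : (ℂ → ℂ) →ₗ[ℂ] ℂ) - (LinearMap.proj w' : (ℂ → ℂ) →ₗ[ℂ] ℂ)) (κ := 2 * |C| / (r0 / 2) * dist w w') (by positivity)
      fun p hp => by
        have hb : ball w' (r0 / 2) ⊆ ball 0 r0 := ball_subset_ball' (by
          rw [mem_ball] at hw'
          linarith)
        have h3 := Complex.dist_le_div_mul_dist_of_mapsTo_ball (f := p) (c := w') (z := w)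
          (R₁ := r0 / 2) (R₂ := 2 * (|C| * ∫ z in ball (0 : ℂ) 1, s.rho z * ‖p z‖))
          (hp.diff.mono (hb.trans (ball_subset_ball hr1))) (fun z hz => by
            rw [mem_closedBall, dist_eq_norm]
            have := hC' p hp z (hb hz)
            have := hC' p hp w' (hsub hw')
            linarith [norm_sub_le (p z) (p w')]) (by
            rw [mem_ball] at hw hw' ⊢
            linarith [dist_triangle_right w w' 0])
        rw [dist_eq_norm (p w)] at h3
        rw [LinearMap.sub_apply, LinearMap.proj_apply, LinearMap.proj_apply]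
        refine h3.trans (le_of_eq ?_)
        generalize (∫ z in ball (0 : ℂ) 1, s.rho z * ‖p z‖) = I
        ring
    obtain ⟨A, b1, b2⟩ := s.exists_Sop a1
    have hneg : ∀ {ξ : ℂ → ℂ} {κ : ℝ}, VTest ξ κ → VTest (fun z => (-1 : ℂ) • ξ z) (1 * κ) :=
      fun hξ => hξ.mul measurable_const zero_le_one fun _ _ => by simp
    have hA : Sw w - Sw w' = A := by
      ext d
      have h3 := s.zero_of_ann hno h2 (((hχ1 w).add (hneg (hχ1 w'))).add (hneg a1))
        (fun p hp => by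
          have i1 := hint (hχ1 w) p hp
          have i2 := hint (hneg (hχ1 w')) p hp
          have i3 := hint (hneg a1) p hp
          have i4 := hint ((hχ1 w).add (hneg (hχ1 w'))) p hp
          simp only [add_mul] at i4 ⊢
          rw [integral_add i4 i3, integral_add i1 i2]
          simp only [smul_eq_mul, neg_mul, one_mul, integral_neg]
          rw [hχ2 w (hsub hw) p hp, hχ2 w' (hsub hw') p hp, a2 p hp,
            LinearMap.sub_apply, LinearMap.proj_apply, LinearMap.proj_apply]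
          ring) d
      simp only [add_smul, smul_assoc] at h3
      have t1 := s.vtest_EK (hχ1 w) d
      have t2 := s.vtest_EK (hχ1 w') d
      have t3 := s.vtest_EK a1 d
      have n2 := t2.mul (q := fun _ => -1) measurable_const zero_le_one fun _ _ => by simp
      have n3 := t3.mul (q := fun _ => -1) measurable_const zero_le_one fun _ _ => by simp
      rw [m.yv_add s.a (t1.add n2) n3, m.yv_add s.a t1 n2, m.yv_smul s.a t2, m.yv_smul s.a t3,
        map_add, map_add, map_smul, map_smul, ← hS2, ← hS2, ← b2] at h3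
      rw [sub_apply, ← sub_eq_zero, ← h3]
      module
    rw [dist_eq_norm (Sw w), hA]
    exact b1.trans (le_of_eq (mul_assoc _ _ _).symm)
  · have t1 := s.vtest_EK (hχ1 w) d
    have v1 : VTest (fun z => (z - w) • χ w z) ((1 + ‖w‖) * |C|) :=
      (hχ1 w).mul (by fun_prop) (by positivity) fun z hz => by linarith [norm_sub_le z w]
    have h3 := s.zero_of_ann hno h2 v1 (fun p hp => by
      have := hχ2 w (hsub hw) _ ((hinf_sub_const w).mul' hp)
      rw [sub_self, zero_mul] at this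
      rw [← this]
      refine integral_congr_ae (Eventually.of_forall fun z => ?_)
      simp only [smul_eq_mul]
      ring) d
    have h4 : (fun z => z • χ w z • s.EK (s.GG z) d) = fun z =>
        ((z - w) • χ w z) • s.EK (s.GG z) d + w • χ w z • s.EK (s.GG z) d := by
      funext z
      rw [smul_assoc, ← add_smul, sub_add_cancel]
    have h5 := s.integral_EK h2 (χ w) (fun _ => 1) d
    rw [hχ2 w (hsub hw) _ (hinf_const 1)] at h5
    simp only [one_smul] at h5
    rw [hS2, ← P_T, s.T_yv t1, h4, m.yv_add s.a (s.vtest_EK v1 d)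
      (t1.mul measurable_const (norm_nonneg w) fun _ _ => le_rfl), m.yv_smul s.a t1, h5, ← P_Z,
      map_add, map_add, h3, zero_add, map_smul, P_P]

end Sys

end Pool.Agent.P.MP_f981b0_an.TC
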