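import Pool.Agent.P.MP_f981b0_an.TC.PBKappa

set_option autoImplicit false

noncomputable section

namespace Pool.Agent.P.MP_f981b0_an.TC.JC

open MeasureTheory Metric Set Real PB
open scoped ComplexConjugate ENNReal

section T3

variable {α : Type*} [MeasurableSpace α] {ι : Type*}

/-- Trilinear integral. -/
def T3 (F : α → α → α → ℝ≥0∞) (μ ν κ : Measure α) : ℝ≥0∞ :=
  ∫⁻ x, ∫⁻ y, ∫⁻ z, F x y z ∂κ ∂ν ∂μ

variable {F : α → α → α → ℝ≥0∞}

lemma meas_in2 (hF : Measurable fun p : α × α × α => F p.1 p.2.1 p.2.2) (κ : Measure α)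
    [SFinite κ] : Measurable fun q : α × α => ∫⁻ z, F q.1 q.2 z ∂κ :=
  (hF.comp (f := fun q : (α × α) × α => (q.1.1, q.1.2, q.2)) (by fun_prop)).lintegral_prod_right'

lemma meas_in1 (hF : Measurable fun p : α × α × α => F p.1 p.2.1 p.2.2) (ν κ : Measure α)
    [SFinite ν] [SFinite κ] : Measurable fun x : α => ∫⁻ y, ∫⁻ z, F x y z ∂κ ∂ν :=
  (meas_in2 hF κ).lintegral_prod_right'

lemma T3_sum1 (s : Finset ι) (μ : ι → Measure α) (ν κ : Measure α) :
    T3 F (∑ i ∈ s, μ i) ν κ = ∑ i ∈ s, T3 F (μ i) ν κ :=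
  lintegral_finsetSum_measure _ _ _

lemma T3_sum2 (hF : Measurable fun p : α × α × α => F p.1 p.2.1 p.2.2) (s : Finset ι)
    (ν : ι → Measure α) (hν : ∀ j ∈ s, SFinite (ν j)) (μ κ : Measure α) [SFinite κ] :
    T3 F μ (∑ j ∈ s, ν j) κ = ∑ j ∈ s, T3 F μ (ν j) κ := by
  unfold T3
  simp_rw [lintegral_finsetSum_measure s _ ν]
  refine lintegral_finsetSum _ fun j hj => ?_
  have := hν j hj
  exact meas_in1 hF _ _

lemma T3_sum3 (hF : Measurable fun p : α × α × α => F p.1 p.2.1 p.2.2) (s : Finset ι)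
    (κ : ι → Measure α) (hκ : ∀ j ∈ s, SFinite (κ j)) (μ ν : Measure α) [SFinite ν] :
    T3 F μ ν (∑ j ∈ s, κ j) = ∑ j ∈ s, T3 F μ ν (κ j) := by
  unfold T3
  simp_rw [lintegral_finsetSum_measure s _ κ]
  rw [← lintegral_finsetSum _ fun j hj => by
    have := hκ j hj
    exact meas_in1 hF ν (κ j)]
  refine lintegral_congr fun x => lintegral_finsetSum _ fun j hj => ?_
  have := hκ j hj
  exact (meas_in2 hF (κ j)).comp (f := fun y : α => (x, y)) (by fun_prop)

lemma sfinite_sum (s : Finset ι) (μ : ι → Measure α) (h : ∀ j ∈ s, SFinite (μ j)) :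
    SFinite (∑ j ∈ s, μ j) := by
  classical
  induction s using Finset.induction_on with
  | empty => simp only [Finset.sum_empty]; infer_instance
  | insert a s ha ih =>
    rw [Finset.sum_insert ha]
    have := h a (Finset.mem_insert_self _ _)
    have := ih fun j hj => h j (Finset.mem_insert_of_mem hj)
    infer_instance

lemma T3_sum (hF : Measurable fun p : α × α × α => F p.1 p.2.1 p.2.2) (s : Finset ι)
    (μ : ι → Measure α) (h : ∀ j ∈ s, SFinite (μ j)) :
    T3 F (∑ j ∈ s, μ j) (∑ j ∈ s, μ j) (∑ j ∈ s, μ j)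
      = ∑ i ∈ s, ∑ j ∈ s, ∑ k ∈ s, T3 F (μ i) (μ j) (μ k) := by
  have := sfinite_sum s μ h
  rw [T3_sum1]
  refine Finset.sum_congr rfl fun i _ => ?_
  rw [T3_sum2 hF s μ h]
  refine Finset.sum_congr rfl fun j hj => ?_
  have := h j hj
  exact T3_sum3 hF s μ h _ _

lemma T3_mono {μ ν κ μ' ν' κ' : Measure α} (h1 : μ ≤ μ') (h2 : ν ≤ ν') (h3 : κ ≤ κ') :
    T3 F μ ν κ ≤ T3 F μ' ν' κ' :=
  lintegral_mono' h1 fun _ => lintegral_mono' h2 fun _ => lintegral_mono' h3 le_rfl

lemma T3_mono_ae {G : α → α → α → ℝ≥0∞} {μ ν κ : Measure α} {P Q R : α → Prop}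
    (h1 : ∀ᵐ x ∂μ, P x) (h2 : ∀ᵐ x ∂ν, Q x) (h3 : ∀ᵐ x ∂κ, R x)
    (h : ∀ x y z, P x → Q y → R z → F x y z ≤ G x y z) : T3 F μ ν κ ≤ T3 G μ ν κ := by
  refine lintegral_mono_ae ?_
  filter_upwards [h1] with x hx
  refine lintegral_mono_ae ?_
  filter_upwards [h2] with y hy
  refine lintegral_mono_ae ?_
  filter_upwards [h3] with z hz
  exact h x y z hx hy hz

lemma T3_const (c : ℝ≥0∞) (μ ν κ : Measure α) :
    T3 (fun _ _ _ => c) μ ν κ = c * κ univ * ν univ * μ univ := by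
  simp only [T3, lintegral_const]

lemma T3_add {G : α → α → α → ℝ≥0∞} (hG : Measurable fun p : α × α × α => G p.1 p.2.1 p.2.2)
    (μ ν κ : Measure α) [SFinite ν] [SFinite κ] :
    T3 (fun x y z => F x y z + G x y z) μ ν κ = T3 F μ ν κ + T3 G μ ν κ :=
  ladd3 μ ν κ hG

lemma T3_const_mul {c : ℝ≥0∞} (hc : c ≠ ⊤) (μ ν κ : Measure α) :
    T3 (fun x y z => c * F x y z) μ ν κ = c * T3 F μ ν κ := by
  unfold T3
  simp_rw [lintegral_const_mul' _ _ hc]

lemma T3_swap12 (hF : Measurable fun p : α × α × α => F p.1 p.2.1 p.2.2) (μ ν κ : Measure α)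
    [SFinite μ] [SFinite ν] [SFinite κ] : T3 (fun x y z => F y x z) μ ν κ = T3 F ν μ κ :=
  (lswap12 ν μ κ hF).symm

lemma T3_swap23 (hF : Measurable fun p : α × α × α => F p.1 p.2.1 p.2.2) (μ ν κ : Measure α)
    [SFinite ν] [SFinite κ] : T3 (fun x y z => F x z y) μ ν κ = T3 F μ κ ν :=
  (lswap23 μ κ ν hF).symm

lemma T3_smul {c : ℝ≥0∞} (hc : c ≠ ⊤) (μ : Measure α) :
    T3 F (c • μ) (c • μ) (c • μ) = c ^ 3 * T3 F μ μ μ := by
  unfold T3
  simp_rw [lintegral_smul_measure, smul_eq_mul, lintegral_const_mul' _ _ hc]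
  ring

end T3

/-- Squared curvature as an extended real. -/
def cq (x y z : ℂ) : ℝ≥0∞ := ENNReal.ofReal (curv x y z ^ 2)

/-- Total curvature of a measure. -/
def c2 (μ : Measure ℂ) : ℝ≥0∞ := T3 cq μ μ μ

/-- Linear growth. -/
def Growth (C : ℝ) (μ : Measure ℂ) : Prop :=
  ∀ z r, 0 < r → μ (ball z r) ≤ ENNReal.ofReal (C * r)

lemma measurable_cq : Measurable fun p : ℂ × ℂ × ℂ => cq p.1 p.2.1 p.2.2 := measurable_curv_sq

lemma cq_swap12 (x y z : ℂ) : cq y x z = cq x y z := by rw [cq, cq, curv_swap12]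

lemma cq_swap23 (x y z : ℂ) : cq x z y = cq x y z := by rw [cq, cq, curv_swap23]

variable {μ ν : Measure ℂ} {C : ℝ}

lemma c2_mono (h : μ ≤ ν) : c2 μ ≤ c2 ν := T3_mono h h h

lemma c2_smul {t : ℝ} (ht : 0 ≤ t) (μ : Measure ℂ) :
    c2 (ENNReal.ofReal t • μ) = ENNReal.ofReal (t ^ 3) * c2 μ := by
  rw [c2, T3_smul ENNReal.ofReal_ne_top, ENNReal.ofReal_pow ht, c2]

lemma Growth.of_le (h : Growth C ν) (hle : μ ≤ ν) : Growth C μ :=
  fun z r hr => (Measure.le_iff'.1 hle _).trans (h z r hr)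

lemma Growth.mono {C' : ℝ} (h : Growth C μ) (hle : C ≤ C') : Growth C' μ :=
  fun z r hr => (h z r hr).trans (ENNReal.ofReal_le_ofReal (by gcongr))

lemma smul_le_self {t : ℝ} (ht : t ≤ 1) (μ : Measure ℂ) : ENNReal.ofReal t • μ ≤ μ := by
  refine Measure.le_iff'.2 fun s => ?_
  rw [Measure.smul_apply, smul_eq_mul]
  exact mul_le_of_le_one_left' (ENNReal.ofReal_le_one.2 ht)

lemma Growth.smul (h : Growth C μ) {t : ℝ} (ht : t ≤ 1) : Growth C (ENNReal.ofReal t • μ) :=
  h.of_le (smul_le_self ht μ)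

/-- Crude curvature bound. -/
lemma c2_le_of_tame [SFinite μ] {K : ℝ} (h : Tame μ K) (hC : 0 ≤ C) (hg : Growth C μ) :
    c2 μ ≤ ENNReal.ofReal (8 * C * K) * μ univ := by
  rw [← lintegral_const]
  refine lintegral_mono fun z => ?_
  calc _ ≤ ∫⁻ x, ENNReal.ofReal (8 * C) * ‖(x - z)⁻¹‖ₑ ∂μ := by
        refine lintegral_mono_ae ?_
        filter_upwards [h.ae_ne z] with x hx
        calc _ ≤ ∫⁻ y, ENNReal.ofReal 4 * ENNReal.ofReal ((max ‖x - z‖ ‖y - z‖)⁻¹ ^ 2) ∂μ := by
              refine lintegral_mono fun y => ?_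
              rw [← ENNReal.ofReal_mul (by positivity), ← cq_swap12, ← cq_swap23]
              exact ENNReal.ofReal_le_ofReal (curv_sq_le_max x y z)
          _ ≤ ENNReal.ofReal 4 * ENNReal.ofReal (2 * C * ‖x - z‖⁻¹) := by
              rw [lintegral_const_mul' _ _ ENNReal.ofReal_ne_top]
              gcongr
              exact far_bound hC hg z (norm_pos_iff.2 (sub_ne_zero.2 hx))
          _ = _ := by
              rw [← ofReal_norm, norm_inv, ← ENNReal.ofReal_mul (by positivity),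
                ← ENNReal.ofReal_mul (by positivity)]
              congr 1
              ring
    _ ≤ ENNReal.ofReal (8 * C) * ENNReal.ofReal K := by
        rw [lintegral_const_mul' _ _ ENNReal.ofReal_ne_top]
        gcongr
        exact h.pot z
    _ = _ := by rw [← ENNReal.ofReal_mul (by positivity)]

lemma tame_of_le' {B m ρ : ℝ} (hB : 0 ≤ B) (hm : 0 ≤ m) (hρ : 0 < ρ)
    (hμ : μ ≤ ENNReal.ofReal B • volume) (h1 : μ univ ≤ ENNReal.ofReal m) :
    Tame μ (B * (2 * π * ρ) + m / ρ) := by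
  refine ⟨by positivity, fun z => ?_, fun z => ?_⟩
  · rw [← lintegral_add_compl _ (measurableSet_ball (x := z) (ε := ρ)),
      ENNReal.ofReal_add (by positivity) (by positivity)]
    refine add_le_add (pot_ball hB hμ z hρ.le) ?_
    calc _ ≤ ∫⁻ _ in (ball z ρ)ᶜ, ENNReal.ofReal ρ⁻¹ ∂μ := by
          refine setLIntegral_mono' measurableSet_ball.compl fun x hx => ?_
          rw [← ofReal_norm, norm_inv]
          refine ENNReal.ofReal_le_ofReal (inv_anti₀ hρ ?_)
          simpa [mem_ball, dist_eq_norm] using hx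
      _ ≤ ENNReal.ofReal ρ⁻¹ * ENNReal.ofReal m := by
          rw [setLIntegral_const]
          gcongr
          exact (measure_mono (subset_univ _)).trans h1
      _ = _ := by
          rw [← ENNReal.ofReal_mul (by positivity), div_eq_mul_inv, mul_comm]
  · refine le_antisymm ((Measure.le_iff'.1 hμ _).trans ?_) bot_le
    simp

/-- Measures that are finite sums of uniform measures on discs of radius `s` centred in `S`
satisfy this predicate. -/
def Smooth (S : Set ℂ) (s : ℝ) (μ : Measure ℂ) : Prop :=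
  ∃ w : ℂ → ℝ, Measurable w ∧ (∀ z, 0 ≤ w z) ∧ μ = dmeas w ∧
    (∀ z, w z ≠ 0 → ∃ p ∈ S, dist z p < s) ∧
    ∀ z, ENNReal.ofReal (w z * (π * s ^ 2)) ≤ μ (ball z (2 * s))

variable {S S' : Set ℂ} {s : ℝ}

lemma Smooth.mono (h : Smooth S s μ) (hS : S ⊆ S') : Smooth S' s μ := by
  obtain ⟨w, h1, h2, h3, h4, h5⟩ := h
  refine ⟨w, h1, h2, h3, fun z hz => ?_, h5⟩
  obtain ⟨p, hp, hp'⟩ := h4 z hz
  exact ⟨p, hS hp, hp'⟩

lemma smooth_zero (S : Set ℂ) (s : ℝ) : Smooth S s 0 :=
  ⟨0, measurable_const, fun _ => le_rfl, by simp [dmeas], by simp, by simp⟩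

lemma Smooth.add (h : Smooth S s μ) (h' : Smooth S s ν) : Smooth S s (μ + ν) := by
  obtain ⟨w, h1, h2, h3, h4, h5⟩ := h
  obtain ⟨v, g1, g2, g3, g4, g5⟩ := h'
  refine ⟨fun z => w z + v z, h1.add g1, fun z => add_nonneg (h2 z) (g2 z), ?_, fun z hz => ?_,
    fun z => ?_⟩
  · rw [h3, g3, dmeas, dmeas, dmeas, ← withDensity_add_left h1.ennreal_ofReal]
    congr 1
    funext z
    exact (ENNReal.ofReal_add (h2 z) (g2 z)).symm
  · by_cases hw : w z = 0
    · exact g4 z fun hv => hz (by simp [hw, hv])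
    · exact h4 z hw
  · have := h2 z
    have := g2 z
    rw [add_mul, ENNReal.ofReal_add (by positivity) (by positivity), Measure.add_apply]
    exact add_le_add (h5 z) (g5 z)

lemma Smooth.sum {ι : Type*} (I : Finset ι) {μ : ι → Measure ℂ} (h : ∀ j ∈ I, Smooth S s (μ j)) :
    Smooth S s (∑ j ∈ I, μ j) :=
  Finset.sum_induction _ _ (fun _ _ => Smooth.add) (smooth_zero S s) h

lemma Smooth.smul (h : Smooth S s μ) {t : ℝ} (ht : 0 ≤ t) :
    Smooth S s (ENNReal.ofReal t • μ) := by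
  obtain ⟨w, h1, h2, h3, h4, h5⟩ := h
  refine ⟨fun z => t * w z, h1.const_mul t, fun z => mul_nonneg ht (h2 z), ?_, fun z hz => ?_,
    fun z => ?_⟩
  · rw [h3, dmeas, dmeas, ← withDensity_smul _ h1.ennreal_ofReal]
    congr 1
    funext z
    exact (ENNReal.ofReal_mul ht).symm
  · exact h4 z fun hw => hz (by simp [hw])
  · rw [mul_assoc, ENNReal.ofReal_mul ht, Measure.smul_apply, smul_eq_mul]
    gcongr
    exact h5 z

lemma Smooth.sfinite (h : Smooth S s μ) : SFinite μ := by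
  obtain ⟨w, -, -, rfl, -⟩ := h
  unfold dmeas
  infer_instance

/-- Almost every point is within `s` of `S`. -/
lemma Smooth.ae_supp (h : Smooth S s μ) : ∀ᵐ z ∂μ, ∃ p ∈ S, dist z p < s := by
  obtain ⟨w, h1, -, rfl, h4, -⟩ := h
  rw [dmeas, ae_withDensity_iff h1.ennreal_ofReal]
  exact Filter.Eventually.of_forall fun z hz => h4 z fun hw => hz (by simp [hw])

lemma dens_le {w : ℂ → ℝ} (hs : 0 < s) (hC : 0 ≤ C) (hg : Growth C μ)
    (h5 : ∀ z, ENNReal.ofReal (w z * (π * s ^ 2)) ≤ μ (ball z (2 * s))) (z : ℂ) :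
    w z ≤ 2 * C / (π * s) := by
  have := (ENNReal.ofReal_le_ofReal_iff (by positivity)).1
    ((h5 z).trans (hg z _ (by positivity)))
  rw [le_div_iff₀ (by positivity)]
  nlinarith

lemma Smooth.le_volume (h : Smooth S s μ) (hs : 0 < s) (hC : 0 ≤ C) (hg : Growth C μ) :
    μ ≤ ENNReal.ofReal (2 * C / (π * s)) • volume := by
  obtain ⟨w, -, -, h3, -, h5⟩ := h
  have h6 := dens_le hs hC hg h5
  rw [h3, ← withDensity_const]
  exact withDensity_mono (Filter.Eventually.of_forall fun z => ENNReal.ofReal_le_ofReal (h6 z))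

/-- Crude bound for smooth measures with linear growth. -/
lemma Smooth.c2_le (h : Smooth S s μ) (hs : 0 < s) (hC : 0 ≤ C) (hg : Growth C μ) {m : ℝ}
    (hm : 0 ≤ m) (h1 : μ univ ≤ ENNReal.ofReal m) :
    c2 μ ≤ ENNReal.ofReal ((32 * C ^ 2 + 8 * C * m / s) * m) := by
  have := h.sfinite
  have h2 := tame_of_le' (by positivity) hm hs (h.le_volume hs hC hg) h1
  refine (c2_le_of_tame h2 hC hg).trans ?_
  rw [ENNReal.ofReal_mul (p := 32 * C ^ 2 + 8 * C * m / s) (by positivity)]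
  refine mul_le_mul' (le_of_eq ?_) h1
  congr 1
  field_simp
  ring

/-- Final conversion to the output format of Lemma J. -/
lemma Smooth.jones {γ : ℝ → ℂ} (h : Smooth (γ '' Icc 0 1) s μ) (hs : 0 < s) (hC : 0 ≤ C)
    (hg : Growth C μ) (h1 : ENNReal.ofReal (1 / 12) ≤ μ univ) (h2 : μ univ ≤ 1)
    (h3 : c2 μ ≤ ENNReal.ofReal C) : ∃ w, Jones C γ s w := by
  obtain ⟨w, g1, g2, g3, g4, g5⟩ := h
  have h6 := dens_le hs hC hg g5
  subst g3
  refine ⟨w, g1, g2, fun z => (h6 z).trans ?_, fun z hz => ?_, h1, h2, hg, h3⟩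
  · rw [div_le_div_iff₀ (by positivity) hs]
    nlinarith [Real.two_le_pi, mul_nonneg hC hs.le]
  · obtain ⟨p, ⟨t, ht, rfl⟩, hp⟩ := g4 z hz
    exact ⟨t, ht, hp⟩

/-- Mass `m` spread uniformly on the disc of centre `p` and radius `s`. -/
def disc (p : ℂ) (s m : ℝ) : Measure ℂ :=
  ENNReal.ofReal (m / (π * s ^ 2)) • (volume : Measure ℂ).restrict (ball p s)

lemma vol_ball (c : ℂ) {r : ℝ} (hr : 0 ≤ r) :
    (volume : Measure ℂ) (ball c r) = ENNReal.ofReal (π * r ^ 2) := by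
  rw [← R1.area_ball c hr, ofReal_measureReal measure_ball_lt_top.ne]

lemma disc_univ (p : ℂ) {m : ℝ} (hs : 0 < s) (hm : 0 ≤ m) :
    disc p s m univ = ENNReal.ofReal m := by
  rw [disc, Measure.smul_apply, Measure.restrict_apply_univ, vol_ball p hs.le, smul_eq_mul,
    ← ENNReal.ofReal_mul (by positivity)]
  congr 1
  field_simp

lemma disc_ae (p : ℂ) (s m : ℝ) : ∀ᵐ z ∂disc p s m, dist z p < s :=
  Measure.ae_smul_measure (ae_restrict_mem measurableSet_ball) _

lemma disc_le (p : ℂ) (s m : ℝ) : disc p s m ≤ ENNReal.ofReal (m / (π * s ^ 2)) • volume := by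
  refine Measure.le_iff'.2 fun t => ?_
  rw [disc, Measure.smul_apply, Measure.smul_apply, smul_eq_mul, smul_eq_mul]
  gcongr
  exact Measure.restrict_le_self

lemma disc_growth (p : ℂ) {m : ℝ} (hs : 0 < s) (hm : 0 ≤ m) : Growth (m / s) (disc p s m) := by
  intro z r hr
  rcases le_total s r with h | h
  · refine (measure_mono (subset_univ _)).trans ?_
    rw [disc_univ p hs hm]
    refine ENNReal.ofReal_le_ofReal ?_
    rw [div_mul_eq_mul_div, le_div_iff₀ hs]
    gcongr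
  · refine (Measure.le_iff'.1 (disc_le p s m) _).trans ?_
    rw [Measure.smul_apply, smul_eq_mul, vol_ball z hr.le, ← ENNReal.ofReal_mul (by positivity)]
    refine ENNReal.ofReal_le_ofReal ?_
    have e : m / (π * s ^ 2) * (π * r ^ 2) = m / s * r * (r / s) := by field_simp
    rw [e]
    exact mul_le_of_le_one_right (by positivity) ((div_le_one hs).2 h)

lemma disc_smooth {p : ℂ} (hp : p ∈ S) {m : ℝ} (hs : 0 < s) (hm : 0 ≤ m) :
    Smooth S s (disc p s m) := by
  refine ⟨(ball p s).indicator fun _ => m / (π * s ^ 2),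
    measurable_const.indicator measurableSet_ball,
    fun z => indicator_nonneg (fun _ _ => by positivity) z, ?_, fun z hz => ?_, fun z => ?_⟩
  · rw [disc, dmeas, ← withDensity_const, ← withDensity_indicator measurableSet_ball]
    congr 1
    funext z
    by_cases hz : z ∈ ball p s <;> simp [hz]
  · exact ⟨p, hp, mem_ball.1 (mem_of_indicator_ne_zero hz)⟩
  · by_cases hz : z ∈ ball p s
    · have hsub : ball p s ⊆ ball z (2 * s) := fun y hy => by
        rw [mem_ball] at *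
        have := dist_triangle_right y z p
        linarith
      rw [indicator_of_mem hz, disc, Measure.smul_apply, Measure.restrict_apply measurableSet_ball,
        inter_eq_right.2 hsub, vol_ball p hs.le, smul_eq_mul,
        ← ENNReal.ofReal_mul (by positivity)]
    · simp [hz]

lemma disc_c2 (p : ℂ) {m : ℝ} (hs : 0 < s) (hm : 0 ≤ m) :
    c2 (disc p s m) ≤ ENNReal.ofReal (40 * (m / s) ^ 2 * m) := by
  refine ((disc_smooth (S := univ) (mem_univ p) hs hm).c2_le hs (by positivity)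
    (disc_growth p hs hm) hm (disc_univ p hs hm).le).trans (le_of_eq ?_)
  congr 1
  field_simp
  ring

/-- Two separated measures: curvature. -/
lemma pair_curv [SFinite μ] [SFinite ν] {U V : Set ℂ} {d m : ℝ} (hd : 0 < d) (hm : 0 ≤ m)
    (hU : ∀ᵐ z ∂μ, z ∈ U) (hV : ∀ᵐ z ∂ν, z ∈ V) (hUV : ∀ x ∈ U, ∀ y ∈ V, d ≤ ‖x - y‖)
    (h1 : μ univ ≤ ENNReal.ofReal m) (h2 : ν univ ≤ ENNReal.ofReal m) :
    c2 (μ + ν) ≤ c2 μ + c2 ν + ENNReal.ofReal (24 * m ^ 3 / d ^ 2) := by
  set E := ENNReal.ofReal (4 * m ^ 3 / d ^ 2) with hE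
  have key : ∀ κ : Measure ℂ, κ univ ≤ ENNReal.ofReal m → T3 cq μ ν κ ≤ E := by
    intro κ hκ
    calc _ ≤ T3 (fun _ _ _ => ENNReal.ofReal (4 / d ^ 2)) μ ν κ := by
          refine T3_mono_ae (R := fun _ => True) hU hV (by simp) fun x y z hx hy _ => ?_
          refine ENNReal.ofReal_le_ofReal ?_
          have a1 := curv_le x y z
          have a2 : ‖x - y‖⁻¹ ≤ d⁻¹ := inv_anti₀ hd (hUV x hx y hy)
          have a3 := curv_nonneg x y z
          have a4 : 4 / d ^ 2 = (2 * d⁻¹) ^ 2 := by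
            field_simp
            ring
          rw [a4]
          gcongr
          linarith
      _ ≤ ENNReal.ofReal (4 / d ^ 2) * ENNReal.ofReal m * ENNReal.ofReal m * ENNReal.ofReal m := by
          rw [T3_const]
          gcongr
      _ = E := by
          rw [← ENNReal.ofReal_mul (by positivity), ← ENNReal.ofReal_mul (by positivity),
            ← ENNReal.ofReal_mul (by positivity)]
          congr 1
          ring
  have s12 : ∀ (a b c : Measure ℂ) [SFinite a] [SFinite b] [SFinite c],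
      T3 cq a b c = T3 cq b a c := fun a b c _ _ _ => by
    rw [← T3_swap12 measurable_cq a b c]
    simp_rw [cq_swap12]
  have s23 : ∀ (a b c : Measure ℂ) [SFinite b] [SFinite c],
      T3 cq a b c = T3 cq a c b := fun a b c _ _ => by
    rw [← T3_swap23 measurable_cq a b c]
    simp_rw [cq_swap23]
  have k1 := key μ h1
  have k2 := key ν h2
  have hsum := T3_sum measurable_cq (Finset.univ : Finset (Fin 2)) ![μ, ν] (fun j _ => by
    fin_cases j
    · exact ‹SFinite μ›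
    · exact ‹SFinite ν›)
  simp only [Fin.sum_univ_two, Matrix.cons_val_zero, Matrix.cons_val_one] at hsum
  have e6 : ENNReal.ofReal (24 * m ^ 3 / d ^ 2) = E + E + E + E + E + E := by
    rw [hE, ← ENNReal.ofReal_add (by positivity) (by positivity),
      ← ENNReal.ofReal_add (by positivity) (by positivity),
      ← ENNReal.ofReal_add (by positivity) (by positivity),
      ← ENNReal.ofReal_add (by positivity) (by positivity),
      ← ENNReal.ofReal_add (by positivity) (by positivity)]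
    congr 1
    ring
  rw [c2, hsum, e6, c2, c2, s23 μ μ ν, s12 ν μ μ, s12 ν μ ν, s23 ν ν μ, s12 ν μ ν]
  calc _ ≤ T3 cq μ μ μ + E + (E + E) + (E + E + (E + T3 cq ν ν ν)) := by gcongr
    _ = _ := by ring

/-- Two separated measures: growth. -/
lemma pair_growth {U V : Set ℂ} {d m : ℝ} (hC : 0 ≤ C)
    (hU : ∀ᵐ z ∂μ, z ∈ U) (hV : ∀ᵐ z ∂ν, z ∈ V) (hUV : ∀ x ∈ U, ∀ y ∈ V, d ≤ ‖x - y‖)
    (h1 : μ univ ≤ ENNReal.ofReal m) (h2 : ν univ ≤ ENNReal.ofReal m) (hm : 4 * m ≤ C * d)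
    (g1 : Growth C μ) (g2 : Growth C ν) : Growth C (μ + ν) := by
  intro z r hr
  rw [Measure.add_apply]
  by_cases a1 : μ (ball z r) = 0
  · rw [a1, zero_add]
    exact g2 z r hr
  by_cases a2 : ν (ball z r) = 0
  · rw [a2, add_zero]
    exact g1 z r hr
  obtain ⟨x, hx, hxU⟩ := Measure.exists_mem_of_measure_ne_zero_of_ae a1 (ae_restrict_of_ae hU)
  obtain ⟨y, hy, hyV⟩ := Measure.exists_mem_of_measure_ne_zero_of_ae a2 (ae_restrict_of_ae hV)
  have h3 := hUV x hxU y hyV
  have h4 := dist_triangle_right x y z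
  rw [mem_ball] at hx hy
  rw [dist_eq_norm x y] at h4
  have h5 : m ≤ C * r / 2 := by nlinarith
  have h6 : ENNReal.ofReal m ≤ ENNReal.ofReal (C * r / 2) := ENNReal.ofReal_le_ofReal h5
  calc _ ≤ ENNReal.ofReal (C * r / 2) + ENNReal.ofReal (C * r / 2) :=
        add_le_add ((measure_mono (subset_univ _)).trans (h1.trans h6))
          ((measure_mono (subset_univ _)).trans (h2.trans h6))
    _ = _ := by
        rw [← ENNReal.ofReal_add (by positivity) (by positivity)]
        congr 1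
        ring

end Pool.Agent.P.MP_f981b0_an.TC.JC
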