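import Pool.Agent.P.MP_f981b0_an.TC.JMeas

set_option autoImplicit false

noncomputable section

namespace Pool.Agent.P.MP_f981b0_an.TC.J

open MeasureTheory Metric Set Real
open scoped ENNReal NNReal

/-- Squared divided difference as an integrand. -/
def gd (A : ℝ → ℝ) (x y z : ℝ) : ℝ≥0∞ := ENNReal.ofReal (dd A x y z ^ 2)

lemma m3_gd {A : ℝ → ℝ} (hA : Measurable A) : M3 (gd A) :=
  ((measurable_dd hA).pow_const 2).ennreal_ofReal

/-- Lebesgue measure on the open interval of centre `c` and half length `r`. -/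
def iv (c r : ℝ) : Measure ℝ := volume.restrict (Ioo (c - r) (c + r))

instance (c r : ℝ) : SFinite (iv c r) := by unfold iv; infer_instance

lemma iv_univ (c r : ℝ) : iv c r univ = ENNReal.ofReal (2 * r) := by
  rw [iv, Measure.restrict_apply_univ, Real.volume_Ioo]; congr 1; ring

lemma iv_ae (c r : ℝ) : ∀ᵐ x ∂iv c r, |x - c| < r :=
  (ae_restrict_mem measurableSet_Ioo).mono fun x hx =>
    abs_lt.2 ⟨by linarith [hx.1], by linarith [hx.2]⟩

lemma crossN_nonneg {η M L : ℝ} : 0 ≤ crossN η M L := by unfold crossN; positivity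

lemma mass3 {μ1 μ2 μ3 : Measure ℂ} {a b c B : ℝ} (ha : 0 ≤ a) (hb : 0 ≤ b) (hB : 0 ≤ B)
    (h1 : μ1 univ ≤ ENNReal.ofReal a) (h2 : μ2 univ ≤ ENNReal.ofReal b)
    (h3 : μ3 univ ≤ ENNReal.ofReal c) :
    ENNReal.ofReal B * (μ1 univ * μ2 univ * μ3 univ) ≤ ENNReal.ofReal (B * (a * b * c)) := by
  rw [ENNReal.ofReal_mul hB, ENNReal.ofReal_mul (mul_nonneg ha hb), ENNReal.ofReal_mul ha]
  gcongr

lemma cross_three {A : ℝ → ℝ} {L : ℝ≥0} (hA : LipschitzWith L A) {η M κ : ℝ} (hη : 0 < η)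
    (hη1 : η ≤ 1) (hM : 0 ≤ M) (hκ : 0 ≤ κ) {e : ℂ} (he : ‖e‖ = 1) {c1 c2 c3 r1 r2 r3 : ℝ}
    {μ1 μ2 μ3 : Measure ℂ} (hr1 : 0 < r1) (hr2 : 0 < r2) (hr3 : 0 < r3)
    (h12 : r1 + r2 ≤ |c1 - c2|) (h23 : r2 + r3 ≤ |c2 - c3|) (h31 : r3 + r1 ≤ |c3 - c1|)
    (hp : ∀ᵐ p ∂μ1, Box A η M c1 r1 (e * p)) (hq : ∀ᵐ p ∂μ2, Box A η M c2 r2 (e * p))
    (hr : ∀ᵐ p ∂μ3, Box A η M c3 r3 (e * p)) (m1 : μ1 univ ≤ ENNReal.ofReal (κ * r1))
    (m2 : μ2 univ ≤ ENNReal.ofReal (κ * r2)) (m3 : μ3 univ ≤ ENNReal.ofReal (κ * r3)) :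
    tri cf μ1 μ2 μ3 ≤ ENNReal.ofReal (κ ^ 3 * crossN η M L / 8)
        * tri (gd A) (iv c1 r1) (iv c2 r2) (iv c3 r3)
      + ENNReal.ofReal (κ ^ 3 * crossN η M L *
        (r1 ^ 3 * (r2 / (c1 - c2) ^ 2) * (r3 / (c1 - c3) ^ 2)
          + r2 ^ 3 * (r3 / (c2 - c3) ^ 2) * (r1 / (c2 - c1) ^ 2)
          + r3 ^ 3 * (r1 / (c3 - c1) ^ 2) * (r2 / (c3 - c2) ^ 2))) := by
  have hN : 0 ≤ crossN η M L := crossN_nonneg
  refine le_tri_avg (iv_ae c1 r1) (iv_ae c2 r2) (iv_ae c3 r3)
    (v := ENNReal.ofReal (8 * (r1 * r2 * r3))) ?_ (by simp; positivity) ENNReal.ofReal_ne_top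
    ENNReal.ofReal_ne_top fun x y z hx hy hz => ?_
  · rw [iv_univ, iv_univ, iv_univ, ← ENNReal.ofReal_mul (by positivity),
      ← ENNReal.ofReal_mul (by positivity)]
    congr 1; ring
  · refine (tri_le_const hp hq hr fun p q r hp hq hr => ENNReal.ofReal_le_ofReal
      ((curv_rot he p q r) ▸ cross_pt hA hη hη1 hM hr1 hr2 hr3 h12 h23 h31 hp hq hr
        hx hy hz)).trans ?_
    refine (mass3 (by positivity) (by positivity) (by positivity) m1 m2 m3).trans ?_
    rw [gd, ← ENNReal.ofReal_mul (by positivity), ← ENNReal.ofReal_mul (by positivity),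
      ← ENNReal.ofReal_add (by positivity) (by positivity)]
    apply le_of_eq
    congr 1
    simp only [div_eq_mul_inv, mul_inv]
    ring

/-- The error term attached to a triple of intervals. -/
def errZ {ι : Type*} [DecidableEq ι] (c r : ι → ℝ) (i j k : ι) : ℝ :=
  r i ^ 3 * (r j / (c i - c j) ^ 2) * (r k / (c i - c k) ^ 2)
    + if i = j then r i ^ 2 * (r k / (c i - c k) ^ 2) else 0

lemma errZ_sum {ι : Type*} [DecidableEq ι] (t : Finset ι) (c r : ι → ℝ)
    (hr : ∀ i ∈ t, 0 < r i) (hsep : ∀ i ∈ t, ∀ j ∈ t, i ≠ j → r i + r j ≤ |c i - c j|) :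
    ∑ i ∈ t, ∑ j ∈ t, ∑ k ∈ t, errZ c r i j k ≤ 2 * ∑ i ∈ t, r i := by
  rw [Finset.mul_sum]
  refine Finset.sum_le_sum fun i hi => ?_
  have hi0 := hr i hi
  set G : ℝ := ∑ j ∈ t, r j / (c i - c j) ^ 2 with hG
  have hG0 : 0 ≤ G := Finset.sum_nonneg fun j hj => by have := hr j hj; positivity
  have hG1 : G ≤ 1 / r i := by
    rw [hG, ← Finset.add_sum_erase t _ hi, sub_self]
    have := sum_inv_sq (t.erase i) c r hi0 (fun j hj => hr j (Finset.mem_of_mem_erase hj))
      (fun j hj k hk => hsep j (Finset.mem_of_mem_erase hj) k (Finset.mem_of_mem_erase hk))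
      (fun j hj => hsep i hi j (Finset.mem_of_mem_erase hj) (Finset.ne_of_mem_erase hj).symm)
    simpa using this
  have e : ∑ j ∈ t, ∑ k ∈ t, errZ c r i j k = r i ^ 3 * G * G + r i ^ 2 * G := by
    simp only [errZ, Finset.sum_add_distrib]
    congr 1
    · simp only [← Finset.mul_sum, ← Finset.sum_mul, ← hG]
    · rw [Finset.sum_comm]
      simp only [Finset.sum_ite_eq, hi, if_true, ← Finset.mul_sum, ← hG]
  rw [e]
  calc r i ^ 3 * G * G + r i ^ 2 * G
      ≤ r i ^ 3 * (1 / r i) * (1 / r i) + r i ^ 2 * (1 / r i) := by gcongr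
    _ = 2 * r i := by field_simp; ring

lemma sum_cyc {ι : Type*} (t : Finset ι) (f : ι → ι → ι → ℝ) :
    ∑ i ∈ t, ∑ j ∈ t, ∑ k ∈ t, f j k i = ∑ i ∈ t, ∑ j ∈ t, ∑ k ∈ t, f i j k := by
  rw [Finset.sum_comm]
  exact Finset.sum_congr rfl fun _ _ => Finset.sum_comm

lemma iv_sum_le {ι : Type*} (t : Finset ι) (c r : ι → ℝ) {a b : ℝ}
    (hsep : ∀ i ∈ t, ∀ j ∈ t, i ≠ j → r i + r j ≤ |c i - c j|)
    (ha : ∀ i ∈ t, a ≤ c i - r i) (hb : ∀ i ∈ t, c i + r i ≤ b) :
    ∑ i ∈ t, iv (c i) (r i) ≤ volume.restrict (Icc a b) := by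
  refine Measure.le_iff.2 fun U hU => ?_
  rw [Measure.finsetSum_apply, Measure.restrict_apply hU]
  simp only [iv, Measure.restrict_apply hU]
  rw [← measure_biUnion_finset]
  · refine measure_mono ?_
    intro x hx
    simp only [mem_iUnion] at hx
    obtain ⟨i, hi, hx, hx'⟩ := hx
    exact ⟨hx, by linarith [ha i hi, hx'.1], by linarith [hb i hi, hx'.2]⟩
  · intro i hi j hj hij
    refine Set.disjoint_left.2 fun x hx hx' => ?_
    rcases sep_of_abs (hsep i hi j hj hij) with h | h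
    · linarith [hx.2.2, hx'.2.1]
    · linarith [hx.2.1, hx'.2.2]
  · exact fun _ _ => hU.inter measurableSet_Ioo

/-- The constant of the cluster lemma. -/
def clusC (η M κ L : ℝ) : ℝ :=
  κ ^ 3 * crossN η M L * (18 * L ^ 2) + 3 * (κ ^ 3 * (crossN η M L + 4 / η ^ 2))

lemma clusC_nonneg {η M κ L : ℝ} (hκ : 0 ≤ κ) : 0 ≤ clusC η M κ L := by
  have hN : 0 ≤ crossN η M L := crossN_nonneg
  unfold clusC; positivity

lemma re_mul_sub {e : ℂ} (he : ‖e‖ = 1) (p q : ℂ) : |(e * p).re - (e * q).re| ≤ dist p q := by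
  rw [← Complex.sub_re, ← mul_sub]
  refine (Complex.abs_re_le_norm _).trans ?_
  rw [norm_mul, he, one_mul, dist_eq_norm]

lemma im_mul_sub {e : ℂ} (he : ‖e‖ = 1) (p q : ℂ) : |(e * p).im - (e * q).im| ≤ dist p q := by
  rw [← Complex.sub_im, ← mul_sub]
  refine (Complex.abs_im_le_norm _).trans ?_
  rw [norm_mul, he, one_mul, dist_eq_norm]

/-- The cluster lemma: measures living in boxes along a Lipschitz graph can be added. -/
theorem cluster {ι : Type*} (t : Finset ι) {A : ℝ → ℝ} {L : ℝ≥0} (hA : LipschitzWith L A)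
    {η M κ : ℝ} (hη : 0 < η) (hη1 : η ≤ 1) (hM : 0 ≤ M) (hκ : 0 ≤ κ) {e : ℂ} (he : ‖e‖ = 1)
    (c r m k : ι → ℝ) (S : ι → Set ℂ) {T : Set ℂ} {s C x0 w : ℝ} (hw : 0 ≤ w)
    (hC : κ * (1 + 4 / η) ≤ C) (hr : ∀ i ∈ t, 0 < r i)
    (hsep : ∀ i ∈ t, ∀ j ∈ t, i ≠ j → r i + r j ≤ |c i - c j|)
    (ha : ∀ i ∈ t, x0 ≤ c i - r i) (hb : ∀ i ∈ t, c i + r i ≤ x0 + w)
    (hm : ∀ i ∈ t, m i ≤ κ * r i) (hT : ∀ i ∈ t, S i ⊆ T)
    (hbox : ∀ i ∈ t, ∀ p ∈ S i, ∀ z, dist z p < s → Box A η M (c i) (r i) (e * z))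
    (h : ∀ i ∈ t, Has s C (S i) (m i) (k i)) :
    Has s C T (∑ i ∈ t, m i) (∑ i ∈ t, k i + clusC η M κ L * w) := by
  classical
  have h' : ∀ i, ∃ μ : Measure ℂ, SFinite μ ∧ (i ∈ t → JM s C (S i) (m i) (k i) μ) := by
    intro i
    by_cases hi : i ∈ t
    · obtain ⟨μ, hμ⟩ := h i hi
      have := hμ.fin
      exact ⟨μ, inferInstance, fun _ => hμ⟩
    · exact ⟨0, inferInstance, fun h => absurd h hi⟩
  choose μ hsf hμ using h'
  have hN : 0 ≤ crossN η M L := crossN_nonneg
  have hcl : 0 ≤ clusC η M κ L := clusC_nonneg hκ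
  have hk0 : 0 ≤ ∑ i ∈ t, k i := Finset.sum_nonneg fun i hi => (hμ i hi).k0
  have hae : ∀ i ∈ t, ∀ᵐ z ∂μ i, Box A η M (c i) (r i) (e * z) := fun i hi =>
    (hμ i hi).atom.ae.mono fun z ⟨p, hp, hz⟩ => hbox i hi p hp z hz
  have hmass : ∀ i ∈ t, μ i univ ≤ ENNReal.ofReal (κ * r i) := fun i hi =>
    (hμ i hi).mass.le.trans (ENNReal.ofReal_le_ofReal (hm i hi))
  have hC0 : 0 ≤ C := le_trans (by positivity) hC
  refine ⟨∑ i ∈ t, μ i, Finset.sum_nonneg fun i hi => (hμ i hi).m0, by positivity,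
    Atom.sum t μ fun i hi => (hμ i hi).atom.mono (hT i hi), ?_, fun z ρ hρ => ?_, ?_⟩
  · rw [Measure.finsetSum_apply, ENNReal.ofReal_sum_of_nonneg fun i hi => (hμ i hi).m0]
    exact Finset.sum_congr rfl fun i hi => (hμ i hi).mass
  · set t' := t.filter fun i => μ i (ball z ρ) ≠ 0 with ht'
    have hsub : ∀ i ∈ t', i ∈ t := fun i hi => (Finset.mem_filter.1 hi).1
    have hpt : ∀ i ∈ t', ∃ p ∈ ball z ρ, Box A η M (c i) (r i) (e * p) := fun i hi =>
      exists_of_ball (hae i (hsub i hi)) (Finset.mem_filter.1 hi).2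
    rw [Measure.finsetSum_apply, ← Finset.sum_filter_ne_zero, ← ht']
    rcases t'.eq_empty_or_nonempty with h0 | ⟨i0, hi0⟩
    · rw [h0]; simp
    by_cases h1 : ∀ j ∈ t', j = i0
    · rw [Finset.eq_singleton_iff_unique_mem.2 ⟨hi0, h1⟩, Finset.sum_singleton]
      exact (hμ i0 (hsub i0 hi0)).growth z ρ hρ
    push Not at h1
    obtain ⟨j0, hj0, hij⟩ := h1
    have hsmall : ∀ i ∈ t', r i ≤ 2 * ρ / η := by
      intro i hi
      have : ∃ j ∈ t', i ≠ j := by
        by_cases h : i = i0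
        · exact ⟨j0, hj0, h ▸ hij.symm⟩
        · exact ⟨i0, hi0, h⟩
      obtain ⟨j, hj, hij⟩ := this
      obtain ⟨p, hp, hp'⟩ := hpt i hi
      obtain ⟨q, hq, hq'⟩ := hpt j hj
      have e1 := hsep i (hsub i hi) j (hsub j hj) hij
      have e2 := hp'.sep hη1 hq' e1
      have e3 := re_mul_sub he p q
      have e4 := dist_triangle_right p q z
      rw [mem_ball] at hp hq
      have e5 : η * r i ≤ η * |c i - c j| := by
        gcongr; linarith [hr j (hsub j hj)]
      rw [le_div_iff₀ hη]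
      linarith
    have hloc : ∀ i ∈ t', |c i - (e * z).re| ≤ ρ + r i := by
      intro i hi
      obtain ⟨p, hp, hp'⟩ := hpt i hi
      have e3 := re_mul_sub he p z
      have e4 := abs_sub_le (c i) (e * p).re (e * z).re
      have e5 := hp'.1
      rw [mem_ball] at hp
      rw [abs_sub_comm] at e5
      nlinarith [mul_pos hη (hr i (hsub i hi))]
    have hsum := rad_sum_le t' c r (a := (e * z).re - ρ - 2 * (2 * ρ / η))
      (b := (e * z).re + ρ + 2 * (2 * ρ / η))
      (by have : 0 ≤ 2 * ρ / η := by positivity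
          linarith)
      (fun i hi => hr i (hsub i hi)) (fun i hi j hj => hsep i (hsub i hi) j (hsub j hj))
      (fun i hi => by linarith [hsmall i hi, (abs_le.1 (hloc i hi)).1])
      (fun i hi => by linarith [hsmall i hi, (abs_le.1 (hloc i hi)).2])
    calc ∑ i ∈ t', μ i (ball z ρ) ≤ ∑ i ∈ t', ENNReal.ofReal (κ * r i) :=
          Finset.sum_le_sum fun i hi =>
            (measure_mono (subset_univ _)).trans (hmass i (hsub i hi))
      _ = ENNReal.ofReal (κ * ∑ i ∈ t', r i) := by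
          rw [Finset.mul_sum, ENNReal.ofReal_sum_of_nonneg fun i hi =>
            mul_nonneg hκ (hr i (hsub i hi)).le]
      _ ≤ _ := by
          apply ENNReal.ofReal_le_ofReal
          calc κ * ∑ i ∈ t', r i ≤ κ * (ρ + 2 * (2 * ρ / η)) := by gcongr; linarith
            _ = κ * (1 + 4 / η) * ρ := by ring
            _ ≤ C * ρ := by gcongr
  · set a : ℝ≥0∞ := ENNReal.ofReal (κ ^ 3 * crossN η M L / 8) with ha'
    set b : ℝ := κ ^ 3 * (crossN η M L + 4 / η ^ 2) with hb'
    have hb0 : 0 ≤ b := by positivity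
    have hZ : ∀ i ∈ t, ∀ j ∈ t, ∀ l ∈ t, 0 ≤ errZ c r i j l := by
      intro i hi j hj l hl
      have := hr i hi
      have := hr j hj
      have := hr l hl
      unfold errZ
      split_ifs <;> positivity
    have two : ∀ i ∈ t, ∀ j ∈ t, i ≠ j → ∀ p q, Box A η M (c i) (r i) (e * p) →
        Box A η M (c j) (r j) (e * q) → η * |c i - c j| ≤ ‖p - q‖ := by
      intro i hi j hj hij p q hp hq
      have := hp.sep' hη1 hq (hsep i hi j hj hij)
      rwa [← mul_sub, norm_mul, he, one_mul] at this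
    have pos : ∀ i ∈ t, ∀ j ∈ t, i ≠ j → 0 < η * |c i - c j| := by
      intro i hi j hj hij
      have := hsep i hi j hj hij
      have : 0 < |c i - c j| := by linarith [hr i hi, hr j hj]
      positivity
    have fin : ∀ i ∈ t, ∀ j ∈ t, ENNReal.ofReal (4 / (η * |c i - c j|) ^ 2
        * (κ * r i * (κ * r i) * (κ * r j))) ≤ ENNReal.ofReal (b * errZ c r i i j) := by
      intro i hi j hj
      have := hr i hi
      have := hr j hj
      apply ENNReal.ofReal_le_ofReal
      simp only [errZ, sub_self, if_true]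
      calc _ = κ ^ 3 * (4 / η ^ 2) * (r i ^ 2 * (r j / (c i - c j) ^ 2)) := by
            rw [mul_pow, sq_abs]; simp only [div_eq_mul_inv, mul_inv]; ring
        _ ≤ _ := by
            rw [hb']
            gcongr
            · linarith
            · simp
    have h3 := tri_sum_le t μ m3_cf (fun i j l => a * tri (gd A) (iv (c i) (r i))
      (iv (c j) (r j)) (iv (c l) (r l))
        + ENNReal.ofReal (b * (errZ c r i j l + errZ c r j l i + errZ c r l i j))) (by
      intro i hi j hj l hl hijl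
      have := hr i hi
      have := hr j hj
      have := hr l hl
      have z1 := hZ i hi j hj l hl
      have z2 := hZ j hj l hl i hi
      have z3 := hZ l hl i hi j hj
      by_cases hij : i = j
      · subst hij
        have hil : i ≠ l := fun h => hijl ⟨rfl, h⟩
        refine le_trans ?_ le_add_self
        refine (tri_le_const (hae i hi) (hae i hi) (hae l hl) fun x y z _ hy hz =>
          ENNReal.ofReal_le_ofReal (curv_sq_sep (pos i hi l hl hil)
            (Or.inr (Or.inl (two i hi l hl hil y z hy hz))))).trans ?_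
        refine (mass3 (by positivity) (by positivity) (by positivity) (hmass i hi) (hmass i hi)
          (hmass l hl)).trans ((fin i hi l hl).trans (ENNReal.ofReal_le_ofReal ?_))
        gcongr; linarith
      by_cases hjl : j = l
      · subst hjl
        have hji : j ≠ i := fun h => hij h.symm
        refine le_trans ?_ le_add_self
        refine (tri_le_const (hae i hi) (hae j hj) (hae j hj) fun x y z hx _ hz =>
          ENNReal.ofReal_le_ofReal (curv_sq_sep (pos j hj i hi hji)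
            (Or.inr (Or.inr (two j hj i hi hji z x hz hx))))).trans ?_
        rw [mul_rotate (μ i univ)]
        refine (mass3 (by positivity) (by positivity) (by positivity) (hmass j hj) (hmass j hj)
          (hmass i hi)).trans ((fin j hj i hi).trans (ENNReal.ofReal_le_ofReal ?_))
        gcongr; linarith
      by_cases hli : l = i
      · subst hli
        refine le_trans ?_ le_add_self
        refine (tri_le_const (hae l hl) (hae j hj) (hae l hl) fun x y z hx hy _ =>
          ENNReal.ofReal_le_ofReal (curv_sq_sep (pos l hl j hj hij)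
            (Or.inl (two l hl j hj hij x y hx hy)))).trans ?_
        rw [mul_right_comm (μ l univ)]
        refine (mass3 (by positivity) (by positivity) (by positivity) (hmass l hl) (hmass l hl)
          (hmass j hj)).trans ((fin l hl j hj).trans (ENNReal.ofReal_le_ofReal ?_))
        gcongr; linarith
      refine (cross_three hA hη hη1 hM hκ he (hr i hi) (hr j hj) (hr l hl) (hsep i hi j hj hij)
        (hsep j hj l hl hjl) (hsep l hl i hi hli) (hae i hi) (hae j hj) (hae l hl)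
        (hmass i hi) (hmass j hj) (hmass l hl)).trans ?_
      refine add_le_add le_rfl (ENNReal.ofReal_le_ofReal ?_)
      simp only [errZ, hij, hjl, hli, if_false, add_zero]
      rw [hb']
      gcongr
      have : 0 ≤ 4 / η ^ 2 := by positivity
      linarith)
    refine h3.trans ?_
    rw [ENNReal.ofReal_add hk0 (by positivity),
      ENNReal.ofReal_sum_of_nonneg fun i hi => (hμ i hi).k0]
    refine add_le_add (Finset.sum_le_sum fun i hi => (hμ i hi).curv) ?_
    simp only [Finset.sum_add_distrib]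
    have hH : ∀ i ∈ t, ∀ j ∈ t, ∀ l ∈ t,
        0 ≤ b * (errZ c r i j l + errZ c r j l i + errZ c r l i j) := by
      intro i hi j hj l hl
      have z1 := hZ i hi j hj l hl
      have z2 := hZ j hj l hl i hi
      have z3 := hZ l hl i hi j hj
      positivity
    have e1 : ∑ i ∈ t, ∑ j ∈ t, ∑ l ∈ t,
        ENNReal.ofReal (b * (errZ c r i j l + errZ c r j l i + errZ c r l i j))
        = ENNReal.ofReal (∑ i ∈ t, ∑ j ∈ t, ∑ l ∈ t,
          b * (errZ c r i j l + errZ c r j l i + errZ c r l i j)) := by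
      rw [ENNReal.ofReal_sum_of_nonneg fun i hi => Finset.sum_nonneg fun j hj =>
        Finset.sum_nonneg fun l hl => hH i hi j hj l hl]
      refine Finset.sum_congr rfl fun i hi => ?_
      rw [ENNReal.ofReal_sum_of_nonneg fun j hj =>
        Finset.sum_nonneg fun l hl => hH i hi j hj l hl]
      refine Finset.sum_congr rfl fun j hj => ?_
      rw [ENNReal.ofReal_sum_of_nonneg fun l hl => hH i hi j hj l hl]
    have e2 : ∑ i ∈ t, ∑ j ∈ t, ∑ l ∈ t,
        b * (errZ c r i j l + errZ c r j l i + errZ c r l i j) ≤ 3 * b * w := by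
      simp only [← Finset.mul_sum, Finset.sum_add_distrib]
      rw [← sum_cyc t (fun i j l => errZ c r l i j), sum_cyc t (errZ c r)]
      have u1 := errZ_sum t c r hr hsep
      have u2 := rad_sum_le t c r (by linarith) hr hsep ha hb
      calc _ ≤ b * (w + w + w) := by gcongr <;> linarith
        _ = _ := by ring
    have e3 : ∑ i ∈ t, ∑ j ∈ t, ∑ l ∈ t, a * tri (gd A) (iv (c i) (r i))
        (iv (c j) (r j)) (iv (c l) (r l))
        ≤ ENNReal.ofReal (κ ^ 3 * crossN η M L * (18 * L ^ 2) * w) := by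
      simp only [← Finset.mul_sum]
      rw [← tri_sum t (fun i => iv (c i) (r i)) (m3_gd hA.continuous.measurable)]
      calc _ ≤ a * ENNReal.ofReal (144 * (L : ℝ) ^ 2 * w) := by
            gcongr
            exact (tri_mono _ (iv_sum_le t c r hsep ha hb)).trans (LC A L hA x0 w hw)
        _ = _ := by
            rw [ha', ← ENNReal.ofReal_mul (by positivity)]
            congr 1; ring
    rw [e1]
    refine (add_le_add e3 (ENNReal.ofReal_le_ofReal e2)).trans ?_
    rw [← ENNReal.ofReal_add (by positivity) (by positivity)]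
    apply le_of_eq
    congr 1
    rw [clusC, hb']
    ring

end Pool.Agent.P.MP_f981b0_an.TC.J
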