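import Pool.Agent.P.MP_f981b0_an.TC.JTri

set_option autoImplicit false

noncomputable section

namespace Pool.Agent.P.MP_f981b0_an.TC.J

open MeasureTheory Metric Set
open scoped ENNReal NNReal ComplexConjugate

/-- Twice the signed area of a triangle. -/
def ar (x y z : ℂ) : ℝ := ((x - z) * conj (y - z)).im

lemma abs_im_mul_conj (a b : ℂ) : |(a * conj b).im| ≤ ‖a‖ * ‖b‖ := by
  refine (Complex.abs_im_le_norm _).trans ?_
  rw [norm_mul, Complex.norm_conj]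

lemma curv_eq (x y z : ℂ) : curv x y z = 2 * |ar x y z| / (‖x - y‖ * ‖y - z‖ * ‖z - x‖) := rfl

lemma curv_nonneg' (x y z : ℂ) : 0 ≤ curv x y z := by
  rw [curv_eq]; positivity

lemma div_aux {t a b c : ℝ} (ha : 0 ≤ a) (hb : 0 ≤ b) (hc : 0 ≤ c) (h : t ≤ b * c) :
    2 * t / (a * b * c) ≤ 2 / a := by
  rcases (mul_nonneg (mul_nonneg ha hb) hc).eq_or_lt with h0 | h0
  · rw [← h0, div_zero]; positivity
  · have ha' : 0 < a := by
      rcases ha.eq_or_lt with h1 | h1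
      · rw [← h1] at h0; simp at h0
      · exact h1
    rw [div_le_div_iff₀ h0 ha']
    nlinarith [mul_le_mul_of_nonneg_left h ha]

lemma curv_le12 (x y z : ℂ) : curv x y z ≤ 2 / ‖x - y‖ := by
  rw [curv_eq]
  refine div_aux (norm_nonneg _) (norm_nonneg _) (norm_nonneg _) ?_
  have := abs_im_mul_conj (x - z) (y - z)
  rwa [norm_sub_rev x z, mul_comm ‖z - x‖] at this

lemma curv_le23 (x y z : ℂ) : curv x y z ≤ 2 / ‖y - z‖ := by
  rw [curv_eq, show ‖x - y‖ * ‖y - z‖ * ‖z - x‖ = ‖y - z‖ * ‖x - y‖ * ‖z - x‖ by ring]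
  refine div_aux (norm_nonneg _) (norm_nonneg _) (norm_nonneg _) ?_
  have := abs_im_mul_conj (x - y) (z - x)
  have e : ar x y z = -((x - y) * conj (z - x)).im := by
    simp [ar]; ring
  rwa [e, abs_neg]

lemma curv_le31 (x y z : ℂ) : curv x y z ≤ 2 / ‖z - x‖ := by
  rw [curv_eq, show ‖x - y‖ * ‖y - z‖ * ‖z - x‖ = ‖z - x‖ * ‖x - y‖ * ‖y - z‖ by ring]
  refine div_aux (norm_nonneg _) (norm_nonneg _) (norm_nonneg _) ?_
  have := abs_im_mul_conj (x - y) (y - z)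
  have e : ar x y z = ((x - y) * conj (y - z)).im := by
    simp [ar]; ring
  rwa [e]

lemma curv_rot {e : ℂ} (he : ‖e‖ = 1) (x y z : ℂ) : curv (e * x) (e * y) (e * z) = curv x y z := by
  have h1 : e * conj e = 1 := by
    rw [Complex.mul_conj, Complex.normSq_eq_norm_sq, he]; simp
  have h2 : (e * x - e * z) * conj (e * y - e * z) = (x - z) * conj (y - z) := by
    rw [← mul_sub, ← mul_sub, map_mul]
    linear_combination ((x - z) * conj (y - z)) * h1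
  unfold curv
  rw [h2, ← mul_sub, ← mul_sub, ← mul_sub, norm_mul, norm_mul, norm_mul, he]
  simp

/-- The integrand of the curvature of a measure. -/
def cf (x y z : ℂ) : ℝ≥0∞ := ENNReal.ofReal (curv x y z ^ 2)

lemma m3_cf : M3 cf := by
  unfold M3 cf curv
  have : Measurable (conj : ℂ → ℂ) := Complex.continuous_conj.measurable
  fun_prop

lemma sq_le_of_le_div {c t d : ℝ} (hc : 0 ≤ c) (hd : 0 < d) (hdt : d ≤ t) (h : c ≤ 2 / t) :
    c ^ 2 ≤ 4 / d ^ 2 := by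
  have h1 : c ≤ 2 / d := h.trans (by gcongr)
  calc c ^ 2 ≤ (2 / d) ^ 2 := by gcongr
    _ = 4 / d ^ 2 := by ring

lemma curv_sq_sep {x y z : ℂ} {d : ℝ} (hd : 0 < d)
    (h : d ≤ ‖x - y‖ ∨ d ≤ ‖y - z‖ ∨ d ≤ ‖z - x‖) : curv x y z ^ 2 ≤ 4 / d ^ 2 := by
  rcases h with h | h | h
  · exact sq_le_of_le_div (curv_nonneg' _ _ _) hd h (curv_le12 _ _ _)
  · exact sq_le_of_le_div (curv_nonneg' _ _ _) hd h (curv_le23 _ _ _)
  · exact sq_le_of_le_div (curv_nonneg' _ _ _) hd h (curv_le31 _ _ _)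

lemma curv_sq_ker (x y z : ℂ) : curv x y z ^ 2 ≤ 4 * ‖y - x‖⁻¹ * ‖z - x‖⁻¹ := by
  have h1 := curv_le12 x y z
  have h2 := curv_le31 x y z
  rw [norm_sub_rev] at h1
  calc curv x y z ^ 2 = curv x y z * curv x y z := sq _
    _ ≤ (2 / ‖y - x‖) * (2 / ‖z - x‖) :=
        mul_le_mul h1 h2 (curv_nonneg' _ _ _) (by positivity)
    _ = _ := by ring

lemma ar_perturb (p q r P Q R : ℂ) :
    |ar p q r| ≤ |ar P Q R| + ‖p - P‖ * ‖q - r‖ + ‖q - Q‖ * ‖P - r‖ + ‖r - R‖ * ‖P - Q‖ := by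
  have e : ar p q r = ar P Q R + ((p - P) * conj (q - r)).im + ((P - r) * conj (q - Q)).im
      + ((r - R) * conj (P - Q)).im := by
    simp [ar]; ring
  have h1 := abs_im_mul_conj (p - P) (q - r)
  have h2 := abs_im_mul_conj (P - r) (q - Q)
  have h3 := abs_im_mul_conj (r - R) (P - Q)
  rw [e]
  refine (abs_add_le _ _).trans ?_
  refine le_trans (add_le_add_left (abs_add_le _ _) _) ?_
  refine le_trans (add_le_add_left (add_le_add_left (abs_add_le _ _) _) _) ?_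
  nlinarith

/-- The point of the graph of `A` over `x`. -/
def gr (A : ℝ → ℝ) (x : ℝ) : ℂ := ⟨x, A x⟩

lemma ar_gr (A : ℝ → ℝ) {x y z : ℝ} (h1 : x ≠ y) (h2 : y ≠ z) (h3 : z ≠ x) :
    |ar (gr A x) (gr A y) (gr A z)| = |dd A x y z| * (|x - y| * |y - z| * |z - x|) := by
  have e1 := sub_ne_zero.2 h1
  have e2 := sub_ne_zero.2 h2
  have e3 := sub_ne_zero.2 h3
  rw [← abs_mul, ← abs_mul, ← abs_mul, ← abs_neg]
  congr 1
  simp only [ar, gr, dd, Complex.mul_im, Complex.sub_re, Complex.sub_im, Complex.conj_re,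
    Complex.conj_im]
  field_simp
  ring

/-- The box attached to a cluster: `c` is the centre, `r` the half length of its interval. -/
def Box (A : ℝ → ℝ) (η M c r : ℝ) (p : ℂ) : Prop :=
  |p.re - c| ≤ (1 - η) * r ∧ |p.im - A c| ≤ M * r

lemma lip_abs {A : ℝ → ℝ} {L : ℝ≥0} (hA : LipschitzWith L A) (x y : ℝ) :
    |A x - A y| ≤ L * |x - y| := by
  have := hA.dist_le_mul x y
  rwa [Real.dist_eq, Real.dist_eq] at this

lemma Box.near {A : ℝ → ℝ} {L : ℝ≥0} (hA : LipschitzWith L A) {η M c r x : ℝ} {p : ℂ}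
    (hη : 0 < η) (hr : 0 < r) (hp : Box A η M c r p) (hx : |x - c| < r) :
    ‖p - gr A x‖ ≤ (2 + M + L) * r := by
  refine (Complex.norm_le_abs_re_add_abs_im _).trans ?_
  simp only [gr, Complex.sub_re, Complex.sub_im]
  have h1 := abs_sub_le p.re c x
  have h2 := abs_sub_le p.im (A c) (A x)
  have h3 := lip_abs hA c x
  rw [abs_sub_comm c x] at h1 h3
  have h4 : (L : ℝ) * |x - c| ≤ L * r := by gcongr
  have h5 := hp.1
  have h6 := hp.2
  nlinarith [mul_pos hη hr]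

lemma gr_dist {A : ℝ → ℝ} {L : ℝ≥0} (hA : LipschitzWith L A) (x y : ℝ) :
    ‖gr A x - gr A y‖ ≤ (1 + L) * |x - y| := by
  refine (Complex.norm_le_abs_re_add_abs_im _).trans ?_
  simp only [gr, Complex.sub_re, Complex.sub_im]
  have h3 := lip_abs hA x y
  linarith

lemma Box.sep {A : ℝ → ℝ} {η M c r c' r' : ℝ} {p q : ℂ} (hη1 : η ≤ 1)
    (hp : Box A η M c r p) (hq : Box A η M c' r' q) (h : r + r' ≤ |c - c'|) :
    η * |c - c'| ≤ |p.re - q.re| := by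
  have h1 : |c - c'| ≤ |p.re - c| + |p.re - q.re| + |q.re - c'| := by
    have e1 := abs_sub_le c p.re c'
    have e2 := abs_sub_le p.re q.re c'
    rw [abs_sub_comm c p.re] at e1
    linarith
  have h2 := hp.1
  have h3 := hq.1
  nlinarith [mul_le_mul_of_nonneg_left h (sub_nonneg.2 hη1)]

lemma Box.sep' {A : ℝ → ℝ} {η M c r c' r' : ℝ} {p q : ℂ} (hη1 : η ≤ 1)
    (hp : Box A η M c r p) (hq : Box A η M c' r' q) (h : r + r' ≤ |c - c'|) :
    η * |c - c'| ≤ ‖p - q‖ :=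
  (hp.sep hη1 hq h).trans (by simpa using Complex.abs_re_le_norm (p - q))

lemma int_far {c r c' r' x y : ℝ} (hx : |x - c| < r) (hy : |y - c'| < r')
    (h : r + r' ≤ |c - c'|) : |x - y| ≤ 2 * |c - c'| ∧ x ≠ y := by
  have e1 := abs_sub_le x c y
  have e2 := abs_sub_le c c' y
  have e3 := abs_sub_le c x c'
  rw [abs_sub_comm c' y] at e2
  rw [abs_sub_comm c x] at e3
  refine ⟨by linarith, fun hxy => ?_⟩
  rw [← hxy] at hy
  linarith

/-- The constant of the cross estimate. -/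
def crossN (η M L : ℝ) : ℝ := 16 / η ^ 6 * (64 + ((2 + M + L) * (4 + M + 3 * L)) ^ 2)

lemma cross_pt {A : ℝ → ℝ} {L : ℝ≥0} (hA : LipschitzWith L A) {η M : ℝ} (hη : 0 < η)
    (hη1 : η ≤ 1) (hM : 0 ≤ M) {c1 c2 c3 r1 r2 r3 x y z : ℝ} {p q r : ℂ}
    (hr1 : 0 < r1) (hr2 : 0 < r2) (hr3 : 0 < r3)
    (h12 : r1 + r2 ≤ |c1 - c2|) (h23 : r2 + r3 ≤ |c2 - c3|) (h31 : r3 + r1 ≤ |c3 - c1|)
    (hp : Box A η M c1 r1 p) (hq : Box A η M c2 r2 q) (hr : Box A η M c3 r3 r)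
    (hx : |x - c1| < r1) (hy : |y - c2| < r2) (hz : |z - c3| < r3) :
    curv p q r ^ 2 ≤ crossN η M L * (dd A x y z ^ 2 + r1 ^ 2 / ((c1 - c2) ^ 2 * (c1 - c3) ^ 2)
      + r2 ^ 2 / ((c2 - c1) ^ 2 * (c2 - c3) ^ 2) + r3 ^ 2 / ((c3 - c1) ^ 2 * (c3 - c2) ^ 2)) := by
  obtain ⟨a12, n12⟩ := int_far hx hy h12
  obtain ⟨a23, n23⟩ := int_far hy hz h23
  obtain ⟨a31, n31⟩ := int_far hz hx h31
  have b1 := hp.near hA hη hr1 hx
  have b2 := hq.near hA hη hr2 hy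
  have b3 := hr.near hA hη hr3 hz
  have s12 := hp.sep' hη1 hq h12
  have s23 := hq.sep' hη1 hr h23
  have s31 := hr.sep' hη1 hp h31
  have g12 := gr_dist hA x y
  have g23 := gr_dist hA y z
  have g31 := gr_dist hA z x
  have hL : (0 : ℝ) ≤ L := L.2
  have e1 : (c1 - c2) ^ 2 = |c1 - c2| ^ 2 := (sq_abs _).symm
  have e2 : (c2 - c1) ^ 2 = |c1 - c2| ^ 2 := by rw [sq_abs]; ring
  have e3 : (c2 - c3) ^ 2 = |c2 - c3| ^ 2 := (sq_abs _).symm
  have e4 : (c3 - c2) ^ 2 = |c2 - c3| ^ 2 := by rw [sq_abs]; ring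
  have e5 : (c3 - c1) ^ 2 = |c3 - c1| ^ 2 := (sq_abs _).symm
  have e6 : (c1 - c3) ^ 2 = |c3 - c1| ^ 2 := by rw [sq_abs]; ring
  rw [e1, e2, e3, e4, e5, e6]
  have har := ar_perturb p q r (gr A x) (gr A y) (gr A z)
  rw [ar_gr A n12 n23 n31] at har
  generalize |c1 - c2| = D12 at *
  generalize |c2 - c3| = D23 at *
  generalize |c3 - c1| = D31 at *
  have p12 : 0 < D12 := by linarith
  have p23 : 0 < D23 := by linarith
  have p31 : 0 < D31 := by linarith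
  set M1 : ℝ := 2 + M + L with hM1
  set M2 : ℝ := 4 + M + 3 * L with hM2
  have hM1p : 0 < M1 := by positivity
  have hM2p : 0 < M2 := by positivity
  have k12 : ‖gr A x - gr A y‖ ≤ (2 + 2 * L) * D12 := by nlinarith
  have k23 : ‖gr A y - gr A z‖ ≤ (2 + 2 * L) * D23 := by nlinarith
  have k31 : ‖gr A z - gr A x‖ ≤ (2 + 2 * L) * D31 := by nlinarith
  have eM : M2 = M1 + (2 + 2 * L) := by rw [hM1, hM2]; ring
  have d23 : ‖q - r‖ ≤ M2 * D23 := by
    have t1 := norm_sub_le_norm_sub_add_norm_sub q (gr A y) r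
    have t2 := norm_sub_le_norm_sub_add_norm_sub (gr A y) (gr A z) r
    rw [norm_sub_rev (gr A z) r] at t2
    have t3 : M1 * (r2 + r3) ≤ M1 * D23 := by gcongr
    rw [eM]; nlinarith
  have d31 : ‖gr A x - r‖ ≤ M2 * D31 := by
    have t2 := norm_sub_le_norm_sub_add_norm_sub (gr A x) (gr A z) r
    rw [norm_sub_rev (gr A z) r, norm_sub_rev (gr A x) (gr A z)] at t2
    have t3 : M1 * r3 ≤ M1 * D31 := by gcongr; linarith
    rw [eM]; nlinarith
  have d12 : ‖gr A x - gr A y‖ ≤ M2 * D12 := by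
    rw [eM]; nlinarith [mul_pos hM1p p12]
  have u0 : |dd A x y z| * (|x - y| * |y - z| * |z - x|)
      ≤ |dd A x y z| * ((2 * D12) * (2 * D23) * (2 * D31)) := by gcongr
  have u1 : ‖p - gr A x‖ * ‖q - r‖ ≤ (M1 * r1) * (M2 * D23) := by gcongr
  have u2 : ‖q - gr A y‖ * ‖gr A x - r‖ ≤ (M1 * r2) * (M2 * D31) := by gcongr
  have u3 : ‖r - gr A z‖ * ‖gr A x - gr A y‖ ≤ (M1 * r3) * (M2 * D12) := by gcongr
  have hc : curv p q r ≤ 2 / η ^ 3 * (8 * |dd A x y z| + M1 * M2 * (r1 / (D12 * D31))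
      + M1 * M2 * (r2 / (D12 * D23)) + M1 * M2 * (r3 / (D31 * D23))) := by
    rw [curv_eq]
    calc 2 * |ar p q r| / (‖p - q‖ * ‖q - r‖ * ‖r - p‖)
        ≤ 2 * (|dd A x y z| * ((2 * D12) * (2 * D23) * (2 * D31)) + (M1 * r1) * (M2 * D23)
          + (M1 * r2) * (M2 * D31) + (M1 * r3) * (M2 * D12))
          / ((η * D12) * (η * D23) * (η * D31)) := by
          gcongr
          linarith
      _ = _ := by field_simp; ring
  have hN : crossN η M L = 16 / η ^ 6 * (64 + (M1 * M2) ^ 2) := rfl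
  rw [hN, ← sq_abs (dd A x y z), ← mul_pow, ← mul_pow, ← mul_pow, ← div_pow, ← div_pow, ← div_pow]
  have v1 : 0 ≤ r1 / (D12 * D31) := by positivity
  have v2 : 0 ≤ r2 / (D12 * D23) := by positivity
  have v3 : 0 ≤ r3 / (D31 * D23) := by positivity
  generalize r1 / (D12 * D31) = t1 at *
  generalize r2 / (D12 * D23) = t2 at *
  generalize r3 / (D31 * D23) = t3 at *
  generalize M1 * M2 = K at *
  generalize |dd A x y z| = t0 at *
  calc curv p q r ^ 2 ≤ (2 / η ^ 3 * (8 * t0 + K * t1 + K * t2 + K * t3)) ^ 2 :=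
        pow_le_pow_left₀ (curv_nonneg' _ _ _) hc 2
    _ = 4 / η ^ 6 * (8 * t0 + K * t1 + K * t2 + K * t3) ^ 2 := by ring
    _ ≤ 4 / η ^ 6 * (4 * ((64 + K ^ 2) * (t0 ^ 2 + t1 ^ 2 + t2 ^ 2 + t3 ^ 2))) := by
        gcongr
        nlinarith [sq_nonneg (8 * t0 - K * t1), sq_nonneg (8 * t0 - K * t2),
          sq_nonneg (8 * t0 - K * t3), sq_nonneg (K * t1 - K * t2), sq_nonneg (K * t1 - K * t3),
          sq_nonneg (K * t2 - K * t3), sq_nonneg (K * t0), sq_nonneg t1, sq_nonneg t2,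
          sq_nonneg t3]
    _ = _ := by ring

end Pool.Agent.P.MP_f981b0_an.TC.J
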