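import Pool.Agent.P.MP_f981b0_an.TC.JStep

set_option autoImplicit false

noncomputable section

namespace Pool.Agent.P.MP_f981b0_an.TC.J

open MeasureTheory Metric Set Real
open scoped ENNReal NNReal

lemma Node.flat {γ : ℝ → ℂ} {a b x0 w x ρ : ℝ} {e : ℂ} (hN : Node γ a b e x0 w)
    (h : w ≤ 100 * ρ) : Flat γ a b e x ρ :=
  fun t ht t' ht' _ _ => (hN.yosc t ht t' ht').trans h

lemma exists_top {γ : ℝ → ℂ} {a b x0 w x h : ℝ} {e : ℂ} (hN : Node γ a b e x0 w) (hh : 0 < h)
    (hx : ¬ ∀ ρ, h ≤ ρ → Flat γ a b e x ρ) :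
    ∃ ρ, h ≤ ρ ∧ ¬ Flat γ a b e x ρ ∧ ∀ ρ', 2 * ρ ≤ ρ' → Flat γ a b e x ρ' := by
  push Not at hx
  set E := {ρ | h ≤ ρ ∧ ¬ Flat γ a b e x ρ} with hE
  have hne : E.Nonempty := hx
  have hbd : BddAbove E := ⟨w / 100, fun ρ hρ => by
    by_contra h'
    exact hρ.2 (hN.flat (by linarith [not_le.1 h']))⟩
  obtain ⟨ρ0, hρ0⟩ := hx
  have h0 : h ≤ sSup E := hρ0.1.trans (le_csSup hbd hρ0)
  obtain ⟨ρ, hρ, hlt⟩ := exists_lt_of_lt_csSup hne (show sSup E / 2 < sSup E by linarith)
  refine ⟨ρ, hρ.1, hρ.2, fun ρ' h' => ?_⟩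
  by_contra hb
  have := le_csSup hbd (show ρ' ∈ E from ⟨by linarith [hρ.1], hb⟩)
  linarith

lemma node_case {γ : ℝ → ℂ} (hγ : Continuous γ) {a b x0 w s C C2 W : ℝ} {e : ℂ}
    (hN : Node γ a b e x0 w) (hs : 0 < s) (hC : 80000 ≤ C)
    (hC2 : 64 * 80000 ^ 2 + 51 * (3 + Cx) ≤ C2) (hw : 80000 * s ≤ w)
    (hQ : Ind γ s C C2 W) (hW : 99 / 100 * w ≤ W) : Has s C (γ '' Icc a b) w (C2 * w) := by
  classical
  have hw0 : 0 < w := by linarith
  have hCx := Cx_nonneg
  set h : ℝ := 4000 * s with hh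
  have hh0 : 0 < h := by positivity
  set n : ℕ := ⌊9 / 10 * w / h⌋₊ with hn
  have n1 : (n : ℝ) * h ≤ 9 / 10 * w := (le_div_iff₀ hh0).1 (Nat.floor_le (by positivity))
  have n2 : 9 / 10 * w < (n + 1) * h := (div_lt_iff₀ hh0).1 (Nat.lt_floor_add_one _)
  let x : ℕ → ℝ := fun i => x0 + w / 20 + i * h
  have x1 : ∀ i, x0 + w / 20 ≤ x i := fun i => le_add_of_nonneg_right (by positivity)
  have x2 : ∀ i ∈ Finset.range n, x i ≤ x0 + 19 / 20 * w := by
    intro i hi
    have : (i : ℝ) * h ≤ n * h := by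
      gcongr; exact (Finset.mem_range.1 hi).le
    simp only [x]; linarith
  have x3 : ∀ i j, i ≠ j → x i + h ≤ x j ∨ x j + h ≤ x i := by
    intro i j hij
    rcases lt_or_gt_of_ne hij with k | k
    · left
      have : ((i : ℝ) + 1) * h ≤ j * h := by gcongr; exact_mod_cast k
      simp only [x]; linarith
    · right
      have : ((j : ℝ) + 1) * h ≤ i * h := by gcongr; exact_mod_cast k
      simp only [x]; linarith
  let good : ℕ → Prop := fun i => ∀ ρ, h ≤ ρ → Flat γ a b e (x i) ρ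
  set G := (Finset.range n).filter good with hG
  set B := (Finset.range n).filter fun i => ¬ good i with hB
  by_cases hc : w ≤ 20000 * s * G.card
  · refine (flat_case G x hγ hN hs hC hw0 (fun i _ j _ hij => ?_) (fun i _ => ?_)
      (fun i hi => ?_) (fun i hi => (Finset.mem_filter.1 hi).2) hc).mono Subset.rfl ?_
    · rcases x3 i j hij with k | k
      · exact le_abs.2 (Or.inr (by linarith))
      · exact le_abs.2 (Or.inl (by linarith))
    · linarith [x1 i]
    · linarith [x2 i (Finset.mem_filter.1 hi).1]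
    · gcongr; linarith
  have hcard : (G.card : ℝ) + B.card = n := by
    have := Finset.card_filter_add_card_filter_not (s := Finset.range n) good
    rw [Finset.card_range] at this
    exact_mod_cast this
  have hBh : 13 / 20 * w ≤ B.card * h := by
    have e1 : (G.card : ℝ) * h + B.card * h = n * h := by rw [← hcard]; ring
    have e2 : 20000 * s * G.card = 5 * (G.card * h) := by rw [hh]; ring
    linarith [not_le.1 hc]
  have hρ : ∀ i ∈ B, ∃ ρ, h ≤ ρ ∧ ¬ Flat γ a b e (x i) ρ ∧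
      ∀ ρ', 2 * ρ ≤ ρ' → Flat γ a b e (x i) ρ' :=
    fun i hi => exists_top hN hh0 (Finset.mem_filter.1 hi).2
  choose! ρ r1 r2 r3 using hρ
  have r4 : ∀ i ∈ B, 100 * ρ i ≤ w := fun i hi => by
    by_contra k
    exact r2 i hi (hN.flat (not_le.1 k).le)
  obtain ⟨U, hU, hdis, hcov⟩ := Vitali.exists_disjoint_subfamily_covering_enlargement_closedBall
    (B : Set ℕ) x (fun i => 3 * ρ i) w (fun i hi => by linarith [r4 i hi, r1 i hi]) 4
    (by norm_num)
  set t := B.filter (· ∈ U) with ht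
  have tB : ∀ i ∈ t, i ∈ B := fun i hi => (Finset.mem_filter.1 hi).1
  refine step_case t x ρ hγ hN hs hC (by linarith) hw (fun i hi => r1 i (tB i hi))
    (fun i hi j hj hij => ?_) (fun i hi => ?_) (fun i hi => ?_) (fun i hi => r4 i (tB i hi))
    (fun i hi => r2 i (tB i hi)) (fun i hi => r3 i (tB i hi)) ?_ hQ hW
  · have := hdis (Finset.mem_filter.1 hi).2 (Finset.mem_filter.1 hj).2 hij
    have := (disjoint_closedBall_closedBall_iff (by linarith [r1 i (tB i hi)])
      (by linarith [r1 j (tB j hj)])).1 this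
    rw [Real.dist_eq] at this
    exact this.le
  · linarith [x1 i, r4 i (tB i hi)]
  · linarith [x2 i (Finset.mem_filter.1 (tB i hi)).1, r4 i (tB i hi)]
  · have := len_le B t (fun i => x i - h / 2) (fun i => x i + h / 2)
      (fun l => x l - 12 * ρ l) (fun l => x l + 12 * ρ l) (fun _ _ => by linarith)
      (fun l hl => by linarith [r1 l (tB l hl)])
      (fun i _ j _ hij => by
        rcases x3 i j hij with k | k
        · left; linarith
        · right; linarith)
      (fun i hi y y1 y2 => by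
        obtain ⟨l, hl, k⟩ := hcov i hi
        have hy : y ∈ closedBall (x i) (3 * ρ i) := by
          rw [mem_closedBall, Real.dist_eq]
          exact abs_le.2 ⟨by linarith [r1 i hi], by linarith [r1 i hi]⟩
        have := k hy
        rw [mem_closedBall, Real.dist_eq, abs_le] at this
        exact ⟨l, Finset.mem_filter.2 ⟨hU hl, hl⟩, by linarith [this.1], by linarith [this.2]⟩)
    have e1 : ∑ i ∈ B, (x i + h / 2 - (x i - h / 2)) = B.card * h := by
      rw [← nsmul_eq_mul, ← Finset.sum_const]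
      exact Finset.sum_congr rfl fun _ _ => by ring
    have e2 : ∑ l ∈ t, (x l + 12 * ρ l - (x l - 12 * ρ l)) = 24 * ∑ l ∈ t, ρ l := by
      rw [Finset.mul_sum]
      exact Finset.sum_congr rfl fun _ _ => by ring
    rw [e1, e2] at this
    linarith

lemma ind_all {γ : ℝ → ℂ} (hγ : Continuous γ) {s C C2 : ℝ} (hs : 0 < s) (hC : 80000 ≤ C)
    (hC2 : 64 * 80000 ^ 2 + 51 * (3 + Cx) ≤ C2) (n : ℕ) : Ind γ s C C2 (n * s) := by
  have hCx := Cx_nonneg
  have base : ∀ w, 0 ≤ w → w ≤ 80000 * s → ∀ a b t, t ∈ Icc a b →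
      Has s C (γ '' Icc a b) w (C2 * w) := fun w hw h a b t ht =>
    (has_disc hs hw h hC (γ t)).mono (singleton_subset_iff.2 ⟨t, ht, rfl⟩) (by gcongr; linarith)
  induction n with
  | zero =>
    intro w hw h a b t t' ht _ _
    exact base w hw (by simp at h; linarith) a b t ht
  | succ n ih =>
    intro w hw h a b t t' ht ht' hd
    rcases le_total w (80000 * s) with k | k
    · exact base w hw k a b t ht
    · obtain ⟨a', b', e, x0, k1, k2, hN⟩ := exists_node hγ ht ht' hw hd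
      push_cast at h
      exact (node_case hγ hN hs hC hC2 k ih (by linarith)).mono
        (image_mono (Icc_subset_Icc k1 k2)) le_rfl

end Pool.Agent.P.MP_f981b0_an.TC.J

namespace Pool.Agent.P.MP_f981b0_an.TC

open MeasureTheory Metric Set Real J

/-- Lemma J: a good measure near every path. -/
theorem lemmaJ : LemmaJ := by
  have hCx := Cx_nonneg
  set C : ℝ := 64 * 80000 ^ 2 + 51 * (3 + Cx) with hC
  have hC0 : 80000 ≤ C := by linarith
  refine ⟨C, 1, by linarith, one_pos, fun γ hγ hd s hs _ => ?_⟩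
  obtain ⟨n, hn⟩ := exists_nat_ge (1 / 2 / s)
  obtain ⟨μ, hμ⟩ := ind_all hγ hs hC0 le_rfl n (1 / 2) (by norm_num) ((div_le_iff₀ hs).1 hn)
    0 1 1 0 ⟨zero_le_one, le_rfl⟩ ⟨le_rfl, zero_le_one⟩ hd
  obtain ⟨w, hw, e, h1, h2⟩ := hμ.atom
  have hπ := pi_gt_three
  have hle : ∀ z, w z ≤ ENNReal.ofReal (C / s) := by
    intro z
    have k1 := (h2 z).trans (hμ.growth z (2 * s) (by positivity))
    have k2 : ENNReal.ofReal (C * (2 * s))
        ≤ ENNReal.ofReal (C / s) * ENNReal.ofReal (π * s ^ 2) := by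
      rw [← ENNReal.ofReal_mul (by positivity)]
      apply ENNReal.ofReal_le_ofReal
      have : C / s * (π * s ^ 2) = C * (π * s) := by field_simp
      rw [this]
      gcongr
      linarith
    exact (ENNReal.mul_le_mul_iff_left (by simp; positivity) ENNReal.ofReal_ne_top).1
      (k1.trans k2)
  have hd : dmeas (fun z => (w z).toReal) = μ := by
    rw [e, dmeas]
    congr 1
    funext z
    exact ENNReal.ofReal_toReal (ne_top_of_le_ne_top ENNReal.ofReal_ne_top (hle z))
  refine ⟨fun z => (w z).toReal, hw.ennreal_toReal, fun _ => ENNReal.toReal_nonneg,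
    fun z => ENNReal.toReal_le_of_le_ofReal (by positivity) (hle z), fun z hz => ?_, ?_, ?_,
    fun z r hr => ?_, ?_⟩
  · obtain ⟨_, ⟨t, ht, rfl⟩, h⟩ := h1 z fun h => hz (by simp [h])
    exact ⟨t, ht, h⟩
  · rw [hd, hμ.mass]; exact ENNReal.ofReal_le_ofReal (by norm_num)
  · rw [hd, hμ.mass]; exact ENNReal.ofReal_le_one.2 (by norm_num)
  · rw [hd]; exact hμ.growth z r hr
  · rw [hd]; exact hμ.curv.trans (ENNReal.ofReal_le_ofReal (by linarith))

end Pool.Agent.P.MP_f981b0_an.TC
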