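import Pool.Agent.P.MP_f981b0_an.TC.JGeo
import Pool.Agent.P.MP_f981b0_an.R1.Kernel

set_option autoImplicit false

noncomputable section

namespace Pool.Agent.P.MP_f981b0_an.TC.J

open MeasureTheory Metric Set Real
open scoped ENNReal NNReal

/-- The measure has a density living within `s` of `S`, controlled by the mass of balls. -/
def Atom (s : ℝ) (S : Set ℂ) (μ : Measure ℂ) : Prop :=
  ∃ w : ℂ → ℝ≥0∞, Measurable w ∧ μ = volume.withDensity w ∧
    (∀ z, w z ≠ 0 → ∃ p ∈ S, dist z p < s) ∧
    ∀ z, w z * ENNReal.ofReal (π * s ^ 2) ≤ μ (ball z (2 * s))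

lemma Atom.ae {s : ℝ} {S : Set ℂ} {μ : Measure ℂ} (h : Atom s S μ) :
    ∀ᵐ z ∂μ, ∃ p ∈ S, dist z p < s := by
  obtain ⟨w, hw, rfl, h1, -⟩ := h
  rw [ae_withDensity_iff hw]
  exact Filter.Eventually.of_forall h1

lemma Atom.mono {s : ℝ} {S T : Set ℂ} {μ : Measure ℂ} (h : Atom s S μ) (hST : S ⊆ T) :
    Atom s T μ := by
  obtain ⟨w, hw, e, h1, h2⟩ := h
  refine ⟨w, hw, e, fun z hz => ?_, h2⟩
  obtain ⟨p, hp, h⟩ := h1 z hz
  exact ⟨p, hST hp, h⟩

lemma Atom.zero (s : ℝ) (S : Set ℂ) : Atom s S 0 :=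
  ⟨0, measurable_zero, by simp, by simp, by simp⟩

lemma Atom.add {s : ℝ} {S : Set ℂ} {μ ν : Measure ℂ} (h : Atom s S μ) (h' : Atom s S ν) :
    Atom s S (μ + ν) := by
  obtain ⟨w, hw, e, h1, h2⟩ := h
  obtain ⟨w', hw', e', h1', h2'⟩ := h'
  refine ⟨w + w', hw.add hw', by rw [withDensity_add_left hw, ← e, ← e'], fun z hz => ?_,
    fun z => ?_⟩
  · by_cases h : w z = 0
    · exact h1' z fun h' => hz (by simp [h, h'])
    · exact h1 z h
  · rw [Pi.add_apply, add_mul, Measure.add_apply]
    exact add_le_add (h2 z) (h2' z)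

lemma Atom.sum {ι : Type*} {s : ℝ} {S : Set ℂ} (t : Finset ι) (μ : ι → Measure ℂ)
    (h : ∀ i ∈ t, Atom s S (μ i)) : Atom s S (∑ i ∈ t, μ i) :=
  Finset.sum_induction μ (Atom s S) (fun _ _ => Atom.add) (Atom.zero s S) h

lemma Atom.smul {s : ℝ} {S : Set ℂ} {μ : Measure ℂ} (h : Atom s S μ) (t : ℝ≥0∞) :
    Atom s S (t • μ) := by
  obtain ⟨w, hw, e, h1, h2⟩ := h
  refine ⟨t • w, hw.const_smul t, by rw [withDensity_smul t hw, ← e], fun z hz => ?_,
    fun z => ?_⟩
  · exact h1 z fun h => hz (by simp [h])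
  · rw [Pi.smul_apply, smul_eq_mul, Measure.smul_apply, smul_eq_mul, mul_assoc]
    gcongr
    exact h2 z

/-- A measure near `S` with mass `m`, growth constant `C` and curvature at most `k`. -/
structure JM (s C : ℝ) (S : Set ℂ) (m k : ℝ) (μ : Measure ℂ) : Prop where
  m0 : 0 ≤ m
  k0 : 0 ≤ k
  atom : Atom s S μ
  mass : μ univ = ENNReal.ofReal m
  growth : ∀ z r, 0 < r → μ (ball z r) ≤ ENNReal.ofReal (C * r)
  curv : tri cf μ μ μ ≤ ENNReal.ofReal k

/-- Existence of such a measure. -/
def Has (s C : ℝ) (S : Set ℂ) (m k : ℝ) : Prop := ∃ μ, JM s C S m k μ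

lemma JM.fin {s C : ℝ} {S : Set ℂ} {m k : ℝ} {μ : Measure ℂ} (h : JM s C S m k μ) :
    IsFiniteMeasure μ := ⟨by rw [h.mass]; exact ENNReal.ofReal_lt_top⟩

lemma Has.mono {s C : ℝ} {S T : Set ℂ} {m k k' : ℝ} (h : Has s C S m k) (hST : S ⊆ T)
    (hk : k ≤ k') : Has s C T m k' := by
  obtain ⟨μ, h⟩ := h
  exact ⟨μ, h.m0, h.k0.trans hk, h.atom.mono hST, h.mass, h.growth,
    h.curv.trans (ENNReal.ofReal_le_ofReal hk)⟩

lemma Has.smul {s C : ℝ} {S : Set ℂ} {m k : ℝ} (h : Has s C S m k) {t : ℝ} (ht : 0 ≤ t)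
    (ht1 : t ≤ 1) : Has s C S (t * m) (t ^ 3 * k) := by
  obtain ⟨μ, h⟩ := h
  have := h.m0
  have := h.k0
  refine ⟨ENNReal.ofReal t • μ, by positivity, by positivity, h.atom.smul _, ?_,
    fun z r hr => ?_, ?_⟩
  · rw [Measure.smul_apply, smul_eq_mul, h.mass, ENNReal.ofReal_mul ht]
  · rw [Measure.smul_apply, smul_eq_mul]
    calc ENNReal.ofReal t * μ (ball z r) ≤ 1 * ENNReal.ofReal (C * r) :=
          mul_le_mul' (ENNReal.ofReal_le_one.2 ht1) (h.growth z r hr)
      _ = _ := one_mul _
  · rw [tri_smul _ _ ENNReal.ofReal_ne_top, ENNReal.ofReal_mul (by positivity),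
      ENNReal.ofReal_pow ht]
    gcongr
    exact h.curv

lemma vol_ball (z : ℂ) {r : ℝ} (hr : 0 ≤ r) :
    volume (ball z r) = ENNReal.ofReal (π * r ^ 2) := by
  rw [← R1.area_ball z hr, Measure.real, ENNReal.ofReal_toReal measure_ball_lt_top.ne]

lemma lint_ker (x : ℂ) {r : ℝ} (hr : 0 ≤ r) :
    ∫⁻ y in ball x r, ENNReal.ofReal ‖y - x‖⁻¹ = ENNReal.ofReal (2 * π * r) := by
  rw [← R1.int_self x hr, ofReal_integral_eq_lintegral_ofReal (R1.intOn_self x r)
    (Filter.Eventually.of_forall fun y => by positivity)]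

/-- The uniform measure of mass `m` on a disc of radius `s`. -/
lemma has_disc {s C m : ℝ} (hs : 0 < s) (hm : 0 ≤ m) {K : ℝ} (hK : m ≤ K * s) (hC : K ≤ C)
    (p : ℂ) : Has s C {p} m (64 * K ^ 2 * m) := by
  set a : ℝ := m / (π * s ^ 2) with ha
  have hπ := pi_pos
  have ha0 : 0 ≤ a := by positivity
  have ham : a * (π * s ^ 2) = m := by rw [ha]; field_simp
  have hK0 : 0 ≤ K := by
    by_contra h
    nlinarith [mul_pos (neg_pos.2 (not_le.1 h)) hs]
  set μ : Measure ℂ := ENNReal.ofReal a • volume.restrict (ball p s) with hμ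
  have hmass : μ univ = ENNReal.ofReal m := by
    rw [hμ, Measure.smul_apply, Measure.restrict_apply_univ, smul_eq_mul, vol_ball p hs.le,
      ← ENNReal.ofReal_mul ha0, ham]
  have hae : ∀ᵐ z ∂μ, z ∈ ball p s :=
    Measure.ae_smul_measure (ae_restrict_mem measurableSet_ball) _
  refine ⟨μ, hm, by positivity, ?_, hmass, fun z r hr => ?_, ?_⟩
  · refine ⟨(ball p s).indicator fun _ => ENNReal.ofReal a,
      measurable_const.indicator measurableSet_ball, ?_, fun z hz => ?_, fun z => ?_⟩
    · rw [withDensity_indicator measurableSet_ball, withDensity_const]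
    · exact ⟨p, rfl, mem_ball.1 (mem_of_indicator_ne_zero hz)⟩
    · by_cases hz : z ∈ ball p s
      · rw [indicator_of_mem hz, hμ, Measure.smul_apply, smul_eq_mul,
          Measure.restrict_apply measurableSet_ball, inter_eq_right.2, vol_ball p hs.le]
        intro y hy
        rw [mem_ball] at *
        linarith [dist_triangle_right y z p]
      · rw [indicator_of_notMem hz]; simp
  · rcases le_total r s with h | h
    · calc μ (ball z r) ≤ ENNReal.ofReal a * volume (ball z r) := by
            rw [hμ, Measure.smul_apply, smul_eq_mul]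
            gcongr
            exact Measure.restrict_le_self
        _ ≤ _ := by
            rw [vol_ball z hr.le, ← ENNReal.ofReal_mul ha0]
            apply ENNReal.ofReal_le_ofReal
            have e : a * (π * r ^ 2) = (m / s) * (r / s) * r := by rw [ha]; field_simp
            have e1 : m / s ≤ C := ((div_le_iff₀ hs).2 hK).trans hC
            have e2 : r / s ≤ 1 := (div_le_one hs).2 h
            rw [e]
            gcongr
            calc m / s * (r / s) ≤ C * 1 := by gcongr; linarith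
              _ = C := mul_one _
    · refine (measure_mono (subset_univ _)).trans ?_
      rw [hmass]
      apply ENNReal.ofReal_le_ofReal
      calc m ≤ K * s := hK
        _ ≤ C * r := by gcongr; linarith
  · have hker : ∀ x ∈ ball p s,
        ∫⁻ y, ENNReal.ofReal ‖y - x‖⁻¹ ∂μ ≤ ENNReal.ofReal (4 * K) := by
      intro x hx
      rw [hμ, lintegral_smul_measure, smul_eq_mul]
      calc _ ≤ ENNReal.ofReal a * ∫⁻ y in ball x (2 * s), ENNReal.ofReal ‖y - x‖⁻¹ := by
            gcongr
            intro y hy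
            rw [mem_ball] at *
            linarith [dist_triangle_right y x p]
        _ ≤ _ := by
            rw [lint_ker x (by positivity), ← ENNReal.ofReal_mul ha0]
            apply ENNReal.ofReal_le_ofReal
            have e : a * (2 * π * (2 * s)) = 4 * (m / s) := by rw [ha]; field_simp; ring
            rw [e]
            gcongr
            exact (div_le_iff₀ hs).2 hK
    have h1 : tri cf μ μ μ ≤ tri (fun x y z => ENNReal.ofReal 4 * ENNReal.ofReal ‖y - x‖⁻¹
        * ENNReal.ofReal ‖z - x‖⁻¹) μ μ μ := by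
      refine tri_mono_ae hae hae hae fun x y z _ _ _ => ?_
      rw [← ENNReal.ofReal_mul (by positivity), ← ENNReal.ofReal_mul (by positivity)]
      exact ENNReal.ofReal_le_ofReal (curv_sq_ker x y z)
    refine h1.trans ?_
    unfold tri
    calc _ ≤ ∫⁻ _, ENNReal.ofReal (64 * K ^ 2) ∂μ := by
          refine lintegral_mono_ae (hae.mono fun x hx => ?_)
          calc _ ≤ ∫⁻ y, ENNReal.ofReal 4 * ENNReal.ofReal (4 * K)
                * ENNReal.ofReal ‖y - x‖⁻¹ ∂μ := by
                refine lintegral_mono fun y => ?_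
                rw [lintegral_const_mul' _ _
                  (ENNReal.mul_ne_top ENNReal.ofReal_ne_top ENNReal.ofReal_ne_top),
                  mul_right_comm]
                gcongr
                exact hker x hx
            _ ≤ ENNReal.ofReal 4 * ENNReal.ofReal (4 * K) * ENNReal.ofReal (4 * K) := by
                rw [lintegral_const_mul' _ _
                  (ENNReal.mul_ne_top ENNReal.ofReal_ne_top ENNReal.ofReal_ne_top)]
                gcongr
                exact hker x hx
            _ = _ := by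
                rw [← ENNReal.ofReal_mul (by positivity), ← ENNReal.ofReal_mul (by positivity)]
                congr 1; ring
      _ = _ := by
          rw [lintegral_const, hmass, ← ENNReal.ofReal_mul (by positivity)]

lemma tri_sum_le {α ι : Type*} [MeasurableSpace α] (t : Finset ι) (μ : ι → Measure α)
    [∀ i, SFinite (μ i)] {f : α → α → α → ℝ≥0∞} (hf : M3 f) (B : ι → ι → ι → ℝ≥0∞)
    (h : ∀ i ∈ t, ∀ j ∈ t, ∀ k ∈ t, ¬(i = j ∧ j = k) → tri f (μ i) (μ j) (μ k) ≤ B i j k) :
    tri f (∑ i ∈ t, μ i) (∑ i ∈ t, μ i) (∑ i ∈ t, μ i)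
      ≤ ∑ i ∈ t, tri f (μ i) (μ i) (μ i) + ∑ i ∈ t, ∑ j ∈ t, ∑ k ∈ t, B i j k := by
  classical
  rw [tri_sum t μ hf, ← Finset.sum_add_distrib]
  refine Finset.sum_le_sum fun i hi => ?_
  have e : tri f (μ i) (μ i) (μ i) = ∑ j ∈ t, ∑ k ∈ t,
      if i = j then (if i = k then tri f (μ i) (μ i) (μ i) else 0) else 0 := by
    simp [hi]
  rw [e, ← Finset.sum_add_distrib]
  refine Finset.sum_le_sum fun j hj => ?_
  rw [← Finset.sum_add_distrib]
  refine Finset.sum_le_sum fun k hk => ?_
  by_cases h1 : i = j ∧ j = k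
  · obtain ⟨rfl, rfl⟩ := h1
    simp
  · exact (h i hi j hj k hk h1).trans le_add_self

lemma exists_of_ball {μ : Measure ℂ} {P : ℂ → Prop} (hP : ∀ᵐ z ∂μ, P z) {U : Set ℂ}
    (h : μ U ≠ 0) : ∃ z ∈ U, P z :=
  Measure.exists_mem_of_measure_ne_zero_of_ae h (ae_restrict_of_ae hP)

/-- Two measures living on separated sets. -/
lemma Has.two {s C : ℝ} {S1 S2 : Set ℂ} {m1 m2 k1 k2 d : ℝ} (h1 : Has s C S1 m1 k1)
    (h2 : Has s C S2 m2 k2) (hd : 0 < d) (hsep : ∀ p ∈ S1, ∀ q ∈ S2, d + 2 * s ≤ dist p q)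
    (hC : 2 * (m1 + m2) ≤ C * d) :
    Has s C (S1 ∪ S2) (m1 + m2) (k1 + k2 + 32 * (m1 + m2) ^ 3 / d ^ 2) := by
  obtain ⟨μ1, h1⟩ := h1
  obtain ⟨μ2, h2⟩ := h2
  have := h1.fin
  have := h2.fin
  have m1p := h1.m0
  have m2p := h2.m0
  have k1p := h1.k0
  have k2p := h2.k0
  have hC0 : 0 ≤ C := by
    by_contra h
    nlinarith [mul_pos (neg_pos.2 (not_le.1 h)) hd]
  have key : ∀ x y : ℂ, (∃ p ∈ S1, dist x p < s) → (∃ p ∈ S2, dist y p < s) → d ≤ ‖x - y‖ := by
    rintro x y ⟨p, hp, hx⟩ ⟨q, hq, hy⟩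
    have e1 := hsep p hp q hq
    have e2 := dist_triangle4 p x y q
    rw [dist_comm p x, dist_eq_norm x y] at e2
    linarith
  have hmass : (μ1 + μ2) univ = ENNReal.ofReal (m1 + m2) := by
    rw [Measure.add_apply, h1.mass, h2.mass, ENNReal.ofReal_add m1p m2p]
  refine ⟨μ1 + μ2, by positivity, by positivity,
    (h1.atom.mono subset_union_left).add (h2.atom.mono subset_union_right), hmass,
    fun z r hr => ?_, ?_⟩
  · by_cases e1 : μ1 (ball z r) = 0
    · rw [Measure.add_apply, e1, zero_add]; exact h2.growth z r hr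
    by_cases e2 : μ2 (ball z r) = 0
    · rw [Measure.add_apply, e2, add_zero]; exact h1.growth z r hr
    obtain ⟨x, hx, hx'⟩ := exists_of_ball h1.atom.ae e1
    obtain ⟨y, hy, hy'⟩ := exists_of_ball h2.atom.ae e2
    have e3 := key x y hx' hy'
    have e4 := dist_triangle_right x y z
    rw [mem_ball] at hx hy
    rw [dist_eq_norm x y] at e4
    refine (measure_mono (subset_univ _)).trans ?_
    rw [hmass]
    apply ENNReal.ofReal_le_ofReal
    have : C * d ≤ C * (2 * r) := by gcongr; linarith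
    linarith
  · let ν : Bool → Measure ℂ := fun b => bif b then μ1 else μ2
    let P : Bool → ℂ → Prop := fun b x => ∃ p ∈ (bif b then S1 else S2), dist x p < s
    have hν : ∀ b, SFinite (ν b) := fun b => by cases b <;> simp only [ν, cond] <;> infer_instance
    have hP : ∀ b, ∀ᵐ x ∂ν b, P b x := fun b => by
      cases b
      · exact h2.atom.ae
      · exact h1.atom.ae
    have hm : ∀ b, ν b univ ≤ ENNReal.ofReal (m1 + m2) := fun b => by
      cases b
      · exact h2.mass.le.trans (ENNReal.ofReal_le_ofReal (by linarith))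
      · exact h1.mass.le.trans (ENNReal.ofReal_le_ofReal (by linarith))
    have key' : ∀ b b' x y, b ≠ b' → P b x → P b' y → d ≤ ‖x - y‖ := by
      intro b b' x y hb hx hy
      cases b <;> cases b'
      · exact absurd rfl hb
      · rw [norm_sub_rev]; exact key y x hy hx
      · exact key x y hx hy
      · exact absurd rfl hb
    have e : μ1 + μ2 = ∑ b, ν b := by simp [ν]
    have h3 := tri_sum_le Finset.univ ν m3_cf
      (fun _ _ _ => ENNReal.ofReal (4 * (m1 + m2) ^ 3 / d ^ 2)) (by
        intro i _ j _ k _ hijk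
        refine (tri_le_const (hP i) (hP j) (hP k) (B := ENNReal.ofReal (4 / d ^ 2))
          fun x y z hx hy hz => ?_).trans ?_
        · refine ENNReal.ofReal_le_ofReal (curv_sq_sep hd ?_)
          by_cases hij : i = j
          · exact Or.inr (Or.inl (key' j k y z (fun h => hijk ⟨hij, h⟩) hy hz))
          · exact Or.inl (key' i j x y hij hx hy)
        · calc _ ≤ ENNReal.ofReal (4 / d ^ 2) * (ENNReal.ofReal (m1 + m2)
                * ENNReal.ofReal (m1 + m2) * ENNReal.ofReal (m1 + m2)) := by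
                gcongr
                exacts [hm i, hm j, hm k]
            _ = _ := by
                rw [← ENNReal.ofReal_mul (by positivity), ← ENNReal.ofReal_mul (by positivity),
                  ← ENNReal.ofReal_mul (by positivity)]
                congr 1; ring)
    rw [e]
    refine h3.trans ?_
    rw [ENNReal.ofReal_add (by positivity) (by positivity), ENNReal.ofReal_add k1p k2p]
    refine add_le_add ?_ ?_
    · rw [Fintype.sum_bool]
      exact add_le_add h1.curv h2.curv
    · simp only [Fintype.sum_bool]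
      rw [← ENNReal.ofReal_add (by positivity) (by positivity),
        ← ENNReal.ofReal_add (by positivity) (by positivity),
        ← ENNReal.ofReal_add (by positivity) (by positivity)]
      apply le_of_eq
      congr 1; ring

end Pool.Agent.P.MP_f981b0_an.TC.J
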