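import Pool.Agent.P.MP_f981b0_an.TC.JTri

set_option autoImplicit false

noncomputable section

namespace Pool.Agent.P.MP_f981b0_an.TC.J

open Set
open scoped NNReal

lemma first_hit {X : ℝ → ℝ} (hX : Continuous X) {a b β : ℝ} (hab : a ≤ b) (ha : X a ≤ β)
    (hb : β ≤ X b) : ∃ b' ∈ Icc a b, X b' = β ∧ ∀ t ∈ Icc a b', X t ≤ β := by
  have hK : IsCompact (Icc a b ∩ {t | β ≤ X t}) :=
    isCompact_Icc.inter_right (isClosed_le continuous_const hX)
  obtain ⟨b', ⟨hb1, hb2⟩, hmin⟩ := hK.exists_isLeast ⟨b, ⟨hab, le_rfl⟩, hb⟩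
  obtain ⟨t0, ht0, e⟩ := intermediate_value_Icc hb1.1 hX.continuousOn ⟨ha, hb2⟩
  have h1 : b' ≤ t0 := hmin ⟨⟨ht0.1, ht0.2.trans hb1.2⟩, e.ge⟩
  have h2 : X b' = β := by rw [← e, le_antisymm ht0.2 h1]
  refine ⟨b', hb1, h2, fun t ht => ?_⟩
  by_contra h
  have h3 : b' ≤ t := hmin ⟨⟨ht.1, ht.2.trans hb1.2⟩, (not_le.1 h).le⟩
  rw [le_antisymm ht.2 h3, h2] at h
  exact h le_rfl

lemma last_hit {X : ℝ → ℝ} (hX : Continuous X) {a b α : ℝ} (hab : a ≤ b) (ha : X a ≤ α)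
    (hb : α ≤ X b) : ∃ a' ∈ Icc a b, X a' = α ∧ ∀ t ∈ Icc a' b, α ≤ X t := by
  obtain ⟨c, hc, e, h⟩ := first_hit (X := fun t => -X (-t)) (by fun_prop) (a := -b) (b := -a)
    (β := -α) (by linarith) (by simpa using hb) (by simpa using ha)
  refine ⟨-c, ⟨by linarith [hc.2], by linarith [hc.1]⟩, by linarith, fun t ht => ?_⟩
  have := h (-t) ⟨by linarith [ht.2], by linarith [ht.1]⟩
  simpa using this

lemma sub_cross {X : ℝ → ℝ} (hX : Continuous X) {a b α β : ℝ} (hab : a ≤ b) (ha : X a ≤ α)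
    (hαβ : α ≤ β) (hb : β ≤ X b) : ∃ a' b', a ≤ a' ∧ a' ≤ b' ∧ b' ≤ b ∧ X a' = α ∧ X b' = β ∧
      ∀ t ∈ Icc a' b', α ≤ X t ∧ X t ≤ β := by
  obtain ⟨b', hb', e, h⟩ := first_hit hX hab (ha.trans hαβ) hb
  obtain ⟨a', ha', e', h'⟩ := last_hit hX hb'.1 ha (e ▸ hαβ)
  exact ⟨a', b', ha'.1, ha'.2, hb'.2, e', e, fun t ht =>
    ⟨h' t ht, h t ⟨ha'.1.trans ht.1, ht.2⟩⟩⟩

/-- A piece of the path that crosses a square of side `w` in the direction given by `e`. -/
structure Node (γ : ℝ → ℂ) (a b : ℝ) (e : ℂ) (x0 w : ℝ) : Prop where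
  ab : a ≤ b
  he : ‖e‖ = 1
  xa : (e * γ a).re = x0
  xb : (e * γ b).re = x0 + w
  yosc : ∀ t ∈ Icc a b, ∀ t' ∈ Icc a b, |(e * γ t).im - (e * γ t').im| ≤ w

lemma node_of_cross {γ : ℝ → ℂ} (hγ : Continuous γ) {a b w : ℝ} {e : ℂ} (he : ‖e‖ = 1)
    (hab : a ≤ b) (hw : 0 ≤ w) (h : (e * γ a).re + w ≤ (e * γ b).re)
    (hy : ∀ t ∈ Icc a b, ∀ t' ∈ Icc a b, |(e * γ t).im - (e * γ t').im| ≤ w) :
    ∃ a' b' e' x0, a ≤ a' ∧ b' ≤ b ∧ Node γ a' b' e' x0 w := by
  obtain ⟨a', b', h1, h2, h3, h4, h5, -⟩ := sub_cross (X := fun t => (e * γ t).re) (by fun_prop)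
    hab le_rfl (le_add_of_nonneg_right hw) h
  exact ⟨a', b', e, _, h1, h3, h2, he, h4, h5, fun t ht t' ht' =>
    hy t ⟨h1.trans ht.1, ht.2.trans h3⟩ t' ⟨h1.trans ht'.1, ht'.2.trans h3⟩⟩

lemma exists_node_le {γ : ℝ → ℂ} (hγ : Continuous γ) {a b w : ℝ} (hab : a ≤ b) (hw : 0 ≤ w)
    (h : w ≤ ‖γ b - γ a‖) : ∃ a' b' e' x0, a ≤ a' ∧ b' ≤ b ∧ Node γ a' b' e' x0 w := by
  obtain ⟨e, he, he'⟩ := Complex.exists_norm_eq_mul_self (γ b - γ a)
  have h1 : (e * γ a).re + w ≤ (e * γ b).re := by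
    have := congrArg Complex.re he'
    rw [Complex.ofReal_re, mul_sub, Complex.sub_re] at this
    linarith
  obtain ⟨a', b', h1, h2, h3, h4, h5, h6⟩ := sub_cross (X := fun t => (e * γ t).re) (by fun_prop)
    hab le_rfl (le_add_of_nonneg_right hw) h1
  by_cases hy : ∀ t ∈ Icc a' b', ∀ t' ∈ Icc a' b', |(e * γ t).im - (e * γ t').im| ≤ w
  · exact ⟨a', b', e, _, h1, h3, h2, he, h4, h5, hy⟩
  push Not at hy
  obtain ⟨t, ht, t', ht', hy⟩ := hy
  wlog htt : t ≤ t' generalizing t t'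
  · exact this t' ht' t ht (by rwa [abs_sub_comm]) (not_le.1 htt).le
  have hx : ∀ u ∈ Icc t t', ∀ u' ∈ Icc t t', |(e * γ u).re - (e * γ u').re| ≤ w := by
    intro u hu u' hu'
    have e1 := h6 u ⟨ht.1.trans hu.1, hu.2.trans ht'.2⟩
    have e2 := h6 u' ⟨ht.1.trans hu'.1, hu'.2.trans ht'.2⟩
    exact abs_le.2 ⟨by linarith [e1.1, e2.2], by linarith [e1.2, e2.1]⟩
  have key : ∃ a'' b'' e' x0, t ≤ a'' ∧ b'' ≤ t' ∧ Node γ a'' b'' e' x0 w := by
    rcases lt_abs.1 hy with hy | hy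
    · refine node_of_cross hγ (e := Complex.I * e) (by simp [he]) htt hw ?_ fun u hu u' hu' => ?_
      · simp only [mul_assoc, Complex.I_mul_re]; linarith
      · simp only [mul_assoc, Complex.I_mul_im]; exact hx u hu u' hu'
    · refine node_of_cross hγ (e := -(Complex.I * e)) (by simp [he]) htt hw ?_
        fun u hu u' hu' => ?_
      · simp only [neg_mul, mul_assoc, Complex.neg_re, Complex.I_mul_re]; linarith
      · simp only [neg_mul, mul_assoc, Complex.neg_im, Complex.I_mul_im]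
        rw [neg_sub_neg]; exact hx u' hu' u hu
  obtain ⟨a'', b'', e', x0, k1, k2, k3⟩ := key
  exact ⟨a'', b'', e', x0, by linarith [ht.1], by linarith [ht'.2], k3⟩

lemma exists_node {γ : ℝ → ℂ} (hγ : Continuous γ) {a b w t t' : ℝ} (ht : t ∈ Icc a b)
    (ht' : t' ∈ Icc a b) (hw : 0 ≤ w) (h : w ≤ ‖γ t - γ t'‖) :
    ∃ a' b' e' x0, a ≤ a' ∧ b' ≤ b ∧ Node γ a' b' e' x0 w := by
  wlog htt : t' ≤ t generalizing t t'
  · exact this ht' ht (by rwa [norm_sub_rev]) (not_le.1 htt).le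
  obtain ⟨a', b', e', x0, k1, k2, k3⟩ := exists_node_le hγ htt hw h
  exact ⟨a', b', e', x0, by linarith [ht'.1], by linarith [ht.2], k3⟩

/-- McShane extension for finitely many points. -/
lemma exists_lip {ι : Type*} (t : Finset ι) (x y : ι → ℝ) (L : ℝ≥0)
    (h : ∀ i ∈ t, ∀ j ∈ t, |y i - y j| ≤ L * |x i - x j|) :
    ∃ A : ℝ → ℝ, LipschitzWith L A ∧ ∀ i ∈ t, A (x i) = y i := by
  classical
  let f : ℝ → ℝ := fun u => if h : ∃ i ∈ t, x i = u then y h.choose else 0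
  have hf : ∀ i ∈ t, f (x i) = y i := by
    intro i hi
    have h1 : ∃ j ∈ t, x j = x i := ⟨i, hi, rfl⟩
    have h2 := h _ h1.choose_spec.1 i hi
    rw [h1.choose_spec.2, sub_self, abs_zero, mul_zero, abs_nonpos_iff, sub_eq_zero] at h2
    simp only [f, dif_pos h1, h2]
  have hl : LipschitzOnWith L f (x '' t) := by
    refine LipschitzOnWith.of_dist_le_mul ?_
    rintro _ ⟨i, hi, rfl⟩ _ ⟨j, hj, rfl⟩
    rw [hf i hi, hf j hj, Real.dist_eq, Real.dist_eq]
    exact h i hi j hj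
  obtain ⟨A, hA, hAf⟩ := hl.extend_real
  exact ⟨A, hA, fun i hi => (hAf ⟨i, hi, rfl⟩).symm.trans (hf i hi)⟩

/-- Left end of the gap with index `o`. -/
def gapL {ι : Type*} (a : ℝ) (c R : ι → ℝ) : Option ι → ℝ
  | none => a
  | some l => c l + R l

/-- The gaps left in `[a, b]` by finitely many disjoint closed intervals. -/
lemma exists_gaps {ι : Type*} (t : Finset ι) (c R : ι → ℝ) {a b : ℝ} (hab : a ≤ b)
    (hR : ∀ i ∈ t, 0 < R i) (hsep : ∀ i ∈ t, ∀ j ∈ t, i ≠ j → R i + R j ≤ |c i - c j|)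
    (ha : ∀ i ∈ t, a ≤ c i - R i) (hb : ∀ i ∈ t, c i + R i ≤ b) :
    ∃ v : Option ι → ℝ,
      (∀ o ∈ t.insertNone, a ≤ gapL a c R o ∧ gapL a c R o ≤ v o ∧ v o ≤ b) ∧
      (∀ o ∈ t.insertNone, ∀ k ∈ t, c k + R k ≤ gapL a c R o ∨ v o ≤ c k - R k) ∧
      (∀ o ∈ t.insertNone, ∀ o' ∈ t.insertNone, o ≠ o' →
        v o ≤ gapL a c R o' ∨ v o' ≤ gapL a c R o) ∧
      b - a ≤ ∑ k ∈ t, 2 * R k + ∑ o ∈ t.insertNone, (v o - gapL a c R o) := by
  classical
  set u := gapL a c R with hu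
  have un : u none = a := rfl
  have us : ∀ l, u (some l) = c l + R l := fun _ => rfl
  have hv : ∀ o, ∃ v : ℝ, v ≤ b ∧ (∀ k ∈ t, u o ≤ c k - R k → v ≤ c k - R k) ∧
      (v = b ∨ ∃ k ∈ t, u o ≤ c k - R k ∧ v = c k - R k) := by
    intro o
    rcases (t.filter fun k => u o ≤ c k - R k).eq_empty_or_nonempty with h | h
    · refine ⟨b, le_rfl, fun k hk h' => ?_, Or.inl rfl⟩
      have : k ∈ t.filter fun k => u o ≤ c k - R k := Finset.mem_filter.2 ⟨hk, h'⟩
      rw [h] at this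
      exact absurd this (Finset.notMem_empty _)
    · obtain ⟨k, hk, hmin⟩ := Finset.exists_min_image _ (fun k => c k - R k) h
      obtain ⟨hk1, hk2⟩ := Finset.mem_filter.1 hk
      exact ⟨c k - R k, by linarith [hb k hk1, hR k hk1],
        fun j hj h' => hmin j (Finset.mem_filter.2 ⟨hj, h'⟩), Or.inr ⟨k, hk1, hk2, rfl⟩⟩
  choose v hv1 hv2 hv3 using hv
  have hub : ∀ o ∈ t.insertNone, a ≤ u o ∧ u o ≤ b := by
    rintro (_ | l) ho
    · exact ⟨le_rfl, hab⟩
    · have hl := Finset.some_mem_insertNone.1 ho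
      rw [us]
      exact ⟨by linarith [ha l hl, hR l hl], hb l hl⟩
  have p1 : ∀ o ∈ t.insertNone, a ≤ u o ∧ u o ≤ v o ∧ v o ≤ b := by
    intro o ho
    refine ⟨(hub o ho).1, ?_, hv1 o⟩
    rcases hv3 o with h | ⟨k, _, h1, h2⟩
    · rw [h]; exact (hub o ho).2
    · rw [h2]; exact h1
  have p2 : ∀ o ∈ t.insertNone, ∀ k ∈ t, c k + R k ≤ u o ∨ v o ≤ c k - R k := by
    intro o ho k hk
    by_cases h : u o ≤ c k - R k
    · exact Or.inr (hv2 o k hk h)
    left
    rcases o with _ | l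
    · exact absurd (ha k hk) h
    · have hl := Finset.some_mem_insertNone.1 ho
      rw [us] at h ⊢
      by_cases hkl : k = l
      · rw [hkl]
      · rcases sep_of_abs (hsep k hk l hl hkl) with h' | h'
        · linarith [hR l hl]
        · exact absurd h' h
  refine ⟨v, p1, p2, ?_, ?_⟩
  · intro o ho o' ho' hne
    wlog hle : u o ≤ u o' generalizing o o'
    · exact (this o' ho' o ho hne.symm (not_le.1 hle).le).symm
    left
    rcases o' with _ | k
    · rcases o with _ | l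
      · exact absurd rfl hne
      · have hl := Finset.some_mem_insertNone.1 ho
        rw [us, un] at hle
        linarith [ha l hl, hR l hl]
    · have hk := Finset.some_mem_insertNone.1 ho'
      rcases p2 o ho k hk with h | h
      · rcases o with _ | l
        · rw [un] at h
          linarith [ha k hk, hR k hk]
        · have hl := Finset.some_mem_insertNone.1 ho
          rw [us, us] at hle
          rw [us] at h
          rcases sep_of_abs (hsep k hk l hl fun h => hne (by rw [h])) with h' | h'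
          · linarith [hR l hl]
          · linarith [hR k hk]
      · rw [us]; linarith [hR k hk]
  · have := len_le ({()} : Finset Unit) (t.disjSum t.insertNone) (fun _ => a) (fun _ => b)
      (Sum.elim (fun k => c k - R k) u) (Sum.elim (fun k => c k + R k) v) (fun _ _ => hab)
      (by
        rintro (k | o) h
        · have := hR k (Finset.inl_mem_disjSum.1 h)
          simp only [Sum.elim_inl]; linarith
        · exact (p1 o (Finset.inr_mem_disjSum.1 h)).2.1)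
      (by simp)
      (by
        intro _ _ x hx1 hx2
        obtain ⟨o, ho, hmax⟩ := Finset.exists_max_image (t.insertNone.filter fun o => u o ≤ x) u
          ⟨none, Finset.mem_filter.2 ⟨Finset.none_mem_insertNone, hx1.le⟩⟩
        obtain ⟨ho1, ho2⟩ := Finset.mem_filter.1 ho
        by_cases hxv : x ≤ v o
        · exact ⟨Sum.inr o, Finset.inr_mem_disjSum.2 ho1, ho2, hxv⟩
        rcases hv3 o with h | ⟨k, hk, h1, h2⟩
        · exact absurd (h ▸ hx2.le) hxv
        · refine ⟨Sum.inl k, Finset.inl_mem_disjSum.2 hk, ?_, ?_⟩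
          · simp only [Sum.elim_inl]; linarith [not_le.1 hxv]
          · simp only [Sum.elim_inl]
            by_contra h
            have := hmax (some k) (Finset.mem_filter.2
              ⟨Finset.some_mem_insertNone.2 hk, (not_le.1 h).le⟩)
            rw [us] at this
            linarith [hR k hk])
    rw [Finset.sum_disjSum, Finset.sum_singleton] at this
    simp only [Sum.elim_inl, Sum.elim_inr] at this
    refine this.trans (le_of_eq ?_)
    congr 1
    exact Finset.sum_congr rfl fun k _ => by ring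

end Pool.Agent.P.MP_f981b0_an.TC.J
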