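import Pool.Agent.P.MP_f981b0_an.TC.JClus
import Pool.Agent.P.MP_f981b0_an.TC.JPath

set_option autoImplicit false

noncomputable section

namespace Pool.Agent.P.MP_f981b0_an.TC.J

open MeasureTheory Metric Set Real
open scoped ENNReal NNReal

/-- The statement proved by induction on the width `W`. -/
def Ind (γ : ℝ → ℂ) (s C C2 W : ℝ) : Prop :=
  ∀ w, 0 ≤ w → w ≤ W → ∀ a b t t', t ∈ Icc a b → t' ∈ Icc a b → w ≤ ‖γ t - γ t'‖ →
    Has s C (γ '' Icc a b) w (C2 * w)

/-- The path oscillates by at most `100 ρ` over the interval of centre `x` and radius `ρ`. -/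
def Flat (γ : ℝ → ℂ) (a b : ℝ) (e : ℂ) (x ρ : ℝ) : Prop :=
  ∀ t ∈ Icc a b, ∀ t' ∈ Icc a b, |(e * γ t).re - x| ≤ ρ → |(e * γ t').re - x| ≤ ρ →
    |(e * γ t).im - (e * γ t').im| ≤ 100 * ρ

/-- The points of the path over the interval of centre `x` and radius `R`. -/
def strip (γ : ℝ → ℂ) (a b : ℝ) (e : ℂ) (x R : ℝ) : Set ℂ :=
  {p | p ∈ γ '' Icc a b ∧ |(e * p).re - x| ≤ R}

lemma strip_sub {γ : ℝ → ℂ} {a b : ℝ} {e : ℂ} {x R c d : ℝ} (hc : a ≤ c) (hd : d ≤ b)
    (h : ∀ t ∈ Icc c d, |(e * γ t).re - x| ≤ R) : γ '' Icc c d ⊆ strip γ a b e x R := by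
  rintro _ ⟨t, ht, rfl⟩
  exact ⟨⟨t, ⟨hc.trans ht.1, ht.2.trans hd⟩, rfl⟩, h t ht⟩

lemma re_le_norm {e : ℂ} (he : ‖e‖ = 1) (p q : ℂ) : |(e * p).re - (e * q).re| ≤ ‖p - q‖ := by
  rw [← dist_eq_norm]; exact re_mul_sub he p q

/-- Over a place where the path is not flat one finds more length than the width. -/
lemma gain {γ : ℝ → ℂ} (hγ : Continuous γ) {a b x0 w s C C2 W x ρ : ℝ} {e : ℂ}
    (hN : Node γ a b e x0 w) (hs : 0 < s) (hC : 1 ≤ C) (hρ : 4000 * s ≤ ρ)
    (h1 : x0 ≤ x - 3 * ρ) (h2 : x + 3 * ρ ≤ x0 + w) (hbad : ¬ Flat γ a b e x ρ)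
    (hQ : Ind γ s C C2 W) (hW : 77 / 10 * ρ ≤ W) :
    Has s C (strip γ a b e x (29 / 10 * ρ)) (77 / 10 * ρ) ((C2 + 3) * (77 / 10 * ρ)) := by
  have hρ0 : 0 < ρ := by linarith
  have hX : Continuous fun t => (e * γ t).re := by fun_prop
  obtain ⟨c0, d0, k1, k2, k3, k4, k5, k6⟩ := sub_cross hX hN.ab (α := x - 29 / 10 * ρ)
    (β := x + 29 / 10 * ρ) (by rw [hN.xa]; linarith) (by linarith) (by rw [hN.xb]; linarith)
  have sub1 : γ '' Icc c0 d0 ⊆ strip γ a b e x (29 / 10 * ρ) := strip_sub k1 k3 fun t ht =>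
    abs_le.2 ⟨by linarith [(k6 t ht).1], by linarith [(k6 t ht).2]⟩
  have : ∃ t ∈ Icc a b, |(e * γ t).re - x| ≤ ρ ∧ 50 * ρ < |(e * γ t).im - (e * γ c0).im| := by
    by_contra h
    push Not at h
    refine hbad fun t ht t' ht' e1 e2 => ?_
    have e3 := h t ht e1
    have e4 := h t' ht' e2
    have e5 := abs_sub_le (e * γ t).im (e * γ c0).im (e * γ t').im
    rw [abs_sub_comm] at e4
    linarith
  obtain ⟨t, ht, l1, l2⟩ := this
  obtain ⟨t', ht', l3, l4⟩ := first_hit (X := fun u => |(e * γ u).re - x|) (by fun_prop) ht.2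
    (β := 29 / 10 * ρ) (by linarith) (by
      rw [hN.xb]; exact le_trans (by linarith) (le_abs_self _))
  have sub2 : γ '' Icc t t' ⊆ strip γ a b e x (29 / 10 * ρ) := strip_sub ht.1 ht'.2 l4
  by_cases c1 : ∃ u ∈ Icc c0 d0, 77 / 10 * ρ ≤ ‖γ u - γ c0‖
  · obtain ⟨u, hu, h⟩ := c1
    exact (hQ _ (by positivity) hW c0 d0 u c0 hu ⟨le_rfl, k2⟩ h).mono sub1 (by linarith)
  by_cases c2 : ∃ u ∈ Icc t t', 77 / 10 * ρ ≤ ‖γ u - γ t‖
  · obtain ⟨u, hu, h⟩ := c2
    exact (hQ _ (by positivity) hW t t' u t hu ⟨le_rfl, ht'.1⟩ h).mono sub2 (by linarith)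
  push Not at c1 c2
  have m1 := hQ (58 / 10 * ρ) (by positivity) (by linarith) c0 d0 d0 c0 ⟨k2, le_rfl⟩ ⟨le_rfl, k2⟩
    (by
      refine le_trans ?_ (re_le_norm hN.he _ _)
      rw [k4, k5]
      exact le_trans (by linarith) (le_abs_self _))
  have m2 := hQ (19 / 10 * ρ) (by positivity) (by linarith) t t' t' t ⟨ht'.1, le_rfl⟩
    ⟨le_rfl, ht'.1⟩ (by
      refine le_trans ?_ (re_le_norm hN.he _ _)
      have := abs_sub_le (e * γ t').re (e * γ t).re x
      linarith)
  have m3 := m1.two m2 (d := 30 * ρ) (by positivity) (by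
    rintro _ ⟨u, hu, rfl⟩ _ ⟨u', hu', rfl⟩
    have e1 := c1 u hu
    have e2 := c2 u' hu'
    have e3 := im_mul_sub hN.he (γ t) (γ c0)
    have e4 := dist_triangle4 (γ t) (γ u') (γ u) (γ c0)
    rw [← dist_eq_norm] at e1 e2
    rw [dist_comm (γ t) (γ u'), dist_comm (γ u') (γ u)] at e4
    linarith) (by nlinarith)
  rw [show 58 / 10 * ρ + 19 / 10 * ρ = 77 / 10 * ρ by ring] at m3
  refine m3.mono (union_subset sub1 sub2) ?_
  have : 32 * (77 / 10 * ρ) ^ 3 / (30 * ρ) ^ 2 = 32 * (77 / 10) ^ 3 / 30 ^ 2 * ρ := by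
    field_simp
  rw [this]
  linarith

lemma Node.ivt {γ : ℝ → ℂ} (hγ : Continuous γ) {a b x0 w x : ℝ} {e : ℂ}
    (hN : Node γ a b e x0 w) (h1 : x0 ≤ x) (h2 : x ≤ x0 + w) :
    ∃ t ∈ Icc a b, (e * γ t).re = x :=
  intermediate_value_Icc hN.ab (f := fun t => (e * γ t).re) (by fun_prop)
    ⟨by rw [hN.xa]; exact h1, by rw [hN.xb]; exact h2⟩

/-- The constant of the cluster lemma for the parameters used here. -/
def Cx : ℝ := clusC (1 / 200) 80001 10 (100 : ℝ≥0)

lemma Cx_nonneg : 0 ≤ Cx := clusC_nonneg (by norm_num)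

/-- Many flat places: small discs along a Lipschitz graph. -/
lemma flat_case {ι : Type*} (t : Finset ι) (x : ι → ℝ) {γ : ℝ → ℂ} (hγ : Continuous γ)
    {a b x0 w s C : ℝ} {e : ℂ} (hN : Node γ a b e x0 w) (hs : 0 < s) (hC : 80000 ≤ C)
    (hw : 0 < w) (hsep : ∀ i ∈ t, ∀ j ∈ t, i ≠ j → 4000 * s ≤ |x i - x j|)
    (ha : ∀ i ∈ t, x0 ≤ x i - 2000 * s) (hb : ∀ i ∈ t, x i + 2000 * s ≤ x0 + w)
    (hflat : ∀ i ∈ t, ∀ ρ, 4000 * s ≤ ρ → Flat γ a b e (x i) ρ)
    (hcard : w ≤ 20000 * s * t.card) :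
    Has s C (γ '' Icc a b) w ((64 * 80000 ^ 2 + Cx) * w) := by
  have hτ : ∀ i ∈ t, ∃ u ∈ Icc a b, (e * γ u).re = x i := fun i hi =>
    hN.ivt hγ (by linarith [ha i hi]) (by linarith [hb i hi])
  choose! τ hτ1 hτ2 using hτ
  have hn : (0 : ℝ) < t.card := by
    by_contra h
    nlinarith [mul_nonneg hs.le (neg_nonneg.2 (not_lt.1 h))]
  obtain ⟨A, hA, hAx⟩ := exists_lip t x (fun i => (e * γ (τ i)).im) 100 (by
    intro i hi j hj
    by_cases hij : i = j
    · simp [hij]
    · exact hflat i hi _ (hsep i hi j hj hij) _ (hτ1 i hi) _ (hτ1 j hj)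
        (by rw [hτ2 i hi]; simp) (by rw [hτ2 j hj, abs_sub_comm]))
  have hm : w / t.card ≤ 20000 * s := (div_le_iff₀ hn).2 hcard
  have := cluster t hA (η := 1 / 200) (M := 80001) (κ := 10) (by norm_num) (by norm_num)
    (by norm_num) (by norm_num) hN.he x (fun _ => 2000 * s) (fun _ => w / t.card)
    (fun _ => 64 * 80000 ^ 2 * (w / t.card)) (fun i => {γ (τ i)}) (T := γ '' Icc a b) (s := s)
    (C := C) hw.le (by linarith) (fun _ _ => by positivity)
    (fun i hi j hj hij => by linarith [hsep i hi j hj hij]) ha hb (fun _ _ => by linarith)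
    (fun i hi => singleton_subset_iff.2 ⟨τ i, hτ1 i hi, rfl⟩)
    (by
      rintro i hi _ rfl z hz
      have e1 := re_mul_sub hN.he z (γ (τ i))
      have e2 := im_mul_sub hN.he z (γ (τ i))
      rw [hτ2 i hi] at e1
      refine ⟨by linarith, ?_⟩
      rw [hAx i hi]
      linarith)
    (fun i _ => has_disc hs (by positivity) (by linarith) hC _)
  simp only [Finset.sum_const, nsmul_eq_mul] at this
  rw [mul_div_cancel₀ _ hn.ne'] at this
  refine this.mono Subset.rfl (le_of_eq ?_)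
  rw [Cx]
  field_simp

lemma abs_of_sep {c r c' r' : ℝ} (h : c + r ≤ c' - r' ∨ c' + r' ≤ c - r) : r + r' ≤ |c - c'| := by
  rcases h with h | h
  · exact le_abs.2 (Or.inr (by linarith))
  · exact le_abs.2 (Or.inl (by linarith))

/-- Many places that are not flat: recursion with a gain of length. -/
lemma step_case {ι : Type*} (t : Finset ι) (x ρ : ι → ℝ) {γ : ℝ → ℂ} (hγ : Continuous γ)
    {a b x0 w s C C2 W : ℝ} {e : ℂ} (hN : Node γ a b e x0 w) (hs : 0 < s) (hC : 80000 ≤ C)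
    (hC2 : 51 * (3 + Cx) ≤ C2) (hw : 80000 * s ≤ w) (hρ : ∀ i ∈ t, 4000 * s ≤ ρ i)
    (hsep : ∀ i ∈ t, ∀ j ∈ t, i ≠ j → 3 * ρ i + 3 * ρ j ≤ |x i - x j|)
    (ha : ∀ i ∈ t, x0 ≤ x i - 3 * ρ i) (hb : ∀ i ∈ t, x i + 3 * ρ i ≤ x0 + w)
    (hsm : ∀ i ∈ t, 100 * ρ i ≤ w)
    (hbad : ∀ i ∈ t, ¬ Flat γ a b e (x i) (ρ i))
    (hflat : ∀ i ∈ t, ∀ ρ', 2 * ρ i ≤ ρ' → Flat γ a b e (x i) ρ')
    (hsum : w ≤ 50 * ∑ i ∈ t, ρ i) (hQ : Ind γ s C C2 W) (hW : 99 / 100 * w ≤ W) :
    Has s C (γ '' Icc a b) w (C2 * w) := by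
  classical
  have hw0 : 0 < w := by linarith
  have hρ0 : ∀ i ∈ t, 0 < ρ i := fun i hi => by linarith [hρ i hi]
  have hCx := Cx_nonneg
  have hX : Continuous fun t => (e * γ t).re := by fun_prop
  have hτ : ∀ i ∈ t, ∃ u ∈ Icc a b, (e * γ u).re = x i := fun i hi =>
    hN.ivt hγ (by linarith [ha i hi, hρ0 i hi]) (by linarith [hb i hi, hρ0 i hi])
  choose! τ hτ1 hτ2 using hτ
  have hne : t.Nonempty := by
    rcases t.eq_empty_or_nonempty with h | h
    · rw [h] at hsum; simp at hsum; linarith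
    · exact h
  obtain ⟨A, hA, hAx⟩ := exists_lip t x (fun i => (e * γ (τ i)).im) 100 (by
    intro i hi j hj
    by_cases hij : i = j
    · simp [hij]
    · exact hflat i hi _ (by linarith [hsep i hi j hj hij, hρ0 i hi, hρ0 j hj])
        _ (hτ1 i hi) _ (hτ1 j hj) (by rw [hτ2 i hi]; simp) (by rw [hτ2 j hj, abs_sub_comm]))
  obtain ⟨v, g1, g2, g3, g4⟩ := exists_gaps t x (fun i => 3 * ρ i) (a := x0) (b := x0 + w)
    (by linarith) (fun i hi => by linarith [hρ0 i hi]) hsep ha hb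
  set u := gapL x0 x fun i => 3 * ρ i with hu
  have us : ∀ l, u (some l) = x l + 3 * ρ l := fun _ => rfl
  let th : Option ι → ℝ := fun o => o.elim (w / 200) fun l => ρ l / 10
  set kept := t.insertNone.filter fun o => th o ≤ v o - u o with hkept
  have hk1 : ∀ o ∈ kept, o ∈ t.insertNone := fun o ho => (Finset.mem_filter.1 ho).1
  have hk2 : ∀ o ∈ kept, 400 * s ≤ v o - u o ∧ ∃ l ∈ t, 2 * ρ l ≤ 200 * (v o - u o) ∧
      ∀ y, u o ≤ y → y ≤ v o → |y - x l| ≤ 200 * (v o - u o) := by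
    intro o ho
    obtain ⟨o1, o2⟩ := Finset.mem_filter.1 ho
    obtain ⟨p1, p2, p3⟩ := g1 o o1
    rcases o with _ | l
    · obtain ⟨l, hl⟩ := hne
      have o3 : w / 200 ≤ v none - u none := o2
      refine ⟨by linarith, l, hl, by linarith [hsm l hl, hρ0 l hl], fun y y1 y2 => ?_⟩
      exact abs_le.2 ⟨by linarith [hb l hl, hρ0 l hl], by linarith [ha l hl, hρ0 l hl]⟩
    · have hl := Finset.some_mem_insertNone.1 o1
      have o3 : ρ l / 10 ≤ v (some l) - u (some l) := o2
      refine ⟨by linarith [hρ l hl], l, hl, by linarith [hρ0 l hl], fun y y1 y2 => ?_⟩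
      have := us l
      exact abs_le.2 ⟨by linarith [hρ0 l hl], by linarith [hρ0 l hl]⟩
  let c : ι ⊕ Option ι → ℝ := Sum.elim x fun o => (u o + v o) / 2
  let r : ι ⊕ Option ι → ℝ := Sum.elim (fun l => 3 * ρ l) fun o => (v o - u o) / 2
  let m : ι ⊕ Option ι → ℝ := Sum.elim (fun l => 77 / 10 * ρ l) fun o => 99 / 100 * (v o - u o)
  let R : ι ⊕ Option ι → ℝ := Sum.elim (fun l => 29 / 10 * ρ l) fun o => 99 / 200 * (v o - u o)
  have key := cluster (t.disjSum kept) hA (η := 1 / 200) (M := 80001) (κ := 10) (by norm_num)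
    (by norm_num) (by norm_num) (by norm_num) hN.he c r m (fun j => (C2 + 3) * m j)
    (fun j => strip γ a b e (c j) (R j)) (T := γ '' Icc a b) (s := s) (C := C) (x0 := x0)
    hw0.le (by linarith)
    (by
      rintro (l | o) h
      · have := hρ0 l (Finset.inl_mem_disjSum.1 h)
        simp only [r, Sum.elim_inl]; linarith
      · have := (hk2 o (Finset.inr_mem_disjSum.1 h)).1
        simp only [r, Sum.elim_inr]; linarith)
    (by
      rintro (l | o) h (l' | o') h' hne
      · exact hsep l (Finset.inl_mem_disjSum.1 h) l' (Finset.inl_mem_disjSum.1 h')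
          fun h => hne (by rw [h])
      · refine abs_of_sep ?_
        simp only [c, r, Sum.elim_inl, Sum.elim_inr]
        rcases g2 o' (hk1 o' (Finset.inr_mem_disjSum.1 h')) l (Finset.inl_mem_disjSum.1 h)
          with k | k
        · left; linarith
        · right; linarith
      · refine abs_of_sep ?_
        simp only [c, r, Sum.elim_inl, Sum.elim_inr]
        rcases g2 o (hk1 o (Finset.inr_mem_disjSum.1 h)) l' (Finset.inl_mem_disjSum.1 h')
          with k | k
        · right; linarith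
        · left; linarith
      · refine abs_of_sep ?_
        simp only [c, r, Sum.elim_inr]
        rcases g3 o (hk1 o (Finset.inr_mem_disjSum.1 h)) o'
          (hk1 o' (Finset.inr_mem_disjSum.1 h')) (fun h => hne (by rw [h])) with k | k
        · left; linarith
        · right; linarith)
    (by
      rintro (l | o) h
      · exact ha l (Finset.inl_mem_disjSum.1 h)
      · have := g1 o (hk1 o (Finset.inr_mem_disjSum.1 h))
        simp only [c, r, Sum.elim_inr]; linarith [this.1])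
    (by
      rintro (l | o) h
      · exact hb l (Finset.inl_mem_disjSum.1 h)
      · have := g1 o (hk1 o (Finset.inr_mem_disjSum.1 h))
        simp only [c, r, Sum.elim_inr]; linarith [this.2.2])
    (by
      rintro (l | o) h
      · have := hρ0 l (Finset.inl_mem_disjSum.1 h)
        simp only [m, r, Sum.elim_inl]; linarith
      · have := (hk2 o (Finset.inr_mem_disjSum.1 h)).1
        simp only [m, r, Sum.elim_inr]; linarith)
    (fun _ _ _ hp => hp.1)
    (by
      rintro (l | o) h _ ⟨⟨p, hp, rfl⟩, hp'⟩ z hz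
      · have hl := Finset.inl_mem_disjSum.1 h
        have e1 := re_mul_sub hN.he z (γ p)
        have e2 := im_mul_sub hN.he z (γ p)
        have e0 := hρ l hl
        simp only [c, r, R, Sum.elim_inl] at hp' ⊢
        have e3 := abs_sub_le (e * z).re (e * γ p).re (x l)
        have e4 := abs_sub_le (e * z).im (e * γ p).im (e * γ (τ l)).im
        have e5 := hflat l hl (3 * ρ l) (by linarith) p hp _ (hτ1 l hl) (by linarith)
          (by rw [hτ2 l hl]; simp; linarith)
        refine ⟨by linarith, ?_⟩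
        rw [hAx l hl]
        linarith
      · obtain ⟨e0, l, hl, e6, e7⟩ := hk2 o (Finset.inr_mem_disjSum.1 h)
        have e1 := re_mul_sub hN.he z (γ p)
        have e2 := im_mul_sub hN.he z (γ p)
        simp only [c, r, R, Sum.elim_inr] at hp' ⊢
        have e3 := abs_sub_le (e * z).re (e * γ p).re ((u o + v o) / 2)
        have e4 := abs_sub_le (e * z).im (e * γ p).im (e * γ (τ l)).im
        have e5 := hflat l hl _ e6 p hp _ (hτ1 l hl)
          (e7 _ (by linarith [(abs_le.1 hp').1]) (by linarith [(abs_le.1 hp').2]))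
          (by rw [hτ2 l hl]; simp; linarith)
        have e8 := lip_abs hA (x l) ((u o + v o) / 2)
        have e9 := e7 ((u o + v o) / 2) (by linarith) (by linarith)
        have e10 := abs_sub_le (e * z).im (e * γ (τ l)).im (A ((u o + v o) / 2))
        rw [hAx l hl, abs_sub_comm (x l)] at e8
        norm_num at e8
        simp only [Complex.mul_im] at *
        exact ⟨by linarith, by simp only [Complex.mul_im]; linarith⟩)
    (by
      rintro (l | o) h
      · have hl := Finset.inl_mem_disjSum.1 h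
        exact gain hγ hN hs (by linarith) (hρ l hl) (ha l hl) (hb l hl) (hbad l hl) hQ
          (by linarith [hsm l hl, hρ0 l hl])
      · have ho := Finset.inr_mem_disjSum.1 h
        obtain ⟨p1, p2, p3⟩ := g1 o (hk1 o ho)
        simp only [c, m, R, Sum.elim_inr]
        obtain ⟨c0, d0, k1, k2, k3, k4, k5, k6⟩ := sub_cross hX hN.ab
          (α := u o + (v o - u o) / 200) (β := v o - (v o - u o) / 200)
          (by rw [hN.xa]; linarith) (by linarith) (by rw [hN.xb]; linarith)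
        refine (hQ (99 / 100 * (v o - u o)) (by linarith) (by linarith) c0 d0 d0 c0
          ⟨k2, le_rfl⟩ ⟨le_rfl, k2⟩ ?_).mono (strip_sub k1 k3 fun t ht => ?_) (by linarith)
        · refine le_trans ?_ (re_le_norm hN.he _ _)
          rw [k4, k5]
          exact le_trans (by linarith) (le_abs_self _)
        · exact abs_le.2 ⟨by linarith [(k6 t ht).1], by linarith [(k6 t ht).2]⟩)
  rw [← Finset.mul_sum] at key
  have hW' : 101 / 100 * w ≤ ∑ j ∈ t.disjSum kept, m j := by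
    have e1 : ∑ o ∈ t.insertNone, (v o - u o)
        ≤ ∑ o ∈ kept, (v o - u o) + ∑ o ∈ t.insertNone, th o := by
      rw [hkept, Finset.sum_filter, ← Finset.sum_add_distrib]
      refine Finset.sum_le_sum fun o ho => ?_
      split_ifs with h
      · have : 0 ≤ th o := by
          rcases o with _ | l
          · exact (by positivity : 0 ≤ w / 200)
          · have := hρ0 l (Finset.some_mem_insertNone.1 ho)
            exact (by positivity : 0 ≤ ρ l / 10)
        linarith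
      · linarith [not_le.1 h]
    have e2 : ∑ o ∈ t.insertNone, th o = w / 200 + (∑ l ∈ t, ρ l) / 10 := by
      rw [Finset.sum_insertNone, Finset.sum_div]; rfl
    rw [Finset.sum_disjSum]
    simp only [m, Sum.elim_inl, Sum.elim_inr, ← Finset.mul_sum] at g4 ⊢
    linarith
  generalize ∑ j ∈ t.disjSum kept, m j = Wt at key hW'
  have hWt : 0 < Wt := by linarith
  have hθ : w / Wt ≤ 100 / 101 := by rw [div_le_iff₀ hWt]; linarith
  have hθ0 : 0 ≤ w / Wt := by positivity
  have hθ1 : w / Wt * Wt = w := div_mul_cancel₀ _ hWt.ne'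
  have k2 := key.smul hθ0 (by linarith)
  rw [hθ1] at k2
  refine k2.mono Subset.rfl ?_
  change _ * (_ + Cx * w) ≤ _
  generalize w / Wt = θ at *
  calc θ ^ 3 * ((C2 + 3) * Wt + Cx * w) = θ ^ 2 * (C2 + 3) * (θ * Wt) + θ ^ 3 * Cx * w := by ring
    _ ≤ (100 / 101) ^ 2 * (C2 + 3) * w + 1 ^ 3 * Cx * w := by
        rw [hθ1]
        gcongr
        · linarith
        · linarith
    _ ≤ C2 * w := by
        rw [← add_mul]
        gcongr
        linarith

end Pool.Agent.P.MP_f981b0_an.TC.J
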