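import Mathlib

set_option autoImplicit false

noncomputable section

namespace Pool.Agent.P.MP_f981b0_an.TC

open MeasureTheory Set
open scoped ENNReal NNReal

/-- Second divided difference (equal to `0` when two of the points coincide). -/
def dd (A : ℝ → ℝ) (x y z : ℝ) : ℝ :=
  ((y - x) * (A z - A x) - (z - x) * (A y - A x)) / ((x - y) * (y - z) * (z - x))

lemma measurable_dd {A : ℝ → ℝ} (hA : Measurable A) :
    Measurable fun p : ℝ × ℝ × ℝ => dd A p.1 p.2.1 p.2.2 := by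
  unfold dd
  fun_prop

lemma dd_swap12 (A : ℝ → ℝ) (x y z : ℝ) : dd A y x z = dd A x y z := by
  unfold dd
  rw [show (y - x) * (x - z) * (z - y) = -((x - y) * (y - z) * (z - x)) by ring,
    show (x - y) * (A z - A y) - (z - y) * (A x - A y)
      = -((y - x) * (A z - A x) - (z - x) * (A y - A x)) by ring, neg_div_neg_eq]

lemma dd_swap23 (A : ℝ → ℝ) (x y z : ℝ) : dd A x z y = dd A x y z := by
  unfold dd
  rw [show (x - z) * (z - y) * (y - x) = -((x - y) * (y - z) * (z - x)) by ring,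
    show (z - x) * (A y - A x) - (y - x) * (A z - A x)
      = -((y - x) * (A z - A x) - (z - x) * (A y - A x)) by ring, neg_div_neg_eq]

section swaps

variable {α β γ : Type*} [MeasurableSpace α] [MeasurableSpace β] [MeasurableSpace γ]
  (μ : Measure α) (ν : Measure β) (κ : Measure γ) [SFinite μ] [SFinite ν] [SFinite κ]

lemma lswap12 {F : α → β → γ → ℝ≥0∞} (hF : Measurable fun p : α × β × γ => F p.1 p.2.1 p.2.2) :
    ∫⁻ x, ∫⁻ y, ∫⁻ z, F x y z ∂κ ∂ν ∂μ = ∫⁻ y, ∫⁻ x, ∫⁻ z, F x y z ∂κ ∂μ ∂ν := by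
  apply lintegral_lintegral_swap
  have h1 : Measurable fun q : (α × β) × γ => F q.1.1 q.1.2 q.2 :=
    hF.comp (f := fun q : (α × β) × γ => (q.1.1, q.1.2, q.2)) (by fun_prop)
  exact (h1.lintegral_prod_right' (ν := κ)).aemeasurable

omit [SFinite μ] in
lemma lswap23 {F : α → β → γ → ℝ≥0∞} (hF : Measurable fun p : α × β × γ => F p.1 p.2.1 p.2.2) :
    ∫⁻ x, ∫⁻ y, ∫⁻ z, F x y z ∂κ ∂ν ∂μ = ∫⁻ x, ∫⁻ z, ∫⁻ y, F x y z ∂ν ∂κ ∂μ := by
  refine lintegral_congr fun x => ?_
  apply lintegral_lintegral_swap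
  exact (hF.comp (f := fun q : β × γ => (x, q.1, q.2)) (by fun_prop)).aemeasurable

omit [SFinite μ] in
lemma ladd3 {F G : α → β → γ → ℝ≥0∞}
    (hG : Measurable fun p : α × β × γ => G p.1 p.2.1 p.2.2) :
    ∫⁻ x, ∫⁻ y, ∫⁻ z, (F x y z + G x y z) ∂κ ∂ν ∂μ
      = (∫⁻ x, ∫⁻ y, ∫⁻ z, F x y z ∂κ ∂ν ∂μ) + ∫⁻ x, ∫⁻ y, ∫⁻ z, G x y z ∂κ ∂ν ∂μ := by
  have h1 : Measurable fun q : (α × β) × γ => G q.1.1 q.1.2 q.2 :=
    hG.comp (f := fun q : (α × β) × γ => (q.1.1, q.1.2, q.2)) (by fun_prop)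
  have h2 : Measurable fun q : α × β => ∫⁻ z, G q.1 q.2 z ∂κ := h1.lintegral_prod_right'
  have h3 : Measurable fun x : α => ∫⁻ y, ∫⁻ z, G x y z ∂κ ∂ν := h2.lintegral_prod_right'
  rw [← lintegral_add_right _ h3]
  refine lintegral_congr fun x => ?_
  have h4 : Measurable fun y : β => ∫⁻ z, G x y z ∂κ :=
    h2.comp (f := fun y : β => (x, y)) (by fun_prop)
  rw [← lintegral_add_right _ h4]
  refine lintegral_congr fun y => ?_
  exact lintegral_add_right _ (hG.comp (f := fun z : γ => (x, y, z)) (by fun_prop))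

end swaps

lemma lint_scale (g : ℝ → ℝ≥0∞) {c : ℝ} (a b : ℝ) (hc : 0 < c) :
    ∫⁻ t in Ioo (c * a) (c * b), g t = ∫⁻ t in Ioo a b, ENNReal.ofReal c * g (c * t) := by
  have h := lintegral_image_eq_lintegral_abs_deriv_mul (s := Ioo a b) (f := fun t => c * t)
    (f' := fun _ => c) measurableSet_Ioo
    (fun x _ => by simpa using ((hasDerivAt_id x).const_mul c).hasDerivWithinAt)
    (fun x _ y _ hxy => mul_left_cancel₀ hc.ne' hxy) g
  rw [image_mul_left_Ioo hc a b, abs_of_pos hc] at h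
  exact h

/-- Mean square of the difference quotient. -/
def EE (B : ℝ → ℝ) (h : ℝ) : ℝ≥0∞ := ∫⁻ x, ENNReal.ofReal (((B (x + h) - B x) / h) ^ 2)

lemma measurable_EE {B : ℝ → ℝ} (hB : Measurable B) : Measurable (EE B) := by
  unfold EE
  have : Measurable fun q : ℝ × ℝ => ENNReal.ofReal (((B (q.2 + q.1) - B q.2) / q.1) ^ 2) := by
    fun_prop
  exact this.lintegral_prod_right'

lemma var_identity {B : ℝ → ℝ} (hB : Measurable B) {θ s : ℝ} (h0 : 0 < θ) (h1 : θ < 1)
    (hs : 0 < s) :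
    (∫⁻ x, ENNReal.ofReal s * ENNReal.ofReal (dd B x (x + s * θ) (x + s) ^ 2))
      + (ENNReal.ofReal (1 - θ)⁻¹ + ENNReal.ofReal θ⁻¹) * (ENNReal.ofReal s⁻¹ * EE B s)
    = ENNReal.ofReal (1 - θ)⁻¹ *
        (ENNReal.ofReal θ * (ENNReal.ofReal (θ * s)⁻¹ * EE B (θ * s)))
      + ENNReal.ofReal θ⁻¹ *
        (ENNReal.ofReal (1 - θ) * (ENNReal.ofReal ((1 - θ) * s)⁻¹ * EE B ((1 - θ) * s))) := by
  have h2 : 0 < 1 - θ := by linarith
  have e3 : EE B ((1 - θ) * s) = ∫⁻ x, ENNReal.ofReal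
      (((B (x + s) - B (x + θ * s)) / ((1 - θ) * s)) ^ 2) := by
    unfold EE
    rw [← lintegral_add_right_eq_self _ (θ * s)]
    refine lintegral_congr fun x => ?_
    rw [show x + θ * s + (1 - θ) * s = x + s by ring]
  rw [e3]
  unfold EE
  rw [← mul_assoc, ← mul_assoc, ← mul_assoc, ← mul_assoc, ← mul_assoc,
    ← lintegral_const_mul _ (by fun_prop), ← lintegral_const_mul _ (by fun_prop),
    ← lintegral_const_mul _ (by fun_prop), ← lintegral_add_right _ (by fun_prop),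
    ← lintegral_add_right _ (by fun_prop)]
  refine lintegral_congr fun x => ?_
  rw [← ENNReal.ofReal_add (by positivity) (by positivity), ← ENNReal.ofReal_mul (by positivity),
    ← ENNReal.ofReal_mul (by positivity), ← ENNReal.ofReal_mul (by positivity),
    ← ENNReal.ofReal_mul (by positivity), ← ENNReal.ofReal_mul (by positivity),
    ← ENNReal.ofReal_mul (by positivity), ← ENNReal.ofReal_mul (by positivity),
    ← ENNReal.ofReal_mul (by positivity), ← ENNReal.ofReal_mul (by positivity),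
    ← ENNReal.ofReal_add (by positivity) (by positivity),
    ← ENNReal.ofReal_add (by positivity) (by positivity)]
  congr 1
  unfold dd
  rw [show x - (x + s * θ) = -(s * θ) by ring, show x + s * θ - (x + s) = -(s * (1 - θ)) by ring,
    show x + s - x = s by ring, show x + s * θ - x = s * θ by ring, mul_comm θ s]
  field_simp
  ring

lemma lint_inv_le {θ ε : ℝ} (h0 : 0 < θ) (h1 : θ < 1) (hε : 0 < ε) :
    ∫⁻ t in Ioc (θ * ε) ε, ENNReal.ofReal t⁻¹ ≤ ENNReal.ofReal (2 * (1 - θ) / √θ) := by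
  have hle : θ * ε ≤ ε := by nlinarith
  have hp : 0 < θ * ε := by positivity
  have hint : IntegrableOn (fun t : ℝ => t⁻¹) (Ioc (θ * ε) ε) := by
    have : IntervalIntegrable (fun t : ℝ => t⁻¹) volume (θ * ε) ε := by
      apply intervalIntegral.intervalIntegrable_inv
      · intro x hx
        rw [uIcc_of_le hle] at hx
        exact (lt_of_lt_of_le hp hx.1).ne'
      · exact continuousOn_id
    exact this.1
  rw [← ofReal_integral_eq_lintegral_ofReal hint]
  · apply ENNReal.ofReal_le_ofReal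
    rw [← intervalIntegral.integral_of_le hle, integral_inv_of_pos hp hε]
    have hs : 0 < √θ := Real.sqrt_pos.2 h0
    have hs2 : √θ * √θ = θ := Real.mul_self_sqrt h0.le
    have hs1 : √θ ≤ 1 := by nlinarith
    have e : ε / (θ * ε) = (√θ)⁻¹ ^ 2 := by
      field_simp
      nlinarith
    rw [e, Real.log_pow]
    have := Real.log_le_sub_one_of_pos (inv_pos.2 hs)
    have h3 : (√θ)⁻¹ - 1 ≤ (1 - θ) / √θ := by
      rw [le_div_iff₀ hs, sub_mul, inv_mul_cancel₀ hs.ne']
      nlinarith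
    push_cast
    calc 2 * Real.log (√θ)⁻¹ ≤ 2 * ((1 - θ) / √θ) := by linarith
      _ = 2 * (1 - θ) / √θ := by ring
  · filter_upwards [ae_restrict_mem measurableSet_Ioc] with t ht
    exact (inv_pos.2 (lt_trans hp ht.1)).le

lemma frullani {E : ℝ → ℝ≥0∞} {M w θ ε : ℝ} (hM : 0 ≤ M) (h0 : 0 < θ) (h1 : θ < 1) (hε : 0 < ε)
    (hεw : ε ≤ w) (hE : ∀ h, 0 < h → h ≤ w → E h ≤ ENNReal.ofReal M) :
    ∫⁻ s in Ioo ε w, ENNReal.ofReal θ * (ENNReal.ofReal (θ * s)⁻¹ * E (θ * s))
      ≤ (∫⁻ s in Ioo ε w, ENNReal.ofReal s⁻¹ * E s)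
        + ENNReal.ofReal (M * (2 * (1 - θ) / √θ)) := by
  rw [← lint_scale (fun t => ENNReal.ofReal t⁻¹ * E t) ε w h0]
  have hw : 0 < w := lt_of_lt_of_le hε hεw
  have hsub : Ioo (θ * ε) (θ * w) ⊆ Ioo ε w ∪ Ioc (θ * ε) ε := by
    intro t ht
    by_cases h : t ≤ ε
    · exact Or.inr ⟨ht.1, h⟩
    · exact Or.inl ⟨not_le.1 h, lt_of_lt_of_le ht.2 (by nlinarith)⟩
  refine (lintegral_mono_set hsub).trans ((lintegral_union_le _ _ _).trans ?_)
  gcongr
  calc ∫⁻ t in Ioc (θ * ε) ε, ENNReal.ofReal t⁻¹ * E t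
      ≤ ∫⁻ t in Ioc (θ * ε) ε, ENNReal.ofReal M * ENNReal.ofReal t⁻¹ := by
        refine setLIntegral_mono' measurableSet_Ioc fun t ht => ?_
        rw [mul_comm]
        gcongr
        exact hE t (lt_trans (by positivity) ht.1) (ht.2.trans hεw)
    _ = ENNReal.ofReal M * ∫⁻ t in Ioc (θ * ε) ε, ENNReal.ofReal t⁻¹ := by
        rw [lintegral_const_mul _ (by fun_prop)]
    _ ≤ ENNReal.ofReal M * ENNReal.ofReal (2 * (1 - θ) / √θ) := by
        gcongr
        exact lint_inv_le h0 h1 hε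
    _ = _ := by rw [← ENNReal.ofReal_mul hM]

lemma slice_bound {B : ℝ → ℝ} (hB : Measurable B) {M w θ : ℝ} (hM : 0 ≤ M) (h0 : 0 < θ)
    (h1 : θ < 1) (hE : ∀ h, 0 < h → h ≤ w → EE B h ≤ ENNReal.ofReal M) :
    ∫⁻ s in Ioo 0 w, ∫⁻ x, ENNReal.ofReal s * ENNReal.ofReal (dd B x (x + s * θ) (x + s) ^ 2)
      ≤ ENNReal.ofReal (2 * M * (√θ)⁻¹) + ENNReal.ofReal (2 * M * (√(1 - θ))⁻¹) := by
  have h2 : 0 < 1 - θ := by linarith
  rcases le_or_gt w 0 with hw | hw
  · rw [Ioo_eq_empty (not_lt.2 hw)]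
    simp
  have hU : Ioo 0 w = ⋃ n : ℕ, Ioo (w / (n + 1)) w := by
    ext t
    simp only [mem_iUnion, mem_Ioo]
    constructor
    · rintro ⟨ht0, htw⟩
      obtain ⟨n, hn⟩ := exists_nat_gt (w / t)
      refine ⟨n, ?_, htw⟩
      rw [div_lt_iff₀ (by positivity)]
      rw [div_lt_iff₀ ht0] at hn
      nlinarith
    · rintro ⟨n, hn, htw⟩
      exact ⟨lt_trans (by positivity) hn, htw⟩
  rw [hU, setLIntegral_iUnion_of_directed]
  swap
  · apply Monotone.directed_le
    intro m n hmn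
    apply Ioo_subset_Ioo_left
    have : (m : ℝ) ≤ n := by exact_mod_cast hmn
    gcongr
  refine iSup_le fun n => ?_
  set ε : ℝ := w / (n + 1) with hεdef
  have hε : 0 < ε := by positivity
  have hεw : ε ≤ w := by
    rw [hεdef, div_le_iff₀ (by positivity)]
    have : (0 : ℝ) ≤ n := n.cast_nonneg
    nlinarith
  set Y : ℝ≥0∞ := ∫⁻ s in Ioo ε w, ENNReal.ofReal s⁻¹ * EE B s with hY
  have hYfin : Y ≠ ∞ := by
    have : Y ≤ ∫⁻ s in Ioo ε w, ENNReal.ofReal ε⁻¹ * ENNReal.ofReal M := by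
      refine setLIntegral_mono' measurableSet_Ioo fun t ht => ?_
      gcongr
      · exact ht.1.le
      · exact hE t (lt_trans hε ht.1) ht.2.le
    refine ne_top_of_le_ne_top ?_ this
    rw [setLIntegral_const]
    exact ENNReal.mul_ne_top (ENNReal.mul_ne_top ENNReal.ofReal_ne_top ENNReal.ofReal_ne_top)
      (by simp)
  have hEm := measurable_EE hB
  set a : ℝ≥0∞ := ENNReal.ofReal (1 - θ)⁻¹ with ha
  set b : ℝ≥0∞ := ENNReal.ofReal θ⁻¹ with hb
  have key : (∫⁻ s in Ioo ε w, ∫⁻ x,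
        ENNReal.ofReal s * ENNReal.ofReal (dd B x (x + s * θ) (x + s) ^ 2)) + (a + b) * Y
      = a * (∫⁻ s in Ioo ε w, ENNReal.ofReal θ * (ENNReal.ofReal (θ * s)⁻¹ * EE B (θ * s)))
        + b * ∫⁻ s in Ioo ε w, ENNReal.ofReal (1 - θ) *
            (ENNReal.ofReal ((1 - θ) * s)⁻¹ * EE B ((1 - θ) * s)) := by
    rw [hY, ← lintegral_const_mul _ (by fun_prop), ← lintegral_const_mul _ (by fun_prop),
      ← lintegral_const_mul _ (by fun_prop), ← lintegral_add_right _ (by fun_prop),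
      ← lintegral_add_right _ (by fun_prop)]
    refine setLIntegral_congr_fun measurableSet_Ioo fun s hs => ?_
    exact var_identity hB h0 h1 (lt_trans hε hs.1)
  have f1 := frullani (E := EE B) hM h0 h1 hε hεw hE
  have f2 := frullani (E := EE B) hM h2 (by linarith) hε hεw hE
  have hab : (a + b) * Y ≠ ∞ :=
    ENNReal.mul_ne_top (ENNReal.add_ne_top.2 ⟨ENNReal.ofReal_ne_top, ENNReal.ofReal_ne_top⟩) hYfin
  rw [← ENNReal.add_le_add_iff_right hab, key]
  calc _ ≤ a * (Y + ENNReal.ofReal (M * (2 * (1 - θ) / √θ)))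
        + b * (Y + ENNReal.ofReal (M * (2 * (1 - (1 - θ)) / √(1 - θ)))) := by gcongr
    _ = (a * ENNReal.ofReal (M * (2 * (1 - θ) / √θ))
        + b * ENNReal.ofReal (M * (2 * (1 - (1 - θ)) / √(1 - θ)))) + (a + b) * Y := by ring
    _ = _ := by
      rw [ha, hb, ← ENNReal.ofReal_mul (by positivity), ← ENNReal.ofReal_mul (by positivity)]
      congr 3
      · field_simp
      · field_simp
        ring

lemma lint_sqrt_inv : ∫⁻ θ in Ioo (0 : ℝ) 1, ENNReal.ofReal (√θ)⁻¹ ≤ ENNReal.ofReal 2 := by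
  have hint : IntervalIntegrable (fun t : ℝ => t ^ (-(1 / 2) : ℝ)) volume 0 1 :=
    intervalIntegral.intervalIntegrable_rpow' (by norm_num)
  have e : ∫⁻ θ in Ioo (0 : ℝ) 1, ENNReal.ofReal (√θ)⁻¹
      = ∫⁻ θ in Ioc (0 : ℝ) 1, ENNReal.ofReal (θ ^ (-(1 / 2) : ℝ)) := by
    rw [← setLIntegral_congr Ioo_ae_eq_Ioc]
    refine setLIntegral_congr_fun measurableSet_Ioo fun s hs => ?_
    rw [Real.sqrt_eq_rpow, Real.rpow_neg hs.1.le]
  rw [e, ← ofReal_integral_eq_lintegral_ofReal hint.1]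
  · apply ENNReal.ofReal_le_ofReal
    rw [← intervalIntegral.integral_of_le zero_le_one, integral_rpow (Or.inl (by norm_num))]
    norm_num
  · filter_upwards [ae_restrict_mem measurableSet_Ioc] with t ht
    exact Real.rpow_nonneg ht.1.le _

lemma lint_sqrt_inv' : ∫⁻ θ in Ioo (0 : ℝ) 1, ENNReal.ofReal (√(1 - θ))⁻¹ ≤ ENNReal.ofReal 2 := by
  have h := lintegral_image_eq_lintegral_abs_deriv_mul (s := Ioo (0 : ℝ) 1) (f := fun t => 1 - t)
    (f' := fun _ => -1) measurableSet_Ioo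
    (fun x _ => by simpa using ((hasDerivAt_id x).const_sub 1).hasDerivWithinAt)
    (fun x _ y _ hxy => by simpa using hxy) (fun θ => ENNReal.ofReal (√θ)⁻¹)
  rw [image_const_sub_Ioo] at h
  simp only [sub_self, sub_zero, abs_neg, abs_one, ENNReal.ofReal_one, one_mul] at h
  rw [← h]
  exact lint_sqrt_inv

/-- The ordered part of the triple integral. -/
def gg (B : ℝ → ℝ) (w x y z : ℝ) : ℝ≥0∞ :=
  if x < y ∧ y < z ∧ z < x + w then ENNReal.ofReal (dd B x y z ^ 2) else 0

lemma measurable_gg {B : ℝ → ℝ} (hB : Measurable B) (w : ℝ) :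
    Measurable fun p : ℝ × ℝ × ℝ => gg B w p.1 p.2.1 p.2.2 := by
  unfold gg
  refine Measurable.ite ?_ ((measurable_dd hB).pow_const 2).ennreal_ofReal measurable_const
  exact (measurableSet_lt (f := fun p : ℝ × ℝ × ℝ => p.1) (g := fun p => p.2.1)
    (by fun_prop) (by fun_prop)).inter
    ((measurableSet_lt (f := fun p : ℝ × ℝ × ℝ => p.2.1) (g := fun p => p.2.2)
      (by fun_prop) (by fun_prop)).inter
      (measurableSet_lt (f := fun p : ℝ × ℝ × ℝ => p.2.2) (g := fun p => p.1 + w)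
        (by fun_prop) (by fun_prop)))

lemma ordered_bound {B : ℝ → ℝ} (hB : Measurable B) {M w : ℝ} (hM : 0 ≤ M)
    (hE : ∀ h, 0 < h → h ≤ w → EE B h ≤ ENNReal.ofReal M) :
    ∫⁻ x, ∫⁻ y, ∫⁻ z, gg B w x y z ≤ ENNReal.ofReal (8 * M) := by
  rw [lswap23 _ _ _ (measurable_gg hB w)]
  have step : ∀ x, ∫⁻ z, ∫⁻ y, gg B w x y z = ∫⁻ s in Ioo 0 w, ∫⁻ θ in Ioo (0 : ℝ) 1,
      ENNReal.ofReal s * ENNReal.ofReal (dd B x (x + s * θ) (x + s) ^ 2) := by
    intro x
    rw [← lintegral_add_left_eq_self _ x, ← lintegral_indicator measurableSet_Ioo]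
    refine lintegral_congr fun s => ?_
    by_cases hs : s ∈ Ioo 0 w
    · rw [indicator_of_mem hs, ← lintegral_add_left_eq_self _ x,
        ← lint_scale (fun t => ENNReal.ofReal (dd B x (x + t) (x + s) ^ 2)) 0 1 hs.1,
        ← lintegral_indicator measurableSet_Ioo]
      refine lintegral_congr fun t => ?_
      unfold gg
      by_cases ht : t ∈ Ioo (s * 0) (s * 1)
      · rw [indicator_of_mem ht, if_pos]
        simp only [mul_zero, mul_one, mem_Ioo] at ht
        exact ⟨by linarith [ht.1], by linarith [ht.2], by linarith [hs.2]⟩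
      · rw [indicator_of_notMem ht, if_neg]
        simp only [mul_zero, mul_one, mem_Ioo] at ht
        rintro ⟨a1, a2, _⟩
        exact ht ⟨by linarith, by linarith⟩
    · rw [indicator_of_notMem hs]
      have : ∀ y, gg B w x y (x + s) = 0 := by
        intro y
        unfold gg
        rw [if_neg]
        rintro ⟨a1, a2, a3⟩
        exact hs ⟨by linarith, by linarith⟩
      simp [this]
  simp_rw [step]
  have hF : Measurable fun p : ℝ × ℝ × ℝ =>
      ENNReal.ofReal p.2.1 * ENNReal.ofReal (dd B p.1 (p.1 + p.2.1 * p.2.2) (p.1 + p.2.1) ^ 2) := by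
    unfold dd
    fun_prop
  rw [lswap23 _ _ _ (F := fun x s θ =>
      ENNReal.ofReal s * ENNReal.ofReal (dd B x (x + s * θ) (x + s) ^ 2)) hF,
    lswap12 _ _ _ (F := fun x θ s =>
      ENNReal.ofReal s * ENNReal.ofReal (dd B x (x + s * θ) (x + s) ^ 2))
      (hF.comp (f := fun p : ℝ × ℝ × ℝ => (p.1, p.2.2, p.2.1)) (by fun_prop)),
    lswap23 _ _ _ (F := fun θ x s =>
      ENNReal.ofReal s * ENNReal.ofReal (dd B x (x + s * θ) (x + s) ^ 2))
      (hF.comp (f := fun p : ℝ × ℝ × ℝ => (p.2.1, p.2.2, p.1)) (by fun_prop))]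
  calc _ ≤ ∫⁻ θ in Ioo (0 : ℝ) 1, (ENNReal.ofReal (2 * M) * ENNReal.ofReal (√θ)⁻¹
        + ENNReal.ofReal (2 * M) * ENNReal.ofReal (√(1 - θ))⁻¹) := by
        refine setLIntegral_mono' measurableSet_Ioo fun θ hθ => ?_
        rw [← ENNReal.ofReal_mul (by positivity), ← ENNReal.ofReal_mul (by positivity)]
        exact slice_bound hB hM hθ.1 hθ.2 hE
    _ = ENNReal.ofReal (2 * M) * (∫⁻ θ in Ioo (0 : ℝ) 1, ENNReal.ofReal (√θ)⁻¹)
        + ENNReal.ofReal (2 * M) * ∫⁻ θ in Ioo (0 : ℝ) 1, ENNReal.ofReal (√(1 - θ))⁻¹ := by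
        rw [lintegral_add_left (by fun_prop), lintegral_const_mul _ (by fun_prop),
          lintegral_const_mul _ (by fun_prop)]
    _ ≤ ENNReal.ofReal (2 * M) * ENNReal.ofReal 2 + ENNReal.ofReal (2 * M) * ENNReal.ofReal 2 := by
        gcongr
        · exact lint_sqrt_inv
        · exact lint_sqrt_inv'
    _ = _ := by
        rw [← ENNReal.ofReal_mul (by positivity), ← ENNReal.ofReal_add (by positivity)
          (by positivity)]
        congr 1
        ring

lemma EE_clamp {A : ℝ → ℝ} {L : ℝ≥0} (hA : LipschitzWith L A) (x0 : ℝ) {w h : ℝ}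
    (h0 : 0 < h) (hh : h ≤ 2 * w) :
    EE (fun x => A (max x0 (min x (x0 + w)))) h ≤ ENNReal.ofReal (3 * (L : ℝ) ^ 2 * w) := by
  unfold EE
  calc _ ≤ ∫⁻ x, (Icc (x0 - h) (x0 + w)).indicator (fun _ => ENNReal.ofReal ((L : ℝ) ^ 2)) x := by
        refine lintegral_mono fun x => ?_
        by_cases hx : x ∈ Icc (x0 - h) (x0 + w)
        · rw [indicator_of_mem hx]
          apply ENNReal.ofReal_le_ofReal
          have h1 := hA.dist_le_mul (max x0 (min (x + h) (x0 + w))) (max x0 (min x (x0 + w)))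
          have h2 : dist (max x0 (min (x + h) (x0 + w))) (max x0 (min x (x0 + w))) ≤ h := by
            rw [Real.dist_eq, abs_le]
            constructor <;>
            · simp only [max_def, min_def]
              split_ifs <;> linarith
          rw [Real.dist_eq] at h1
          have h3 : |(A (max x0 (min (x + h) (x0 + w))) - A (max x0 (min x (x0 + w)))) / h|
              ≤ L := by
            rw [abs_div, abs_of_pos h0, div_le_iff₀ h0]
            exact h1.trans (by gcongr)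
          exact sq_le_sq' (by linarith [(abs_le.1 h3).1]) (abs_le.1 h3).2
        · rw [indicator_of_notMem hx]
          have : max x0 (min (x + h) (x0 + w)) = max x0 (min x (x0 + w)) := by
            simp only [mem_Icc, not_and_or, not_le] at hx
            simp only [max_def, min_def]
            rcases hx with hx | hx <;> split_ifs <;> linarith
          simp [this]
    _ = ENNReal.ofReal ((L : ℝ) ^ 2) * ENNReal.ofReal (x0 + w - (x0 - h)) := by
        rw [lintegral_indicator measurableSet_Icc, setLIntegral_const, Real.volume_Icc]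
    _ ≤ _ := by
        rw [← ENNReal.ofReal_mul (by positivity)]
        apply ENNReal.ofReal_le_ofReal
        nlinarith [sq_nonneg (L : ℝ)]

/-- The linearised curvature estimate for a Lipschitz function. -/
theorem LC (A : ℝ → ℝ) (L : ℝ≥0) (hA : LipschitzWith L A) (x0 w : ℝ) (hw : 0 ≤ w) :
    ∫⁻ x in Icc x0 (x0 + w), ∫⁻ y in Icc x0 (x0 + w), ∫⁻ z in Icc x0 (x0 + w),
      ENNReal.ofReal (dd A x y z ^ 2) ≤ ENNReal.ofReal (144 * (L : ℝ) ^ 2 * w) := by
  rcases hw.eq_or_lt with hw0 | hw0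
  · subst hw0
    simp
  set B : ℝ → ℝ := fun x => A (max x0 (min x (x0 + w))) with hBdef
  have hB : Measurable B := hA.continuous.measurable.comp (by fun_prop)
  have hBA : ∀ x ∈ Icc x0 (x0 + w), B x = A x := by
    intro x hx
    simp only [hBdef]
    rw [min_eq_left hx.2, max_eq_right hx.1]
  have hg := measurable_gg hB (2 * w)
  have hT := ordered_bound hB (M := 3 * (L : ℝ) ^ 2 * w) (w := 2 * w) (by positivity)
    (fun h h0 hh => EE_clamp hA x0 h0 hh)
  set g := gg B (2 * w) with hgdef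
  have m1 : Measurable fun p : ℝ × ℝ × ℝ => g p.2.1 p.1 p.2.2 :=
    hg.comp (f := fun p : ℝ × ℝ × ℝ => (p.2.1, p.1, p.2.2)) (by fun_prop)
  have m2 : Measurable fun p : ℝ × ℝ × ℝ => g p.1 p.2.2 p.2.1 :=
    hg.comp (f := fun p : ℝ × ℝ × ℝ => (p.1, p.2.2, p.2.1)) (by fun_prop)
  have m3 : Measurable fun p : ℝ × ℝ × ℝ => g p.2.1 p.2.2 p.1 :=
    hg.comp (f := fun p : ℝ × ℝ × ℝ => (p.2.1, p.2.2, p.1)) (by fun_prop)
  have m4 : Measurable fun p : ℝ × ℝ × ℝ => g p.2.2 p.1 p.2.1 :=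
    hg.comp (f := fun p : ℝ × ℝ × ℝ => (p.2.2, p.1, p.2.1)) (by fun_prop)
  have m5 : Measurable fun p : ℝ × ℝ × ℝ => g p.2.2 p.2.1 p.1 :=
    hg.comp (f := fun p : ℝ × ℝ × ℝ => (p.2.2, p.2.1, p.1)) (by fun_prop)
  have t1 : ∫⁻ x, ∫⁻ y, ∫⁻ z, g y x z = ∫⁻ x, ∫⁻ y, ∫⁻ z, g x y z :=
    lswap12 _ _ _ (F := fun x y z => g y x z) m1
  have t2 : ∫⁻ x, ∫⁻ y, ∫⁻ z, g x z y = ∫⁻ x, ∫⁻ y, ∫⁻ z, g x y z :=
    lswap23 _ _ _ (F := fun x y z => g x z y) m2
  have t3 : ∫⁻ x, ∫⁻ y, ∫⁻ z, g y z x = ∫⁻ x, ∫⁻ y, ∫⁻ z, g x y z :=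
    (lswap12 _ _ _ (F := fun x y z => g y z x) m3).trans t2
  have t4 : ∫⁻ x, ∫⁻ y, ∫⁻ z, g z x y = ∫⁻ x, ∫⁻ y, ∫⁻ z, g x y z :=
    (lswap23 _ _ _ (F := fun x y z => g z x y) m4).trans t1
  have t5 : ∫⁻ x, ∫⁻ y, ∫⁻ z, g z y x = ∫⁻ x, ∫⁻ y, ∫⁻ z, g x y z :=
    (lswap12 _ _ _ (F := fun x y z => g z y x) m5).trans t4
  calc _ ≤ ∫⁻ x in Icc x0 (x0 + w), ∫⁻ y in Icc x0 (x0 + w), ∫⁻ z in Icc x0 (x0 + w),
        (g x y z + g y x z + g x z y + g y z x + g z x y + g z y x) := by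
        refine setLIntegral_mono' measurableSet_Icc fun x hx => ?_
        refine setLIntegral_mono' measurableSet_Icc fun y hy => ?_
        refine setLIntegral_mono' measurableSet_Icc fun z hz => ?_
        have e : dd A x y z = dd B x y z := by
          unfold dd
          rw [hBA x hx, hBA y hy, hBA z hz]
        rw [e]
        have b1 := hx.1
        have b2 := hx.2
        have b3 := hy.1
        have b4 := hy.2
        have b5 := hz.1
        have b6 := hz.2
        by_cases hdeg : x = y ∨ y = z ∨ z = x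
        · have : dd B x y z = 0 := by
            unfold dd
            rcases hdeg with h | h | h <;> simp [h]
          simp [this]
        · push Not at hdeg
          obtain ⟨n1, n2, n3⟩ := hdeg
          have s1 := dd_swap12 B x y z
          have s2 := dd_swap23 B x y z
          have s3 : dd B y z x = dd B x y z := by rw [dd_swap23, s1]
          have s4 : dd B z x y = dd B x y z := by rw [dd_swap12, s2]
          have s5 : dd B z y x = dd B x y z := by rw [dd_swap12, s3]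
          simp only [hgdef, gg, s1, s2, s3, s4, s5]
          rcases lt_or_gt_of_ne n1 with c1 | c1 <;> rcases lt_or_gt_of_ne n2 with c2 | c2 <;>
            rcases lt_or_gt_of_ne n3 with c3 | c3
          · linarith
          · rw [if_pos (show x < y ∧ y < z ∧ z < x + 2 * w from ⟨c1, c2, by linarith⟩)]
            simp only [add_assoc]
            exact le_self_add
          · rw [if_pos (show z < x ∧ x < y ∧ y < z + 2 * w from ⟨c3, c1, by linarith⟩)]
            exact le_add_right le_add_self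
          · rw [if_pos (show x < z ∧ z < y ∧ y < x + 2 * w from ⟨c3, c2, by linarith⟩)]
            exact le_add_right (le_add_right (le_add_right le_add_self))
          · rw [if_pos (show y < z ∧ z < x ∧ x < y + 2 * w from ⟨c2, c3, by linarith⟩)]
            exact le_add_right (le_add_right le_add_self)
          · rw [if_pos (show y < x ∧ x < z ∧ z < y + 2 * w from ⟨c1, c3, by linarith⟩)]
            exact le_add_right (le_add_right (le_add_right (le_add_right le_add_self)))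
          · rw [if_pos (show z < y ∧ y < x ∧ x < z + 2 * w from ⟨c2, c1, by linarith⟩)]
            exact le_add_self
          · linarith
    _ ≤ ∫⁻ x, ∫⁻ y, ∫⁻ z, (g x y z + g y x z + g x z y + g y z x + g z x y + g z y x) := by
        refine (setLIntegral_le_lintegral _ _).trans (lintegral_mono fun x => ?_)
        refine (setLIntegral_le_lintegral _ _).trans (lintegral_mono fun y => ?_)
        exact setLIntegral_le_lintegral _ _
    _ = 6 * ∫⁻ x, ∫⁻ y, ∫⁻ z, g x y z := by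
        rw [ladd3 _ _ _ (G := fun x y z => g z y x) m5, ladd3 _ _ _ (G := fun x y z => g z x y) m4,
          ladd3 _ _ _ (G := fun x y z => g y z x) m3, ladd3 _ _ _ (G := fun x y z => g x z y) m2,
          ladd3 _ _ _ (G := fun x y z => g y x z) m1, t1, t2, t3, t4, t5]
        ring
    _ ≤ 6 * ENNReal.ofReal (8 * (3 * (L : ℝ) ^ 2 * w)) := by gcongr
    _ = _ := by
        rw [show (6 : ℝ≥0∞) = ENNReal.ofReal 6 by simp, ← ENNReal.ofReal_mul (by norm_num)]
        congr 1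
        ring

end Pool.Agent.P.MP_f981b0_an.TC
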