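import Pool.Agent.P.MP_f981b0_an.TC.GoodDefs
import Pool.Agent.P.MP_f981b0_an.TC.LC

set_option autoImplicit false

noncomputable section

namespace Pool.Agent.P.MP_f981b0_an.TC.J

open MeasureTheory Metric Set
open scoped ENNReal NNReal

section tri

variable {α : Type*} [MeasurableSpace α]

/-- Triple integral against three measures. -/
def tri (f : α → α → α → ℝ≥0∞) (μ ν κ : Measure α) : ℝ≥0∞ :=
  ∫⁻ x, ∫⁻ y, ∫⁻ z, f x y z ∂κ ∂ν ∂μ

/-- Joint measurability. -/
def M3 (f : α → α → α → ℝ≥0∞) : Prop := Measurable fun p : α × α × α => f p.1 p.2.1 p.2.2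

lemma M3.m2 {f : α → α → α → ℝ≥0∞} (hf : M3 f) (κ : Measure α) [SFinite κ] :
    Measurable fun q : α × α => ∫⁻ z, f q.1 q.2 z ∂κ := by
  have h1 : Measurable fun q : (α × α) × α => f q.1.1 q.1.2 q.2 :=
    Measurable.comp (f := fun q : (α × α) × α => (q.1.1, q.1.2, q.2)) hf (by fun_prop)
  exact h1.lintegral_prod_right'

lemma tri_sum {ι : Type*} (s : Finset ι) (μ : ι → Measure α) [∀ i, SFinite (μ i)]
    {f : α → α → α → ℝ≥0∞} (hf : M3 f) :
    tri f (∑ i ∈ s, μ i) (∑ i ∈ s, μ i) (∑ i ∈ s, μ i)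
      = ∑ i ∈ s, ∑ j ∈ s, ∑ k ∈ s, tri f (μ i) (μ j) (μ k) := by
  unfold tri
  simp only [lintegral_finsetSum_measure]
  refine Finset.sum_congr rfl fun i _ => ?_
  have h1 : ∀ j x, ∫⁻ y, ∑ k ∈ s, ∫⁻ z, f x y z ∂μ k ∂μ j
      = ∑ k ∈ s, ∫⁻ y, ∫⁻ z, f x y z ∂μ k ∂μ j := fun j x =>
    lintegral_finsetSum _ fun k _ =>
      Measurable.comp (f := fun y : α => (x, y)) (hf.m2 (μ k)) (by fun_prop)
  simp only [h1]
  have h2 : ∀ j k, Measurable fun x => ∫⁻ y, ∫⁻ z, f x y z ∂μ k ∂μ j := fun j k =>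
    (hf.m2 (μ k)).lintegral_prod_right'
  rw [lintegral_finsetSum _ fun j _ => Finset.measurable_sum _ fun k _ => h2 j k]
  refine Finset.sum_congr rfl fun j _ => ?_
  exact lintegral_finsetSum _ fun k _ => h2 j k

lemma tri_mono (f : α → α → α → ℝ≥0∞) {μ μ' : Measure α} (h : μ ≤ μ') :
    tri f μ μ μ ≤ tri f μ' μ' μ' := by
  unfold tri
  refine lintegral_mono' h fun x => ?_
  refine lintegral_mono' h fun y => ?_
  exact lintegral_mono' h le_rfl

lemma tri_smul (f : α → α → α → ℝ≥0∞) (μ : Measure α) {t : ℝ≥0∞} (ht : t ≠ ∞) :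
    tri f (t • μ) (t • μ) (t • μ) = t ^ 3 * tri f μ μ μ := by
  unfold tri
  simp only [lintegral_smul_measure, smul_eq_mul]
  simp only [lintegral_const_mul' _ _ ht]
  ring

lemma tri_mono_ae {f g : α → α → α → ℝ≥0∞} {μ ν κ : Measure α} {P Q R : α → Prop}
    (hP : ∀ᵐ x ∂μ, P x) (hQ : ∀ᵐ x ∂ν, Q x) (hR : ∀ᵐ x ∂κ, R x)
    (h : ∀ x y z, P x → Q y → R z → f x y z ≤ g x y z) : tri f μ ν κ ≤ tri g μ ν κ := by
  unfold tri
  refine lintegral_mono_ae (hP.mono fun x hx => ?_)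
  refine lintegral_mono_ae (hQ.mono fun y hy => ?_)
  exact lintegral_mono_ae (hR.mono fun z hz => h x y z hx hy hz)

lemma tri_const (B : ℝ≥0∞) (μ ν κ : Measure α) :
    tri (fun _ _ _ => B) μ ν κ = B * (μ univ * ν univ * κ univ) := by
  unfold tri
  simp only [lintegral_const]
  ring

lemma tri_le_const {f : α → α → α → ℝ≥0∞} {μ ν κ : Measure α} {P Q R : α → Prop}
    (hP : ∀ᵐ x ∂μ, P x) (hQ : ∀ᵐ x ∂ν, Q x) (hR : ∀ᵐ x ∂κ, R x) {B : ℝ≥0∞}
    (h : ∀ x y z, P x → Q y → R z → f x y z ≤ B) :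
    tri f μ ν κ ≤ B * (μ univ * ν univ * κ univ) := by
  rw [← tri_const]
  exact tri_mono_ae hP hQ hR h

/-- Averaging: a bound valid at every triple of points gives a bound by the mean. -/
lemma le_tri_avg {g : α → α → α → ℝ≥0∞} {μ ν κ : Measure α} [SFinite ν] [SFinite κ]
    {P Q R : α → Prop}
    (hP : ∀ᵐ x ∂μ, P x) (hQ : ∀ᵐ x ∂ν, Q x) (hR : ∀ᵐ x ∂κ, R x) {T a b v : ℝ≥0∞}
    (hv : μ univ * ν univ * κ univ = v) (hv0 : v ≠ 0) (hv1 : v ≠ ∞) (ha : a ≠ ∞)
    (h : ∀ x y z, P x → Q y → R z → T ≤ a * v * g x y z + b) :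
    T ≤ a * tri g μ ν κ + b := by
  have h1 : tri (fun _ _ _ => T) μ ν κ ≤ tri (fun x y z => a * v * g x y z + b) μ ν κ :=
    tri_mono_ae hP hQ hR h
  have h2 : tri (fun x y z => a * v * g x y z + b) μ ν κ
      = a * v * tri g μ ν κ + b * v := by
    have := ladd3 μ ν κ (F := fun x y z => a * v * g x y z) (G := fun _ _ _ => b)
      measurable_const
    unfold tri
    rw [this]
    have h3 := tri_const b μ ν κ
    unfold tri at h3
    rw [h3, hv]
    simp only [lintegral_const_mul' _ _ (ENNReal.mul_ne_top ha hv1)]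
  rw [h2, tri_const, hv] at h1
  have h4 : T * v ≤ (a * tri g μ ν κ + b) * v := by
    calc T * v ≤ _ := h1
      _ = _ := by ring
  exact (ENNReal.mul_le_mul_iff_left hv0 hv1).1 h4

end tri

section intervals

/-- Disjoint intervals covered by finitely many intervals have smaller total length. -/
lemma len_le {ι κ : Type*} (t : Finset ι) (s : Finset κ) (u v : ι → ℝ) (u' v' : κ → ℝ)
    (huv : ∀ i ∈ t, u i ≤ v i) (huv' : ∀ l ∈ s, u' l ≤ v' l)
    (hsep : ∀ i ∈ t, ∀ j ∈ t, i ≠ j → v i ≤ u j ∨ v j ≤ u i)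
    (hcov : ∀ i ∈ t, ∀ x, u i < x → x < v i → ∃ l ∈ s, u' l ≤ x ∧ x ≤ v' l) :
    ∑ i ∈ t, (v i - u i) ≤ ∑ l ∈ s, (v' l - u' l) := by
  have h1 : volume (⋃ i ∈ t, Ioo (u i) (v i)) = ∑ i ∈ t, volume (Ioo (u i) (v i)) := by
    refine measure_biUnion_finset ?_ fun _ _ => measurableSet_Ioo
    intro i hi j hj hij
    refine Set.disjoint_left.2 fun x hx hx' => ?_
    rcases hsep i hi j hj hij with h | h
    · linarith [hx.2, hx'.1]
    · linarith [hx.1, hx'.2]
  have h2 : volume (⋃ i ∈ t, Ioo (u i) (v i)) ≤ ∑ l ∈ s, volume (Icc (u' l) (v' l)) := by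
    refine le_trans (measure_mono ?_) (measure_biUnion_finset_le _ _)
    intro x hx
    simp only [mem_iUnion] at hx ⊢
    obtain ⟨i, hi, hx⟩ := hx
    obtain ⟨l, hl, h⟩ := hcov i hi x hx.1 hx.2
    exact ⟨l, hl, h⟩
  rw [h1] at h2
  simp only [Real.volume_Ioo, Real.volume_Icc] at h2
  rw [← ENNReal.ofReal_sum_of_nonneg fun i hi => sub_nonneg.2 (huv i hi),
    ← ENNReal.ofReal_sum_of_nonneg fun i hi => sub_nonneg.2 (huv' i hi)] at h2
  exact (ENNReal.ofReal_le_ofReal_iff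
    (Finset.sum_nonneg fun i hi => sub_nonneg.2 (huv' i hi))).1 h2

lemma len_le_one {ι : Type*} (t : Finset ι) (u v : ι → ℝ) {a b : ℝ} (hab : a ≤ b)
    (huv : ∀ i ∈ t, u i ≤ v i)
    (hsep : ∀ i ∈ t, ∀ j ∈ t, i ≠ j → v i ≤ u j ∨ v j ≤ u i)
    (ha : ∀ i ∈ t, a ≤ u i) (hb : ∀ i ∈ t, v i ≤ b) :
    ∑ i ∈ t, (v i - u i) ≤ b - a := by
  have := len_le t ({()} : Finset Unit) u v (fun _ => a) (fun _ => b) huv (fun _ _ => hab) hsep
    (fun i hi x h1 h2 => ⟨(), Finset.mem_singleton_self _, by linarith [ha i hi],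
      by linarith [hb i hi]⟩)
  simpa using this

lemma sep_of_abs {c r c' r' : ℝ} (h : r + r' ≤ |c - c'|) : c + r ≤ c' - r' ∨ c' + r' ≤ c - r := by
  rcases le_abs'.1 h with h | h
  · left; linarith
  · right; linarith

lemma rad_sum_le {ι : Type*} (t : Finset ι) (c r : ι → ℝ) {a b : ℝ} (hab : a ≤ b)
    (hr : ∀ i ∈ t, 0 < r i) (hsep : ∀ i ∈ t, ∀ j ∈ t, i ≠ j → r i + r j ≤ |c i - c j|)
    (ha : ∀ i ∈ t, a ≤ c i - r i) (hb : ∀ i ∈ t, c i + r i ≤ b) :
    2 * ∑ i ∈ t, r i ≤ b - a := by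
  have := len_le_one t (fun i => c i - r i) (fun i => c i + r i) hab
    (fun i hi => by linarith [hr i hi]) (fun i hi j hj hij => sep_of_abs (hsep i hi j hj hij)) ha hb
  rw [Finset.mul_sum]
  refine le_trans (le_of_eq (Finset.sum_congr rfl fun i _ => by ring)) this

lemma neg_inv_mono {x y : ℝ} (hxy : x ≤ y) (h : 0 < x ∨ y < 0) : -x⁻¹ ≤ -y⁻¹ := by
  rw [neg_le_neg_iff]
  rcases h with h | h
  · exact inv_anti₀ h hxy
  · exact (inv_le_inv_of_neg h (lt_of_le_of_lt hxy h)).2 hxy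

/-- The sum of `r k / dist ^ 2` over intervals disjoint from a given one. -/
lemma sum_inv_sq {ι : Type*} (t : Finset ι) (c r : ι → ℝ) {c0 r0 : ℝ} (hr0 : 0 < r0)
    (hr : ∀ i ∈ t, 0 < r i) (hsep : ∀ i ∈ t, ∀ j ∈ t, i ≠ j → r i + r j ≤ |c i - c j|)
    (h0 : ∀ i ∈ t, r0 + r i ≤ |c0 - c i|) :
    ∑ i ∈ t, r i / (c0 - c i) ^ 2 ≤ 1 / r0 := by
  have hs : ∀ i ∈ t, r0 ≤ c i - c0 - r i ∨ c i - c0 + r i ≤ -r0 := fun i hi => by
    rcases sep_of_abs (h0 i hi) with h | h
    · left; linarith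
    · right; linarith
  have key := len_le_one t (fun i => -(c i - c0 - r i)⁻¹) (fun i => -(c i - c0 + r i)⁻¹)
    (a := -r0⁻¹) (b := r0⁻¹) (by have := inv_pos.2 hr0; linarith)
    (fun i hi => neg_inv_mono (by linarith [hr i hi]) (by
      rcases hs i hi with h | h
      · left; linarith
      · right; linarith))
    (fun i hi j hj hij => by
      have hi' := hr i hi
      have hj' := hr j hj
      rcases sep_of_abs (hsep i hi j hj hij) with h | h
      · rcases hs i hi with h1 | h1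
        · left; exact neg_inv_mono (by linarith) (Or.inl (by linarith))
        · rcases hs j hj with h2 | h2
          · right
            have e1 : 0 < (c j - c0 + r j)⁻¹ := inv_pos.2 (by linarith)
            have e2 : (c i - c0 - r i)⁻¹ < 0 := inv_lt_zero.2 (by linarith)
            linarith
          · left; exact neg_inv_mono (by linarith) (Or.inr (by linarith))
      · rcases hs j hj with h1 | h1
        · right; exact neg_inv_mono (by linarith) (Or.inl (by linarith))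
        · rcases hs i hi with h2 | h2
          · left
            have e1 : 0 < (c i - c0 + r i)⁻¹ := inv_pos.2 (by linarith)
            have e2 : (c j - c0 - r j)⁻¹ < 0 := inv_lt_zero.2 (by linarith)
            linarith
          · right; exact neg_inv_mono (by linarith) (Or.inr (by linarith)))
    (fun i hi => by
      have hi' := hr i hi
      rcases hs i hi with h | h
      · exact neg_inv_mono h (Or.inl hr0)
      · have e1 : 0 < r0⁻¹ := inv_pos.2 hr0
        have e2 : (c i - c0 - r i)⁻¹ < 0 := inv_lt_zero.2 (by linarith)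
        linarith)
    (fun i hi => by
      have hi' := hr i hi
      rcases hs i hi with h | h
      · have e1 : 0 < r0⁻¹ := inv_pos.2 hr0
        have e2 : 0 < (c i - c0 + r i)⁻¹ := inv_pos.2 (by linarith)
        linarith
      · have := neg_inv_mono h (Or.inr (by linarith))
        rwa [inv_neg, neg_neg] at this)
  have h2 : ∑ i ∈ t, 2 * (r i / (c0 - c i) ^ 2)
      ≤ ∑ i ∈ t, (-(c i - c0 + r i)⁻¹ - -(c i - c0 - r i)⁻¹) := by
    refine Finset.sum_le_sum fun i hi => ?_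
    have hi' := hr i hi
    have hp : 0 < (c i - c0 - r i) * (c i - c0 + r i) := by
      rcases hs i hi with h | h
      · exact mul_pos (by linarith) (by linarith)
      · exact mul_pos_of_neg_of_neg (by linarith) (by linarith)
    have e1 : c i - c0 - r i ≠ 0 := fun h => by rw [h] at hp; simp at hp
    have e2 : c i - c0 + r i ≠ 0 := fun h => by rw [h] at hp; simp at hp
    have e3 : -(c i - c0 + r i)⁻¹ - -(c i - c0 - r i)⁻¹
        = 2 * (r i / ((c i - c0 - r i) * (c i - c0 + r i))) := by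
      field_simp
      ring
    rw [e3]
    gcongr
    nlinarith
  rw [← Finset.mul_sum] at h2
  rw [one_div]
  linarith

end intervals

end Pool.Agent.P.MP_f981b0_an.TC.J
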