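import Pool.Agent.P.MP_f981b0_an.TC.GoodDefs
import Pool.Agent.P.MP_f981b0_an.R1.Loc

set_option autoImplicit false

noncomputable section

namespace Pool.Agent.P.MP_f981b0_an.TC

open MeasureTheory Metric Set Filter Topology
open scoped InnerProductSpace InnerProduct ComplexConjugate

/-- Cauchy transform of the vector measure with density `F`, carried to the plane by `a`. -/
def VT {X E : Type*} [MeasurableSpace X] [NormedAddCommGroup E] [NormedSpace ℂ E]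
    (τ : Measure X) (a : X → ℂ) (F : X → E) (z : ℂ) : E := ∫ x, (a x - z)⁻¹ • F x ∂τ

/-- Cauchy transform of a vector function against area measure. -/
def CV {E : Type*} [NormedAddCommGroup E] [NormedSpace ℂ E] (φ : ℂ → E) (ζ : ℂ) : E :=
  ∫ z, (ζ - z)⁻¹ • φ z

/-- Bounded strongly measurable vector functions vanishing outside the open unit disc. -/
structure VTest {E : Type*} [NormedAddCommGroup E] (φ : ℂ → E) (D : ℝ) : Prop where
  meas : StronglyMeasurable φ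
  bdd : ∀ z, ‖φ z‖ ≤ D
  supp : ∀ z, 1 ≤ ‖z‖ → φ z = 0

/-- Lower bound of an operator, truncated at `1`. -/
def lb {E F : Type*} [NormedAddCommGroup E] [NormedSpace ℂ E] [NormedAddCommGroup F]
    [NormedSpace ℂ F] (L : E →L[ℂ] F) : ℝ :=
  sSup {c : ℝ | 0 ≤ c ∧ c ≤ 1 ∧ ∀ d, c * ‖d‖ ≤ ‖L d‖}

/-- The scalar square function bound of `Good` on a fixed set. -/
def SB (w : ℂ → ℝ) (τ : Measure ℂ) (G : Set ℂ) (D : ℝ) : Prop :=
  ∀ (ι : Type) (s : Finset ι) (f : ι → ℂ → ℂ), (∀ i, Measurable (f i)) →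
    (∀ z, ∑ i ∈ s, ‖f i z‖ ^ 2 ≤ G.indicator 1 z) →
    ∑ i ∈ s, ∫ z, ‖R1.cauchy (fun x => f i x * w x) z‖ ^ 2 ∂τ ≤ D

/-- Spectral density of a square summable family of columns. -/
structure Model (X H G K : Type*) [TopologicalSpace X] [CompactSpace X] [MeasurableSpace X]
    [NormedAddCommGroup H] [InnerProductSpace ℂ H] [CompleteSpace H]
    [NormedAddCommGroup G] [InnerProductSpace ℂ G] [CompleteSpace G]
    [NormedAddCommGroup K] [InnerProductSpace ℂ K] [CompleteSpace K] where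
  Θ : C(X, ℂ) →⋆ₐ[ℂ] (H →L[ℂ] H)
  Z : G →L[ℂ] H
  τ : Measure X
  fin : IsFiniteMeasure τ
  B : H →L[ℂ] Lp G 2 τ
  Op : K →L[ℂ] (G →L[ℂ] G)
  Γ : X → K
  B_mul : ∀ f h, B (Θ f h) =ᵐ[τ] fun x => f x • B h x
  B_int : ∀ h, ∫ x, B h x ∂τ = (Z†) h
  compact_Op : ∀ A, IsCompactOperator (Op A)
  compact_Z : IsCompactOperator Z
  compact_ker : ∀ A : X → G →L[ℂ] H, MemLp A 2 τ → ∃ Y : H →L[ℂ] H, IsCompactOperator Y ∧
    ∀ h, Y h = ∫ x, A x (B h x) ∂τ
  Γ_meas : StronglyMeasurable Γ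
  Γ_int : Integrable Γ τ
  Γ_eq : ∀ d, B (Z d) =ᵐ[τ] fun x => Op (Γ x) d
  Γ_sa : ∀ᵐ x ∂τ, IsSelfAdjoint (Op (Γ x))
  tail : ∀ η : ℝ, 0 < η → ∃ (n : ℕ) (c : Fin n → G) (Q : G →L[ℂ] G) (Γ' : X → K),
    (∀ d, ‖Q d‖ ^ 2 ≤ ∑ j, ‖⟪c j, d⟫_ℂ‖ ^ 2) ∧ StronglyMeasurable Γ' ∧ Integrable Γ' τ ∧
    ∫ x, ‖Γ' x‖ ∂τ ≤ η ∧ ∀ x, Op (Γ x) = Op (Γ x) ∘L Q + Op (Γ' x)

attribute [instance] Model.fin

variable {X H G K : Type*} [TopologicalSpace X] [CompactSpace X] [MeasurableSpace X]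
  [NormedAddCommGroup H] [InnerProductSpace ℂ H] [CompleteSpace H]
  [NormedAddCommGroup G] [InnerProductSpace ℂ G] [CompleteSpace G]
  [NormedAddCommGroup K] [InnerProductSpace ℂ K] [CompleteSpace K]

/-- The perturbed operator. -/
def Model.T (m : Model X H G K) (a : C(X, ℂ)) (S : G →L[ℂ] G) : H →L[ℂ] H :=
  m.Θ a + m.Z ∘L S ∘L (m.Z†)

/-- A perturbation together with a projection commuting with it. -/
structure Sys (m : Model X H G K) where
  a : C(X, ℂ)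
  S : G →L[ℂ] G
  R : G →L[ℂ] G
  P : H →L[ℂ] H
  P_proj : IsStarProjection P
  PZ : P ∘L m.Z = m.Z ∘L R
  comm : P * m.T a S = m.T a S * P

namespace Sys

variable {m : Model X H G K} (s : Sys m)

/-- The operator `T`. -/
def T : H →L[ℂ] H := m.T s.a s.S

/-- The field `GG`. -/
def GG (z : ℂ) : K := VT m.τ s.a m.Γ z

/-- First component of the symbol. -/
def Th1 (A : K) : G →L[ℂ] G := 1 + s.S ∘L m.Op A

/-- Second component of the symbol. -/
def Th2 (A : K) : G →L[ℂ] G := (1 - s.R†) ∘L m.Op A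

/-- The symbol. -/
def Th (A : K) : G →L[ℂ] G × G := (s.Th1 A).prod (s.Th2 A)

/-- The weight. -/
def rho (z : ℂ) : ℝ := lb (s.Th (s.GG z))

/-- Hypothesis (H1). -/
def H1 : Prop := ∀ (w : ℂ) (x : H), s.P x = x → s.T x = w • x → x = 0

/-- Hypothesis (H2). -/
def H2 : Prop := ∀ d : G, ∀ᵐ z : ℂ, 0 < s.rho z → ∃ e, s.Th (s.GG z) e = (s.R d, 0)

/-- There is no nontrivial closed invariant subspace inside the range of `P`. -/
def Trans : Prop := ∀ M : Submodule ℂ H, IsClosed (M : Set H) → (∀ x ∈ M, s.P x = x) →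
  (∀ x ∈ M, s.T x ∈ M) → M = ⊥ ∨ ∀ x, s.P x = x → x ∈ M

end Sys

end Pool.Agent.P.MP_f981b0_an.TC
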