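import Pool.Agent.P.MP_f981b0_an.TC.PBStar
import Pool.Agent.P.MP_f981b0_an.R1.Kernel

set_option autoImplicit false

noncomputable section

namespace Pool.Agent.P.MP_f981b0_an.TC.PB

open MeasureTheory Metric Set Real
open scoped ComplexConjugate ENNReal

variable {μ : Measure ℂ} {K : ℝ}

/-- Pointwise curvature of a measure. -/
def kap (μ : Measure ℂ) (x : ℂ) : ℝ≥0∞ := ∫⁻ y, ∫⁻ z, ENNReal.ofReal (curv x y z ^ 2) ∂μ ∂μ

lemma measurable_curv_sq :
    Measurable fun p : ℂ × ℂ × ℂ => ENNReal.ofReal (curv p.1 p.2.1 p.2.2 ^ 2) :=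
  (measurable_curv.pow_const 2).ennreal_ofReal

lemma measurable_kap [SFinite μ] : Measurable (kap μ) := by
  have h1 : Measurable fun q : (ℂ × ℂ) × ℂ => ENNReal.ofReal (curv q.1.1 q.1.2 q.2 ^ 2) :=
    measurable_curv_sq.comp (f := fun q : (ℂ × ℂ) × ℂ => (q.1.1, q.1.2, q.2)) (by fun_prop)
  have h2 : Measurable fun q : ℂ × ℂ => ∫⁻ z, ENNReal.ofReal (curv q.1 q.2 z ^ 2) ∂μ :=
    h1.lintegral_prod_right'
  exact h2.lintegral_prod_right'

lemma norm_BB2_le (τ : Measure ℂ) {f g : ℂ → ℝ} (hg : Integrable g μ)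
    (h : ∀ x, |f x| * ‖CT μ f x‖ * ‖CM τ x‖ ≤ g x) : ‖BB2 μ τ f‖ ≤ ∫ x, g x ∂μ := by
  refine norm_integral_le_of_norm_le hg (Filter.Eventually.of_forall fun x => ?_)
  rw [norm_mul, norm_mul, Complex.norm_conj, Complex.norm_real, Real.norm_eq_abs]
  exact h x

lemma Tame.sq_CM [IsFiniteMeasure μ] (h : Tame μ K) {C : ℝ} (hC : 0 ≤ C)
    (hc : ∫⁻ x, kap μ x ∂μ ≤ ENNReal.ofReal C) : 6 * ∫ z, ‖CM μ z‖ ^ 2 ∂μ ≤ C := by
  have h1 := h.star ({()} : Finset Unit) (f := fun _ _ => 1) (fun _ => measurable_const)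
    (fun _ _ => by simp) μ
  simp only [Finset.sum_singleton, mul_one, abs_one, CT_one] at h1
  have h2 : (BB2 μ μ fun _ => 1).re = ∫ z, ‖CM μ z‖ ^ 2 ∂μ := by
    unfold BB2
    simp only [CT_one, Complex.ofReal_one, one_mul, Complex.mul_conj, Complex.normSq_eq_norm_sq]
    rw [integral_complex_ofReal, Complex.ofReal_re]
  have h3 : ∫⁻ z, ∫⁻ x, ∫⁻ y, ENNReal.ofReal (curv x y z ^ 2) ∂μ ∂μ ∂μ = ∫⁻ x, kap μ x ∂μ := by
    refine lintegral_congr fun z => lintegral_congr fun x => lintegral_congr fun y => ?_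
    rw [curv_swap12 x z y, curv_swap23]
  rw [h2, h3] at h1
  have := (ENNReal.ofReal_le_ofReal_iff hC).1 (h1.trans hc)
  linarith

lemma int_sq_of_bdd [IsFiniteMeasure μ] {f : ℂ → ℝ} (hf : Measurable f) (hb : ∀ x, |f x| ≤ 1) :
    Integrable (fun x => f x ^ 2) μ := by
  refine Integrable.of_bound (hf.pow_const 2).aestronglyMeasurable 1
    (Filter.Eventually.of_forall fun x => ?_)
  rw [Real.norm_eq_abs, abs_pow]
  exact pow_le_one₀ (abs_nonneg _) (hb x)

lemma Tame.L2bound [IsFiniteMeasure μ] (h : Tame μ K) {G : Set ℂ} {M1 M2 : ℝ} (hM1 : 0 ≤ M1)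
    (hG1 : ∀ x ∈ G, kap μ x ≤ ENNReal.ofReal M1) (hG2 : ∀ x ∈ G, ‖CM μ x‖ ≤ M2)
    {f : ℂ → ℝ} (hf : Measurable f) (hb : ∀ x, |f x| ≤ 1) (hs : ∀ x, f x ≠ 0 → x ∈ G) :
    ∫ z, ‖CT μ f z‖ ^ 2 ∂μ ≤ (M1 + 4 * M2 ^ 2) * ∫ x, f x ^ 2 ∂μ := by
  have h1 := h.star ({()} : Finset Unit) (f := fun _ => f) (fun _ => hf) (fun _ => hb) μ
  simp only [Finset.sum_singleton] at h1
  have hF := int_sq_of_bdd (μ := μ) hf hb
  have hF0 : 0 ≤ ∫ x, f x ^ 2 ∂μ := integral_nonneg fun x => sq_nonneg _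
  set P : ℂ → ℂ → ℂ → ℝ≥0∞ := fun z x y =>
    ENNReal.ofReal (f x ^ 2 / 2) * ENNReal.ofReal (curv x y z ^ 2) with hP
  have mP : Measurable fun p : ℂ × ℂ × ℂ => P p.1 p.2.1 p.2.2 := by
    have := measurable_curv_sq.comp (f := fun p : ℂ × ℂ × ℂ => (p.2.1, p.2.2, p.1)) (by fun_prop)
    exact Measurable.mul (by fun_prop) this
  have mP' : Measurable fun p : ℂ × ℂ × ℂ => P p.1 p.2.2 p.2.1 :=
    mP.comp (f := fun p : ℂ × ℂ × ℂ => (p.1, p.2.2, p.2.1)) (by fun_prop)
  have hP1 : ∫⁻ z, ∫⁻ x, ∫⁻ y, P z x y ∂μ ∂μ ∂μ ≤ ENNReal.ofReal (M1 / 2 * ∫ x, f x ^ 2 ∂μ) := by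
    rw [lswap12 _ _ _ mP, ← integral_const_mul, ofReal_integral_eq_lintegral_ofReal
      (hF.const_mul _) (Filter.Eventually.of_forall fun x => by positivity)]
    refine lintegral_mono fun x => ?_
    have e : ∫⁻ z, ∫⁻ y, P z x y ∂μ ∂μ = ENNReal.ofReal (f x ^ 2 / 2) * kap μ x := by
      unfold kap
      rw [← lintegral_const_mul' _ _ ENNReal.ofReal_ne_top]
      refine lintegral_congr fun z => ?_
      rw [← lintegral_const_mul' _ _ ENNReal.ofReal_ne_top]
      refine lintegral_congr fun y => ?_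
      simp only [hP]
      rw [curv_swap23]
    rw [e]
    by_cases hx : f x = 0
    · simp [hx]
    · calc _ ≤ ENNReal.ofReal (f x ^ 2 / 2) * ENNReal.ofReal M1 := by
            gcongr
            exact hG1 x (hs x hx)
        _ = _ := by
            rw [← ENNReal.ofReal_mul (by positivity)]
            congr 1
            ring
  have h2 : ∫⁻ z, ∫⁻ x, ∫⁻ y, ENNReal.ofReal (curv x y z ^ 2 * |f x * f y|) ∂μ ∂μ ∂μ
      ≤ ENNReal.ofReal (M1 * ∫ x, f x ^ 2 ∂μ) := by
    calc _ ≤ ∫⁻ z, ∫⁻ x, ∫⁻ y, (P z x y + P z y x) ∂μ ∂μ ∂μ := by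
          refine lintegral_mono fun z => lintegral_mono fun x => lintegral_mono fun y => ?_
          simp only [hP]
          rw [curv_swap12 x y z, ← ENNReal.ofReal_mul (by positivity),
            ← ENNReal.ofReal_mul (by positivity),
            ← ENNReal.ofReal_add (by positivity) (by positivity)]
          apply ENNReal.ofReal_le_ofReal
          have : |f x * f y| ≤ f x ^ 2 / 2 + f y ^ 2 / 2 := by
            rw [abs_le]
            constructor <;> nlinarith [sq_nonneg (f x + f y), sq_nonneg (f x - f y)]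
          nlinarith [sq_nonneg (curv x y z)]
      _ = (∫⁻ z, ∫⁻ x, ∫⁻ y, P z x y ∂μ ∂μ ∂μ) + ∫⁻ z, ∫⁻ x, ∫⁻ y, P z x y ∂μ ∂μ ∂μ := by
          rw [ladd3 _ _ _ (G := fun z x y => P z y x) mP',
            lswap23 _ _ _ (F := fun z x y => P z y x) mP']
      _ ≤ ENNReal.ofReal (M1 / 2 * ∫ x, f x ^ 2 ∂μ)
          + ENNReal.ofReal (M1 / 2 * ∫ x, f x ^ 2 ∂μ) := add_le_add hP1 hP1
      _ = _ := by
          rw [← ENNReal.ofReal_add (by positivity) (by positivity)]
          congr 1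
          ring
  have h3 := (ENNReal.ofReal_le_ofReal_iff (by positivity)).1 (h1.trans h2)
  have hY := h.int_sq hf hb μ
  have h4 : ‖BB2 μ μ f‖ ≤ ∫ x, (M2 ^ 2 * f x ^ 2 + 1 / 4 * ‖CT μ f x‖ ^ 2) ∂μ := by
    refine norm_BB2_le μ ((hF.const_mul _).add (hY.const_mul _)) fun x => ?_
    by_cases hx : f x = 0
    · simp only [hx, abs_zero, zero_mul]
      positivity
    · have a1 := hG2 x (hs x hx)
      have a2 : |f x| * ‖CT μ f x‖ * ‖CM μ x‖ ≤ |f x| * ‖CT μ f x‖ * M2 := by gcongr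
      have a3 := sq_nonneg (M2 * |f x| - ‖CT μ f x‖ / 2)
      have a4 := sq_abs (f x)
      nlinarith
  rw [integral_add (hF.const_mul _) (hY.const_mul _), integral_const_mul, integral_const_mul] at h4
  have h5 := (abs_le.1 (Complex.abs_re_le_norm (BB2 μ μ f))).1
  linarith

lemma far_bound {C : ℝ} (hC : 0 ≤ C)
    (hg : ∀ z r, 0 < r → μ (ball z r) ≤ ENNReal.ofReal (C * r)) (z : ℂ) {r : ℝ} (hr : 0 < r) :
    ∫⁻ y, ENNReal.ofReal ((max r ‖y - z‖)⁻¹ ^ 2) ∂μ ≤ ENNReal.ofReal (2 * C * r⁻¹) := by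
  rw [lintegral_eq_lintegral_meas_lt μ (Filter.Eventually.of_forall fun y => by positivity)
    (by fun_prop : Measurable fun y : ℂ => (max r ‖y - z‖)⁻¹ ^ 2).aemeasurable]
  have hc : 0 < r⁻¹ ^ 2 := by positivity
  calc _ ≤ ∫⁻ t in Ioi (0 : ℝ), (Ioo (r⁻¹ ^ 2 * 0) (r⁻¹ ^ 2 * 1)).indicator
        (fun t => ENNReal.ofReal (C * (√t)⁻¹)) t := by
        refine setLIntegral_mono' measurableSet_Ioi fun t ht => ?_
        have ht0 : 0 < t := ht
        have hst : 0 < √t := Real.sqrt_pos.2 ht0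
        by_cases h1 : t ∈ Ioo (r⁻¹ ^ 2 * 0) (r⁻¹ ^ 2 * 1)
        · rw [indicator_of_mem h1]
          refine le_trans (measure_mono fun y hy => ?_) (hg z _ (inv_pos.2 hst))
          have hm : 0 < max r ‖y - z‖ := lt_max_of_lt_left hr
          have h2 : √t < (max r ‖y - z‖)⁻¹ := by
            rw [Real.sqrt_lt' (inv_pos.2 hm)]
            exact hy
          rw [mem_ball, dist_eq_norm]
          exact lt_of_le_of_lt (le_max_right _ _) ((lt_inv_comm₀ hm hst).2 h2)
        · rw [indicator_of_notMem h1]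
          have : {a : ℂ | t < (max r ‖a - z‖)⁻¹ ^ 2} = ∅ := by
            refine eq_empty_of_forall_notMem fun y hy => h1 ⟨by simpa using ht0, ?_⟩
            have h3 : (max r ‖y - z‖)⁻¹ ^ 2 ≤ r⁻¹ ^ 2 := by
              gcongr
              exact le_max_left _ _
            rw [mul_one]
            exact lt_of_lt_of_le hy h3
          rw [this, measure_empty]
    _ ≤ ∫⁻ t in Ioo (r⁻¹ ^ 2 * 0) (r⁻¹ ^ 2 * 1), ENNReal.ofReal (C * (√t)⁻¹) := by
        rw [← lintegral_indicator measurableSet_Ioo]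
        exact setLIntegral_le_lintegral _ _
    _ = ∫⁻ t in Ioo (0 : ℝ) 1, ENNReal.ofReal (C * r⁻¹) * ENNReal.ofReal (√t)⁻¹ := by
        rw [lint_scale _ 0 1 hc]
        refine setLIntegral_congr_fun measurableSet_Ioo fun t ht => ?_
        rw [← ENNReal.ofReal_mul hc.le, ← ENNReal.ofReal_mul (by positivity),
          Real.sqrt_mul hc.le, Real.sqrt_sq (inv_pos.2 hr).le]
        congr 1
        field_simp
    _ ≤ ENNReal.ofReal (C * r⁻¹) * ENNReal.ofReal 2 := by
        rw [lintegral_const_mul _ (by fun_prop)]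
        gcongr
        exact lint_sqrt_inv
    _ = _ := by
        rw [← ENNReal.ofReal_mul (by positivity)]
        congr 1
        ring

lemma pot_ball {B : ℝ} (hB : 0 ≤ B) (hμ : μ ≤ ENNReal.ofReal B • volume) (z : ℂ) {r : ℝ}
    (hr : 0 ≤ r) :
    ∫⁻ x in ball z r, ‖(x - z)⁻¹‖ₑ ∂μ ≤ ENNReal.ofReal (B * (2 * π * r)) := by
  calc _ ≤ ∫⁻ x in ball z r, ‖(x - z)⁻¹‖ₑ ∂(ENNReal.ofReal B • volume) :=
        lintegral_mono' (Measure.restrict_mono le_rfl hμ) le_rfl
    _ = ENNReal.ofReal B * ∫⁻ x in ball z r, ENNReal.ofReal ‖x - z‖⁻¹ := by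
        rw [Measure.restrict_smul, lintegral_smul_measure, smul_eq_mul]
        simp_rw [← norm_inv, ofReal_norm]
    _ = _ := by
        rw [← ofReal_integral_eq_lintegral_ofReal (R1.intOn_self z r)
          (Filter.Eventually.of_forall fun x => by positivity), R1.int_self z hr,
          ← ENNReal.ofReal_mul hB]

lemma tame_of_le {B : ℝ} (hB : 0 ≤ B) (hμ : μ ≤ ENNReal.ofReal B • volume) (h1 : μ univ ≤ 1) :
    Tame μ (B * (2 * π * 1) + 1) := by
  refine ⟨by positivity, fun z => ?_, fun z => ?_⟩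
  · rw [← lintegral_add_compl _ (measurableSet_ball (x := z) (ε := 1)),
      ENNReal.ofReal_add (by positivity) zero_le_one]
    refine add_le_add (pot_ball hB hμ z zero_le_one) ?_
    calc _ ≤ ∫⁻ _ in (ball z 1)ᶜ, 1 ∂μ := by
          refine setLIntegral_mono' measurableSet_ball.compl fun x hx => ?_
          rw [← ofReal_norm, norm_inv]
          refine ENNReal.ofReal_le_one.2 (inv_le_one_of_one_le₀ ?_)
          simpa [mem_ball, dist_eq_norm] using hx
      _ ≤ _ := by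
          rw [setLIntegral_const, one_mul, ENNReal.ofReal_one]
          exact (measure_mono (subset_univ _)).trans h1
  · refine le_antisymm ((Measure.le_iff'.1 hμ _).trans ?_) bot_le
    simp

lemma near_exists {B C : ℝ} (hB : 0 ≤ B) (hC : 0 < C) (hμ : μ ≤ ENNReal.ofReal B • volume)
    (hg : ∀ z r, 0 < r → μ (ball z r) ≤ ENNReal.ofReal (C * r)) {G : Set ℂ}
    (hGm : MeasurableSet G) (hG : G.Nonempty) (z : ℂ) :
    ∃ δ : ℝ, 0 < δ ∧ ∃ z' ∈ G, ‖z - z'‖ ≤ δ ∧
      ∫⁻ x in G ∩ ball z (4 * δ), ‖(x - z)⁻¹‖ₑ ∂μ ≤ ENNReal.ofReal (8 * C) := by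
  rcases (infDist_nonneg (x := z) (s := G)).eq_or_lt with h0 | h0
  · have hδ : 0 < C / (π * (B + 1)) := by positivity
    obtain ⟨z', hz', hd⟩ := (infDist_lt_iff hG).1 (h0 ▸ hδ : infDist z G < C / (π * (B + 1)))
    refine ⟨_, hδ, z', hz', by rw [← dist_eq_norm]; exact hd.le, ?_⟩
    refine (lintegral_mono_set inter_subset_right).trans ((pot_ball hB hμ z (by positivity)).trans
      (ENNReal.ofReal_le_ofReal ?_))
    have : B * (2 * π * (4 * (C / (π * (B + 1))))) = 8 * C * (B / (B + 1)) := by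
      field_simp
      ring
    rw [this]
    refine mul_le_of_le_one_right (by positivity) ?_
    rw [div_le_one (by positivity)]
    linarith
  · set d := infDist z G with hd
    obtain ⟨z', hz', hd'⟩ := (infDist_lt_iff hG).1 (show infDist z G < 2 * d by linarith)
    refine ⟨2 * d, by positivity, z', hz', by rw [← dist_eq_norm]; exact hd'.le, ?_⟩
    calc _ ≤ ∫⁻ _ in G ∩ ball z (4 * (2 * d)), ENNReal.ofReal d⁻¹ ∂μ := by
          refine setLIntegral_mono' (hGm.inter measurableSet_ball) fun x hx => ?_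
          rw [← ofReal_norm, norm_inv]
          apply ENNReal.ofReal_le_ofReal
          have : d ≤ ‖x - z‖ := by
            rw [← dist_eq_norm, dist_comm]
            exact infDist_le_dist_of_mem hx.1
          gcongr
      _ ≤ ENNReal.ofReal d⁻¹ * ENNReal.ofReal (C * (4 * (2 * d))) := by
          rw [setLIntegral_const]
          gcongr
          exact (measure_mono inter_subset_right).trans (hg z _ (by positivity))
      _ = _ := by
          rw [← ENNReal.ofReal_mul (by positivity)]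
          congr 1
          field_simp
          ring

lemma curv_le (x y z : ℂ) : curv x y z ≤ 2 * ‖x - y‖⁻¹ := by
  unfold curv
  by_cases h1 : ‖x - y‖ * ‖y - z‖ * ‖z - x‖ = 0
  · rw [h1, div_zero]
    positivity
  · have a : ‖x - y‖ ≠ 0 := fun h => h1 (by simp [h])
    have hp : 0 < ‖x - y‖ * ‖y - z‖ * ‖z - x‖ := lt_of_le_of_ne (by positivity) (Ne.symm h1)
    rw [div_le_iff₀ hp]
    have h2 := Complex.abs_im_le_norm ((x - z) * conj (y - z))
    rw [norm_mul, Complex.norm_conj, norm_sub_rev x z] at h2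
    have : 2 * ‖x - y‖⁻¹ * (‖x - y‖ * ‖y - z‖ * ‖z - x‖) = 2 * (‖z - x‖ * ‖y - z‖) := by
      field_simp
    rw [this]
    linarith

lemma curv_sq_le_max (x y z : ℂ) : curv x y z ^ 2 ≤ 4 * (max ‖x - z‖ ‖y - z‖)⁻¹ ^ 2 := by
  have h : curv x y z ≤ 2 * (max ‖x - z‖ ‖y - z‖)⁻¹ := by
    rcases le_total ‖x - z‖ ‖y - z‖ with h | h
    · rw [max_eq_right h, ← curv_swap12, ← curv_swap23]
      exact curv_le _ _ _
    · rw [max_eq_left h, ← curv_swap23]
      exact curv_le _ _ _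
  have := curv_nonneg x y z
  nlinarith

lemma curv_far {x y z z' : ℂ} {δ : ℝ} (hδ : 0 < δ) (hz : ‖z - z'‖ ≤ δ) (hx : 4 * δ ≤ ‖x - z‖)
    (hy : 4 * δ ≤ ‖y - z‖) :
    curv x y z ^ 2 ≤ 5 * curv z' x y ^ 2
      + 8 * δ ^ 2 * ((max (4 * δ) ‖x - z‖)⁻¹ ^ 2 * (max (4 * δ) ‖y - z‖)⁻¹ ^ 2) := by
  rw [max_eq_right hx, max_eq_right hy, ← curv_swap12 z' x y, ← curv_swap23 x z' y]
  by_cases hxy : x = y
  · subst hxy
    have : curv x x z = 0 := by simp [curv]
    rw [this]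
    nlinarith [sq_nonneg (curv x x z'), mul_nonneg (sq_nonneg δ)
      (mul_nonneg (sq_nonneg ‖x - z‖⁻¹) (sq_nonneg ‖x - z‖⁻¹))]
  have pa : 0 < ‖x - y‖ := norm_pos_iff.2 (sub_ne_zero.2 hxy)
  have pb : 0 < ‖y - z‖ := by linarith
  have pc : 0 < ‖x - z‖ := by linarith
  have t1 : ‖y - z'‖ ≤ 5 / 4 * ‖y - z‖ := by
    have := norm_sub_le_norm_sub_add_norm_sub y z z'
    linarith
  have t2 : ‖z' - x‖ ≤ 5 / 4 * ‖x - z‖ := by
    have := norm_sub_le_norm_sub_add_norm_sub x z z'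
    rw [norm_sub_rev z' x]
    linarith
  have t3 : 0 < ‖y - z'‖ := by
    have := norm_sub_le_norm_sub_add_norm_sub y z' z
    rw [norm_sub_rev z' z] at this
    linarith
  have t4 : 0 < ‖z' - x‖ := by
    have := norm_sub_le_norm_sub_add_norm_sub x z' z
    rw [norm_sub_rev z' z, norm_sub_rev x z'] at this
    linarith
  have hD : |((x - z) * conj (y - z)).im| ≤ |((x - z') * conj (y - z')).im| + ‖x - y‖ * δ := by
    have e : ((x - z) * conj (y - z)).im
        = ((x - z') * conj (y - z')).im - ((x - y) * conj (z - z')).im := by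
      simp only [Complex.mul_im, Complex.sub_re, Complex.sub_im, Complex.conj_re, Complex.conj_im]
      ring
    have h2 := Complex.abs_im_le_norm ((x - y) * conj (z - z'))
    rw [norm_mul, Complex.norm_conj] at h2
    rw [e]
    refine (abs_sub _ _).trans (add_le_add le_rfl (h2.trans ?_))
    gcongr
  have hc : curv x y z ≤ 25 / 16 * curv x y z' + 2 * δ * (‖x - z‖⁻¹ * ‖y - z‖⁻¹) := by
    unfold curv
    rw [norm_sub_rev z x]
    set D' := |((x - z') * conj (y - z')).im| with hD'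
    have hD0 : 0 ≤ D' := abs_nonneg _
    calc _ ≤ 2 * (D' + ‖x - y‖ * δ) / (‖x - y‖ * ‖y - z‖ * ‖x - z‖) := by gcongr
      _ = 25 / 16 * (2 * D' / (‖x - y‖ * (5 / 4 * ‖y - z‖) * (5 / 4 * ‖x - z‖)))
          + 2 * δ * (‖x - z‖⁻¹ * ‖y - z‖⁻¹) := by
          field_simp
          ring
      _ ≤ _ := by gcongr
  have h0 := curv_nonneg x y z
  have h0' := curv_nonneg x y z'
  set u := 2 * δ * (‖x - z‖⁻¹ * ‖y - z‖⁻¹) with hu
  have hu0 : 0 ≤ u := by positivity
  have e : 8 * δ ^ 2 * (‖x - z‖⁻¹ ^ 2 * ‖y - z‖⁻¹ ^ 2) = 2 * u ^ 2 := by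
    rw [hu]
    ring
  rw [e]
  have : curv x y z ^ 2 ≤ (25 / 16 * curv x y z' + u) ^ 2 := by gcongr
  nlinarith [sq_nonneg (25 / 16 * curv x y z' - u)]

lemma ladd2 [SFinite μ] {F G : ℂ → ℂ → ℝ≥0∞} (hG : Measurable fun p : ℂ × ℂ => G p.1 p.2) :
    ∫⁻ x, ∫⁻ y, (F x y + G x y) ∂μ ∂μ
      = (∫⁻ x, ∫⁻ y, F x y ∂μ ∂μ) + ∫⁻ x, ∫⁻ y, G x y ∂μ ∂μ := by
  have h2 : Measurable fun x : ℂ => ∫⁻ y, G x y ∂μ := hG.lintegral_prod_right'
  rw [← lintegral_add_right _ h2]
  refine lintegral_congr fun x => ?_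
  exact lintegral_add_right _ (hG.comp (f := fun y : ℂ => (x, y)) (by fun_prop))

lemma kappa_bound [SFinite μ] (h : Tame μ K) {B C M1 : ℝ} (hB : 0 ≤ B) (hC : 0 < C) (hM1 : 0 ≤ M1)
    (hμ : μ ≤ ENNReal.ofReal B • volume)
    (hg : ∀ z r, 0 < r → μ (ball z r) ≤ ENNReal.ofReal (C * r)) {G : Set ℂ}
    (hGm : MeasurableSet G) (hG1 : ∀ x ∈ G, kap μ x ≤ ENNReal.ofReal M1) {g : ℂ → ℂ → ℝ}
    (hg1 : ∀ x y, |g x y| ≤ 1) (hg2 : ∀ x y, g x y ≠ 0 → x ∈ G ∧ y ∈ G) (z : ℂ) :
    ∫⁻ x, ∫⁻ y, ENNReal.ofReal (curv x y z ^ 2 * |g x y|) ∂μ ∂μ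
      ≤ ENNReal.ofReal (5 * M1 + 130 * C ^ 2) := by
  rcases G.eq_empty_or_nonempty with hG | hG
  · have : ∀ x y, g x y = 0 := fun x y => by
      by_contra hne
      simpa [hG] using (hg2 x y hne).1
    simp [this]
  obtain ⟨δ, hδ, z', hz', hzz, hN⟩ := near_exists hB hC hμ hg hGm hG z
  set N := G ∩ ball z (4 * δ) with hNdef
  have hNm : MeasurableSet N := hGm.inter measurableSet_ball
  set a : ℂ → ℝ≥0∞ := fun x => ENNReal.ofReal ((max (4 * δ) ‖x - z‖)⁻¹ ^ 2) with ha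
  have ma : Measurable a := by fun_prop
  set Q : ℂ → ℂ → ℝ≥0∞ := fun x y => N.indicator (fun _ => 4) x *
    ENNReal.ofReal ((max ‖x - z‖ ‖y - z‖)⁻¹ ^ 2) with hQ
  have mQ : Measurable fun p : ℂ × ℂ => Q p.1 p.2 :=
    Measurable.mul ((measurable_const.indicator hNm).comp measurable_fst) (by fun_prop)
  have mQ' : Measurable fun p : ℂ × ℂ => Q p.2 p.1 := mQ.comp measurable_swap
  have hQ1 : ∫⁻ x, ∫⁻ y, Q x y ∂μ ∂μ ≤ ENNReal.ofReal (64 * C ^ 2) := by
    calc _ ≤ ∫⁻ x, N.indicator (fun x => ENNReal.ofReal (8 * C) * ‖(x - z)⁻¹‖ₑ) x ∂μ := by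
          refine lintegral_mono_ae ?_
          filter_upwards [h.ae_ne z] with x hx
          simp only [hQ]
          rw [lintegral_const_mul _ (by fun_prop)]
          by_cases hxN : x ∈ N
          · rw [indicator_of_mem hxN, indicator_of_mem hxN]
            calc _ ≤ 4 * ENNReal.ofReal (2 * C * ‖x - z‖⁻¹) := by
                  gcongr
                  exact far_bound hC.le hg z (norm_pos_iff.2 (sub_ne_zero.2 hx))
              _ = _ := by
                  rw [← ofReal_norm, norm_inv, ← ENNReal.ofReal_mul (by positivity),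
                    show (4 : ℝ≥0∞) = ENNReal.ofReal 4 by simp,
                    ← ENNReal.ofReal_mul (by positivity)]
                  congr 1
                  ring
          · rw [indicator_of_notMem hxN, zero_mul]
            exact bot_le
      _ = ENNReal.ofReal (8 * C) * ∫⁻ x in N, ‖(x - z)⁻¹‖ₑ ∂μ := by
          rw [lintegral_indicator hNm, lintegral_const_mul _ (by fun_prop)]
      _ ≤ ENNReal.ofReal (8 * C) * ENNReal.ofReal (8 * C) := by gcongr
      _ = _ := by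
          rw [← ENNReal.ofReal_mul (by positivity)]
          congr 1
          ring
  have hQ2 : ∫⁻ x, ∫⁻ y, Q y x ∂μ ∂μ = ∫⁻ x, ∫⁻ y, Q x y ∂μ ∂μ :=
    lintegral_lintegral_swap (f := fun x y => Q y x) mQ'.aemeasurable
  have ha1 : ∫⁻ x, a x ∂μ ≤ ENNReal.ofReal (2 * C * (4 * δ)⁻¹) :=
    far_bound hC.le hg z (by positivity)
  have hA : ∫⁻ x, ∫⁻ y, ENNReal.ofReal (8 * δ ^ 2) * (a x * a y) ∂μ ∂μ
      ≤ ENNReal.ofReal (2 * C ^ 2) := by
    simp_rw [lintegral_const_mul' _ _ ENNReal.ofReal_ne_top, lintegral_const_mul _ ma]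
    rw [lintegral_mul_const _ ma]
    calc _ ≤ ENNReal.ofReal (8 * δ ^ 2) * (ENNReal.ofReal (2 * C * (4 * δ)⁻¹)
          * ENNReal.ofReal (2 * C * (4 * δ)⁻¹)) := by gcongr
      _ = _ := by
          rw [← ENNReal.ofReal_mul (by positivity), ← ENNReal.ofReal_mul (by positivity)]
          congr 1
          field_simp
          ring
  have hK : ∫⁻ x, ∫⁻ y, ENNReal.ofReal 5 * ENNReal.ofReal (curv z' x y ^ 2) ∂μ ∂μ
      ≤ ENNReal.ofReal (5 * M1) := by
    simp_rw [lintegral_const_mul' _ _ ENNReal.ofReal_ne_top]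
    rw [ENNReal.ofReal_mul (by norm_num)]
    gcongr
    exact hG1 z' hz'
  calc _ ≤ ∫⁻ x, ∫⁻ y, (ENNReal.ofReal 5 * ENNReal.ofReal (curv z' x y ^ 2)
        + ENNReal.ofReal (8 * δ ^ 2) * (a x * a y) + Q x y + Q y x) ∂μ ∂μ := by
        refine lintegral_mono fun x => lintegral_mono fun y => ?_
        by_cases h0 : g x y = 0
        · simp [h0]
        obtain ⟨hxG, hyG⟩ := hg2 x y h0
        have b1 : ENNReal.ofReal (curv x y z ^ 2 * |g x y|) ≤ ENNReal.ofReal (curv x y z ^ 2) :=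
          ENNReal.ofReal_le_ofReal (mul_le_of_le_one_right (sq_nonneg _) (hg1 x y))
        refine b1.trans ?_
        have b2 : ENNReal.ofReal (curv x y z ^ 2)
            ≤ 4 * ENNReal.ofReal ((max ‖x - z‖ ‖y - z‖)⁻¹ ^ 2) := by
          rw [show (4 : ℝ≥0∞) = ENNReal.ofReal 4 by simp, ← ENNReal.ofReal_mul (by positivity)]
          exact ENNReal.ofReal_le_ofReal (curv_sq_le_max x y z)
        by_cases hx : x ∈ ball z (4 * δ)
        · refine le_add_right (le_add_left ?_)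
          simp only [hQ]
          rw [indicator_of_mem (show x ∈ N from ⟨hxG, hx⟩)]
          exact b2
        by_cases hy : y ∈ ball z (4 * δ)
        · refine le_add_left ?_
          simp only [hQ]
          rw [indicator_of_mem (show y ∈ N from ⟨hyG, hy⟩), max_comm]
          exact b2
        refine le_add_right (le_add_right ?_)
        simp only [ha]
        rw [← ENNReal.ofReal_mul (by positivity), ← ENNReal.ofReal_mul (by positivity),
          ← ENNReal.ofReal_mul (by positivity),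
          ← ENNReal.ofReal_add (by positivity) (by positivity)]
        rw [mem_ball, dist_eq_norm, not_lt] at hx hy
        exact ENNReal.ofReal_le_ofReal (curv_far hδ hzz hx hy)
    _ ≤ ENNReal.ofReal (5 * M1) + ENNReal.ofReal (2 * C ^ 2) + ENNReal.ofReal (64 * C ^ 2)
        + ENNReal.ofReal (64 * C ^ 2) := by
        rw [ladd2 (G := fun x y => Q y x) mQ', ladd2 mQ,
          ladd2 (G := fun x y => ENNReal.ofReal (8 * δ ^ 2) * (a x * a y)) (by fun_prop), hQ2]
        gcongr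
    _ = _ := by
        rw [← ENNReal.ofReal_add (by positivity) (by positivity),
          ← ENNReal.ofReal_add (by positivity) (by positivity),
          ← ENNReal.ofReal_add (by positivity) (by positivity)]
        congr 1
        ring

end Pool.Agent.P.MP_f981b0_an.TC.PB
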