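import Pool.Agent.P.MP_f981b0_an.TC.GoodDefs
import Pool.Agent.P.MP_f981b0_an.TC.LC

set_option autoImplicit false

noncomputable section

namespace Pool.Agent.P.MP_f981b0_an.TC.PB

open MeasureTheory Metric Set
open scoped ComplexConjugate ENNReal

/-- Cauchy transform of `f dμ` for real `f`. -/
def CT (μ : Measure ℂ) (f : ℂ → ℝ) (z : ℂ) : ℂ := ∫ x, (f x : ℂ) * (x - z)⁻¹ ∂μ

/-- Cauchy transform of a measure. -/
def CM (τ : Measure ℂ) (x : ℂ) : ℂ := ∫ z, (z - x)⁻¹ ∂τ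

/-- Measures with a uniformly bounded Newtonian potential and no atoms. -/
structure Tame (μ : Measure ℂ) (K : ℝ) : Prop where
  nonneg : 0 ≤ K
  pot : ∀ z, ∫⁻ x, ‖(x - z)⁻¹‖ₑ ∂μ ≤ ENNReal.ofReal K
  atom : ∀ z, μ {z} = 0

lemma curv_nonneg (x y z : ℂ) : 0 ≤ curv x y z := by
  unfold curv
  positivity

lemma curv_swap12 (x y z : ℂ) : curv y x z = curv x y z := by
  unfold curv
  have h : ((y - z) * conj (x - z)).im = -((x - z) * conj (y - z)).im := by
    simp only [Complex.mul_im, Complex.sub_re, Complex.sub_im, Complex.conj_re, Complex.conj_im]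
    ring
  rw [h, abs_neg, norm_sub_rev y x, norm_sub_rev x z, norm_sub_rev z y]
  ring

lemma curv_swap23 (x y z : ℂ) : curv x z y = curv x y z := by
  unfold curv
  have h : ((x - y) * conj (z - y)).im = -((x - z) * conj (y - z)).im := by
    simp only [Complex.mul_im, Complex.sub_re, Complex.sub_im, Complex.conj_re, Complex.conj_im]
    ring
  rw [h, abs_neg, norm_sub_rev x z, norm_sub_rev z y, norm_sub_rev y x]
  ring

lemma measurable_curv : Measurable fun p : ℂ × ℂ × ℂ => curv p.1 p.2.1 p.2.2 := by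
  unfold curv
  have : Measurable fun p : ℂ × ℂ × ℂ => ((p.1 - p.2.2) * conj (p.2.1 - p.2.2)).im :=
    Continuous.measurable (by fun_prop)
  fun_prop

lemma re_inv_mul_conj_inv (u v : ℂ) :
    (u⁻¹ * conj v⁻¹).re = (u.re * v.re + u.im * v.im) / (Complex.normSq u * Complex.normSq v) := by
  simp only [Complex.mul_re, Complex.conj_re, Complex.conj_im, Complex.inv_re, Complex.inv_im]
  ring

lemma curv_sq {x y z : ℂ} (hxy : x ≠ y) (hyz : y ≠ z) (hzx : z ≠ x) :
    curv x y z ^ 2 = 2 * ((x - z)⁻¹ * conj (y - z)⁻¹).re + 2 * ((y - x)⁻¹ * conj (z - x)⁻¹).re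
      + 2 * ((x - y)⁻¹ * conj (z - y)⁻¹).re := by
  have n1 : Complex.normSq (x - y) ≠ 0 := by simpa [sub_eq_zero] using hxy
  have n2 : Complex.normSq (y - z) ≠ 0 := by simpa [sub_eq_zero] using hyz
  have n3 : Complex.normSq (z - x) ≠ 0 := by simpa [sub_eq_zero] using hzx
  have e1 : Complex.normSq (y - x) = Complex.normSq (x - y) := by
    rw [← Complex.normSq_neg, neg_sub]
  have e2 : Complex.normSq (z - y) = Complex.normSq (y - z) := by
    rw [← Complex.normSq_neg, neg_sub]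
  have e3 : Complex.normSq (x - z) = Complex.normSq (z - x) := by
    rw [← Complex.normSq_neg, neg_sub]
  unfold curv
  rw [re_inv_mul_conj_inv, re_inv_mul_conj_inv, re_inv_mul_conj_inv, e1, e2, e3, div_pow, mul_pow,
    mul_pow, mul_pow, sq_abs, ← Complex.normSq_eq_norm_sq, ← Complex.normSq_eq_norm_sq,
    ← Complex.normSq_eq_norm_sq]
  field_simp
  simp only [Complex.normSq_apply, Complex.mul_im, Complex.sub_re, Complex.sub_im, Complex.conj_re,
    Complex.conj_im]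
  ring

variable {μ : Measure ℂ} {K : ℝ}

lemma Tame.int_ker (h : Tame μ K) (z : ℂ) : Integrable (fun x => (x - z)⁻¹) μ :=
  ⟨(by fun_prop : Measurable fun x : ℂ => (x - z)⁻¹).aestronglyMeasurable,
    lt_of_le_of_lt (h.pot z) ENNReal.ofReal_lt_top⟩

lemma enorm_inv_sub_rev (x z : ℂ) : ‖(z - x)⁻¹‖ₑ = ‖(x - z)⁻¹‖ₑ := by
  rw [← neg_sub, inv_neg, enorm_neg]

lemma Tame.pot' (h : Tame μ K) (z : ℂ) : ∫⁻ x, ‖(z - x)⁻¹‖ₑ ∂μ ≤ ENNReal.ofReal K := by
  simp_rw [fun x => enorm_inv_sub_rev x z]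
  exact h.pot z

lemma Tame.int_ker' (h : Tame μ K) (z : ℂ) : Integrable (fun x => (z - x)⁻¹) μ :=
  ⟨(by fun_prop : Measurable fun x : ℂ => (z - x)⁻¹).aestronglyMeasurable,
    lt_of_le_of_lt (h.pot' z) ENNReal.ofReal_lt_top⟩

lemma Tame.ae_ne (h : Tame μ K) (z : ℂ) : ∀ᵐ x ∂μ, x ≠ z := by
  rw [ae_iff]
  simpa using h.atom z

lemma norm_ofReal_le {f : ℂ → ℝ} (hb : ∀ x, |f x| ≤ 1) (x : ℂ) : ‖(f x : ℂ)‖ ≤ 1 := by
  simpa using hb x

lemma Tame.int_fker (h : Tame μ K) {f : ℂ → ℝ} (hf : Measurable f) (hb : ∀ x, |f x| ≤ 1) (z : ℂ) :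
    Integrable (fun x => (f x : ℂ) * (x - z)⁻¹) μ :=
  (h.int_ker z).bdd_mul (c := 1) (by fun_prop : Measurable fun x => (f x : ℂ)).aestronglyMeasurable
    (Filter.Eventually.of_forall (norm_ofReal_le hb))

lemma Tame.norm_CT (h : Tame μ K) {f : ℂ → ℝ} (hb : ∀ x, |f x| ≤ 1) (z : ℂ) :
    ‖CT μ f z‖ ≤ K := by
  have h1 : ‖CT μ f z‖ₑ ≤ ENNReal.ofReal K := by
    refine (enorm_integral_le_lintegral_enorm _).trans (le_trans (lintegral_mono fun x => ?_)
      (h.pot z))
    rw [enorm_mul]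
    refine mul_le_of_le_one_left' ?_
    rw [← ofReal_norm]
    exact ENNReal.ofReal_le_one.2 (norm_ofReal_le hb x)
  rwa [← ofReal_norm, ENNReal.ofReal_le_ofReal_iff h.nonneg] at h1

lemma measurable_CT [SFinite μ] {f : ℂ → ℝ} (hf : Measurable f) : Measurable (CT μ f) := by
  have : Measurable fun p : ℂ × ℂ => (f p.2 : ℂ) * (p.2 - p.1)⁻¹ := by fun_prop
  exact (this.stronglyMeasurable.integral_prod_right' (ν := μ)).measurable

lemma measurable_CM (τ : Measure ℂ) [SFinite τ] : Measurable (CM τ) := by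
  have : Measurable fun p : ℂ × ℂ => (p.2 - p.1)⁻¹ := by fun_prop
  exact (this.stronglyMeasurable.integral_prod_right' (ν := τ)).measurable

lemma CT_one (μ : Measure ℂ) : CT μ (fun _ => 1) = CM μ := by
  funext z
  simp [CT, CM]

/-- The kernel is integrable on `τ × μ`. -/
lemma Tame.int_prod [SFinite μ] (h : Tame μ K) (τ : Measure ℂ) [IsFiniteMeasure τ] :
    Integrable (fun p : ℂ × ℂ => (p.1 - p.2)⁻¹) (τ.prod μ) := by
  have hm : Measurable fun p : ℂ × ℂ => (p.1 - p.2)⁻¹ := by fun_prop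
  refine ⟨hm.aestronglyMeasurable, ?_⟩
  unfold HasFiniteIntegral
  rw [lintegral_prod _ hm.enorm.aemeasurable]
  calc _ ≤ ∫⁻ _, ENNReal.ofReal K ∂τ := lintegral_mono fun z => h.pot' z
    _ < ∞ := by
      rw [lintegral_const]
      exact ENNReal.mul_lt_top ENNReal.ofReal_lt_top (measure_lt_top _ _)

lemma Tame.int_CM [SFinite μ] (h : Tame μ K) (τ : Measure ℂ) [IsFiniteMeasure τ] :
    Integrable (CM τ) μ :=
  (h.int_prod τ).integral_prod_right

/-- The mixed term at a point. -/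
def AA (μ : Measure ℂ) (f : ℂ → ℝ) (z : ℂ) : ℂ :=
  ∫ x, (f x : ℂ) * CT μ f x * conj (z - x)⁻¹ ∂μ

lemma Tame.star_pt [SFinite μ] (h : Tame μ K) {f : ℂ → ℝ} (hf : Measurable f)
    (hb : ∀ x, |f x| ≤ 1) (z : ℂ) :
    Integrable (fun p : ℂ × ℂ => curv p.1 p.2 z ^ 2 * (f p.1 * f p.2)) (μ.prod μ) ∧
    ∫ p : ℂ × ℂ, curv p.1 p.2 z ^ 2 * (f p.1 * f p.2) ∂(μ.prod μ)
      = 2 * ‖CT μ f z‖ ^ 2 + 4 * (AA μ f z).re := by
  set T1 : ℂ × ℂ → ℂ := fun p => ((f p.1 : ℂ) * (p.1 - z)⁻¹) * conj ((f p.2 : ℂ) * (p.2 - z)⁻¹)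
    with hT1
  set T2 : ℂ × ℂ → ℂ := fun p => ((f p.1 : ℂ) * conj (z - p.1)⁻¹) * ((f p.2 : ℂ) * (p.2 - p.1)⁻¹)
    with hT2
  have hconj : Measurable (fun w : ℂ => conj w) := Complex.continuous_conj.measurable
  have i1 : Integrable T1 (μ.prod μ) := by
    refine Integrable.mul_prod (f := fun x => (f x : ℂ) * (x - z)⁻¹)
      (g := fun x => conj ((f x : ℂ) * (x - z)⁻¹)) (h.int_fker hf hb z) ?_
    exact (Complex.conjCLE.toContinuousLinearMap.integrable_comp (h.int_fker hf hb z))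
  have m2 : Measurable T2 := by
    have : Measurable fun p : ℂ × ℂ => conj (z - p.1)⁻¹ := hconj.comp (by fun_prop)
    fun_prop
  have i2 : Integrable T2 (μ.prod μ) := by
    refine ⟨m2.aestronglyMeasurable, ?_⟩
    unfold HasFiniteIntegral
    rw [lintegral_prod _ m2.enorm.aemeasurable]
    calc _ ≤ ∫⁻ x, ‖(z - x)⁻¹‖ₑ * ENNReal.ofReal K ∂μ := by
          refine lintegral_mono fun x => ?_
          calc _ ≤ ∫⁻ y, ‖(z - x)⁻¹‖ₑ * ‖(y - x)⁻¹‖ₑ ∂μ := by
                refine lintegral_mono fun y => ?_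
                simp only [hT2, enorm_mul]
                have b1 : ∀ t, ‖(f t : ℂ)‖ₑ ≤ 1 := fun t => by
                  rw [← ofReal_norm]
                  exact ENNReal.ofReal_le_one.2 (norm_ofReal_le hb t)
                have b2 : ‖conj (z - x)⁻¹‖ₑ = ‖(z - x)⁻¹‖ₑ := by
                  rw [← ofReal_norm, ← ofReal_norm, Complex.norm_conj]
                rw [b2]
                exact mul_le_mul' (mul_le_of_le_one_left' (b1 x)) (mul_le_of_le_one_left' (b1 y))
            _ = ‖(z - x)⁻¹‖ₑ * ∫⁻ y, ‖(y - x)⁻¹‖ₑ ∂μ := by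
                rw [lintegral_const_mul _ (by fun_prop)]
            _ ≤ _ := by
                gcongr
                exact h.pot x
      _ = (∫⁻ x, ‖(z - x)⁻¹‖ₑ ∂μ) * ENNReal.ofReal K := by
          rw [lintegral_mul_const _ (by fun_prop)]
      _ < ∞ := ENNReal.mul_lt_top (lt_of_le_of_lt (h.pot' z) ENNReal.ofReal_lt_top)
          ENNReal.ofReal_lt_top
  have i3 : Integrable (fun p : ℂ × ℂ => T2 p.swap) (μ.prod μ) := i2.swap
  have v1 : ∫ p, T1 p ∂(μ.prod μ) = CT μ f z * conj (CT μ f z) := by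
    rw [hT1, integral_prod_mul (fun x => (f x : ℂ) * (x - z)⁻¹)
      (fun x => conj ((f x : ℂ) * (x - z)⁻¹)), integral_conj]
    rfl
  have v2 : ∫ p, T2 p ∂(μ.prod μ) = AA μ f z := by
    rw [integral_prod _ i2]
    unfold AA
    refine integral_congr_ae (Filter.Eventually.of_forall fun x => ?_)
    simp only [hT2]
    rw [integral_const_mul]
    unfold CT
    ring
  have v3 : ∫ p : ℂ × ℂ, T2 p.swap ∂(μ.prod μ) = AA μ f z := by
    rw [integral_prod_swap, v2]
  have hae : (fun p : ℂ × ℂ => curv p.1 p.2 z ^ 2 * (f p.1 * f p.2))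
      =ᵐ[μ.prod μ] fun p => 2 * (T1 p).re + 2 * (T2 p).re + 2 * (T2 p.swap).re := by
    have hs : ∀ᵐ p : ℂ × ℂ ∂(μ.prod μ), p.1 ≠ p.2 ∧ p.2 ≠ z ∧ z ≠ p.1 := by
      rw [Measure.ae_prod_iff_ae_ae]
      · filter_upwards [h.ae_ne z] with x hx
        filter_upwards [h.ae_ne z, h.ae_ne x] with y hy hy'
        exact ⟨hy'.symm, hy, hx.symm⟩
      · refine (measurableSet_eq_fun measurable_fst measurable_snd).compl.inter
          ((measurableSet_eq_fun measurable_snd measurable_const).compl.inter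
            (measurableSet_eq_fun measurable_const measurable_fst).compl)
    filter_upwards [hs] with p hp
    rw [curv_sq hp.1 hp.2.1 hp.2.2]
    simp only [hT1, hT2, Prod.fst_swap, Prod.snd_swap, map_mul, Complex.conj_ofReal,
      Complex.mul_re, Complex.mul_im, Complex.ofReal_re, Complex.ofReal_im, Complex.conj_re,
      Complex.conj_im]
    ring
  have r1 : Integrable (fun p => (T1 p).re) (μ.prod μ) := i1.re
  have r2 : Integrable (fun p => (T2 p).re) (μ.prod μ) := i2.re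
  have r3 : Integrable (fun p : ℂ × ℂ => (T2 p.swap).re) (μ.prod μ) := i3.re
  refine ⟨(((r1.const_mul 2).add (r2.const_mul 2)).add (r3.const_mul 2)).congr hae.symm, ?_⟩
  have r12 : Integrable (fun p => 2 * (T1 p).re + 2 * (T2 p).re) (μ.prod μ) :=
    (r1.const_mul 2).add (r2.const_mul 2)
  rw [integral_congr_ae hae, integral_add r12 (r3.const_mul 2),
    integral_add (r1.const_mul 2) (r2.const_mul 2), integral_const_mul, integral_const_mul,
    integral_const_mul]
  have e1 := integral_re i1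
  have e2 := integral_re i2
  have e3 := integral_re i3
  simp only [RCLike.re_to_complex] at e1 e2 e3
  rw [e1, e2, e3, v1, v2, v3, Complex.mul_conj, Complex.ofReal_re, Complex.normSq_eq_norm_sq]
  ring

/-- The mixed term integrated against `τ`. -/
def BB2 (μ τ : Measure ℂ) (f : ℂ → ℝ) : ℂ := ∫ x, (f x : ℂ) * CT μ f x * conj (CM τ x) ∂μ

lemma Tame.int_AA [SFinite μ] (h : Tame μ K) {f : ℂ → ℝ} (hf : Measurable f)
    (hb : ∀ x, |f x| ≤ 1) (τ : Measure ℂ) [IsFiniteMeasure τ] :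
    Integrable (AA μ f) τ ∧ ∫ z, AA μ f z ∂τ = BB2 μ τ f := by
  have hi : Integrable (fun p : ℂ × ℂ => (f p.2 : ℂ) * CT μ f p.2 * conj (p.1 - p.2)⁻¹)
      (τ.prod μ) := by
    have h1 : Integrable (fun p : ℂ × ℂ => conj (p.1 - p.2)⁻¹) (τ.prod μ) :=
      Complex.conjCLE.toContinuousLinearMap.integrable_comp (h.int_prod τ)
    have hm := measurable_CT (μ := μ) hf
    refine h1.bdd_mul (c := K) (by fun_prop : Measurable fun p : ℂ × ℂ =>
      (f p.2 : ℂ) * CT μ f p.2).aestronglyMeasurable (Filter.Eventually.of_forall fun p => ?_)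
    rw [norm_mul]
    calc _ ≤ 1 * K := mul_le_mul (norm_ofReal_le hb _) (h.norm_CT hb _) (norm_nonneg _) zero_le_one
      _ = K := one_mul K
  refine ⟨hi.integral_prod_left, ?_⟩
  unfold AA BB2
  rw [integral_integral_swap (f := fun z x => (f x : ℂ) * CT μ f x * conj (z - x)⁻¹) hi]
  refine integral_congr_ae (Filter.Eventually.of_forall fun x => ?_)
  simp only
  rw [integral_const_mul, integral_conj]
  rfl

lemma Tame.int_sq [SFinite μ] (h : Tame μ K) {f : ℂ → ℝ} (hf : Measurable f)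
    (hb : ∀ x, |f x| ≤ 1) (τ : Measure ℂ) [IsFiniteMeasure τ] :
    Integrable (fun z => ‖CT μ f z‖ ^ 2) τ := by
  have hm := measurable_CT (μ := μ) hf
  refine Integrable.of_bound (by fun_prop : Measurable fun z => ‖CT μ f z‖ ^ 2).aestronglyMeasurable
    (K ^ 2) (Filter.Eventually.of_forall fun z => ?_)
  rw [Real.norm_eq_abs, abs_of_nonneg (by positivity)]
  gcongr
  exact h.norm_CT hb z

/-- The Melnikov-Verdera identity, as an inequality for finite families. -/
lemma Tame.star [SFinite μ] (h : Tame μ K) {ι : Type*} (s : Finset ι) {f : ι → ℂ → ℝ}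
    (hf : ∀ i, Measurable (f i)) (hb : ∀ i x, |f i x| ≤ 1) (τ : Measure ℂ) [IsFiniteMeasure τ] :
    ENNReal.ofReal (∑ i ∈ s, (2 * ∫ z, ‖CT μ (f i) z‖ ^ 2 ∂τ + 4 * (BB2 μ τ (f i)).re))
      ≤ ∫⁻ z, ∫⁻ x, ∫⁻ y, ENNReal.ofReal (curv x y z ^ 2 * |∑ i ∈ s, f i x * f i y|) ∂μ ∂μ ∂τ := by
  have h1 : ∀ i, Integrable (fun z => 2 * ‖CT μ (f i) z‖ ^ 2 + 4 * (AA μ (f i) z).re) τ :=
    fun i => ((h.int_sq (hf i) (hb i) τ).const_mul 2).add
      ((h.int_AA (hf i) (hb i) τ).1.re.const_mul 4)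
  have h2 : ∀ i, 2 * ∫ z, ‖CT μ (f i) z‖ ^ 2 ∂τ + 4 * (BB2 μ τ (f i)).re
      = ∫ z, (2 * ‖CT μ (f i) z‖ ^ 2 + 4 * (AA μ (f i) z).re) ∂τ := by
    intro i
    have e := integral_re (h.int_AA (hf i) (hb i) τ).1
    simp only [RCLike.re_to_complex] at e
    have r : Integrable (fun z => (AA μ (f i) z).re) τ := (h.int_AA (hf i) (hb i) τ).1.re
    rw [integral_add ((h.int_sq (hf i) (hb i) τ).const_mul 2)
      (r.const_mul 4), integral_const_mul, integral_const_mul]
    congr 2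
    rw [← (h.int_AA (hf i) (hb i) τ).2]
    exact e.symm
  simp_rw [h2]
  rw [← integral_finsetSum _ fun i _ => h1 i]
  refine (ENNReal.ofReal_le_ofReal (le_abs_self _)).trans ?_
  rw [← Real.norm_eq_abs, ofReal_norm]
  refine (enorm_integral_le_lintegral_enorm _).trans (lintegral_mono fun z => ?_)
  simp_rw [fun i => ((h.star_pt (hf i) (hb i) z).2).symm]
  rw [← integral_finsetSum _ fun i _ => (h.star_pt (hf i) (hb i) z).1]
  refine (enorm_integral_le_lintegral_enorm _).trans (le_of_eq ?_)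
  have hc : Measurable fun p : ℂ × ℂ => curv p.1 p.2 z :=
    measurable_curv.comp (f := fun p : ℂ × ℂ => (p.1, p.2, z)) (by fun_prop)
  rw [lintegral_prod]
  · refine lintegral_congr fun x => lintegral_congr fun y => ?_
    rw [← Finset.mul_sum, ← ofReal_norm, Real.norm_eq_abs, abs_mul,
      abs_of_nonneg (sq_nonneg _)]
  · refine (Measurable.enorm ?_).aemeasurable
    refine Finset.measurable_sum _ fun i _ => ?_
    have := hf i
    fun_prop

end Pool.Agent.P.MP_f981b0_an.TC.PB
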