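import Pool.Agent.P.MP_f981b0_an.TC.PBKappa

set_option autoImplicit false

noncomputable section

namespace Pool.Agent.P.MP_f981b0_an.TC.PB

open MeasureTheory Metric Set Real
open scoped ComplexConjugate ENNReal

variable {μ : Measure ℂ} {K : ℝ}

/-- The two properties of the good set `G` used below. -/
structure GoodSet (μ : Measure ℂ) (G : Set ℂ) (S C4 : ℝ) : Prop where
  meas : MeasurableSet G
  one_le : 1 ≤ S
  nonneg : 0 ≤ C4
  L2 : ∀ f : ℂ → ℝ, Measurable f → (∀ x, |f x| ≤ 1) → (∀ x, f x ≠ 0 → x ∈ G) →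
    ∫ z, ‖CT μ f z‖ ^ 2 ∂μ ≤ S * ∫ x, f x ^ 2 ∂μ
  kappa : ∀ g : ℂ → ℂ → ℝ, (∀ x y, |g x y| ≤ 1) → (∀ x y, g x y ≠ 0 → x ∈ G ∧ y ∈ G) → ∀ z,
    ∫⁻ x, ∫⁻ y, ENNReal.ofReal (curv x y z ^ 2 * |g x y|) ∂μ ∂μ ≤ ENNReal.ofReal C4

lemma fam_bound [IsFiniteMeasure μ] (h : Tame μ K) {G : Set ℂ} {S C4 : ℝ} (hG : GoodSet μ G S C4)
    (τ : Measure ℂ) [IsFiniteMeasure τ] {M : ℝ} (hM : 0 ≤ M) {ι : Type*} (s : Finset ι)
    {f g : ι → ℂ → ℝ} (hf : ∀ i, Measurable (f i)) (hb : ∀ i x, |f i x| ≤ 1)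
    (hsum : ∀ x, ∑ i ∈ s, f i x ^ 2 ≤ 1) (hs : ∀ i x, f i x ≠ 0 → x ∈ G)
    (hg : ∀ i, Measurable (g i)) (hgb : ∀ i x, |g i x| ≤ 1)
    (hfg : ∀ i x, |f i x| * ‖CM τ x‖ ≤ M * g i x) :
    2 * ∑ i ∈ s, ∫ z, ‖CT μ (f i) z‖ ^ 2 ∂τ
      ≤ C4 * τ.real univ + 2 * M * ∑ i ∈ s, (∫ x, g i x ^ 2 ∂μ + S * ∫ x, f i x ^ 2 ∂μ) := by
  have h1 := h.star s hf hb τ
  have h2 : ∫⁻ z, ∫⁻ x, ∫⁻ y, ENNReal.ofReal (curv x y z ^ 2 * |∑ i ∈ s, f i x * f i y|) ∂μ ∂μ ∂τ
      ≤ ENNReal.ofReal (C4 * τ.real univ) := by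
    calc _ ≤ ∫⁻ _, ENNReal.ofReal C4 ∂τ := by
          refine lintegral_mono fun z => hG.kappa (fun x y => ∑ i ∈ s, f i x * f i y)
            (fun x y => ?_) (fun x y hxy => ?_) z
          · refine (Finset.abs_sum_le_sum_abs _ _).trans ?_
            calc _ ≤ ∑ i ∈ s, (f i x ^ 2 + f i y ^ 2) / 2 := by
                  refine Finset.sum_le_sum fun i _ => ?_
                  rw [abs_le]
                  constructor <;>
                    nlinarith [sq_nonneg (f i x + f i y), sq_nonneg (f i x - f i y)]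
              _ ≤ 1 := by
                  rw [← Finset.sum_div, Finset.sum_add_distrib]
                  linarith [hsum x, hsum y]
          · obtain ⟨i, _, hi⟩ := Finset.exists_ne_zero_of_sum_ne_zero hxy
            exact ⟨hs i x (left_ne_zero_of_mul hi), hs i y (right_ne_zero_of_mul hi)⟩
      _ = _ := by
          rw [lintegral_const, ENNReal.ofReal_mul hG.nonneg, ofReal_measureReal]
  have hC4 := hG.nonneg
  have h3 := (ENNReal.ofReal_le_ofReal_iff (by positivity)).1 (h1.trans h2)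
  have h4 : ∀ i, -(4 * (BB2 μ τ (f i)).re)
      ≤ 2 * M * (∫ x, g i x ^ 2 ∂μ + S * ∫ x, f i x ^ 2 ∂μ) := by
    intro i
    have hY := h.int_sq (hf i) (hb i) μ
    have hF := int_sq_of_bdd (μ := μ) (hg i) (hgb i)
    have a1 : ‖BB2 μ τ (f i)‖ ≤ ∫ x, (M / 2 * g i x ^ 2 + M / 2 * ‖CT μ (f i) x‖ ^ 2) ∂μ := by
      refine norm_BB2_le τ ((hF.const_mul _).add (hY.const_mul _)) fun x => ?_
      have b1 : |f i x| * ‖CT μ (f i) x‖ * ‖CM τ x‖ ≤ M * g i x * ‖CT μ (f i) x‖ := by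
        rw [mul_right_comm]
        exact mul_le_mul_of_nonneg_right (hfg i x) (norm_nonneg _)
      nlinarith [mul_nonneg hM (sq_nonneg (g i x - ‖CT μ (f i) x‖))]
    rw [integral_add (hF.const_mul _) (hY.const_mul _), integral_const_mul,
      integral_const_mul] at a1
    have a2 := (abs_le.1 (Complex.abs_re_le_norm (BB2 μ τ (f i)))).1
    have a3 := mul_le_mul_of_nonneg_left (hG.L2 (f i) (hf i) (hb i) (hs i)) hM
    nlinarith
  rw [Finset.sum_add_distrib, ← Finset.mul_sum] at h3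
  have h5 := Finset.sum_le_sum fun i (_ : i ∈ s) => h4 i
  rw [Finset.sum_neg_distrib, ← Finset.mul_sum s _ (2 * M)] at h5
  linarith

lemma Tame.duality [SFinite μ] (h : Tame μ K) (τ : Measure ℂ) [IsFiniteMeasure τ] {f : ℂ → ℝ}
    (hf : Measurable f) (hb : ∀ x, |f x| ≤ 1) :
    ∫ x, (f x : ℂ) * CM τ x ∂μ = -∫ z, CT μ f z ∂τ := by
  have hi : Integrable (fun p : ℂ × ℂ => (f p.2 : ℂ) * (p.1 - p.2)⁻¹) (τ.prod μ) :=
    (h.int_prod τ).bdd_mul (c := 1) (by fun_prop : Measurable fun p : ℂ × ℂ =>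
      (f p.2 : ℂ)).aestronglyMeasurable (Filter.Eventually.of_forall fun p => norm_ofReal_le hb _)
  have e := integral_integral_swap (f := fun z x => (f x : ℂ) * (z - x)⁻¹) hi
  simp only [integral_const_mul] at e
  unfold CM CT
  rw [← e, ← integral_neg]
  refine integral_congr_ae (Filter.Eventually.of_forall fun z => ?_)
  simp only
  rw [← integral_neg]
  refine integral_congr_ae (Filter.Eventually.of_forall fun x => ?_)
  simp only
  rw [← neg_sub x z, inv_neg, mul_neg]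

lemma Tame.norm_dual_le [SFinite μ] (h : Tame μ K) (τ : Measure ℂ) [IsFiniteMeasure τ] {f : ℂ → ℝ}
    (hf : Measurable f) (hb : ∀ x, |f x| ≤ 1) {t : ℝ} (ht : 0 < t) :
    ‖∫ x, (f x : ℂ) * CM τ x ∂μ‖
      ≤ t / 2 * τ.real univ + (2 * t)⁻¹ * ∫ z, ‖CT μ f z‖ ^ 2 ∂τ := by
  rw [h.duality τ hf hb, norm_neg]
  have hY := h.int_sq hf hb τ
  have a1 : ‖∫ z, CT μ f z ∂τ‖ ≤ ∫ z, (t / 2 + (2 * t)⁻¹ * ‖CT μ f z‖ ^ 2) ∂τ := by
    refine norm_integral_le_of_norm_le ((integrable_const _).add (hY.const_mul _))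
      (Filter.Eventually.of_forall fun z => ?_)
    have : t / 2 + (2 * t)⁻¹ * ‖CT μ f z‖ ^ 2 - ‖CT μ f z‖
        = (2 * t)⁻¹ * (t - ‖CT μ f z‖) ^ 2 := by
      field_simp
      ring
    have h2 : 0 ≤ (2 * t)⁻¹ * (t - ‖CT μ f z‖) ^ 2 := by positivity
    linarith
  rw [integral_add (integrable_const _) (hY.const_mul _), integral_const_mul, integral_const,
    smul_eq_mul] at a1
  linarith

lemma weak_type [IsFiniteMeasure μ] (h : Tame μ K) {G : Set ℂ} {S C4 : ℝ} (hG : GoodSet μ G S C4)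
    (τ : Measure ℂ) [IsFiniteMeasure τ] {M : ℝ} (hM : 0 < M) :
    M * μ.real (G ∩ {x | M < ‖CM τ x‖}) ≤ (8 * S + C4) * τ.real univ := by
  set E := G ∩ {x | M < ‖CM τ x‖} with hE
  have hu := measurable_CM τ
  have hEm : MeasurableSet E := hG.meas.inter (measurableSet_lt measurable_const hu.norm)
  have hS := hG.one_le
  have hC4 := hG.nonneg
  have hτ : 0 ≤ τ.real univ := measureReal_nonneg
  have hμE : 0 ≤ μ.real E := measureReal_nonneg
  have hind : ∫ x, (E.indicator (1 : ℂ → ℝ) x) ^ 2 ∂μ = μ.real E := by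
    rw [← integral_indicator_one hEm]
    refine integral_congr_ae (Filter.Eventually.of_forall fun x => ?_)
    by_cases hx : x ∈ E <;> simp [hx]
  have hind1 : ∀ x, |E.indicator (1 : ℂ → ℝ) x| ≤ 1 := fun x => by
    by_cases hx : x ∈ E <;> simp [hx]
  have hindm : Measurable (E.indicator (1 : ℂ → ℝ)) := measurable_one.indicator hEm
  have key : ∀ p : ℂ → ℝ, Measurable p → (∀ w, |p w| ≤ ‖w‖) →
      (∀ x, |E.indicator (fun x => M * p (CM τ x) / ‖CM τ x‖ ^ 2) x| ≤ 1) ∧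
      ‖∫ x, ((E.indicator (fun x => M * p (CM τ x) / ‖CM τ x‖ ^ 2) x : ℝ) : ℂ) * CM τ x ∂μ‖
        ≤ 2 * S * τ.real univ + (C4 * τ.real univ / 16 + M * μ.real E / 4) := by
    intro p hp hp1
    set f := E.indicator (fun x => M * p (CM τ x) / ‖CM τ x‖ ^ 2) with hfdef
    have hf : Measurable f := Measurable.indicator (by fun_prop) hEm
    have hfg : ∀ x, |f x| * ‖CM τ x‖ ≤ M * E.indicator (1 : ℂ → ℝ) x := by
      intro x
      by_cases hx : x ∈ E
      · have hpos : 0 < ‖CM τ x‖ := lt_trans hM hx.2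
        simp only [hfdef, indicator_of_mem hx, Pi.one_apply, mul_one]
        rw [abs_div, abs_mul, abs_of_pos hM, abs_of_pos (by positivity : 0 < ‖CM τ x‖ ^ 2),
          div_mul_eq_mul_div, div_le_iff₀ (by positivity)]
        have := hp1 (CM τ x)
        calc M * |p (CM τ x)| * ‖CM τ x‖ ≤ M * ‖CM τ x‖ * ‖CM τ x‖ := by gcongr
          _ = _ := by ring
      · simp [hfdef, hx]
    have hle : ∀ x, |f x| ≤ E.indicator (1 : ℂ → ℝ) x := by
      intro x
      by_cases hx : x ∈ E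
      · have h1 := hfg x
        have h2 : M < ‖CM τ x‖ := hx.2
        simp only [indicator_of_mem hx, Pi.one_apply, mul_one] at h1 ⊢
        by_contra hc
        push Not at hc
        nlinarith
      · simp [hfdef, hx]
    have hb : ∀ x, |f x| ≤ 1 := fun x => (hle x).trans ((le_abs_self _).trans (hind1 x))
    refine ⟨hb, ?_⟩
    have hs : ∀ x, f x ≠ 0 → x ∈ G := fun x hx => by
      by_contra hc
      exact hx (indicator_of_notMem (fun hE' => hc hE'.1) _)
    have h1 := fam_bound h hG τ hM.le ({()} : Finset Unit) (f := fun _ => f)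
      (g := fun _ => E.indicator (1 : ℂ → ℝ)) (fun _ => hf) (fun _ => hb)
      (fun x => by simpa using hb x) (fun _ => hs) (fun _ => hindm) (fun _ => hind1)
      (fun _ => hfg)
    simp only [Finset.sum_singleton, hind] at h1
    have h2 : ∫ x, f x ^ 2 ∂μ ≤ μ.real E := by
      rw [← hind]
      refine integral_mono (int_sq_of_bdd hf hb) (int_sq_of_bdd hindm hind1) fun x => ?_
      exact sq_le_sq' (by linarith [(abs_le.1 (hle x)).1]) (abs_le.1 (hle x)).2
    have h3 := h.norm_dual_le τ hf hb (t := 4 * S) (by positivity)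
    refine h3.trans ?_
    have h4 : 2 * ∫ z, ‖CT μ f z‖ ^ 2 ∂τ ≤ C4 * τ.real univ + 4 * S * (M * μ.real E) := by
      have : μ.real E + S * ∫ x, f x ^ 2 ∂μ ≤ 2 * S * μ.real E := by nlinarith
      nlinarith
    have h5 : (2 * (4 * S))⁻¹ * ∫ z, ‖CT μ f z‖ ^ 2 ∂τ
        ≤ C4 * τ.real univ / 16 + M * μ.real E / 4 := by
      rw [inv_mul_le_iff₀ (by positivity)]
      nlinarith [mul_nonneg hC4 hτ]
    linarith
  obtain ⟨b1, k1⟩ := key Complex.re Complex.measurable_re Complex.abs_re_le_norm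
  obtain ⟨b2, k2⟩ := key Complex.im Complex.measurable_im Complex.abs_im_le_norm
  set f1 := E.indicator (fun x => M * (CM τ x).re / ‖CM τ x‖ ^ 2) with hf1
  set f2 := E.indicator (fun x => M * (CM τ x).im / ‖CM τ x‖ ^ 2) with hf2
  have m1 : Measurable f1 := Measurable.indicator (by fun_prop) hEm
  have m2 : Measurable f2 := Measurable.indicator (by fun_prop) hEm
  have i1 : Integrable (fun x => (f1 x : ℂ) * CM τ x) μ :=
    (h.int_CM τ).bdd_mul (c := 1) (by fun_prop : Measurable fun x =>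
      (f1 x : ℂ)).aestronglyMeasurable (Filter.Eventually.of_forall (norm_ofReal_le b1))
  have i2 : Integrable (fun x => (f2 x : ℂ) * CM τ x) μ :=
    (h.int_CM τ).bdd_mul (c := 1) (by fun_prop : Measurable fun x =>
      (f2 x : ℂ)).aestronglyMeasurable (Filter.Eventually.of_forall (norm_ofReal_le b2))
  have e1 := integral_re i1
  have e2 := integral_im i2
  simp only [RCLike.re_to_complex, RCLike.im_to_complex] at e1 e2
  have r1 : Integrable (fun x => ((f1 x : ℂ) * CM τ x).re) μ := i1.re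
  have r2 : Integrable (fun x => ((f2 x : ℂ) * CM τ x).im) μ := i2.im
  have hX : M * μ.real E = (∫ x, (f1 x : ℂ) * CM τ x ∂μ).re + (∫ x, (f2 x : ℂ) * CM τ x ∂μ).im := by
    rw [← e1, ← e2, ← integral_add r1 r2, ← integral_indicator_one hEm, ← integral_const_mul]
    refine integral_congr_ae (Filter.Eventually.of_forall fun x => ?_)
    by_cases hx : x ∈ E
    · have hpos : 0 < ‖CM τ x‖ := lt_trans hM hx.2
      simp only [hf1, hf2, indicator_of_mem hx, Pi.one_apply, Complex.re_ofReal_mul,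
        Complex.im_ofReal_mul]
      have hn : ‖CM τ x‖ ^ 2 = (CM τ x).re ^ 2 + (CM τ x).im ^ 2 := by
        rw [← Complex.normSq_eq_norm_sq, Complex.normSq_apply]
        ring
      field_simp
      rw [hn]
    · simp [hf1, hf2, hx]
  have c1 := (le_abs_self _).trans (Complex.abs_re_le_norm (∫ x, (f1 x : ℂ) * CM τ x ∂μ))
  have c2 := (le_abs_self _).trans (Complex.abs_im_le_norm (∫ x, (f2 x : ℂ) * CM τ x ∂μ))
  nlinarith [mul_nonneg hC4 hτ]

theorem core {C : ℝ} (hC : 1 ≤ C) : ∃ C' : ℝ, 0 < C' ∧ ∀ (μ : Measure ℂ) (B : ℝ), 0 ≤ B →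
    μ ≤ ENNReal.ofReal B • volume → μ univ ≤ 1 →
    (∀ z r, 0 < r → μ (ball z r) ≤ ENNReal.ofReal (C * r)) →
    ∫⁻ x, kap μ x ∂μ ≤ ENNReal.ofReal C →
    ∃ G : Set ℂ, MeasurableSet G ∧ μ.real Gᶜ ≤ 1 / 50 ∧
      ∀ (τ : Measure ℂ) [IsFiniteMeasure τ] (M : ℝ), 0 < M →
        ∃ G' : Set ℂ, MeasurableSet G' ∧ μ.real (G ∩ G'ᶜ) ≤ C' * τ.real univ / M ∧
          ∀ (ι : Type) (s : Finset ι) (f : ι → ℂ → ℝ), (∀ i, Measurable (f i)) →
            (∀ i x, |f i x| ≤ 1) → (∀ x, ∑ i ∈ s, f i x ^ 2 ≤ 1) →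
            (∀ i x, f i x ≠ 0 → x ∈ G ∩ G') →
            ∑ i ∈ s, ∫ z, ‖CT μ (f i) z‖ ^ 2 ∂τ ≤ C' * (τ.real univ + M) := by
  have hC0 : 0 < C := by linarith
  set S : ℝ := 100 * C + 4 * (10 * C) ^ 2 with hS
  set C4 : ℝ := 5 * (100 * C) + 130 * C ^ 2 with hC4
  have hS1 : 1 ≤ S := by nlinarith
  have hC40 : 0 ≤ C4 := by positivity
  refine ⟨8 * S + C4, by positivity, fun μ B hB hμ h1 hg hc => ?_⟩
  have : IsFiniteMeasure μ := ⟨lt_of_le_of_lt h1 ENNReal.one_lt_top⟩
  have h := tame_of_le hB hμ h1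
  have hμ1 : μ.real univ ≤ 1 := by
    have := ENNReal.toReal_mono ENNReal.one_ne_top h1
    simpa [Measure.real] using this
  set G := {x | kap μ x ≤ ENNReal.ofReal (100 * C)} ∩ {x | ‖CM μ x‖ ≤ 10 * C} with hGdef
  have hGm : MeasurableSet G := (measurableSet_le measurable_kap measurable_const).inter
    (measurableSet_le (measurable_CM μ).norm measurable_const)
  have hG : GoodSet μ G S C4 := ⟨hGm, hS1, hC40,
    fun f hf hb hs => h.L2bound (by positivity) (fun x hx => hx.1) (fun x hx => hx.2) hf hb hs,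
    fun g hg1 hg2 z => kappa_bound h hB hC0 (by positivity) hμ hg hGm (fun x hx => hx.1) hg1 hg2 z⟩
  refine ⟨G, hGm, ?_, fun τ _ M hM => ?_⟩
  · have a1 : μ.real {x | ENNReal.ofReal (100 * C) ≤ kap μ x} ≤ 1 / 100 := by
      have := meas_ge_le_lintegral_div (μ := μ) (measurable_kap (μ := μ)).aemeasurable
        (ε := ENNReal.ofReal (100 * C)) (by simpa using hC0) ENNReal.ofReal_ne_top
      have h2 : μ {x | ENNReal.ofReal (100 * C) ≤ kap μ x} ≤ ENNReal.ofReal (1 / 100) := by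
        refine this.trans ((ENNReal.div_le_div_right hc _).trans (le_of_eq ?_))
        rw [← ENNReal.ofReal_div_of_pos (by positivity)]
        congr 1
        field_simp
      exact ENNReal.toReal_le_of_le_ofReal (by norm_num) h2
    have a2 : μ.real {x | (10 * C) ^ 2 ≤ ‖CM μ x‖ ^ 2} ≤ 1 / 100 := by
      have hi : Integrable (fun z => ‖CM μ z‖ ^ 2) μ := by
        have := h.int_sq (f := fun _ => 1) measurable_const (fun _ => by simp) μ
        rwa [CT_one] at this
      have h2 := mul_meas_ge_le_integral_of_nonneg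
        (Filter.Eventually.of_forall fun z => sq_nonneg ‖CM μ z‖) hi ((10 * C) ^ 2)
      have h3 := h.sq_CM hC0.le hc
      have h4 : 0 ≤ μ.real {x | (10 * C) ^ 2 ≤ ‖CM μ x‖ ^ 2} := measureReal_nonneg
      by_contra hcon
      push Not at hcon
      nlinarith
    calc μ.real Gᶜ ≤ μ.real ({x | ENNReal.ofReal (100 * C) ≤ kap μ x}
          ∪ {x | (10 * C) ^ 2 ≤ ‖CM μ x‖ ^ 2}) := by
          refine measureReal_mono (fun x hx => ?_) (measure_ne_top _ _)
          rw [hGdef, compl_inter] at hx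
          rcases hx with hx | hx
          · have : ¬ kap μ x ≤ ENNReal.ofReal (100 * C) := hx
            exact Or.inl (le_of_lt (not_le.1 this))
          · refine Or.inr ?_
            have : 10 * C < ‖CM μ x‖ := not_le.1 hx
            show (10 * C) ^ 2 ≤ ‖CM μ x‖ ^ 2
            gcongr
      _ ≤ _ := (measureReal_union_le _ _).trans (by linarith)
  · have hu := measurable_CM τ
    have hτ : 0 ≤ τ.real univ := measureReal_nonneg
    refine ⟨{x | ‖CM τ x‖ ≤ M}, measurableSet_le hu.norm measurable_const, ?_,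
      fun ι s f hf hb hsum hs => ?_⟩
    · have := weak_type h hG τ hM
      rw [le_div_iff₀ hM, mul_comm]
      have e : {x | ‖CM τ x‖ ≤ M}ᶜ = {x | M < ‖CM τ x‖} := by
        ext x
        simp
      rw [e]
      exact this
    · have h2 := fam_bound h hG τ hM.le s (f := f) (g := fun i x => |f i x|) hf hb hsum
        (fun i x hx => (hs i x hx).1) (fun i => (hf i).abs) (fun i x => by simpa using hb i x)
        (fun i x => by
          by_cases hx : f i x = 0
          · simp [hx]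
          · have : ‖CM τ x‖ ≤ M := (hs i x hx).2
            rw [mul_comm]
            gcongr)
      simp only [sq_abs] at h2
      have h3 : ∑ i ∈ s, ∫ x, f i x ^ 2 ∂μ ≤ 1 := by
        rw [← integral_finsetSum _ fun i _ => int_sq_of_bdd (hf i) (hb i)]
        calc _ ≤ ∫ _, (1 : ℝ) ∂μ := integral_mono
              (integrable_finsetSum _ fun i _ => int_sq_of_bdd (hf i) (hb i))
              (integrable_const _) hsum
          _ ≤ 1 := by simpa using hμ1
      rw [Finset.sum_add_distrib, ← Finset.mul_sum] at h2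
      have h4 : ∑ i ∈ s, ∫ x, f i x ^ 2 ∂μ + S * ∑ i ∈ s, ∫ x, f i x ^ 2 ∂μ ≤ 2 * S := by
        nlinarith
      have h5 := mul_le_mul_of_nonneg_left h4 (by positivity : 0 ≤ 2 * M)
      nlinarith [mul_nonneg hC40 hτ, mul_nonneg hC40 hM.le, mul_nonneg (zero_le_one.trans hS1) hτ,
        mul_nonneg (zero_le_one.trans hS1) hM.le]

end Pool.Agent.P.MP_f981b0_an.TC.PB
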