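import Pool.Agent.P.MP_f981b0_an.TC.Model
import Pool.Agent.P.MP_f981b0_an.R1.Fun

set_option autoImplicit false

noncomputable section

namespace Pool.Agent.P.MP_f981b0_an.TC

open MeasureTheory Metric Set Filter Topology
open R1

theorem intOn_ker (c w : ℂ) {r : ℝ} (hr : 0 < r) :
    IntegrableOn (fun z => ‖w - z‖⁻¹) (ball c r) ∧ ∫ z in ball c r, ‖w - z‖⁻¹ ≤ 10 * r := by
  have h := dom_ball c w hr
  have h0 : ∀ z, 0 ≤ (ball c r).indicator (fun z => ‖z - w‖⁻¹) z := fun z =>
    indicator_nonneg (fun _ _ => by positivity) z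
  have h1 := h.integrable_real h0
    (((meas_inv_norm w).indicator measurableSet_ball).aestronglyMeasurable)
  have h2 := h.integral_le h0
  rw [integral_indicator measurableSet_ball] at h2
  rw [integrable_indicator_iff measurableSet_ball] at h1
  simp only [norm_sub_rev w]
  exact ⟨h1, h2⟩

section ct

variable {X E : Type*} [MeasurableSpace X] [NormedAddCommGroup E] [NormedSpace ℂ E]
  {τ : Measure X} [IsFiniteMeasure τ] {a : X → ℂ} {F : X → E}

theorem stronglyMeasurable_VT (ha : Measurable a) (hF : StronglyMeasurable F) :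
    StronglyMeasurable (VT τ a F) := by
  have h : StronglyMeasurable fun p : ℂ × X => (a p.2 - p.1)⁻¹ • F p.2 :=
    (by fun_prop : Measurable fun p : ℂ × X => (a p.2 - p.1)⁻¹).stronglyMeasurable.smul
      (hF.comp_measurable measurable_snd)
  exact h.integral_prod_right'

theorem prod_integrable (ha : Measurable a) (hF : Integrable F τ) (c : ℂ) {r : ℝ} (hr : 0 < r) :
    Integrable (fun p : ℂ × X => (a p.2 - p.1)⁻¹ • F p.2)
      ((volume.restrict (ball c r)).prod τ) := by
  have hm : AEStronglyMeasurable (fun p : ℂ × X => (a p.2 - p.1)⁻¹ • F p.2)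
      ((volume.restrict (ball c r)).prod τ) :=
    (by fun_prop : Measurable fun p : ℂ × X => (a p.2 - p.1)⁻¹).aestronglyMeasurable.smul
      hF.1.comp_snd
  rw [integrable_prod_iff' hm]
  constructor
  · refine Eventually.of_forall fun x => ?_
    refine Integrable.smul_const (f := fun z : ℂ => (a x - z)⁻¹) ?_ (F x)
    refine (intOn_ker c (a x) hr).1.mono' (by fun_prop : Measurable fun z : ℂ =>
      (a x - z)⁻¹).aestronglyMeasurable (Eventually.of_forall fun z => by simp)
  · refine (hF.norm.const_mul (10 * r)).mono' hm.norm.prod_swap.integral_prod_right'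
      (Eventually.of_forall fun x => ?_)
    simp only [norm_smul, norm_inv]
    rw [integral_mul_const, Real.norm_of_nonneg
      (mul_nonneg (integral_nonneg fun _ => by positivity) (norm_nonneg _))]
    exact mul_le_mul_of_nonneg_right (intOn_ker c (a x) hr).2 (norm_nonneg _)

theorem ae_integrable_VT (ha : Measurable a) (hF : Integrable F τ) :
    ∀ᵐ z : ℂ, Integrable (fun x => (a x - z)⁻¹ • F x) τ := by
  have h : ∀ n : ℕ, ∀ᵐ z : ℂ, z ∈ ball (0 : ℂ) (n + 1) →
      Integrable (fun x => (a x - z)⁻¹ • F x) τ := fun n =>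
    (ae_restrict_iff' measurableSet_ball).1
      (prod_integrable ha hF 0 (r := n + 1) (by positivity)).prod_right_ae
  filter_upwards [ae_all_iff.2 h] with z hz
  obtain ⟨n, hn⟩ := exists_nat_gt ‖z‖
  exact hz n (by rw [mem_ball_zero_iff]; linarith)

theorem integrableOn_VT (ha : Measurable a) (hF : Integrable F τ) (c : ℂ) {r : ℝ} (hr : 0 < r) :
    IntegrableOn (VT τ a F) (ball c r) ∧
      ∫ z in ball c r, ‖VT τ a F z‖ ≤ 10 * r * ∫ x, ‖F x‖ ∂τ := by
  have h := prod_integrable ha hF c hr
  have h1 : IntegrableOn (VT τ a F) (ball c r) := h.integral_prod_left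
  refine ⟨h1, ?_⟩
  calc ∫ z in ball c r, ‖VT τ a F z‖
      ≤ ∫ z in ball c r, ∫ x, ‖(a x - z)⁻¹ • F x‖ ∂τ :=
        integral_mono h1.norm h.norm.integral_prod_left fun z => norm_integral_le_integral_norm _
    _ = ∫ x, (∫ z in ball c r, ‖(a x - z)⁻¹ • F x‖) ∂τ :=
        integral_integral_swap (f := fun z x => ‖(a x - z)⁻¹ • F x‖) h.norm
    _ ≤ ∫ x, 10 * r * ‖F x‖ ∂τ := by
        refine integral_mono h.norm.integral_prod_right (hF.norm.const_mul _) fun x => ?_
        simp only [norm_smul, norm_inv]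
        rw [integral_mul_const]
        exact mul_le_mul_of_nonneg_right (intOn_ker c (a x) hr).2 (norm_nonneg _)
    _ = _ := integral_const_mul _ _

end ct

section cv

variable {E : Type*} [NormedAddCommGroup E]

theorem VTest.nonneg {φ : ℂ → E} {D : ℝ} (h : VTest φ D) : 0 ≤ D :=
  (norm_nonneg _).trans (h.bdd 0)

theorem VTest.norm_le_ind {φ : ℂ → E} {D : ℝ} (h : VTest φ D) (z : ℂ) :
    ‖φ z‖ ≤ (ball (0 : ℂ) 1).indicator (fun _ => D) z := by
  by_cases hz : z ∈ ball (0 : ℂ) 1
  · rw [indicator_of_mem hz]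
    exact h.bdd z
  · rw [indicator_of_notMem hz, h.supp z (by simpa using hz), norm_zero]

theorem VTest.integrable {φ : ℂ → E} {D : ℝ} (h : VTest φ D) : Integrable φ :=
  Integrable.mono' ((integrable_indicator_iff measurableSet_ball).2
    (integrableOn_const measure_ball_lt_top.ne)) h.meas.aestronglyMeasurable
    (Eventually.of_forall h.norm_le_ind)

variable [NormedSpace ℂ E]

theorem VTest.dom_ker {φ : ℂ → E} {D : ℝ} (h : VTest φ D) (ζ : ℂ) {k : ℂ → ℂ}
    (hk : ∀ z, ‖k z‖ ≤ ‖ζ - z‖⁻¹) : Dom (fun z => ‖k z • φ z‖) (10 * D) := by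
  refine ((dom_ball 0 ζ one_pos).const_mul h.nonneg).mono (fun z => ?_) (by linarith)
  by_cases hz : z ∈ ball (0 : ℂ) 1
  · rw [indicator_of_mem hz, norm_smul, mul_comm, norm_sub_rev]
    exact mul_le_mul (h.bdd z) (hk z) (norm_nonneg _) h.nonneg
  · rw [indicator_of_notMem hz, h.supp z (by simpa using hz)]
    simp

theorem VTest.integrable_ker {φ : ℂ → E} {D : ℝ} (h : VTest φ D) (ζ : ℂ) {k : ℂ → ℂ}
    (hm : Measurable k) (hk : ∀ z, ‖k z‖ ≤ ‖ζ - z‖⁻¹) : Integrable fun z => k z • φ z := by
  obtain ⟨g, hg, h1, -⟩ := h.dom_ker ζ hk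
  exact hg.mono' (hm.stronglyMeasurable.smul h.meas).aestronglyMeasurable
    (Eventually.of_forall h1)

theorem VTest.integrable_CV {φ : ℂ → E} {D : ℝ} (h : VTest φ D) (ζ : ℂ) :
    Integrable fun z => (ζ - z)⁻¹ • φ z :=
  h.integrable_ker ζ (by fun_prop) fun z => by simp

theorem norm_integral_le_of_dom {f : ℂ → E} {A : ℝ} (h : Dom (fun z => ‖f z‖) A) :
    ‖∫ z, f z‖ ≤ A := by
  obtain ⟨g, hg, h1, h2⟩ := h
  exact (norm_integral_le_of_norm_le hg (Eventually.of_forall h1)).trans h2

theorem VTest.norm_CV_le {φ : ℂ → E} {D : ℝ} (h : VTest φ D) (ζ : ℂ) : ‖CV φ ζ‖ ≤ 10 * D :=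
  norm_integral_le_of_dom (h.dom_ker ζ fun z => by simp)

theorem norm_tker_le_inv {e : ℝ} (he : 0 < e) (z : ℂ) : ‖tker e z‖ ≤ e⁻¹ := by
  rcases le_total e ‖z‖ with h | h
  · exact (norm_tker_le e z).trans (inv_anti₀ he h)
  · have h2 : 0 < max (‖z‖ ^ 2) (e ^ 2) := lt_max_of_lt_right (by positivity)
    rw [tker, norm_div, Complex.norm_conj, Complex.norm_real, Real.norm_of_nonneg h2.le,
      div_le_iff₀ h2, inv_mul_eq_div, le_div_iff₀ he]
    refine le_trans ?_ (le_max_right _ _)
    nlinarith [norm_nonneg z]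

theorem VTest.continuous_CV {φ : ℂ → E} {D : ℝ} (h : VTest φ D) : Continuous (CV φ) := by
  refine continuous_of_uniform_approx_of_continuous fun U hU => ?_
  obtain ⟨ε, hε, hU'⟩ := Metric.mem_uniformity_dist.1 hU
  have hp := Real.pi_pos
  have hD := h.nonneg
  set e : ℝ := ε / (2 * (D + 1) * (4 * Real.pi)) with hedef
  have he : 0 < e := by positivity
  refine ⟨fun ζ => ∫ z, tker e (ζ - z) • φ z, ?_, fun ζ => hU' ?_⟩
  · refine continuous_of_dominated (bound := fun z => e⁻¹ * ‖φ z‖) (fun ζ => ?_) (fun ζ => ?_)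
      (h.integrable.norm.const_mul _) (Eventually.of_forall fun z => ?_)
    · exact (((continuous_tker he).comp (by fun_prop)).stronglyMeasurable.smul
        h.meas).aestronglyMeasurable
    · refine Eventually.of_forall fun z => ?_
      rw [norm_smul]
      exact mul_le_mul_of_nonneg_right (norm_tker_le_inv he _) (norm_nonneg _)
    · exact ((continuous_tker he).comp (by fun_prop)).smul continuous_const
  · have i1 := h.integrable_ker ζ (k := fun z => tker e (ζ - z))
      ((continuous_tker he).measurable.comp (by fun_prop)) fun z => norm_tker_le e _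
    rw [dist_eq_norm, CV, ← integral_sub (h.integrable_CV ζ) i1]
    refine lt_of_le_of_lt (norm_integral_le_of_dom
      ((((dom_self ζ he.le).const_mul zero_le_two).const_mul hD).mono (fun z => ?_) le_rfl)) ?_
    · by_cases hz : z ∈ ball ζ e
      · rw [indicator_of_mem hz, ← sub_smul, norm_smul, mul_comm]
        refine mul_le_mul (h.bdd z) ((norm_sub_le _ _).trans ?_) (norm_nonneg _) hD
        have := norm_tker_le e (ζ - z)
        rw [norm_inv, norm_sub_rev z]
        linarith
      · rw [indicator_of_notMem hz]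
        rw [mem_ball, dist_eq_norm, not_lt, norm_sub_rev] at hz
        simp [tker_far he hz]
    · have h2 : D * (2 * (2 * Real.pi * e)) = ε * (D / (2 * (D + 1))) := by
        rw [hedef]
        field_simp
        ring
      rw [h2]
      refine mul_lt_of_lt_one_right hε ?_
      rw [div_lt_one (by positivity)]
      linarith

end cv

theorem fubini_VT {X E E' E'' : Type*} [MeasurableSpace X] [NormedAddCommGroup E]
    [NormedSpace ℂ E] [CompleteSpace E] {τ : Measure X} [IsFiniteMeasure τ] {a : X → ℂ}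
    {F : X → E} [NormedAddCommGroup E'] [NormedSpace ℂ E'] [CompleteSpace E']
    [NormedAddCommGroup E''] [NormedSpace ℂ E''] [CompleteSpace E''] (L : E →L[ℂ] E' →L[ℂ] E'')
    (ha : Measurable a) (hF : Integrable F τ) {φ : ℂ → E'} {D : ℝ} (h : VTest φ D) :
    Integrable (fun z => L (VT τ a F z) (φ z)) ∧
      ∫ z, L (VT τ a F z) (φ z) = ∫ x, L (F x) (CV φ (a x)) ∂τ := by
  have hp := prod_integrable ha hF 0 one_pos
  set μ : Measure ℂ := volume.restrict (ball (0 : ℂ) 1) with hμ
  have hq : Integrable (fun p : ℂ × X => L ((a p.2 - p.1)⁻¹ • F p.2) (φ p.1)) (μ.prod τ) := by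
    refine (hp.norm.const_mul (‖L‖ * D)).mono' ?_ (Eventually.of_forall fun p => ?_)
    · exact L.aestronglyMeasurable_comp₂ hp.1
        (h.meas.comp_measurable measurable_fst).aestronglyMeasurable
    · refine (L.le_opNorm₂ _ _).trans ?_
      have := mul_le_mul_of_nonneg_left (h.bdd p.1)
        (mul_nonneg (norm_nonneg L) (norm_nonneg ((a p.2 - p.1)⁻¹ • F p.2)))
      linarith
  have hz : ∀ z ∉ ball (0 : ℂ) 1, φ z = 0 := fun z hz => h.supp z (by simpa using hz)
  have hae : (fun z => ∫ x, L ((a x - z)⁻¹ • F x) (φ z) ∂τ) =ᵐ[μ]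
      fun z => L (VT τ a F z) (φ z) := by
    filter_upwards [hp.prod_right_ae] with z hz
    exact (L.flip (φ z)).integral_comp_comm hz
  have h1 : IntegrableOn (fun z => L (VT τ a F z) (φ z)) (ball (0 : ℂ) 1) :=
    hq.integral_prod_left.congr hae
  constructor
  · refine (integrableOn_iff_integrable_of_support_subset (s := ball (0 : ℂ) 1) ?_).1 h1
    intro z hz'
    by_contra hc
    exact hz' (by simp [hz z hc])
  · rw [← setIntegral_eq_integral_of_forall_compl_eq_zero (s := ball (0 : ℂ) 1)
      (fun z hz' => by simp [hz z hz']), ← integral_congr_ae hae,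
      integral_integral_swap (f := fun z x => L ((a x - z)⁻¹ • F x) (φ z)) hq]
    refine integral_congr_ae (Eventually.of_forall fun x => ?_)
    simp only
    rw [CV, ← (L (F x)).integral_comp_comm (h.integrable_CV (a x)),
      setIntegral_eq_integral_of_forall_compl_eq_zero (fun z hz' => by simp [hz z hz'])]
    simp

end Pool.Agent.P.MP_f981b0_an.TC
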