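import Pool.Agent.P.MP_f981b0_an.TC.VT

set_option autoImplicit false

noncomputable section

namespace Pool.Agent.P.MP_f981b0_an.TC

open MeasureTheory Metric Set Filter Topology
open scoped InnerProductSpace ComplexConjugate
open R1

theorem stronglyMeasurable_VT' {X E : Type*} [MeasurableSpace X] [NormedAddCommGroup E]
    [NormedSpace ℂ E] {τ : Measure X} [IsFiniteMeasure τ] {a : X → ℂ} {F : X → E}
    (ha : Measurable a) (hF : AEStronglyMeasurable F τ) : StronglyMeasurable (VT τ a F) := by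
  have h : VT τ a F = VT τ a (hF.mk F) := by
    funext z
    refine integral_congr_ae ?_
    filter_upwards [hF.ae_eq_mk] with x hx
    rw [hx]
  rw [h]
  exact stronglyMeasurable_VT ha hF.stronglyMeasurable_mk

theorem integral_le_sqrt {Y : Type*} [MeasurableSpace Y] (ν : Measure Y) [IsFiniteMeasure ν]
    {f : Y → ℝ} (hf : Integrable f ν) (hf2 : Integrable (fun y => f y ^ 2) ν) :
    ∫ y, f y ∂ν ≤ √(ν.real univ * ∫ y, f y ^ 2 ∂ν) := by
  refine Real.le_sqrt_of_sq_le ?_
  rcases eq_or_ne ν 0 with rfl | hν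
  · simp
  have hm : 0 < ν.real univ := by
    rw [measureReal_def]
    exact ENNReal.toReal_pos (by simpa using hν) (measure_ne_top _ _)
  set t : ℝ := (∫ y, f y ∂ν) / ν.real univ with ht
  have h1 : 0 ≤ ∫ y, (f y - t) ^ 2 ∂ν := integral_nonneg fun y => sq_nonneg _
  have h2 : ∫ y, (f y - t) ^ 2 ∂ν =
      ∫ y, f y ^ 2 ∂ν - 2 * t * ∫ y, f y ∂ν + t ^ 2 * ν.real univ := by
    have h3 : (fun y => (f y - t) ^ 2) = fun y => (f y ^ 2 - 2 * t * f y) + t ^ 2 := by
      funext y
      ring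
    have i1 : Integrable (fun y => f y ^ 2 - 2 * t * f y) ν := hf2.sub (hf.const_mul _)
    rw [h3, integral_add i1 (integrable_const _),
      integral_sub hf2 (hf.const_mul _), integral_const_mul, integral_const, smul_eq_mul,
      mul_comm (ν.real univ)]
  have h4 : t * ν.real univ = ∫ y, f y ∂ν := by
    rw [ht]
    field_simp
  rw [h2, ← h4] at h1
  rw [← h4]
  nlinarith

variable {E : Type*} [NormedAddCommGroup E] [InnerProductSpace ℂ E]

theorem int_norm_sq_le {Y : Type*} [MeasurableSpace Y] (ν : Measure Y) [IsFiniteMeasure ν]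
    {Φ : Y → E} (hΦ : StronglyMeasurable Φ) {B D : ℝ} (hB : ∀ y, ‖Φ y‖ ≤ B)
    (h : ∀ (n : ℕ) (e : Fin n → E), Orthonormal ℂ e →
      ∑ i, ∫ y, ‖⟪e i, Φ y⟫_ℂ‖ ^ 2 ∂ν ≤ D) :
    ∫ y, ‖Φ y‖ ^ 2 ∂ν ≤ D := by
  let V : ℕ → Submodule ℂ E := fun n => Submodule.span ℂ ((hΦ.approx n).range : Set E)
  have hV : ∀ n, FiniteDimensional ℂ (V n) := fun n => FiniteDimensional.span_finset ℂ _
  have hlim : ∀ y, Tendsto (fun n => (V n).starProjection (Φ y)) atTop (𝓝 (Φ y)) := by
    intro y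
    rw [tendsto_iff_norm_sub_tendsto_zero]
    refine squeeze_zero (fun n => norm_nonneg _) (fun n => ?_)
      (tendsto_iff_norm_sub_tendsto_zero.1 (hΦ.tendsto_approx y))
    rw [norm_sub_rev, Submodule.starProjection_minimal, norm_sub_rev]
    have hm : hΦ.approx n y ∈ V n :=
      Submodule.subset_span (Finset.mem_coe.2 (SimpleFunc.mem_range_self _ y))
    exact ciInf_le ⟨0, forall_mem_range.2 fun _ => norm_nonneg _⟩ (⟨_, hm⟩ : V n)
  have hle : ∀ n y, ‖(V n).starProjection (Φ y)‖ ≤ B := fun n y =>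
    ((V n).norm_starProjection_apply_le _).trans (hB y)
  have hT := tendsto_integral_of_dominated_convergence (μ := ν)
    (F := fun n y => ‖(V n).starProjection (Φ y)‖ ^ 2) (f := fun y => ‖Φ y‖ ^ 2)
    (fun _ => B ^ 2)
    (fun n => (((V n).starProjection.continuous.comp_stronglyMeasurable hΦ).norm.pow
      2).aestronglyMeasurable) (integrable_const _)
    (fun n => Eventually.of_forall fun y => by
      rw [Real.norm_of_nonneg (sq_nonneg _)]
      exact pow_le_pow_left₀ (norm_nonneg _) (hle n y) 2)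
    (Eventually.of_forall fun y => (hlim y).norm.pow 2)
  refine le_of_tendsto' hT fun n => ?_
  let b := stdOrthonormalBasis ℂ (V n)
  have hon : Orthonormal ℂ fun i => (b i : E) := b.orthonormal.comp_linearIsometry (V n).subtypeₗᵢ
  refine le_of_eq_of_le ?_ (h _ _ hon)
  rw [← integral_finsetSum]
  · refine integral_congr_ae (Eventually.of_forall fun y => ?_)
    simp only
    rw [Submodule.starProjection_apply, ← Submodule.coe_norm, ← b.sum_sq_norm_inner_right]
    refine Finset.sum_congr rfl fun i _ => ?_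
    rw [Submodule.inner_orthogonalProjectionOnto_eq_of_mem_left]
  · intro i _
    refine Integrable.mono' (integrable_const (B ^ 2))
      ((stronglyMeasurable_const.inner hΦ).norm.pow 2).aestronglyMeasurable
      (Eventually.of_forall fun y => ?_)
    rw [Real.norm_of_nonneg (sq_nonneg _)]
    refine pow_le_pow_left₀ (norm_nonneg _) ((norm_inner_le_norm _ _).trans ?_) 2
    rw [hon.1 i, one_mul]
    exact hB y

theorem VTest.smul_real {E' : Type*} [NormedAddCommGroup E'] [NormedSpace ℂ E'] {w : ℂ → ℝ}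
    {D0 : ℝ} (hw : VTest w D0) {φ : ℂ → E'} (hφ : StronglyMeasurable φ)
    (hb : ∀ z, ‖φ z‖ ≤ 1) : VTest (fun z => (w z : ℂ) • φ z) D0 := by
  refine ⟨(Complex.continuous_ofReal.comp_stronglyMeasurable hw.meas).smul hφ, fun z => ?_,
    fun z hz => by simp [hw.supp z hz]⟩
  rw [norm_smul, Complex.norm_real]
  exact (mul_le_of_le_one_right (norm_nonneg _) (hb z)).trans (hw.bdd z)

theorem ind_le_one (G' : Set ℂ) (z : ℂ) : G'.indicator (1 : ℂ → ℝ) z ≤ 1 := by
  by_cases hz : z ∈ G' <;> simp [hz]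

theorem sq_le_ind {G' : Set ℂ} {z : ℂ} {t : ℝ} (h0 : 0 ≤ t) (h : t ≤ G'.indicator 1 z) :
    t ^ 2 ≤ G'.indicator (1 : ℂ → ℝ) z := by
  have := ind_le_one G' z
  nlinarith

theorem apply_CV {E' : Type*} [NormedAddCommGroup E'] [NormedSpace ℂ E'] [CompleteSpace E']
    (L : E' →L[ℂ] ℂ) {w : ℂ → ℝ} {φ : ℂ → E'} {D : ℝ}
    (h : VTest (fun z => (w z : ℂ) • φ z) D) (ζ : ℂ) :
    L (CV (fun z => (w z : ℂ) • φ z) ζ) = -cauchy (fun z => L (φ z) * w z) ζ := by
  rw [CV, ← L.integral_comp_comm (h.integrable_CV ζ), cauchy, ← integral_neg]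
  refine integral_congr_ae (Eventually.of_forall fun z => ?_)
  simp only [map_smul, smul_eq_mul]
  rw [← neg_sub z ζ, inv_neg]
  ring

variable [CompleteSpace E]

theorem SB.vec {w : ℂ → ℝ} {D0 D : ℝ} (hw : VTest w D0) {ν : Measure ℂ} [IsFiniteMeasure ν]
    {G' : Set ℂ} (h : SB w ν G' D) {φ : ℂ → E} (hφ : StronglyMeasurable φ)
    (hb : ∀ z, ‖φ z‖ ≤ G'.indicator 1 z) :
    ∫ ζ, ‖CV (fun z => (w z : ℂ) • φ z) ζ‖ ^ 2 ∂ν ≤ D := by
  have ht := hw.smul_real hφ fun z => (hb z).trans (ind_le_one G' z)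
  refine int_norm_sq_le ν ht.continuous_CV.stronglyMeasurable ht.norm_CV_le fun n e he => ?_
  refine le_of_eq_of_le ?_ (h (Fin n) Finset.univ (fun i z => ⟪e i, φ z⟫_ℂ)
    (fun i => (stronglyMeasurable_const.inner hφ).measurable) fun z =>
      (he.sum_inner_products_le (φ z)).trans (sq_le_ind (norm_nonneg _) (hb z)))
  refine Finset.sum_congr rfl fun i _ => integral_congr_ae (Eventually.of_forall fun ζ => ?_)
  have := apply_CV (innerSL ℂ (e i)) ht ζ
  simp only [innerSL_apply_apply] at this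
  simp only
  rw [this, norm_neg]

theorem SB.dual {w : ℂ → ℝ} {D0 D : ℝ} (hw : VTest w D0) {ν : Measure ℂ} [IsFiniteMeasure ν]
    {G' : Set ℂ} (h : SB w ν G' D) {φ : ℂ → E} (hφ : StronglyMeasurable φ)
    (hb : ∀ z, ‖φ z‖ ≤ G'.indicator 1 z) :
    ∫ ζ, ‖CV (fun z => (w z : ℂ) • innerSL ℂ (φ z)) ζ‖ ^ 2 ∂ν ≤ D := by
  have ht : VTest (fun z => (w z : ℂ) • innerSL ℂ (φ z)) D0 :=
    hw.smul_real ((innerSL ℂ (E := E)).continuous.comp_stronglyMeasurable hφ) fun z => by
      rw [innerSL_apply_norm]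
      exact (hb z).trans (ind_le_one G' z)
  have h1 := int_norm_sq_le (E := E) ν (D := D) (B := 10 * D0)
    (Φ := fun ζ => (InnerProductSpace.toDual ℂ E).symm
      (CV (fun z => (w z : ℂ) • innerSL ℂ (φ z)) ζ))
    ((InnerProductSpace.toDual ℂ E).symm.continuous.comp ht.continuous_CV).stronglyMeasurable
    (fun ζ => by
      rw [LinearIsometryEquiv.norm_map]
      exact ht.norm_CV_le ζ) fun n e he => ?_
  · simpa only [LinearIsometryEquiv.norm_map] using h1
  refine le_of_eq_of_le ?_ (h (Fin n) Finset.univ (fun i z => ⟪φ z, e i⟫_ℂ)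
    (fun i => (hφ.inner stronglyMeasurable_const).measurable) fun z => ?_)
  · refine Finset.sum_congr rfl fun i _ => integral_congr_ae (Eventually.of_forall fun ζ => ?_)
    have := apply_CV (ContinuousLinearMap.apply ℂ ℂ (e i)) ht ζ
    simp only [ContinuousLinearMap.apply_apply, innerSL_apply_apply] at this
    simp only
    rw [norm_inner_symm, InnerProductSpace.toDual_symm_apply, this, norm_neg]
  · simp only [fun i => norm_inner_symm (𝕜 := ℂ) (φ z) (e i)]
    exact (he.sum_inner_products_le (φ z)).trans (sq_le_ind (norm_nonneg _) (hb z))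

omit [InnerProductSpace ℂ E] [CompleteSpace E] in
theorem Good.vtest {ρ : ℂ → ℝ} {c C ε : ℝ} {w : ℂ → ℝ} (hw : Good ρ c C ε w) :
    ∃ D0, VTest w D0 := by
  obtain ⟨B, hB⟩ := hw.bdd
  exact ⟨B, hw.meas.stronglyMeasurable, fun z => by
    rw [Real.norm_of_nonneg (hw.nonneg z)]
    exact hB z, hw.supp⟩

/-- Vector valued weak type estimate on a good density. -/
theorem Good.weak {X : Type*} [MeasurableSpace X] {ρ : ℂ → ℝ} {c C ε : ℝ} {w : ℂ → ℝ}
    (hw : Good ρ c C ε w) {τ : Measure X}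
    [IsFiniteMeasure τ] {a : X → ℂ} (ha : Measurable a) {F : X → E} (hF : Integrable F τ)
    {M : ℝ} (hM : 0 < M) :
    ∃ G' : Set ℂ, MeasurableSet G' ∧ ∫ z in G'ᶜ, w z ≤ C * (∫ x, ‖F x‖ ∂τ) / M ∧
      ∫ z in G', ‖VT τ a F z‖ * w z ≤ √((∫ x, ‖F x‖ ∂τ) * (C * ((∫ x, ‖F x‖ ∂τ) + M))) := by
  have hfin : IsFiniteMeasure (τ.withDensity fun x => (‖F x‖₊ : ENNReal)) :=
    isFiniteMeasure_withDensity hF.2.ne
  set ν : Measure ℂ := (τ.withDensity fun x => (‖F x‖₊ : ENNReal)).map a with hν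
  have hint : ∀ g : ℂ → ℝ, StronglyMeasurable g → ∫ ζ, g ζ ∂ν = ∫ x, ‖F x‖ * g (a x) ∂τ := by
    intro g hg
    rw [hν, integral_map ha.aemeasurable hg.aestronglyMeasurable,
      integral_withDensity_eq_integral_smul₀ hF.1.nnnorm.aemeasurable]
    rfl
  have hmass : ν.real univ = ∫ x, ‖F x‖ ∂τ := by
    have := hint (fun _ => 1) stronglyMeasurable_const
    simpa using this
  obtain ⟨G', hG', h1, h2⟩ := hw.bound ν M hM
  rw [hmass] at h1 h2
  refine ⟨G', hG', h1, ?_⟩
  obtain ⟨D0, hD0⟩ := hw.vtest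
  have hVT := stronglyMeasurable_VT' (τ := τ) ha hF.1
  set s : ℂ → E := G'.indicator fun z => ((‖VT τ a F z‖⁻¹ : ℝ) : ℂ) • VT τ a F z with hs
  have hsm : StronglyMeasurable s :=
    ((Complex.continuous_ofReal.comp_stronglyMeasurable
      hVT.norm.measurable.inv.stronglyMeasurable).smul hVT).indicator hG'
  have hsb : ∀ z, ‖s z‖ ≤ G'.indicator 1 z := fun z => by
    by_cases hz : z ∈ G'
    · rw [hs, indicator_of_mem hz, indicator_of_mem hz, norm_smul, Complex.norm_real, norm_inv,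
        norm_norm]
      exact inv_mul_le_one
    · rw [hs, indicator_of_notMem hz, indicator_of_notMem hz, norm_zero]
  have ht : VTest (fun z => (w z : ℂ) • innerSL ℂ (s z)) D0 :=
    hD0.smul_real ((innerSL ℂ (E := E)).continuous.comp_stronglyMeasurable hsm) fun z => by
      rw [innerSL_apply_norm]
      exact (hsb z).trans (ind_le_one G' z)
  have h3 := SB.dual hD0 (ν := ν) (G' := G') h2 hsm hsb
  set Ψ := CV fun z => (w z : ℂ) • innerSL ℂ (s z) with hΨ
  have hΨc : Continuous Ψ := ht.continuous_CV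
  obtain ⟨-, h4⟩ := fubini_VT (ContinuousLinearMap.apply ℂ ℂ) ha hF ht
  have h5 : (fun z => ContinuousLinearMap.apply ℂ ℂ (VT τ a F z) ((w z : ℂ) • innerSL ℂ (s z))) =
      fun z => ((G'.indicator (fun z => ‖VT τ a F z‖ * w z) z : ℝ) : ℂ) := by
    funext z
    by_cases hz : z ∈ G'
    · simp only [ContinuousLinearMap.apply_apply, smul_apply, innerSL_apply_apply, hs,
        indicator_of_mem hz, inner_smul_left, Complex.conj_ofReal, inner_self_eq_norm_sq_to_K,
        smul_eq_mul]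
      rcases eq_or_ne ‖VT τ a F z‖ 0 with h0 | h0
      · simp [h0]
      · have h0' : ((‖VT τ a F z‖ : ℝ) : ℂ) ≠ 0 := by exact_mod_cast h0
        push_cast
        change (w z : ℂ) * ((‖VT τ a F z‖ : ℂ)⁻¹ * (‖VT τ a F z‖ : ℂ) ^ 2) = _
        field_simp
    · simp [hs, indicator_of_notMem hz]
  rw [h5, integral_complex_ofReal, integral_indicator hG'] at h4
  have hbd : ∀ g : ℂ → ℝ, Continuous g → (∃ B, ∀ ζ, ‖g ζ‖ ≤ B) → Integrable g ν :=
    fun g hg ⟨B, hB⟩ => Integrable.mono' (integrable_const B) hg.aestronglyMeasurable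
      (Eventually.of_forall hB)
  have hΨb : ∀ ζ, ‖Ψ ζ‖ ≤ 10 * D0 := ht.norm_CV_le
  calc ∫ z in G', ‖VT τ a F z‖ * w z
      ≤ ‖((∫ z in G', ‖VT τ a F z‖ * w z : ℝ) : ℂ)‖ := by
        rw [Complex.norm_real]
        exact le_abs_self _
    _ = ‖∫ x, Ψ (a x) (F x) ∂τ‖ := congrArg _ h4
    _ ≤ ∫ x, ‖F x‖ * ‖Ψ (a x)‖ ∂τ := by
        refine norm_integral_le_of_norm_le (hF.norm.mul_bdd (c := 10 * D0)
          (hΨc.norm.measurable.comp ha).aestronglyMeasurable
          (Eventually.of_forall fun x => by simpa using hΨb (a x)))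
          (Eventually.of_forall fun x => ?_)
        rw [mul_comm]
        exact (Ψ (a x)).le_opNorm _
    _ = ∫ ζ, ‖Ψ ζ‖ ∂ν := (hint _ hΨc.norm.stronglyMeasurable).symm
    _ ≤ √(ν.real univ * ∫ ζ, ‖Ψ ζ‖ ^ 2 ∂ν) :=
        integral_le_sqrt ν (hbd _ hΨc.norm ⟨10 * D0, fun ζ => by simpa using hΨb ζ⟩)
          (hbd _ (hΨc.norm.pow 2) ⟨(10 * D0) ^ 2, fun ζ => by
            rw [Real.norm_of_nonneg (sq_nonneg _)]
            exact pow_le_pow_left₀ (norm_nonneg _) (hΨb ζ) 2⟩)
    _ ≤ _ := by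
        rw [hmass]
        exact Real.sqrt_le_sqrt (mul_le_mul_of_nonneg_left h3
          (integral_nonneg fun _ => norm_nonneg _))

/-- The indicator of a set on which `ρ` vanishes is a good density. -/
theorem good_indicator {ρ : ℂ → ℝ} {S : Set ℂ} (hS : MeasurableSet S) (hS1 : S ⊆ ball 0 1)
    (h0 : ∀ z ∈ S, ρ z = 0) (ε : ℝ) (hε : 0 ≤ ε) :
    Good ρ (volume.real S) 100 ε (S.indicator 1) := by
  have hm : Measurable (S.indicator (1 : ℂ → ℝ)) := measurable_one.indicator hS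
  have hnn : ∀ z, 0 ≤ S.indicator (1 : ℂ → ℝ) z := fun z => indicator_nonneg (fun _ _ => by simp) z
  have hsupp : ∀ z, 1 ≤ ‖z‖ → S.indicator (1 : ℂ → ℝ) z = 0 := fun z hz =>
    indicator_of_notMem (fun h => absurd (mem_ball_zero_iff.1 (hS1 h)) (not_lt.2 hz)) _
  have hint : ∫ z, S.indicator (1 : ℂ → ℝ) z = volume.real S := integral_indicator_one hS
  have hw : VTest (S.indicator (1 : ℂ → ℝ)) 1 := ⟨hm.stronglyMeasurable, fun z => by
    rw [Real.norm_of_nonneg (hnn z)]
    exact ind_le_one S z, hsupp⟩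
  refine ⟨hm, hnn, ⟨1, ind_le_one S⟩, hsupp, hint.ge, ?_, ?_, fun τ _ M hM => ?_⟩
  · rw [hint]
    refine (measureReal_mono hS1 measure_ball_lt_top.ne).trans ?_
    rw [area_ball 0 zero_le_one]
    linarith [Real.pi_lt_d2]
  · have : (fun z => ρ z * S.indicator (1 : ℂ → ℝ) z) = fun _ => 0 := by
      funext z
      by_cases hz : z ∈ S
      · rw [h0 z hz, zero_mul]
      · rw [indicator_of_notMem hz, mul_zero]
    rw [this, integral_zero]
    positivity
  · refine ⟨univ, MeasurableSet.univ, ?_, fun ι s f hf hb => ?_⟩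
    · rw [compl_univ, Measure.restrict_empty, integral_zero_measure]
      positivity
    let φ : ℂ → EuclideanSpace ℂ s := fun z => WithLp.toLp 2 fun i => f i z
    have hφ : StronglyMeasurable φ :=
      ((PiLp.continuous_toLp 2 _).measurable.comp
        (measurable_pi_lambda _ fun i : s => hf i)).stronglyMeasurable
    have hφb : ∀ z, ‖φ z‖ ≤ 1 := fun z => by
      have h1 := hb z
      rw [indicator_of_mem (mem_univ z), ← Finset.sum_coe_sort s] at h1
      rw [EuclideanSpace.norm_eq]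
      exact Real.sqrt_le_one.2 h1
    have ht := hw.smul_real hφ hφb
    have hc : ∀ (i : s) ζ, ‖cauchy (fun x => f i x * (S.indicator (1 : ℂ → ℝ) x : ℝ)) ζ‖ =
        ‖CV (fun z => ((S.indicator (1 : ℂ → ℝ) z : ℝ) : ℂ) • φ z) ζ i‖ := fun i ζ => by
      have := apply_CV (EuclideanSpace.proj (𝕜 := ℂ) i) ht ζ
      simp only [PiLp.proj_apply] at this
      rw [this, norm_neg]
    set Ψ := CV fun z => ((S.indicator (1 : ℂ → ℝ) z : ℝ) : ℂ) • φ z with hΨ
    have hΨc : Continuous Ψ := ht.continuous_CV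
    have hΨb : ∀ ζ, ‖Ψ ζ‖ ≤ 10 * 1 := ht.norm_CV_le
    rw [← Finset.sum_coe_sort s]
    simp only [hc]
    rw [← integral_finsetSum]
    · calc ∫ ζ, ∑ i : s, ‖Ψ ζ i‖ ^ 2 ∂τ ≤ ∫ _, (100 : ℝ) ∂τ := by
            refine integral_mono_of_nonneg (Eventually.of_forall fun ζ => by positivity)
              (integrable_const _) (Eventually.of_forall fun ζ => ?_)
            simp only
            rw [← EuclideanSpace.norm_sq_eq]
            nlinarith [hΨb ζ, norm_nonneg (Ψ ζ)]
        _ ≤ _ := by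
            rw [integral_const, smul_eq_mul]
            nlinarith
    · intro i _
      refine Integrable.mono' (integrable_const ((10 * 1) ^ 2 : ℝ))
        (by fun_prop : Continuous fun ζ => ‖Ψ ζ i‖ ^ 2).aestronglyMeasurable
        (Eventually.of_forall fun ζ => ?_)
      rw [Real.norm_of_nonneg (sq_nonneg _)]
      exact pow_le_pow_left₀ (norm_nonneg _) ((PiLp.norm_apply_le _ _).trans (hΨb ζ)) 2

end Pool.Agent.P.MP_f981b0_an.TC
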